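import Pool.Agent.Lib.MP_b525bf_ag_ES.CTL

/-!
# Theorem ES, row ASM
From admissible charts to adapted charts. Recipe. `N := Nat.card J` (or `Fintype.card`), `φ : Fin N ≃ J`,
`I' j := I (φ j)`. For each `i : Fin m` let `κ_i`, `S_(i,j)` be as in `Adm`; `P_i l := φ.symm (κ_i (x i l))`,
`Q_i l := φ.symm (κ_i 1)`. `D` := the finite set of all `dv p q` and all
`ev P_i Q_i (zx α) - Pi.single j 1`, `α ∈ S_(i, φ j)`, for all `i, j`. Let `W ∈ Inv`, `P i W`, `y₀` from `idx`.
`y j := b * c * y₀` if `φ j = κ_i c` for some `c ∈ C i` (unique by `InjOn`), otherwise an element of `I' j` of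
largest valuation: it exists (`exists_max'`: `A` is Noetherian, `I' j` is generated by finitely many
elements, take the generator of largest valuation, `A ⊆ W`; it is nonzero as `I' j ≠ 0`). `par`:
`x i l = (b * x_l * y₀) / (b * 1 * y₀)`; the valuation statement: `Ctl.val` gives `z ∈ I' j` with
`W(x^α) ≤ W(z) ≤ W(y j)`. `frac`: `F := C i`, `c = y (κ c) / y (κ 1)`.
-/

set_option autoImplicit false
set_option linter.unusedVariables false

namespace Pool.Agent.MP_b525bf_ag_ES

open Pool.Agent.LU2 Pool.Agent.MP_b525bf_ag Pool.Agent.MP_b525bf_ag_W Pool.Agent.MP_b525bf_ag_E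

variable {k K : Type} [Field k] [Field K] [Algebra k K] {G : Subgroup (K ≃ₐ[k] K)}
  {A : Subalgebra k K} {M : IntermediateField k K} {L : Set K}

variable {V W : ValuationSubring K} {B : Subalgebra k K} {n : ℕ} {x : Fin n → K}

private theorem asm_fg (h : Hyp G A) {I : Submodule A K} (hI : StId G A I) : I.FG := by
  have : Algebra.FiniteType k A := A.fg_iff_finiteType.1 h.fg
  have hN : IsNoetherianRing A := Algebra.FiniteType.isNoetherianRing k A
  have h1 : (I.comap (Algebra.linearMap A K)).FG := (isNoetherianRing_iff_ideal_fg A).1 hN _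
  have h2 : (I.comap (Algebra.linearMap A K)).map (Algebra.linearMap A K) = I := by
    refine le_antisymm (Submodule.map_comap_le _ _) ?_
    intro z hz
    exact ⟨⟨z, hI.le z hz⟩, hz, rfl⟩
  rw [← h2]
  exact h1.map _

theorem exists_max' (h : Hyp G A) {I : Submodule A K} (hI : StId G A I) (hW : Inv G A W) :
    ∃ y ∈ I, y ≠ 0 ∧ ∀ z ∈ I, W.valuation z ≤ W.valuation y := by
  obtain ⟨s, hs⟩ := asm_fg h hI
  obtain ⟨z₀, hz₀, hz₀0⟩ := hI.ne
  have hsne : s.Nonempty := by
    rw [Finset.nonempty_iff_ne_empty]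
    rintro rfl
    rw [Finset.coe_empty, Submodule.span_empty] at hs
    rw [← hs, Submodule.mem_bot] at hz₀
    exact hz₀0 hz₀
  obtain ⟨y, hy, hmax⟩ := Finset.exists_max_image s (fun z => W.valuation z) hsne
  have hyI : y ∈ I := by rw [← hs]; exact Submodule.subset_span hy
  have key : ∀ z ∈ I, W.valuation z ≤ W.valuation y := by
    intro z hz
    rw [← hs] at hz
    induction hz using Submodule.span_induction with
    | mem z hz => exact hmax z hz
    | zero => rw [map_zero]; exact zero_le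
    | add a b _ _ ha hb => exact (W.valuation.map_add a b).trans (max_le ha hb)
    | smul a z _ hz =>
      rw [Algebra.smul_def, map_mul]
      have h1 : W.valuation (algebraMap A K a) ≤ 1 := (W.valuation_le_one_iff _).2 (hW.le _ a.2)
      calc W.valuation (algebraMap A K a) * W.valuation z ≤ 1 * W.valuation y := mul_le_mul' h1 hz
        _ = _ := one_mul _
  refine ⟨y, hyI, ?_, key⟩
  rintro rfl
  have h1 := key z₀ hz₀
  rw [map_zero, le_zero_iff, map_eq_zero] at h1
  exact hz₀0 h1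

/-- with the additional information that all `I j` occur -/
theorem exists_adaptI' (h : Hyp G A) {J : Type} [Finite J] {I : J → Submodule A K}
    (hst : ∀ j, StId G A (I j)) {m : ℕ} {n : Fin m → ℕ} {R : Fin m → Subalgebra k K}
    {x : ∀ i, Fin (n i) → K} {C : Fin m → Finset K} {b : Fin m → K}
    {P : Fin m → ValuationSubring K → Prop}
    (had : ∀ i, Adm A I (R i) (x i) (C i) (b i) (P i))
    (hcov : ∀ W : ValuationSubring K, Inv G A W → ∃ i, P i W) :
    ∃ (N : ℕ) (I' : Fin N → Submodule A K) (D : Set (Fin N → ℤ)), (∀ j : J, ∃ j' : Fin N, I' j' = I j) ∧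
      (∀ j, StId G A (I' j)) ∧
      D.Finite ∧ ∀ W : ValuationSubring K, Inv G A W → ∃ (n : ℕ) (x : Fin n → K)
        (R : Subalgebra k K) (y : Fin N → K), AdaptI A R x I' D W y := by
  classical
  let e : J ≃ Fin (Nat.card J) := Finite.equivFin J
  have hctl : ∀ i j, ∃ S, Ctl (R i) (x i) (P i) (I j) S := fun i j => (had i).ctl j
  choose S hS using hctl
  have hidx := fun i => (had i).idx
  choose κ hκ hκ2 using hidx
  let PP : ∀ i, Fin (n i) → Fin (Nat.card J) := fun i l => e (κ i (x i l))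
  let QQ : ∀ i, Fin (n i) → Fin (Nat.card J) := fun i _ => e (κ i 1)
  let D : Set (Fin (Nat.card J) → ℤ) := (⋃ p, ⋃ q, {dv p q}) ∪
    ⋃ i, ⋃ j : J, ((fun α => ev (PP i) (QQ i) (zx α) - Pi.single (e j) 1) '' (S i j : Set _))
  have hDfin : D.Finite := by
    refine Set.Finite.union ?_ ?_
    · exact Set.finite_iUnion fun p => Set.finite_iUnion fun q => Set.finite_singleton _
    · exact Set.finite_iUnion fun i => Set.finite_iUnion fun j => (Finset.finite_toSet _).image _
  have hD1 : ∀ p q, dv p q ∈ D := by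
    intro p q
    exact Or.inl (Set.mem_iUnion₂.2 ⟨p, q, rfl⟩)
  refine ⟨Nat.card J, fun j => I (e.symm j), D, fun j => ⟨e j, congrArg I (e.symm_apply_apply j)⟩,
    fun j => hst _, hDfin, ?_⟩
  intro W hW
  obtain ⟨i, hi⟩ := hcov W hW
  obtain ⟨y₀, hy₀, hy⟩ := hκ2 i W hi
  have hc := (had i).chs
  -- the elements of largest valuation
  have hex : ∀ j : J, ∃ y, y ∈ I j ∧ y ≠ 0 ∧ (∀ z ∈ I j, W.valuation z ≤ W.valuation y) ∧
      ∀ c ∈ C i, κ i c = j → y = b i * c * y₀ := by
    intro j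
    by_cases hj : ∃ c ∈ C i, κ i c = j
    · obtain ⟨c, hcC, rfl⟩ := hj
      refine ⟨b i * c * y₀, (hy c hcC).1, ?_, (hy c hcC).2, ?_⟩
      · exact mul_ne_zero (mul_ne_zero hc.b0 (hc.c0 c hcC)) hy₀
      · intro c' hc' hcc'
        rw [hκ i hc' hcC hcc']
    · obtain ⟨y, h1, h2, h3⟩ := exists_max' h (hst j) hW
      exact ⟨y, h1, h2, h3, fun c hcC hcj => absurd ⟨c, hcC, hcj⟩ hj⟩
  choose y hyI hy0 hymax hyc using hex
  have hyc' : ∀ c ∈ C i, y (e.symm (e (κ i c))) = b i * c * y₀ := by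
    intro c hcC
    rw [Equiv.symm_apply_apply]
    exact hyc _ c hcC rfl
  have hdiv : ∀ c ∈ C i, c = y (e.symm (e (κ i c))) / y (e.symm (e (κ i 1))) := by
    intro c hcC
    rw [hyc' c hcC, hyc' 1 hc.one]
    have h1 := hc.b0
    field_simp
  refine ⟨n i, x i, R i, fun j => y (e.symm j), ?_⟩
  refine
    { le := hc.le
      leW := (had i).sub W hi
      ne := hc.ne
      mem := fun l => hc.sub _ (hc.par l)
      sm := hc.sm
      yI := fun j => hyI _
      y0 := fun j => hy0 _
      ymax := fun j => hymax _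
      par := ?_
      frac := ?_ }
  · refine ⟨PP i, QQ i, fun l => hdiv _ (hc.par l), fun l => hD1 _ _, fun j => ?_⟩
    refine ⟨S i (e.symm j), (hS i _).ne, (hS i _).mem, fun α hα => ⟨?_, ?_⟩⟩
    · obtain ⟨z, hz, hz2⟩ := (hS i (e.symm j)).val W hi α hα
      exact hz2.trans (hymax _ z hz)
    · refine Or.inr (Set.mem_iUnion₂.2 ⟨i, e.symm j, α, hα, ?_⟩)
      show ev (PP i) (QQ i) (zx α) - Pi.single (e (e.symm j)) 1 = _
      rw [Equiv.apply_symm_apply]
  · refine ⟨C i, fun c hcC => hc.sub c hcC, fun c hcC => ⟨e (κ i c), e (κ i 1), hdiv c hcC, hD1 _ _⟩, hc.frac⟩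

theorem exists_adaptI (h : Hyp G A) {J : Type} [Finite J] {I : J → Submodule A K}
    (hst : ∀ j, StId G A (I j)) {m : ℕ} {n : Fin m → ℕ} {R : Fin m → Subalgebra k K}
    {x : ∀ i, Fin (n i) → K} {C : Fin m → Finset K} {b : Fin m → K}
    {P : Fin m → ValuationSubring K → Prop}
    (had : ∀ i, Adm A I (R i) (x i) (C i) (b i) (P i))
    (hcov : ∀ W : ValuationSubring K, Inv G A W → ∃ i, P i W) :
    ∃ (N : ℕ) (I' : Fin N → Submodule A K) (D : Set (Fin N → ℤ)), (∀ j, StId G A (I' j)) ∧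
      D.Finite ∧ ∀ W : ValuationSubring K, Inv G A W → ∃ (n : ℕ) (x : Fin n → K)
        (R : Subalgebra k K) (y : Fin N → K), AdaptI A R x I' D W y := by
  obtain ⟨N, I', D, _, h2⟩ := exists_adaptI' h hst had hcov
  exact ⟨N, I', D, h2⟩

end Pool.Agent.MP_b525bf_ag_ES
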