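import Pool.Agent.Lib.MP_b525bf_ag_ES.LOCZ

/-!
# Theorem ES, row CHSR
Recipe. `(a)`: `frac` with `d = 1`, `sm` with `B` itself. `(b)`: `frac`: `f = a / b`, `a, b ∈ B`, `V(b) = 1`, and
`b⁻¹ ∈ locV V B` by `locV_inv`. `sm`: for a finite set of quotients `a_e / b_e` let `q = ∏ b_e`, and
`B' = adjoin (B ∪ {q⁻¹})`, `loc_adjoin_inv` (row LOCZ), `B' ≤ locV V B`. `(c)`: the ring `B` is generated by a
finite set; add `1`, the `x l` (they are in `B` by `hc.sm`), remove `0`; common denominators
(`h.frac`).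
-/

set_option autoImplicit false
set_option linter.unusedVariables false

namespace Pool.Agent.MP_b525bf_ag_ES

open Pool.Agent.LU2 Pool.Agent.MP_b525bf_ag Pool.Agent.MP_b525bf_ag_W Pool.Agent.MP_b525bf_ag_E

variable {k K : Type} [Field k] [Field K] [Algebra k K] {G : Subgroup (K ≃ₐ[k] K)}
  {A : Subalgebra k K} {M : IntermediateField k K} {L : Set K}

variable {V W : ValuationSubring K} {B : Subalgebra k K} {n : ℕ} {x : Fin n → K}

variable {C : Finset K} {b : K}

/-- (a) -/
theorem Pt.chs (h : Pt G A M L V B x C b) : Chs A B x C b where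
  le := h.ch.le
  ne := h.ch.ne
  one := h.one
  par := h.par
  sub := fun c hc => by
    rw [← h.gen]
    exact Algebra.subset_adjoin hc
  c0 := h.c0
  frac := fun f hf => ⟨f, by rw [h.gen]; exact hf, 1, Subalgebra.one_mem _, one_ne_zero,
    by rw [inv_one]; exact B.one_mem, by rw [div_one]⟩
  sm := fun E hE => ⟨B, h.ch.fg, hE, le_rfl, h.ch.sm⟩
  b0 := h.b0
  bC := h.bC

private theorem chsr_common (V : ValuationSubring K) (B : Subalgebra k K) (E : Finset K)
    (hE : ∀ e ∈ E, e ∈ locV V B) :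
    ∃ q ∈ B, V.valuation q = 1 ∧ ∀ e ∈ E, q * e ∈ B := by
  classical
  induction E using Finset.induction_on with
  | empty => exact ⟨1, B.one_mem, map_one _, by simp⟩
  | insert c E _ ih =>
    obtain ⟨b, hb, hb1, h⟩ := ih fun e he => hE e (Finset.mem_insert_of_mem he)
    obtain ⟨p, hp, q, hq, hq1, hc⟩ := hE c (Finset.mem_insert_self _ _)
    have hq0 : q ≠ 0 := by
      rintro rfl
      rw [map_zero] at hq1
      exact zero_ne_one hq1
    refine ⟨b * q, B.mul_mem hb hq, by rw [map_mul, hb1, hq1, one_mul], ?_⟩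
    intro c' hc'
    rcases Finset.mem_insert.1 hc' with rfl | hc'
    · rw [hc, mul_assoc, mul_div_cancel₀ _ hq0]
      exact B.mul_mem hb hp
    · rw [mul_right_comm]
      exact B.mul_mem (h c' hc') hq

/-- (b) -/
theorem Pt.chs_loc (h : Pt G A M L V B x C b) : Chs A (locV V B) x C b where
  le := h.ch.le.trans (le_locV _)
  ne := h.ch.ne
  one := h.one
  par := h.par
  sub := fun c hc => le_locV _ (h.chs.sub c hc)
  c0 := h.c0
  frac := by
    intro f hf
    obtain ⟨a, ha, d, hd, hd1, rfl⟩ := id hf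
    have hd0 : d ≠ 0 := by
      rintro rfl
      rw [map_zero] at hd1
      exact zero_ne_one hd1
    exact ⟨a, by rw [h.gen]; exact ha, d, by rw [h.gen]; exact hd, hd0,
      locV_inv (le_locV _ hd) hd1, rfl⟩
  sm := by
    intro E hE
    obtain ⟨q, hq, hq1, hqE⟩ := chsr_common V B E hE
    have hq0 : q ≠ 0 := by
      rintro rfl
      rw [map_zero] at hq1
      exact zero_ne_one hq1
    have hl := loc_adjoin_inv h.ch.toLoc hq hq1
    refine ⟨_, hl.fg, ?_, ?_, hl.sm⟩
    · intro e he
      have h1 : e = q⁻¹ * (q * e) := by rw [inv_mul_cancel_left₀ hq0]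
      rw [h1]
      exact Subalgebra.mul_mem _ (Algebra.subset_adjoin (Or.inr rfl))
        (Algebra.subset_adjoin (Or.inl (hqE e he)))
    · refine Algebra.adjoin_le ?_
      rintro f (hf | hf)
      · exact le_locV _ hf
      · rw [Set.mem_singleton_iff.1 hf]
        exact locV_inv (le_locV _ hq) hq1
  b0 := h.b0
  bC := h.bC

private theorem chsr_denom (hfr : IsFrac A) (C : Finset K) :
    ∃ b ∈ A, b ≠ 0 ∧ ∀ c ∈ C, b * c ∈ A := by
  classical
  induction C using Finset.induction_on with
  | empty => exact ⟨1, A.one_mem, one_ne_zero, by simp⟩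
  | insert c C _ ih =>
    obtain ⟨b, hb, hb0, h⟩ := ih
    obtain ⟨p, hp, q, hq, hq0, hc⟩ := hfr c
    refine ⟨b * q, A.mul_mem hb hq, mul_ne_zero hb0 hq0, ?_⟩
    intro c' hc'
    rcases Finset.mem_insert.1 hc' with rfl | hc'
    · rw [hc, mul_assoc, mul_div_cancel₀ _ hq0]
      exact A.mul_mem hb hp
    · rw [mul_right_comm]
      exact A.mul_mem (h c' hc') hq

/-- (c) -/
theorem exists_pt_of (h : Hyp G A) (hV : Inv G A V) (hc : ChartAt G A V B x)
    (hl : LamAt M L V B x) (hs : SatAt V B x) :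
    ∃ (C : Finset K) (b : K), Pt G A M L V B x C b := by
  classical
  obtain ⟨F, hF⟩ := hc.fg
  obtain ⟨hxB, -⟩ := id hc.sm
  let C : Finset K := (insert 1 (F ∪ Finset.univ.image x)).filter fun c => c ≠ 0
  obtain ⟨b, hb, hb0, hbC⟩ := chsr_denom h.frac C
  refine ⟨C, b, ?_⟩
  refine
    { inv := hV
      ch := hc
      lam := hl
      sat := hs
      gen := ?_
      one := Finset.mem_filter.2 ⟨Finset.mem_insert_self _ _, one_ne_zero⟩
      par := fun l => Finset.mem_filter.2 ⟨Finset.mem_insert_of_mem (Finset.mem_union_right _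
        (Finset.mem_image_of_mem _ (Finset.mem_univ l))), hc.ne l⟩
      c0 := fun c hc => (Finset.mem_filter.1 hc).2
      b0 := hb0
      bC := hbC }
  apply le_antisymm
  · refine Algebra.adjoin_le ?_
    intro c hcC
    rcases Finset.mem_insert.1 (Finset.mem_filter.1 (Finset.mem_coe.1 hcC)).1 with rfl | hcC
    · exact B.one_mem
    · rcases Finset.mem_union.1 hcC with hcC | hcC
      · rw [← hF]
        exact Algebra.subset_adjoin hcC
      · obtain ⟨l, -, rfl⟩ := Finset.mem_image.1 hcC
        exact hxB l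
  · rw [← hF]
    refine Algebra.adjoin_le ?_
    intro c hcF
    by_cases h0 : c = 0
    · rw [h0]
      exact Subalgebra.zero_mem _
    · exact Algebra.subset_adjoin (Finset.mem_coe.2 (Finset.mem_filter.2
        ⟨Finset.mem_insert_of_mem (Finset.mem_union_left _ hcF), h0⟩))

end Pool.Agent.MP_b525bf_ag_ES
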