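import Pool.Agent.Lib.MP_b525bf_ag_ES.CMPL

/-!
# Theorem ES, row CTL
Controlled ideals. `R` a ring, `P` a property of valuation rings.
`ctl_mul`: products of sums; `ctl_sup`: `InMon.mono`, `Submodule.mem_sup`. `ctl_one`: `1 : Submodule A K` is
`A` (`Submodule.one_eq_range` or similar), `S = {0}`. `ctl_pow`, `ctl_prod`: induction. `ctl_finset_sup`:
induction (the empty case excluded by `hs`). `ctl_of_le`: immediate. `ctl_orb_mul`: from `ctl_mul`, `ctl_of_le`,
`val_orb` (row CMPL) and `orb (f * f') ≤ orb f * orb f'`. `ctl_orb_pow` from it. `ctl_orb_unit`: for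
`z ∈ orb (ε q)`: `z = ∑ a_i g_i(ε) g_i(q)`, `g_i(ε) ∈ R' := locV V B`, `g_i(q) ∈ (x^S)B`, so `z ∈ (x^S)R'`,
`z ∈ A ⊆ B`, and `SatAt`. `ctl_orb_rep`: `g f = ∑ g(c_α) (g x / x)^α x^α`, in `(x^S)R'`, and `SatAt`.
`ctl_mono`: `I` is finitely generated (`A` Noetherian), choose a Rep for every nonzero generator
(`Loc.exists_rep`), `S` := the union of the supports; `MonoW` gives `W(x^α) ≤ W(generator)`.
-/

set_option autoImplicit false
set_option linter.unusedVariables false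

namespace Pool.Agent.MP_b525bf_ag_ES

open Pool.Agent.LU2 Pool.Agent.MP_b525bf_ag Pool.Agent.MP_b525bf_ag_W Pool.Agent.MP_b525bf_ag_E

variable {k K : Type} [Field k] [Field K] [Algebra k K] {G : Subgroup (K ≃ₐ[k] K)}
  {A : Subalgebra k K} {M : IntermediateField k K} {L : Set K}

variable {V W : ValuationSubring K} {B : Subalgebra k K} {n : ℕ} {x : Fin n → K}

variable {R : Subalgebra k K} {P : ValuationSubring K → Prop} {I I' : Submodule A K}
  {S S' : Finset (Fin n → ℕ)} {f f' : K}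

private theorem ctlh_mon_add (hx : ∀ i, x i ≠ 0) (α β : Fin n → ℕ) :
    mon x (zx (α + β)) = mon x (zx α) * mon x (zx β) := by
  rw [mon, mon, mon, ← Finset.prod_mul_distrib]
  refine Finset.prod_congr rfl fun i _ => ?_
  rw [← zpow_add₀ (hx i)]
  simp [zx]

private theorem ctlh_mon_zero : mon x (zx (0 : Fin n → ℕ)) = 1 := by simp [mon, zx]

private theorem ctlh_zero : InMon R x S 0 :=
  ⟨fun _ => 0, fun _ _ => R.zero_mem, by simp⟩

private theorem ctlh_add (h : InMon R x S f) (h' : InMon R x S f') : InMon R x S (f + f') := by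
  obtain ⟨c, hc, rfl⟩ := h
  obtain ⟨c', hc', rfl⟩ := h'
  refine ⟨fun α => c α + c' α, fun α hα => R.add_mem (hc α hα) (hc' α hα), ?_⟩
  rw [← Finset.sum_add_distrib]
  exact Finset.sum_congr rfl fun α _ => by ring

private theorem ctlh_smul (h : InMon R x S f) (hf : f' ∈ R) : InMon R x S (f' * f) := by
  obtain ⟨c, hc, rfl⟩ := h
  refine ⟨fun α => f' * c α, fun α hα => R.mul_mem hf (hc α hα), ?_⟩
  rw [Finset.mul_sum]
  exact Finset.sum_congr rfl fun α _ => by ring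

private theorem ctlh_sum {ι : Type} (s : Finset ι) (F : ι → K) (h : ∀ i ∈ s, InMon R x S (F i)) :
    InMon R x S (∑ i ∈ s, F i) := by
  classical
  revert h
  refine Finset.induction_on s ?_ ?_
  · intro _
    rw [Finset.sum_empty]
    exact ctlh_zero
  · intro i s hi ih h
    rw [Finset.sum_insert hi]
    exact ctlh_add (h i (Finset.mem_insert_self i s)) (ih fun j hj => h j (Finset.mem_insert_of_mem hj))

private theorem ctlh_single {a : K} {α : Fin n → ℕ} (ha : a ∈ R) (hα : α ∈ S) :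
    InMon R x S (a * mon x (zx α)) := by
  classical
  refine ⟨fun β => if β = α then a else 0, fun β _ => ?_, ?_⟩
  · dsimp only
    split_ifs
    · exact ha
    · exact R.zero_mem
  · rw [Finset.sum_eq_single α]
    · simp
    · intro β _ hβ
      simp [hβ]
    · intro h
      exact absurd hα h

private theorem ctlh_R {R' : Subalgebra k K} (hR : R ≤ R') (h : InMon R x S f) : InMon R' x S f := by
  obtain ⟨c, hc, hf⟩ := h
  exact ⟨c, fun α hα => hR (hc α hα), hf⟩

private theorem ctlh_span {s : Set K} (hA : A ≤ R) (h : ∀ z ∈ s, InMon R x S z) :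
    ∀ z ∈ Submodule.span A s, InMon R x S z := by
  intro z hz
  refine Submodule.span_induction ?_ ?_ ?_ ?_ hz
  · exact h
  · exact ctlh_zero
  · intro a b _ _ ha hb
    exact ctlh_add ha hb
  · intro a b _ hb
    rw [Algebra.smul_def]
    exact ctlh_smul hb (hA a.2)

private theorem ctlh_orb_A (h : Hyp G A) (hf : f ∈ A) : ∀ z ∈ orb G A f, z ∈ A := by
  intro z hz
  refine Submodule.span_induction ?_ ?_ ?_ ?_ hz
  · rintro z ⟨g, hg, rfl⟩
    exact h.stab g hg f hf
  · exact A.zero_mem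
  · intro a b _ _ ha hb
    exact A.add_mem ha hb
  · intro a b _ hb
    rw [Algebra.smul_def]
    exact A.mul_mem a.2 hb

theorem inMon_mul (hx : ∀ i, x i ≠ 0) (h : InMon R x S f) (h' : InMon R x S' f') :
    InMon R x (Finset.image₂ (fun α β => α + β) S S') (f * f') := by
  classical
  obtain ⟨c, hc, rfl⟩ := h
  obtain ⟨c', hc', rfl⟩ := h'
  rw [Finset.sum_mul]
  refine ctlh_sum S _ fun α hα => ?_
  rw [Finset.mul_sum]
  refine ctlh_sum S' _ fun β hβ => ?_
  have : c α * mon x (zx α) * (c' β * mon x (zx β)) = (c α * c' β) * mon x (zx (α + β)) := by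
    rw [ctlh_mon_add hx]
    ring
  rw [this]
  exact ctlh_single (R.mul_mem (hc α hα) (hc' β hβ)) (Finset.mem_image₂_of_mem hα hβ)

theorem inMon_mono (h : InMon R x S f) (hS : S ⊆ S') : InMon R x S' f := by
  obtain ⟨c, hc, rfl⟩ := h
  exact ctlh_sum S _ fun α hα => ctlh_single (hc α hα) (hS hα)

theorem inMon_add (h : InMon R x S f) (h' : InMon R x S f') : InMon R x S (f + f') := by
  exact ctlh_add h h'

theorem inMon_smul (h : InMon R x S f) (hf : f' ∈ R) : InMon R x S (f' * f) := by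
  exact ctlh_smul h hf

theorem ctl_mul (hx : ∀ i, x i ≠ 0) (h : Ctl R x P I S) (h' : Ctl R x P I' S') :
    Ctl R x P (I * I') (Finset.image₂ (fun α β => α + β) S S') := by
  refine ⟨h.ne.image₂ h'.ne, ?_, ?_⟩
  · intro z hz
    refine Submodule.mul_induction_on hz ?_ ?_
    · intro a ha b hb
      exact inMon_mul hx (h.mem a ha) (h'.mem b hb)
    · intro a b ha hb
      exact ctlh_add ha hb
  · intro W hW α hα
    obtain ⟨β, hβ, β', hβ', rfl⟩ := Finset.mem_image₂.1 hα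
    obtain ⟨z, hz, hzv⟩ := h.val W hW β hβ
    obtain ⟨z', hz', hzv'⟩ := h'.val W hW β' hβ'
    refine ⟨z * z', Submodule.mul_mem_mul hz hz', ?_⟩
    rw [ctlh_mon_add hx, map_mul, map_mul]
    exact mul_le_mul' hzv hzv'

theorem ctl_sup (h : Ctl R x P I S) (h' : Ctl R x P I' S') : Ctl R x P (I ⊔ I') (S ∪ S') := by
  refine ⟨h.ne.mono Finset.subset_union_left, ?_, ?_⟩
  · intro z hz
    obtain ⟨y, hy, y', hy', rfl⟩ := Submodule.mem_sup.1 hz
    exact ctlh_add (inMon_mono (h.mem y hy) Finset.subset_union_left)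
      (inMon_mono (h'.mem y' hy') Finset.subset_union_right)
  · intro W hW α hα
    rcases Finset.mem_union.1 hα with hα | hα
    · obtain ⟨z, hz, hzv⟩ := h.val W hW α hα
      exact ⟨z, (le_sup_left : I ≤ I ⊔ I') hz, hzv⟩
    · obtain ⟨z, hz, hzv⟩ := h'.val W hW α hα
      exact ⟨z, (le_sup_right : I' ≤ I ⊔ I') hz, hzv⟩

theorem ctl_one (hA : A ≤ R) : Ctl R x P (1 : Submodule A K) {0} := by
  refine ⟨Finset.singleton_nonempty _, ?_, ?_⟩
  · intro z hz
    obtain ⟨a, rfl⟩ := Submodule.mem_one.1 hz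
    have h1 : InMon R x {0} ((algebraMap A K a) * mon x (zx (0 : Fin n → ℕ))) :=
      ctlh_single (hA a.2) (Finset.mem_singleton_self _)
    rwa [ctlh_mon_zero, mul_one] at h1
  · intro W hW α hα
    rw [Finset.mem_singleton] at hα
    subst hα
    refine ⟨1, Submodule.mem_one.2 ⟨1, map_one _⟩, ?_⟩
    rw [ctlh_mon_zero]

theorem ctl_pow (hA : A ≤ R) (hx : ∀ i, x i ≠ 0) (h : ∃ S, Ctl R x P I S) (q : ℕ) :
    ∃ S, Ctl R x P (I ^ q) S := by
  induction q with
  | zero =>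
    rw [pow_zero]
    exact ⟨_, ctl_one hA⟩
  | succ q ih =>
    rw [pow_succ]
    obtain ⟨S, hS⟩ := ih
    obtain ⟨S', hS'⟩ := h
    exact ⟨_, ctl_mul hx hS hS'⟩

theorem ctl_prod (hA : A ≤ R) (hx : ∀ i, x i ≠ 0) {ι : Type} (s : Finset ι)
    (F : ι → Submodule A K) (h : ∀ i ∈ s, ∃ S, Ctl R x P (F i) S) :
    ∃ S, Ctl R x P (∏ i ∈ s, F i) S := by
  classical
  revert h
  refine Finset.induction_on s ?_ ?_
  · intro _
    rw [Finset.prod_empty]
    exact ⟨_, ctl_one hA⟩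
  · intro i s hi ih h
    rw [Finset.prod_insert hi]
    obtain ⟨S, hS⟩ := h i (Finset.mem_insert_self i s)
    obtain ⟨S', hS'⟩ := ih fun j hj => h j (Finset.mem_insert_of_mem hj)
    exact ⟨_, ctl_mul hx hS hS'⟩

theorem ctl_finset_sup {ι : Type} (s : Finset ι) (hs : s.Nonempty) (F : ι → Submodule A K)
    (h : ∀ i ∈ s, ∃ S, Ctl R x P (F i) S) : ∃ S, Ctl R x P (s.sup F) S := by
  revert h
  refine Finset.Nonempty.cons_induction ?_ ?_ hs
  · intro i h
    rw [Finset.sup_singleton]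
    exact h i (Finset.mem_singleton_self i)
  · intro i s hi hs ih h
    rw [Finset.sup_cons]
    obtain ⟨S, hS⟩ := h i (Finset.mem_cons_self i s)
    obtain ⟨S', hS'⟩ := ih fun j hj => h j (Finset.mem_cons_of_mem hj)
    exact ⟨_, ctl_sup hS hS'⟩

theorem ctl_of_le (h : Ctl R x P I S) (hle : I' ≤ I)
    (hv : ∀ W, P W → ∀ z ∈ I, ∃ z' ∈ I', W.valuation z ≤ W.valuation z') :
    Ctl R x P I' S := by
  refine ⟨h.ne, fun z hz => h.mem z (hle hz), ?_⟩
  intro W hW α hα
  obtain ⟨z, hz, hzv⟩ := h.val W hW α hα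
  obtain ⟨z', hz', hv'⟩ := hv W hW z hz
  exact ⟨z', hz', hzv.trans hv'⟩

theorem orb_mul_le (f f' : K) : orb G A (f * f') ≤ orb G A f * orb G A f' := by
  refine Submodule.span_le.2 ?_
  rintro z ⟨g, hg, rfl⟩
  rw [map_mul]
  exact Submodule.mul_mem_mul (Submodule.subset_span ⟨g, hg, rfl⟩) (Submodule.subset_span ⟨g, hg, rfl⟩)

theorem mem_orb (f : K) : f ∈ orb G A f := by
  exact Submodule.subset_span ⟨1, G.one_mem, rfl⟩

theorem ctl_orb_mul (hP : ∀ W, P W → Inv G A W) (hx : ∀ i, x i ≠ 0)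
    (h : ∃ S, Ctl R x P (orb G A f) S) (h' : ∃ S, Ctl R x P (orb G A f') S) :
    ∃ S, Ctl R x P (orb G A (f * f')) S := by
  obtain ⟨S, hS⟩ := h
  obtain ⟨S', hS'⟩ := h'
  refine ⟨_, ctl_of_le (ctl_mul hx hS hS') (orb_mul_le f f') ?_⟩
  intro W hW z hz
  refine ⟨f * f', mem_orb _, ?_⟩
  refine Submodule.mul_induction_on hz ?_ ?_
  · intro a ha b hb
    rw [map_mul, map_mul]
    exact mul_le_mul' (val_orb (hP W hW) ha) (val_orb (hP W hW) hb)
  · intro a b ha hb
    exact (W.valuation.map_add a b).trans (max_le ha hb)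

theorem ctl_orb_pow (hP : ∀ W, P W → Inv G A W) (hA : A ≤ R) (hx : ∀ i, x i ≠ 0)
    (h : ∃ S, Ctl R x P (orb G A f) S) (q : ℕ) : ∃ S, Ctl R x P (orb G A (f ^ q)) S := by
  induction q with
  | zero =>
    rw [pow_zero]
    refine ⟨_, ctl_of_le (ctl_one hA) ?_ ?_⟩
    · refine Submodule.span_le.2 ?_
      rintro z ⟨g, hg, rfl⟩
      rw [map_one]
      exact Submodule.mem_one.2 ⟨1, map_one _⟩
    · intro W hW z hz
      refine ⟨1, mem_orb _, ?_⟩
      obtain ⟨a, rfl⟩ := Submodule.mem_one.1 hz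
      rw [map_one]
      exact (W.valuation_le_one_iff _).2 ((hP W hW).le _ a.2)
  | succ q ih =>
    rw [pow_succ]
    exact ctl_orb_mul hP hx ih h

theorem ctl_orb_unit (h : Hyp G A) (hc : ChartAt G A V B x) (hs : SatAt V B x)
    (hP : ∀ W, P W → Inv G A W) {ε q : K} (hq : ∃ S, Ctl B x P (orb G A q) S)
    (hε : ε ∈ locV V B) (hεq : ε * q ∈ A) (hv : ∀ W, P W → W.valuation ε = 1) :
    ∃ S, Ctl B x P (orb G A (ε * q)) S := by
  obtain ⟨S, hS⟩ := hq
  have hAB : A ≤ locV V B := hc.le.trans (le_locV B)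
  refine ⟨S, hS.ne, ?_, ?_⟩
  · intro z hz
    refine hs S z (hc.le (ctlh_orb_A h hεq z hz)) ?_
    refine ctlh_span hAB ?_ z hz
    rintro z ⟨g, hg, rfl⟩
    rw [map_mul]
    exact ctlh_smul (ctlh_R (le_locV B) (hS.mem (g q) (Submodule.subset_span ⟨g, hg, rfl⟩)))
      (hc.stab g hg ε hε)
  · intro W hW α hα
    obtain ⟨z, hz, hzv⟩ := hS.val W hW α hα
    refine ⟨ε * q, mem_orb _, ?_⟩
    rw [map_mul, hv W hW, one_mul]
    exact hzv.trans (val_orb (hP W hW) hz)

theorem inMon_orb (h : Hyp G A) (hc : ChartAt G A V B x) (hs : SatAt V B x) (hf : f ∈ A)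
    {c : (Fin n → ℕ) → K} (hr : Rep (locV V B) x f S c) : ∀ z ∈ orb G A f, InMon B x S z := by
  intro z hz
  have hAB : A ≤ locV V B := hc.le.trans (le_locV B)
  refine hs S z (hc.le (ctlh_orb_A h hf z hz)) ?_
  refine ctlh_span hAB ?_ z hz
  rintro z ⟨g, hg, rfl⟩
  rw [hr.sum, map_sum]
  refine ctlh_sum S _ fun α hα => ?_
  have h1 : g (c α * mon x (zx α)) = (g (c α) * ∏ i, (g (x i) / x i) ^ α i) * mon x (zx α) := by
    rw [map_mul, mul_assoc]
    congr 1
    simp only [mon]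
    rw [map_prod, ← Finset.prod_mul_distrib]
    refine Finset.prod_congr rfl fun i _ => ?_
    rw [map_zpow₀, zx, zpow_natCast, zpow_natCast, div_pow, div_mul_cancel₀]
    exact pow_ne_zero _ (hc.ne i)
  rw [h1]
  refine ctlh_single (Subalgebra.mul_mem _ (hc.stab g hg _ (hr.mem α hα)) ?_) hα
  exact Subalgebra.prod_mem _ fun i _ => Subalgebra.pow_mem _ (hc.par g hg i) _

theorem ctl_orb_rep (h : Hyp G A) (hc : ChartAt G A V B x) (hs : SatAt V B x) (hf : f ∈ A)
    {c : (Fin n → ℕ) → K} (hr : Rep (locV V B) x f S c)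
    (hv : ∀ W, P W → ∀ α ∈ S, W.valuation (mon x (zx α)) ≤ W.valuation f) :
    Ctl B x P (orb G A f) S := by
  refine ⟨hr.ne, inMon_orb h hc hs hf hr, ?_⟩
  intro W hW α hα
  exact ⟨f, mem_orb f, hv W hW α hα⟩

theorem ctl_mono (h : Hyp G A) (hc : ChartAt G A V B x)
    (hm : ∀ W, P W → MonoW (locV V B) x W) (hI : StId G A I) :
    ∃ S, Ctl (locV V B) x P I S := by
  classical
  have hAB : A ≤ locV V B := hc.le.trans (le_locV B)
  have hnoe : IsNoetherianRing A := by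
    have : Algebra.FiniteType k A := A.fg_iff_finiteType.1 h.fg
    exact Algebra.FiniteType.isNoetherianRing k A
  have hle : I ≤ LinearMap.range (Algebra.linearMap A K) := fun z hz => ⟨⟨z, hI.le z hz⟩, rfl⟩
  have hfg : I.FG := by
    have h1 : (I.comap (Algebra.linearMap A K)).FG := IsNoetherian.noetherian _
    have h2 := h1.map (Algebra.linearMap A K)
    rwa [Submodule.map_comap_eq_of_le hle] at h2
  obtain ⟨s, hs⟩ := hfg
  have hsI : ∀ y ∈ s, y ∈ I := fun y hy => hs ▸ Submodule.subset_span hy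
  have hrep : ∀ y : K, ∃ (T : Finset (Fin n → ℕ)), y ∈ s → y ≠ 0 → ∃ c : (Fin n → ℕ) → K,
      Rep (locV V B) x y T c := by
    intro y
    by_cases hy : y ∈ s ∧ y ≠ 0
    · obtain ⟨T, c, hT⟩ := hc.toLoc.exists_rep (hAB (hI.le y (hsI y hy.1))) hy.2
      exact ⟨T, fun _ _ => ⟨c, hT⟩⟩
    · exact ⟨∅, fun h1 h2 => absurd ⟨h1, h2⟩ hy⟩
  choose T hT using hrep
  refine ⟨(s.filter fun y => y ≠ 0).biUnion T, ?_, ?_, ?_⟩
  · obtain ⟨z, hz, hz0⟩ := hI.ne
    have : ∃ y ∈ s, y ≠ 0 := by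
      by_contra hcon
      push Not at hcon
      apply hz0
      rw [← hs] at hz
      have h3 : Submodule.span A (s : Set K) ≤ ⊥ := Submodule.span_le.2 fun y hy => by
        rw [hcon y hy]
        exact Submodule.zero_mem _
      exact (Submodule.mem_bot _).1 (h3 hz)
    obtain ⟨y, hy, hy0⟩ := this
    obtain ⟨c, hc'⟩ := hT y hy hy0
    obtain ⟨α, hα⟩ := hc'.ne
    exact ⟨α, Finset.mem_biUnion.2 ⟨y, Finset.mem_filter.2 ⟨hy, hy0⟩, hα⟩⟩
  · intro z hz
    rw [← hs] at hz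
    refine ctlh_span hAB ?_ z hz
    intro y hy
    by_cases hy0 : y = 0
    · rw [hy0]
      exact ctlh_zero
    · obtain ⟨c, hc'⟩ := hT y hy hy0
      refine inMon_mono (S := T y) ⟨c, hc'.mem, hc'.sum⟩ ?_
      exact Finset.subset_biUnion_of_mem T (Finset.mem_filter.2 ⟨hy, hy0⟩)
  · intro W hW α hα
    obtain ⟨y, hy, hα⟩ := Finset.mem_biUnion.1 hα
    obtain ⟨hy, hy0⟩ := Finset.mem_filter.1 hy
    obtain ⟨c, hc'⟩ := hT y hy hy0
    exact ⟨y, hsI y hy, (hm W hW y (T y) c hc').2 α hα⟩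

end Pool.Agent.MP_b525bf_ag_ES
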