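import Pool.Agent.Lib.MP_b525bf_ag_ES.PCV

/-!
# Theorem ES, row EPS
The finite set of functions that defines the generic set. Recipe. For `V ∈ Inv` with `M ⊆ V`: `E V := C i`,
where `C i ⊆ V`, `E' V := ∅`. If not `M ⊆ V` then there is an `ε` in `adjoin k E₀` or of the form `e⁻¹`,
`e ∈ E₀`, with `ε ≠ 0`, `V(ε) < 1`: if some `e ∈ E₀` is not in `V` take `e⁻¹`; otherwise
`adjoin k E₀ ⊆ V`, and `m = a / b ∉ V` gives `V(b) < 1`. `E V := ∅`, `E' V := {ε}`. `exists_cover_rel` (row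
PCV) with `T = T' = ∅`: finitely many `V i`. `EE` := the `ε` of these `V i`, all `e, e⁻¹`, `e ∈ E₀`, and for
`m ∈ N`, `m = a / b`, `a` and `b`. If `W(ε) = 1` for all `ε ∈ EE` then `W` is in a neighbourhood of the first
kind. If `W(ε) > 1` for some `ε ∈ EE` then `W(ε') < 1` for some `ε' ∈ EE`: if `ε ∈ adjoin k E₀` then
`W(e) > 1` for some `e ∈ E₀`, `e⁻¹ ∈ EE`. If `ε = e⁻¹` then `e ∈ EE`.
-/

set_option autoImplicit false
set_option linter.unusedVariables false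

namespace Pool.Agent.MP_b525bf_ag_ES

open Pool.Agent.LU2 Pool.Agent.MP_b525bf_ag Pool.Agent.MP_b525bf_ag_W Pool.Agent.MP_b525bf_ag_E

variable {k K : Type} [Field k] [Field K] [Algebra k K] {G : Subgroup (K ≃ₐ[k] K)}
  {A : Subalgebra k K} {M : IntermediateField k K} {L : Set K}

variable {V W : ValuationSubring K} {B : Subalgebra k K} {n : ℕ} {x : Fin n → K}

private theorem eps_gt (W : ValuationSubring K) {z : K} (hz : z ∉ W) : 1 < W.valuation z := by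
  rw [← not_le]
  exact fun h => hz ((W.valuation_le_one_iff z).1 h)

private theorem eps_inv_lt (W : ValuationSubring K) {z : K} (hz : 1 < W.valuation z) :
    W.valuation z⁻¹ < 1 := by
  rw [map_inv₀]
  exact inv_lt_one_of_one_lt₀ hz

private theorem eps_adjoin {W : ValuationSubring K} (hW : Inv G A W) {E₀ : Finset K}
    (h : ∀ e ∈ E₀, e ∈ W) : ∀ z ∈ Algebra.adjoin k (E₀ : Set K), z ∈ W := by
  intro z hz
  induction hz using Algebra.adjoin_induction with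
  | mem z hz => exact h z hz
  | algebraMap r => exact hW.le _ (A.algebraMap_mem r)
  | add a b _ _ ha hb => exact W.add_mem _ _ ha hb
  | mul a b _ _ ha hb => exact W.mul_mem _ _ ha hb

private theorem eps_one {E₀ : Finset K} (hE₀ : ∀ e ∈ E₀, e ∈ M ∧ e ≠ 0)
    (hfr : ∀ m ∈ M, ∃ a ∈ Algebra.adjoin k (E₀ : Set K), ∃ b ∈ Algebra.adjoin k (E₀ : Set K),
      b ≠ 0 ∧ m = a / b) {W : ValuationSubring K} (hW : Inv G A W) (hM : ¬ ∀ m ∈ M, m ∈ W) :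
    ∃ ε : K, (ε ≠ 0 ∧ (ε ∈ Algebra.adjoin k (E₀ : Set K) ∨ ∃ e ∈ E₀, ε = e⁻¹)) ∧
      W.valuation ε < 1 := by
  by_cases h1 : ∀ e ∈ E₀, e ∈ W
  · have h2 := eps_adjoin hW h1
    push Not at hM
    obtain ⟨m, hm, hmW⟩ := hM
    obtain ⟨a, ha, b, hb, hb0, rfl⟩ := hfr m hm
    refine ⟨b, ⟨hb0, Or.inl hb⟩, ?_⟩
    by_contra h3
    push Not at h3
    have h4 := eps_gt W hmW
    have h5 := (W.valuation_le_one_iff a).2 (h2 a ha)
    rw [map_div₀] at h4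
    have h6 : W.valuation a / W.valuation b ≤ 1 := by
      have hb' : 0 < W.valuation b := zero_lt_iff.2 ((Valuation.ne_zero_iff _).2 hb0)
      exact (div_le_one₀ hb').2 (h5.trans h3)
    exact absurd h4 (not_lt.2 h6)
  · push Not at h1
    obtain ⟨e, he, heW⟩ := h1
    exact ⟨e⁻¹, ⟨inv_ne_zero (hE₀ e he).2, Or.inr ⟨e, he, rfl⟩⟩, eps_inv_lt W (eps_gt W heW)⟩

theorem exists_eps {E₀ : Finset K} (hE₀ : ∀ e ∈ E₀, e ∈ M ∧ e ≠ 0)
    (hfr : ∀ m ∈ M, ∃ a ∈ Algebra.adjoin k (E₀ : Set K), ∃ b ∈ Algebra.adjoin k (E₀ : Set K),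
      b ≠ 0 ∧ m = a / b) {m₀ : ℕ} {C : Fin m₀ → Finset K}
    (hcov : ∀ W : ValuationSubring K, Inv G A W → (∀ m ∈ M, m ∈ W) → ∃ i, ∀ c ∈ C i, c ∈ W)
    (N : Finset K) (hN : ∀ m ∈ N, m ∈ M ∧ m ≠ 0) :
    ∃ EE : Finset K, (∀ ε ∈ EE, ε ≠ 0 ∧ (ε ∈ Algebra.adjoin k (E₀ : Set K) ∨ ∃ e ∈ E₀, ε = e⁻¹)) ∧
      (∀ W : ValuationSubring K, Inv G A W → (∀ ε ∈ EE, W.valuation ε = 1) →
        (∃ i, ∀ c ∈ C i, c ∈ W) ∧ ∀ m ∈ N, W.valuation m = 1) ∧
      ∀ W : ValuationSubring K, Inv G A W → (∀ ε ∈ EE, W.valuation ε = 1) ∨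
        ∃ ε ∈ EE, W.valuation ε < 1 := by
  classical
  have hex : ∀ W : ValuationSubring K, ∃ c e' : Finset K, Inv G A W →
      (((∃ i, c = C i) ∧ e' = ∅ ∧ ∀ z ∈ c, z ∈ W) ∨
        ∃ ε : K, (ε ≠ 0 ∧ (ε ∈ Algebra.adjoin k (E₀ : Set K) ∨ ∃ e ∈ E₀, ε = e⁻¹)) ∧
          c = ∅ ∧ e' = {ε} ∧ W.valuation ε < 1) := by
    intro W
    by_cases hW : Inv G A W
    · by_cases hM : ∀ m ∈ M, m ∈ W
      · obtain ⟨i, hi⟩ := hcov W hW hM
        exact ⟨C i, ∅, fun _ => Or.inl ⟨⟨i, rfl⟩, rfl, hi⟩⟩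
      · obtain ⟨ε, h1, h2⟩ := eps_one hE₀ hfr hW hM
        exact ⟨∅, {ε}, fun _ => Or.inr ⟨ε, h1, rfl, rfl, h2⟩⟩
    · exact ⟨∅, ∅, fun h => absurd h hW⟩
  choose cc ee hce using hex
  obtain ⟨r, V₀, hV₀, hcv⟩ := exists_cover_rel (G := G) (A := A) (∅ : Set K) (∅ : Set K) cc ee (by
    intro W hW _ _
    rcases hce W hW with ⟨-, h2, h3⟩ | ⟨ε, -, h2, h3, h4⟩
    · refine ⟨h3, fun e he => ?_⟩
      rw [h2] at he
      exact absurd he (Finset.notMem_empty e)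
    · refine ⟨fun e he => ?_, fun e he => ?_⟩
      · rw [h2] at he
        exact absurd he (Finset.notMem_empty e)
      · rw [h3, Finset.mem_singleton] at he
        rw [he]
        exact h4)
  have hab : ∀ m : K, ∃ a b : K, m ∈ N → a ∈ Algebra.adjoin k (E₀ : Set K) ∧
      b ∈ Algebra.adjoin k (E₀ : Set K) ∧ a ≠ 0 ∧ b ≠ 0 ∧ m = a / b := by
    intro m
    by_cases hm : m ∈ N
    · obtain ⟨a, ha, b, hb, hb0, hm1⟩ := hfr m (hN m hm).1
      refine ⟨a, b, fun _ => ⟨ha, hb, ?_, hb0, hm1⟩⟩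
      rintro rfl
      rw [zero_div] at hm1
      exact (hN m hm).2 hm1
    · exact ⟨0, 0, fun h => absurd h hm⟩
  choose aa bb hab using hab
  set EE : Finset K := (Finset.univ.biUnion fun i => ee (V₀ i)) ∪
    (E₀ ∪ (E₀.image fun e => e⁻¹) ∪ (N.image aa ∪ N.image bb)) with hEE
  have hE1 : ∀ i, ∀ e ∈ ee (V₀ i), e ∈ EE := fun i e he =>
    Finset.mem_union_left _ (Finset.mem_biUnion.2 ⟨i, Finset.mem_univ i, he⟩)
  have hE2 : ∀ e ∈ E₀, e ∈ EE := fun e he =>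
    Finset.mem_union_right _ (Finset.mem_union_left _ (Finset.mem_union_left _ he))
  have hE3 : ∀ e ∈ E₀, e⁻¹ ∈ EE := fun e he => Finset.mem_union_right _
    (Finset.mem_union_left _ (Finset.mem_union_right _ (Finset.mem_image_of_mem _ he)))
  have hE4 : ∀ m ∈ N, aa m ∈ EE := fun m hm => Finset.mem_union_right _
    (Finset.mem_union_right _ (Finset.mem_union_left _ (Finset.mem_image_of_mem _ hm)))
  have hE5 : ∀ m ∈ N, bb m ∈ EE := fun m hm => Finset.mem_union_right _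
    (Finset.mem_union_right _ (Finset.mem_union_right _ (Finset.mem_image_of_mem _ hm)))
  have hgood : ∀ ε ∈ EE, ε ≠ 0 ∧ (ε ∈ Algebra.adjoin k (E₀ : Set K) ∨ ∃ e ∈ E₀, ε = e⁻¹) := by
    intro ε hε
    rw [hEE] at hε
    simp only [Finset.mem_union, Finset.mem_biUnion, Finset.mem_image, Finset.mem_univ,
      true_and] at hε
    rcases hε with ⟨i, hi⟩ | (hε | ⟨e, he, rfl⟩) | ⟨m, hm, rfl⟩ | ⟨m, hm, rfl⟩
    · rcases hce (V₀ i) (hV₀ i).1 with ⟨-, h2, -⟩ | ⟨ε', h1, -, h3, -⟩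
      · rw [h2] at hi
        exact absurd hi (Finset.notMem_empty _)
      · rw [h3, Finset.mem_singleton] at hi
        rw [hi]
        exact h1
    · exact ⟨(hE₀ ε hε).2, Or.inl (Algebra.subset_adjoin hε)⟩
    · exact ⟨inv_ne_zero (hE₀ e he).2, Or.inr ⟨e, he, rfl⟩⟩
    · exact ⟨(hab m hm).2.2.1, Or.inl (hab m hm).1⟩
    · exact ⟨(hab m hm).2.2.2.1, Or.inl (hab m hm).2.1⟩
  refine ⟨EE, hgood, fun W hW h1 => ⟨?_, ?_⟩, fun W hW => ?_⟩
  · obtain ⟨i, hi1, hi2⟩ := hcv W hW (fun t ht => absurd ht (Set.notMem_empty t))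
      (fun t ht => absurd ht (Set.notMem_empty t))
    rcases hce (V₀ i) (hV₀ i).1 with ⟨⟨j, hj⟩, -, -⟩ | ⟨ε', h2, -, h3, -⟩
    · rw [hj] at hi1
      exact ⟨j, hi1⟩
    · have h4 : ε' ∈ ee (V₀ i) := by rw [h3]; exact Finset.mem_singleton_self _
      have h5 := hi2 ε' h4
      rw [h1 ε' (hE1 i ε' h4)] at h5
      exact absurd h5 (lt_irrefl _)
  · intro m hm
    rw [(hab m hm).2.2.2.2, map_div₀, h1 _ (hE4 m hm), h1 _ (hE5 m hm), div_one]
  · by_cases h1 : ∀ ε ∈ EE, W.valuation ε = 1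
    · exact Or.inl h1
    · right
      push Not at h1
      obtain ⟨ε, hε, hε1⟩ := h1
      rcases lt_or_gt_of_ne hε1 with h2 | h2
      · exact ⟨ε, hε, h2⟩
      · rcases (hgood ε hε).2 with h3 | ⟨e, he, rfl⟩
        · have h4 : ¬ ∀ e ∈ E₀, e ∈ W := fun h5 =>
            absurd ((W.valuation_le_one_iff ε).2 (eps_adjoin hW h5 ε h3)) (not_le.2 h2)
          push Not at h4
          obtain ⟨e, he, heW⟩ := h4
          exact ⟨e⁻¹, hE3 e he, eps_inv_lt W (eps_gt W heW)⟩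
        · refine ⟨e, hE2 e he, ?_⟩
          have h3 := eps_inv_lt W h2
          rwa [inv_inv] at h3

end Pool.Agent.MP_b525bf_ag_ES
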