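import Pool.Agent.Lib.MP_b525bf_ag_ES.DefsB

/-!
# Theorem ES, row CMPL
Invariant valuation rings are determined by their elements in `L`.
-/

set_option autoImplicit false
set_option linter.unusedVariables false

namespace Pool.Agent.MP_b525bf_ag_ES

open Pool.Agent.LU2 Pool.Agent.MP_b525bf_ag Pool.Agent.MP_b525bf_ag_W Pool.Agent.MP_b525bf_ag_E

variable {k K : Type} [Field k] [Field K] [Algebra k K] {G : Subgroup (K ≃ₐ[k] K)}
  {A : Subalgebra k K} {M : IntermediateField k K} {L : Set K}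

variable {V W : ValuationSubring K} {B : Subalgebra k K} {n : ℕ} {x : Fin n → K}

/-- the elements of value at most `γ`, as an `A`-module -/
private def ballS (hW : Inv G A W) (γ : W.ValueGroup) : Submodule A K where
  carrier := {y | W.valuation y ≤ γ}
  add_mem' := by
    intro a b ha hb
    rw [Set.mem_ofPred_eq] at *
    exact Valuation.map_add_le _ ha hb
  zero_mem' := by
    rw [Set.mem_ofPred_eq, map_zero]
    exact zero_le
  smul_mem' := by
    intro c y hy
    rw [Set.mem_ofPred_eq] at *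
    rw [Algebra.smul_def, map_mul]
    change W.valuation (c : K) * W.valuation y ≤ γ
    have hc : W.valuation (c : K) ≤ 1 := (W.valuation_le_one_iff _).2 (hW.le c c.2)
    calc W.valuation (c : K) * W.valuation y ≤ 1 * γ := mul_le_mul' hc hy
      _ = γ := one_mul γ

private theorem mem_ballS {hW : Inv G A W} {γ : W.ValueGroup} {y : K} :
    y ∈ ballS hW γ ↔ W.valuation y ≤ γ := by
  unfold ballS
  rw [← SetLike.mem_coe]
  simp

private theorem orb_le_ballS (hW : Inv G A W) (a : K) :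
    orb G A a ≤ ballS hW (W.valuation a) := by
  unfold orb
  rw [Submodule.span_le]
  rintro z ⟨g, hg, rfl⟩
  rw [SetLike.mem_coe, mem_ballS, hW.inv g hg a]

private theorem orb_pow_le (hW : Inv G A W) (a : K) (q : ℕ) :
    orb G A a ^ q ≤ ballS hW (W.valuation a ^ q) := by
  induction q with
  | zero =>
    rw [pow_zero, pow_zero, Submodule.one_le]
    rw [mem_ballS, map_one]
  | succ q ih =>
    rw [pow_succ, pow_succ, Submodule.mul_le]
    intro m hm n hn
    rw [mem_ballS, map_mul]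
    exact mul_le_mul' (mem_ballS.1 (ih hm)) (mem_ballS.1 (orb_le_ballS hW a hn))

/-- (a) -/
theorem val_orb_pow (hW : Inv G A W) {a : K} {q : ℕ} {y : K} (hy : y ∈ orb G A a ^ q) :
    W.valuation y ≤ W.valuation a ^ q := mem_ballS.1 (orb_pow_le hW a q hy)

/-- (b) -/
theorem val_orb (hW : Inv G A W) {a y : K} (hy : y ∈ orb G A a) :
    W.valuation y ≤ W.valuation a := mem_ballS.1 (orb_le_ballS hW a hy)

private theorem pow_mem_L (hC : Cx G A M L) {l : K} (hl : l ∈ L) (n : ℕ) : l ^ n ∈ L := by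
  induction n with
  | zero => rw [pow_zero]; exact hC.fld 1 M.one_mem one_ne_zero
  | succ n ih => rw [pow_succ]; exact hC.mul _ ih _ hl

/-- (c) -/
theorem le_of_L (hC : Cx G A M L) (hfr : IsFrac A) {W' : ValuationSubring K} (hW : Inv G A W)
    (hW' : Inv G A W') (h : ∀ l ∈ L, l ∈ W → l ∈ W') : W ≤ W' := by
  intro z hz
  obtain ⟨a, ha, b, hb, hb0, rfl⟩ := hfr z
  by_cases ha0 : a = 0
  · rw [ha0, zero_div]; exact W'.zero_mem
  obtain ⟨q, hq, la, hla, hla1, hla2⟩ := hC.app a ha ha0 W' hW'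
  obtain ⟨r, hr, lb, hlb, hlb1, hlb2⟩ := hC.app b hb hb0 W hW
  have hla0 : la ≠ 0 := hC.ne la hla
  have hlb0 : lb ≠ 0 := hC.ne lb hlb
  have hlL : la ^ r * (lb ^ q)⁻¹ ∈ L :=
    hC.mul _ (pow_mem_L hC hla r) _ (hC.inv _ (pow_mem_L hC hlb q))
  have vb0 : W.valuation b ≠ 0 := (Valuation.ne_zero_iff _).2 hb0
  have vb0' : W'.valuation b ≠ 0 := (Valuation.ne_zero_iff _).2 hb0
  have vlb0' : W'.valuation lb ≠ 0 := (Valuation.ne_zero_iff _).2 hlb0
  have hlW : la ^ r * (lb ^ q)⁻¹ ∈ W := by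
    rw [← W.valuation_le_one_iff, map_mul, map_inv₀, map_pow, map_pow, hlb2]
    have h1 : W.valuation la ^ r ≤ (W.valuation a ^ q) ^ r := pow_le_pow_left' (val_orb_pow hW hla1) r
    have h2 : W.valuation a / W.valuation b ≤ 1 := by
      rw [← map_div₀]; exact (W.valuation_le_one_iff _).2 hz
    calc W.valuation la ^ r * ((W.valuation b ^ r) ^ q)⁻¹
        ≤ (W.valuation a ^ q) ^ r * ((W.valuation b ^ r) ^ q)⁻¹ := mul_le_mul_left h1 _
      _ = (W.valuation a / W.valuation b) ^ (q * r) := by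
        rw [div_pow, div_eq_mul_inv, ← pow_mul, ← pow_mul, mul_comm r q]
      _ ≤ 1 := pow_le_one' h2 _
  have hlW' := h _ hlL hlW
  rw [← W'.valuation_le_one_iff, map_mul, map_inv₀, map_pow, map_pow, hla2] at hlW'
  rw [← W'.valuation_le_one_iff, map_div₀]
  have h3 : W'.valuation lb ^ q ≤ (W'.valuation b ^ r) ^ q := pow_le_pow_left' (val_orb_pow hW' hlb1) q
  have h4 : (W'.valuation a / W'.valuation b) ^ (q * r) ≤ 1 := by
    calc (W'.valuation a / W'.valuation b) ^ (q * r)
        = (W'.valuation a ^ q) ^ r * ((W'.valuation b ^ r) ^ q)⁻¹ := by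
          rw [div_pow, div_eq_mul_inv, ← pow_mul, ← pow_mul, mul_comm r q]
      _ ≤ (W'.valuation a ^ q) ^ r * (W'.valuation lb ^ q)⁻¹ := by
          refine mul_le_mul_right ?_ _
          exact inv_anti₀ (zero_lt_iff.2 (pow_ne_zero _ vlb0')) h3
      _ ≤ 1 := hlW'
  exact (pow_le_one_iff (Nat.mul_pos hq hr).ne').1 h4

end Pool.Agent.MP_b525bf_ag_ES
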