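import Pool.Agent.Lib.MP_b525bf_ag_ES.ORD
import Pool.Agent.Lib.MP_b525bf_ag_ES.CMPL

/-!
# Theorem ES, row GEN
The generic inequality. Recipe. For `f ∈ F` and `α ∈ S f` such that there is an order `pos` with
`PosOrd pos` and `pos (β - α)` for all other `β ∈ S f`: choose such an order, `W₁` from `exists_ord`;
`lead_mon` gives `W₁(f) = W₁(x^α)` (the `α` of `lead_mon` must be this `α`). `hC.app` for `f` at `W₁`:
`l ∈ L`, `l ∈ (orb f)^q`, `q > 0`, `W₁(l) = W₁(f)^q = W₁(x^(q α))`. `hl.lam`: `l = m * u * x^e`;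
`m, m⁻¹ ∈ M ⊆ V`, so in `locV V B ⊆ W₁` (`hl.page`), so `W₁(m) = 1`, `W₁(u) = 1`; so
`W₁(x^(e - q α)) = 1`, so `e = q α` (`tri`). `N` := the finite set of these `m`, for all `f ∈ F`, `α ∈ S f`
of this kind. Now let `W` be as in the conclusion. `pos` from `exists_posOrd` for `W`; `α` := the smallest
element of `S f`; then `W(x^β) ≤ W(x^α)` for all `β ∈ S f`, and `α` is of this kind, so there are
`q > 0` and `l = m u x^(q α) ∈ (orb f)^q`, `W(m) = 1`, `W(u) = 1`: `W(x^α)^q = W(l) ≤ W(f)^q` by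
`val_orb_pow` (row CMPL).
-/

set_option autoImplicit false
set_option linter.unusedVariables false

namespace Pool.Agent.MP_b525bf_ag_ES

open Pool.Agent.LU2 Pool.Agent.MP_b525bf_ag Pool.Agent.MP_b525bf_ag_W Pool.Agent.MP_b525bf_ag_E

variable {k K : Type} [Field k] [Field K] [Algebra k K] {G : Subgroup (K ≃ₐ[k] K)}
  {A : Subalgebra k K} {M : IntermediateField k K} {L : Set K}

variable {V W : ValuationSubring K} {B : Subalgebra k K} {n : ℕ} {x : Fin n → K}

private theorem gen_mon_zero : mon x 0 = 1 := by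
  simp [mon]

private theorem gen_mon_add (hx : ∀ i, x i ≠ 0) (a b : Fin n → ℤ) :
    mon x (a + b) = mon x a * mon x b := by
  simp only [mon, Pi.add_apply, ← Finset.prod_mul_distrib]
  exact Finset.prod_congr rfl fun i _ => zpow_add₀ (hx i) _ _

private theorem gen_mon_ne (hx : ∀ i, x i ≠ 0) (a : Fin n → ℤ) : mon x a ≠ 0 :=
  Finset.prod_ne_zero_iff.2 fun i _ => zpow_ne_zero _ (hx i)

private theorem gen_mon_neg (a : Fin n → ℤ) : mon x (-a) = (mon x a)⁻¹ := by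
  simp [mon, zpow_neg]

private theorem gen_mon_nsmul (q : ℕ) (a : Fin n → ℤ) : mon x (q • a) = mon x a ^ q := by
  simp only [mon, Pi.smul_apply, nsmul_eq_mul]
  rw [← Finset.prod_pow]
  refine Finset.prod_congr rfl fun i _ => ?_
  rw [mul_comm, zpow_mul, zpow_natCast]

private theorem gen_unit {O : ValuationSubring K} {m : K} (hm : m ≠ 0) (h1 : m ∈ O)
    (h2 : m⁻¹ ∈ O) : O.valuation m = 1 := by
  have a1 : O.valuation m ≤ 1 := (O.valuation_le_one_iff m).2 h1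
  have a2 : O.valuation m⁻¹ ≤ 1 := (O.valuation_le_one_iff _).2 h2
  have h0 : 0 < O.valuation m := zero_lt_iff.2 ((Valuation.ne_zero_iff _).2 hm)
  rw [map_inv₀, inv_le_one₀ h0] at a2
  exact le_antisymm a1 a2

private theorem gen_zx_inj {a b : Fin n → ℕ} (h : zx a = zx b) : a = b := by
  funext i
  have := congrFun h i
  simpa [zx] using this

private theorem gen_min {pos : (Fin n → ℤ) → Prop} (hp : PosOrd pos) (T : Finset (Fin n → ℕ))
    (hT : T.Nonempty) : ∃ α ∈ T, ∀ β ∈ T, β ≠ α → pos (zx β - zx α) := by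
  classical
  induction hT using Finset.Nonempty.cons_induction with
  | singleton a =>
    refine ⟨a, Finset.mem_singleton_self a, fun β hβ hne => ?_⟩
    exact absurd (Finset.mem_singleton.1 hβ) hne
  | cons a s ha hs ih =>
    obtain ⟨α, hα, h⟩ := ih
    rcases hp.tri (zx a - zx α) with h0 | h0 | h0
    · have : a = α := gen_zx_inj (sub_eq_zero.1 h0)
      exact absurd (this ▸ hα) ha
    · refine ⟨α, Finset.mem_cons.2 (Or.inr hα), fun β hβ hne => ?_⟩
      rcases Finset.mem_cons.1 hβ with rfl | hβ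
      · exact h0
      · exact h β hβ hne
    · refine ⟨a, Finset.mem_cons.2 (Or.inl rfl), fun β hβ hne => ?_⟩
      rw [neg_sub] at h0
      rcases Finset.mem_cons.1 hβ with rfl | hβ
      · exact absurd rfl hne
      · by_cases hβα : β = α
        · rw [hβα]; exact h0
        · have := hp.add _ _ (h β hβ hβα) h0
          rwa [sub_add_sub_cancel] at this

/-- the key point -/
private theorem gen_key (h : Hyp G A) (hC : Cx G A M L) (hV : Inv G A V) (hMV : ∀ m ∈ M, m ∈ V)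
    (hc : ChartAt G A V B x) (hl : LamAt M L V B x) {f : K} (hfA : f ∈ A) (hf0 : f ≠ 0)
    {S : Finset (Fin n → ℕ)} {c : (Fin n → ℕ) → K} (hr : Rep (locV V B) x f S c)
    {α : Fin n → ℕ} (hα : α ∈ S) {pos : (Fin n → ℤ) → Prop} (hp : PosOrd pos)
    (hmin : ∀ β ∈ S, β ≠ α → pos (zx β - zx α)) :
    ∃ m ∈ M, m ≠ 0 ∧ ∃ q : ℕ, 0 < q ∧ ∃ u ∈ B, u ≠ 0 ∧ u⁻¹ ∈ B ∧
      m * u * mon x (zx α) ^ q ∈ orb G A f ^ q := by
  obtain ⟨W₁, hW₁, hlW, hpW⟩ := exists_ord h hV hc hp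
  obtain ⟨α', hα', hmin', hval⟩ := lead_mon hc.ne hlW hp hpW hr
  have hαα : α' = α := by
    by_contra hne
    have h1 := hmin α' hα' hne
    have h2 := hmin' α hα (fun h => hne h.symm)
    have h3 := hp.add _ _ h1 h2
    rw [sub_add_sub_cancel, sub_self] at h3
    exact hp.irr h3
  subst hαα
  obtain ⟨q, hq, l, hlL, hlo, hlv⟩ := hC.app f hfA hf0 W₁ hW₁
  obtain ⟨m, hmM, hmV, u, huB, hu0, huB', e, hle⟩ := hl.lam l hlL
  have hm0 : m ≠ 0 := by
    rintro rfl
    simp at hmV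
  have hm1 : W₁.valuation m = 1 := gen_unit hm0 (hlW _ (hl.page m hmM (hMV m hmM)))
    (hlW _ (hl.page _ (inv_mem hmM) (hMV _ (inv_mem hmM))))
  have hu1 : W₁.valuation u = 1 := gen_unit hu0 (hlW _ (le_locV B huB)) (hlW _ (le_locV B huB'))
  have he1 : W₁.valuation (mon x e) = W₁.valuation (mon x (q • zx α')) := by
    rw [gen_mon_nsmul, map_pow, ← hval, ← hlv, hle, map_mul, map_mul, hm1, hu1, one_mul, one_mul]
  have he2 : W₁.valuation (mon x (e - q • zx α')) = 1 := by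
    rw [sub_eq_add_neg, gen_mon_add hc.ne, gen_mon_neg, map_mul, map_inv₀, he1]
    exact mul_inv_cancel₀ ((Valuation.ne_zero_iff _).2 (gen_mon_ne hc.ne _))
  have he3 : e = q • zx α' := by
    rcases hp.tri (e - q • zx α') with h0 | h0 | h0
    · exact sub_eq_zero.1 h0
    · have := hpW _ h0
      rw [he2] at this
      exact absurd this (lt_irrefl _)
    · have := hpW _ h0
      rw [gen_mon_neg, map_inv₀, he2, inv_one] at this
      exact absurd this (lt_irrefl _)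
  refine ⟨m, hmM, hm0, q, hq, u, huB, hu0, huB', ?_⟩
  rw [← gen_mon_nsmul, ← he3, ← hle]
  exact hlo

theorem exists_gen (h : Hyp G A) (hC : Cx G A M L) (hV : Inv G A V) (hMV : ∀ m ∈ M, m ∈ V)
    (hc : ChartAt G A V B x) (hl : LamAt M L V B x) (F : Finset K)
    (hF : ∀ f ∈ F, f ∈ A ∧ f ≠ 0) (S : K → Finset (Fin n → ℕ)) (c : K → (Fin n → ℕ) → K)
    (hr : ∀ f ∈ F, Rep (locV V B) x f (S f) (c f)) :
    ∃ N : Finset K, (∀ m ∈ N, m ∈ M ∧ m ≠ 0) ∧ ∀ W : ValuationSubring K, Inv G A W →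
      (∀ b ∈ B, b ∈ W) → (∀ m ∈ N, W.valuation m = 1) → ∀ f ∈ F, ∀ α ∈ S f,
        W.valuation (mon x (zx α)) ≤ W.valuation f := by
  classical
  have hkey : ∀ (f : K) (α : Fin n → ℕ), ∃ m : K, (m ∈ M ∧ m ≠ 0) ∧
      (f ∈ F → α ∈ S f → (∃ pos : (Fin n → ℤ) → Prop, PosOrd pos ∧
        ∀ β ∈ S f, β ≠ α → pos (zx β - zx α)) →
        ∃ q : ℕ, 0 < q ∧ ∃ u ∈ B, u ≠ 0 ∧ u⁻¹ ∈ B ∧
          m * u * mon x (zx α) ^ q ∈ orb G A f ^ q) := by
    intro f α
    by_cases hh : f ∈ F ∧ α ∈ S f ∧ ∃ pos : (Fin n → ℤ) → Prop, PosOrd pos ∧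
        ∀ β ∈ S f, β ≠ α → pos (zx β - zx α)
    · obtain ⟨h1, h2, pos, hp, hmin⟩ := hh
      obtain ⟨m, hm, hm0, hq⟩ := gen_key h hC hV hMV hc hl (hF f h1).1 (hF f h1).2 (hr f h1) h2 hp
        hmin
      exact ⟨m, ⟨hm, hm0⟩, fun _ _ _ => hq⟩
    · refine ⟨1, ⟨one_mem M, one_ne_zero⟩, fun h1 h2 h3 => absurd ⟨h1, h2, h3⟩ hh⟩
  choose m hm hmq using hkey
  refine ⟨F.biUnion fun f => (S f).image (m f), ?_, ?_⟩
  · intro y hy
    obtain ⟨f, _, hy⟩ := Finset.mem_biUnion.1 hy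
    obtain ⟨α, _, rfl⟩ := Finset.mem_image.1 hy
    exact hm f α
  · intro W hW hBW hN f hf β hβ
    obtain ⟨hxB, _⟩ := hc.sm
    obtain ⟨pos, hp, hpW⟩ := exists_posOrd (W := W) hc.ne fun i => hBW _ (hxB i)
    obtain ⟨α, hα, hmin⟩ := gen_min hp (S f) (hr f hf).ne
    have hβα : W.valuation (mon x (zx β)) ≤ W.valuation (mon x (zx α)) := by
      by_cases hne : β = α
      · rw [hne]
      · have h1 := hpW _ (hmin β hβ hne)
        have h2 : mon x (zx β) = mon x (zx β - zx α) * mon x (zx α) := by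
          rw [← gen_mon_add hc.ne, sub_add_cancel]
        rw [h2, map_mul]
        exact mul_le_of_le_one_left' h1
    refine hβα.trans ?_
    obtain ⟨q, hq, u, huB, hu0, huB', hmem⟩ := hmq f α hf hα ⟨pos, hp, hmin⟩
    have hm1 : W.valuation (m f α) = 1 :=
      hN _ (Finset.mem_biUnion.2 ⟨f, hf, Finset.mem_image.2 ⟨α, hα, rfl⟩⟩)
    have hu1 : W.valuation u = 1 := gen_unit hu0 (hBW _ huB) (hBW _ huB')
    have h1 := val_orb_pow hW hmem
    rw [map_mul, map_mul, hm1, hu1, one_mul, one_mul, map_pow] at h1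
    exact (pow_le_pow_iff_left₀ zero_le zero_le hq.ne').1 h1

end Pool.Agent.MP_b525bf_ag_ES
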