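import Pool.Agent.Lib.MP_b525bf_ag_ES.GE

/-!
# Theorem ES, row LAM
Charts for which the elements of `L` are monomials up to units and elements of `M`.
Recipe. `hC.fg`: `L` is generated by `t 1, ..., t r` modulo `M^*`. By `exists_mon_val` (row GE (a)) the
value group is the group of the values of the Laurent monomials in the `z i` (a free abelian group of
rank `n` by `Ind`, so its subgroups are finitely generated): the group of all `e : Fin n → ℤ` such
that `V.valuation (mon z e) = V.valuation m` for some `m ∈ M`, `m ≠ 0`, is generated by finitely many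
`e_j`; choose `s_j ∈ M` for them. Let `u_i := t i / mon z f_i` with `f_i` such that the value is one, and
`w_j := s_j / mon z e_j`. Apply `exists_toric_ge` to `E` together with the `u_i, u_i⁻¹, w_j, w_j⁻¹`. Get
`B', x`; Laurent monomials in `z` are Laurent monomials in `x` (`Toric.za`). For `l ∈ L`:
`l = m * mon t e`, `m ∈ M`; `V.valuation m = V.valuation (mon z (∑ a_j e_j))`, so `m = m' * ∏ s_j ^ a_j` with
`m' ∈ M` of value one; so `l = m' * (∏ w_j ^ a_j * ∏ u_i ^ e_i) * (Laurent monomial in z)`.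
`page` from `hpage` and `locV_mono`.
-/

set_option autoImplicit false
set_option linter.unusedVariables false

namespace Pool.Agent.MP_b525bf_ag_ES

open Pool.Agent.LU2 Pool.Agent.MP_b525bf_ag Pool.Agent.MP_b525bf_ag_W Pool.Agent.MP_b525bf_ag_E

variable {k K : Type} [Field k] [Field K] [Algebra k K] {G : Subgroup (K ≃ₐ[k] K)}
  {A : Subalgebra k K} {M : IntermediateField k K} {L : Set K}

variable {V W : ValuationSubring K} {B : Subalgebra k K} {n : ℕ} {x : Fin n → K}

variable {z : Fin n → K}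

private theorem lam_mon_ne {n : ℕ} {x : Fin n → K} (h : ∀ i, x i ≠ 0) (e : Fin n → ℤ) :
    mon x e ≠ 0 := Finset.prod_ne_zero_iff.2 fun i _ => zpow_ne_zero _ (h i)

private theorem lam_mon_zero {n : ℕ} (x : Fin n → K) : mon x (0 : Fin n → ℤ) = 1 := by simp [mon]

private theorem lam_mon_add {n : ℕ} {x : Fin n → K} (h : ∀ i, x i ≠ 0) (e e' : Fin n → ℤ) :
    mon x (e + e') = mon x e * mon x e' := by
  unfold mon
  rw [← Finset.prod_mul_distrib]
  exact Finset.prod_congr rfl fun i _ => zpow_add₀ (h i) _ _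

private theorem lam_mon_zsmul {n : ℕ} (x : Fin n → K) (c : ℤ) (e : Fin n → ℤ) :
    mon x (c • e) = mon x e ^ c := by
  unfold mon
  rw [← Finset.prod_zpow]
  refine Finset.prod_congr rfl fun i _ => ?_
  rw [Pi.smul_apply, smul_eq_mul, mul_comm, zpow_mul]

private theorem lam_mon_neg {n : ℕ} (x : Fin n → K) (e : Fin n → ℤ) :
    mon x (-e) = (mon x e)⁻¹ := by
  have := lam_mon_zsmul x (-1) e
  rwa [neg_one_zsmul, zpow_neg_one] at this

private theorem lam_mon_sum {n : ℕ} {x : Fin n → K} (h : ∀ i, x i ≠ 0) {r : ℕ}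
    (f : Fin r → Fin n → ℤ) (e : Fin r → ℤ) (s : Finset (Fin r)) :
    ∏ i ∈ s, mon x (f i) ^ e i = mon x (∑ i ∈ s, e i • f i) := by
  classical
  induction s using Finset.induction_on with
  | empty => rw [Finset.prod_empty, Finset.sum_empty, lam_mon_zero]
  | insert i s hi ih =>
    rw [Finset.prod_insert hi, Finset.sum_insert hi, lam_mon_add h, ih, lam_mon_zsmul]

private theorem lam_zpow {B : Subalgebra k K} {w : K} (h : w ∈ B) (h' : w⁻¹ ∈ B) (c : ℤ) :
    w ^ c ∈ B := by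
  cases c with
  | ofNat c =>
    rw [Int.ofNat_eq_natCast, zpow_natCast]
    exact B.pow_mem h c
  | negSucc c =>
    rw [zpow_negSucc, ← inv_pow]
    exact B.pow_mem h' (c + 1)

private theorem lam_mon_mem {B : Subalgebra k K} {r : ℕ} {u : Fin r → K} (h : ∀ i, u i ∈ B)
    (h' : ∀ i, (u i)⁻¹ ∈ B) (e : Fin r → ℤ) : mon u e ∈ B ∧ (mon u e)⁻¹ ∈ B := by
  have key : ∀ e : Fin r → ℤ, mon u e ∈ B := by
    intro e
    unfold mon
    exact prod_mem fun i _ => lam_zpow (h i) (h' i) (e i)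
  refine ⟨key e, ?_⟩
  rw [← lam_mon_neg]
  exact key (-e)

private theorem lam_mem_of_val {a : K} (h : V.valuation a = 1) : a ∈ V ∧ a⁻¹ ∈ V := by
  constructor
  · rw [← V.valuation_le_one_iff]
    exact h.le
  · rw [← V.valuation_le_one_iff, map_inv₀, h, inv_one]

theorem exists_lam (h : Hyp G A) (hC : Cx G A M L) (hV : Inv G A V) (hc : ChartAt G A V B z)
    (hpage : ∀ m ∈ M, m ∈ V → m ∈ locV V B) (E : Finset K) (hE : ∀ e ∈ E, e ∈ V) :
    ∃ (B' : Subalgebra k K) (x : Fin n → K), B ≤ B' ∧ ChartAt G A V B' x ∧ LamAt M L V B' x ∧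
      ∀ e ∈ E, e ∈ B' := by
  classical
  obtain ⟨r, t, htL, hfg⟩ := hC.fg
  have hz : ∀ i, z i ≠ 0 := hc.ne
  have hval : ∀ f : K, f ≠ 0 → ∃ e : Fin n → ℤ, V.valuation f = V.valuation (mon z e) :=
    fun f hf => exists_mon_val hc.toLoc h.frac hc.le hc.ind hf
  have ht0 : ∀ i, t i ≠ 0 := fun i => hC.ne _ (htL i)
  choose f hf using fun i => hval (t i) (ht0 i)
  let Γ : AddSubgroup (Fin n → ℤ) :=
    { carrier := {e | ∃ m ∈ M, m ≠ 0 ∧ V.valuation (mon z e) = V.valuation m}
      zero_mem' := ⟨1, M.one_mem, one_ne_zero, by rw [lam_mon_zero]⟩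
      add_mem' := by
        rintro e e' ⟨m, hm, hm0, hv⟩ ⟨m', hm', hm0', hv'⟩
        refine ⟨m * m', M.mul_mem hm hm', mul_ne_zero hm0 hm0', ?_⟩
        rw [lam_mon_add hz, map_mul, map_mul, hv, hv']
      neg_mem' := by
        rintro e ⟨m, hm, hm0, hv⟩
        refine ⟨m⁻¹, M.inv_mem hm, inv_ne_zero hm0, ?_⟩
        rw [lam_mon_neg, map_inv₀, map_inv₀, hv] }
  have hfgΓ : (AddSubgroup.toIntSubmodule Γ).FG := IsNoetherian.noetherian _
  obtain ⟨S, hS⟩ := hfgΓ
  have hSΓ : ∀ e ∈ S, ∃ m ∈ M, m ≠ 0 ∧ V.valuation (mon z e) = V.valuation m := by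
    intro e he
    have h1 : e ∈ AddSubgroup.toIntSubmodule Γ := by
      rw [← hS]
      exact Submodule.subset_span he
    exact h1
  choose! s hsM hs0 hsv using hSΓ
  set u : Fin r → K := fun i => t i / mon z (f i) with hu
  have huv : ∀ i, V.valuation (u i) = 1 := by
    intro i
    have h0 : V.valuation (mon z (f i)) ≠ 0 := (Valuation.ne_zero_iff _).2 (lam_mon_ne hz _)
    rw [hu]
    dsimp only
    rw [map_div₀, hf i, div_self h0]
  have hwv : ∀ e ∈ S, V.valuation (s e / mon z e) = 1 := by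
    intro e he
    have h0 : V.valuation (s e) ≠ 0 := (Valuation.ne_zero_iff _).2 (hs0 e he)
    rw [map_div₀, hsv e he, div_self h0]
  let E' : Finset K := E ∪ ((Finset.univ.image u) ∪ (Finset.univ.image fun i => (u i)⁻¹)) ∪
    ((S.image fun e => s e / mon z e) ∪ (S.image fun e => (s e / mon z e)⁻¹))
  have hE' : ∀ e ∈ E', e ∈ V := by
    intro e he
    rcases Finset.mem_union.1 he with he | he
    · rcases Finset.mem_union.1 he with he | he
      · exact hE e he
      · rcases Finset.mem_union.1 he with he | he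
        · obtain ⟨i, -, rfl⟩ := Finset.mem_image.1 he
          exact (lam_mem_of_val (huv i)).1
        · obtain ⟨i, -, rfl⟩ := Finset.mem_image.1 he
          exact (lam_mem_of_val (huv i)).2
    · rcases Finset.mem_union.1 he with he | he
      · obtain ⟨i, hi, rfl⟩ := Finset.mem_image.1 he
        exact (lam_mem_of_val (hwv i hi)).1
      · obtain ⟨i, hi, rfl⟩ := Finset.mem_image.1 he
        exact (lam_mem_of_val (hwv i hi)).2
  obtain ⟨B', x, b, a, htor, hBB', hc', hE'B⟩ := exists_toric_ge h hV hc E' hE'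
  have hu1 : ∀ i, u i ∈ B' := fun i => hE'B _ (Finset.mem_union_left _ (Finset.mem_union_right _
    (Finset.mem_union_left _ (Finset.mem_image_of_mem u (Finset.mem_univ i)))))
  have hu2 : ∀ i, (u i)⁻¹ ∈ B' := fun i => hE'B _ (Finset.mem_union_left _
    (Finset.mem_union_right _ (Finset.mem_union_right _
      (Finset.mem_image_of_mem (fun i => (u i)⁻¹) (Finset.mem_univ i)))))
  have hw1 : ∀ e ∈ S, s e / mon z e ∈ B' := fun e he => hE'B _ (Finset.mem_union_right _
    (Finset.mem_union_left _ (Finset.mem_image_of_mem (fun e => s e / mon z e) he)))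
  have hw2 : ∀ e ∈ S, (s e / mon z e)⁻¹ ∈ B' := fun e he => hE'B _ (Finset.mem_union_right _
    (Finset.mem_union_right _ (Finset.mem_image_of_mem (fun e => (s e / mon z e)⁻¹) he)))
  -- all exponents of values of elements of `M`
  have hgood : ∀ e ∈ Γ, ∃ m ∈ M, m ≠ 0 ∧ m / mon z e ∈ B' ∧ (m / mon z e)⁻¹ ∈ B' := by
    intro e he
    have he' : e ∈ Submodule.span ℤ (S : Set (Fin n → ℤ)) := by
      rw [hS]
      exact he
    refine Submodule.span_induction (p := fun e _ => ∃ m ∈ M, m ≠ 0 ∧ m / mon z e ∈ B' ∧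
      (m / mon z e)⁻¹ ∈ B') ?_ ?_ ?_ ?_ he'
    · intro e he
      exact ⟨s e, hsM e he, hs0 e he, hw1 e he, hw2 e he⟩
    · refine ⟨1, M.one_mem, one_ne_zero, ?_, ?_⟩
      · rw [lam_mon_zero, div_one]
        exact B'.one_mem
      · rw [lam_mon_zero, div_one, inv_one]
        exact B'.one_mem
    · rintro e e' _ _ ⟨m, hm, hm0, h1, h2⟩ ⟨m', hm', hm0', h1', h2'⟩
      refine ⟨m * m', M.mul_mem hm hm', mul_ne_zero hm0 hm0', ?_, ?_⟩
      · rw [lam_mon_add hz, mul_div_mul_comm]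
        exact B'.mul_mem h1 h1'
      · rw [lam_mon_add hz, mul_div_mul_comm, mul_inv]
        exact B'.mul_mem h2 h2'
    · rintro c e _ ⟨m, hm, hm0, h1, h2⟩
      refine ⟨m ^ c, zpow_mem hm c, zpow_ne_zero _ hm0, ?_, ?_⟩
      · rw [lam_mon_zsmul, ← div_zpow]
        exact lam_zpow h1 h2 c
      · rw [lam_mon_zsmul, ← div_zpow, ← zpow_neg]
        exact lam_zpow h1 h2 (-c)
  refine ⟨B', x, hBB', hc', ⟨fun m hm hmV => locV_mono hBB' (hpage m hm hmV), ?_⟩,
    fun e he => hE'B e (Finset.mem_union_left _ (Finset.mem_union_left _ he))⟩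
  intro l hl
  obtain ⟨m, hm, hm0, e, rfl⟩ := hfg l hl
  obtain ⟨g, hg⟩ := hval m hm0
  obtain ⟨m₁, hm₁, hm₁0, hw, hw'⟩ := hgood g ⟨m, hm, hm0, hg.symm⟩
  obtain ⟨hU, hU'⟩ := lam_mon_mem hu1 hu2 e
  have hmong : mon z g ≠ 0 := lam_mon_ne hz g
  have hw0 : m₁ / mon z g ≠ 0 := div_ne_zero hm₁0 hmong
  have hu0 : ∀ i, u i ≠ 0 := fun i => div_ne_zero (ht0 i) (lam_mon_ne hz _)
  have hval1 : V.valuation (m₁ / mon z g) = 1 := by
    have h1 : V.valuation (m₁ / mon z g) ≤ 1 :=
      (V.valuation_le_one_iff _).2 (hc'.mem _ hw)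
    have h2 : V.valuation (m₁ / mon z g)⁻¹ ≤ 1 :=
      (V.valuation_le_one_iff _).2 (hc'.mem _ hw')
    refine le_antisymm h1 ?_
    rw [map_inv₀] at h2
    have h3 : V.valuation (m₁ / mon z g) ≠ 0 := (Valuation.ne_zero_iff _).2 hw0
    exact (inv_le_one₀ (zero_lt_iff.2 h3)).1 h2
  have hvalm : V.valuation (m / m₁) = 1 := by
    have h0 : V.valuation (mon z g) ≠ 0 := (Valuation.ne_zero_iff _).2 hmong
    rw [map_div₀] at hval1 ⊢
    rw [div_eq_one_iff_eq h0] at hval1
    rw [hg, hval1, div_self h0]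
  have hmt : mon t e = mon u e * mon z (∑ i, e i • f i) := by
    rw [← lam_mon_sum hz f e Finset.univ]
    change ∏ i, t i ^ e i = (∏ i, (t i / mon z (f i)) ^ e i) * ∏ i, mon z (f i) ^ e i
    rw [← Finset.prod_mul_distrib]
    refine Finset.prod_congr rfl fun i _ => ?_
    rw [← mul_zpow, div_mul_cancel₀ _ (lam_mon_ne hz _)]
  have hzx : ∀ e : Fin n → ℤ, mon z e = mon x (∑ j, e j • zx (a j)) := by
    intro e
    rw [← lam_mon_sum htor.ne (fun j => zx (a j)) e Finset.univ]
    conv_lhs => unfold mon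
    refine Finset.prod_congr rfl fun j _ => ?_
    rw [htor.za j]
  refine ⟨m / m₁, M.div_mem hm hm₁, hvalm, m₁ / mon z g * mon u e, B'.mul_mem hw hU,
    mul_ne_zero hw0 (lam_mon_ne hu0 _), ?_, ∑ j, (g + ∑ i, e i • f i) j • zx (a j), ?_⟩
  · rw [mul_inv]
    exact B'.mul_mem hw' hU'
  · rw [← hzx, lam_mon_add hz, hmt]
    field_simp

end Pool.Agent.MP_b525bf_ag_ES
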