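import Pool.Agent.Lib.MP_b525bf_ag_ES.DefsB
import Pool.Agent.Lib.MP_b525bf_ag_E.SM0

/-!
# Theorem ES, row LOCZ
Inverting an element of value one. `(a)`: `locV V B' = locV V B` (`locV_mono`, `locV_le`, `locV_inv` in
`LU2_h15/Basic.lean`). `(b)`: `Loc V B' x`; `fg`: `SM0_fg` in E/SM0.lean (private, copy); `mem`, `gen`
from `(a)`; `sm`: `B → B'` is a localisation, so formally etale, and compositions of formally
smooth maps are formally smooth (`Algebra.FormallySmooth.of_isLocalization`, `RingHom.FormallySmooth.comp`;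
see `SM0_smOver`, `SM0_aux` in E/SM0.lean for very similar arguments; `IsLocalization.Away q B'`).
`(c)`: `ChartAt` from `(a)` and `(b)`.
-/

set_option autoImplicit false
set_option linter.unusedVariables false

namespace Pool.Agent.MP_b525bf_ag_ES

open Pool.Agent.LU2 Pool.Agent.MP_b525bf_ag Pool.Agent.MP_b525bf_ag_W Pool.Agent.MP_b525bf_ag_E

variable {k K : Type} [Field k] [Field K] [Algebra k K] {G : Subgroup (K ≃ₐ[k] K)}
  {A : Subalgebra k K} {M : IntermediateField k K} {L : Set K}

private theorem LOCZ_smOver (S : Subalgebra k K) (h : S) (h0 : (h : K) ≠ 0) {n : ℕ} (z : Fin n → K)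
    (hz : ∀ i, z i ∈ S)
    (hs : ((algebraMap S (Localization.Away h)).comp
      (MvPolynomial.aeval (fun i => (⟨z i, hz i⟩ : S)) :
        MvPolynomial (Fin n) k →ₐ[k] S).toRingHom).FormallySmooth) :
    SmOver (Algebra.adjoin k ((S : Set K) ∪ {(h : K)⁻¹})) z := by
  obtain ⟨B, hB⟩ : ∃ B : Subalgebra k K, B = Algebra.adjoin k ((S : Set K) ∪ {(h : K)⁻¹}) :=
    ⟨_, rfl⟩
  rw [← hB]
  have hle : S ≤ B := fun x hx => hB ▸ Algebra.subset_adjoin (Or.inl hx)
  have hinv : (h : K)⁻¹ ∈ B := hB ▸ Algebra.subset_adjoin (Or.inr rfl)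
  let _ : Algebra S B := (Subalgebra.inclusion hle).toRingHom.toAlgebra
  have hcoe : ∀ s : S, ((algebraMap S B s : B) : K) = s := fun s => rfl
  have hloc : IsLocalization.Away h B := by
    refine ⟨⟨?_, ?_, ?_⟩⟩
    · rintro ⟨y, n, rfl⟩
      have h1 : IsUnit (algebraMap S B h) := by
        refine IsUnit.of_mul_eq_one ⟨(h : K)⁻¹, hinv⟩ ?_
        apply Subtype.ext
        change (h : K) * (h : K)⁻¹ = 1
        exact mul_inv_cancel₀ h0
      change IsUnit (algebraMap S B (h ^ n))
      rw [map_pow]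
      exact h1.pow n
    · rintro ⟨z, hz⟩
      obtain ⟨n, hn⟩ := LU2G.mem_adjoin_inv S h.2 h0 z (hB ▸ hz)
      refine ⟨(⟨_, hn⟩, ⟨h ^ n, n, rfl⟩), ?_⟩
      apply Subtype.ext
      change z * ((h ^ n : S) : K) = z * (h : K) ^ n
      push_cast
      rfl
    · intro x y hxy
      refine ⟨1, ?_⟩
      have : (x : K) = y := congrArg (fun b : B => (b : K)) hxy
      rw [Subtype.ext this]
  let e : Localization.Away h ≃ₐ[S] B :=
    IsLocalization.algEquiv (Submonoid.powers h) (Localization.Away h) B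
  have h1 : (e : Localization.Away h ≃+* B).toRingHom.FormallySmooth :=
    RingHom.FormallySmooth.of_bijective e.bijective
  have h2 := hs.comp h1
  refine ⟨fun i => hle (hz i), ?_⟩
  have h3 : (e : Localization.Away h ≃+* B).toRingHom.comp
      ((algebraMap S (Localization.Away h)).comp
      (MvPolynomial.aeval (fun i => (⟨z i, hz i⟩ : S)) :
        MvPolynomial (Fin n) k →ₐ[k] S).toRingHom) =
      (MvPolynomial.aeval (fun i => (⟨z i, hle (hz i)⟩ : B)) :
        MvPolynomial (Fin n) k →ₐ[k] B).toRingHom := by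
    apply MvPolynomial.ringHom_ext
    · intro c
      change e (algebraMap S (Localization.Away h) (MvPolynomial.aeval _ (MvPolynomial.C c))) =
        MvPolynomial.aeval _ (MvPolynomial.C c)
      rw [e.commutes, MvPolynomial.aeval_C, MvPolynomial.aeval_C]
      rfl
    · intro i
      change e (algebraMap S (Localization.Away h) (MvPolynomial.aeval _ (MvPolynomial.X i))) =
        MvPolynomial.aeval _ (MvPolynomial.X i)
      rw [e.commutes, MvPolynomial.aeval_X, MvPolynomial.aeval_X]
      rfl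
  rwa [h3] at h2

private theorem LOCZ_fg {S : Subalgebra k K} (hfg : S.FG) (c : K) :
    (Algebra.adjoin k ((S : Set K) ∪ {c})).FG := by
  obtain ⟨F, hF⟩ := hfg
  classical
  refine ⟨F ∪ {c}, ?_⟩
  apply le_antisymm
  · rw [Algebra.adjoin_le_iff]
    intro x hx
    rw [Finset.coe_union, Finset.coe_singleton] at hx
    rcases hx with hx | hx
    · exact Algebra.subset_adjoin (Or.inl (hF ▸ Algebra.subset_adjoin hx))
    · exact Algebra.subset_adjoin (Or.inr hx)
  · rw [Algebra.adjoin_le_iff]
    rintro x (hx | hx)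
    · have h1 : S ≤ Algebra.adjoin k ((F ∪ {c} : Finset K) : Set K) := by
        rw [← hF]
        refine Algebra.adjoin_mono ?_
        rw [Finset.coe_union]
        exact Set.subset_union_left
      exact h1 hx
    · refine Algebra.subset_adjoin ?_
      rw [Finset.coe_union, Finset.coe_singleton]
      exact Or.inr hx

/-- Adjoining the inverse of an element of value one. -/
private theorem LOCZ_adjoin {V : ValuationSubring K} {S : Subalgebra k K} {b : K} (hbS : b ∈ S)
    (hb1 : V.valuation b = 1) : S ≤ Algebra.adjoin k ((S : Set K) ∪ {b⁻¹}) ∧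
      Algebra.adjoin k ((S : Set K) ∪ {b⁻¹}) ≤ locV V S ∧
      locV V (Algebra.adjoin k ((S : Set K) ∪ {b⁻¹})) = locV V S := by
  have hle : S ≤ Algebra.adjoin k ((S : Set K) ∪ {b⁻¹}) :=
    fun x hx => Algebra.subset_adjoin (Or.inl hx)
  have hle' : Algebra.adjoin k ((S : Set K) ∪ {b⁻¹}) ≤ locV V S := by
    rw [Algebra.adjoin_le_iff]
    rintro x (hx | hx)
    · exact le_locV S hx
    · rw [Set.mem_singleton_iff.1 hx]
      exact locV_inv (le_locV S hbS) hb1
  refine ⟨hle, hle', le_antisymm ?_ (locV_mono hle)⟩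
  have := locV_mono (V := V) hle'
  rwa [locV_locV] at this

variable {V W : ValuationSubring K} {B : Subalgebra k K} {n : ℕ} {x : Fin n → K}

theorem locV_adjoin_inv {q : K} (hq : q ∈ B) (hv : V.valuation q = 1) :
    locV V (Algebra.adjoin k ((B : Set K) ∪ {q⁻¹})) = locV V B :=
  (LOCZ_adjoin hq hv).2.2

theorem adjoin_inv_le_locV {q : K} (hq : q ∈ B) (hv : V.valuation q = 1) :
    Algebra.adjoin k ((B : Set K) ∪ {q⁻¹}) ≤ locV V B :=
  (LOCZ_adjoin hq hv).2.1

theorem loc_adjoin_inv (h : Loc V B x) {q : K} (hq : q ∈ B) (hv : V.valuation q = 1) :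
    Loc V (Algebra.adjoin k ((B : Set K) ∪ {q⁻¹})) x := by
  obtain ⟨h1, h2, h3⟩ := LOCZ_adjoin hq hv
  have h0 : q ≠ 0 := by
    rintro rfl
    rw [map_zero] at hv
    exact zero_ne_one hv
  obtain ⟨hx, hsm⟩ := h.sm
  have hl : (algebraMap B (Localization.Away (⟨q, hq⟩ : B))).FormallySmooth := by
    rw [RingHom.FormallySmooth]
    have : Algebra.FormallySmooth B (Localization.Away (⟨q, hq⟩ : B)) :=
      Algebra.FormallySmooth.of_isLocalization (Submonoid.powers (⟨q, hq⟩ : B))
    convert this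
    ext
    rw [Algebra.smul_def]
    rfl
  exact
    { fg := LOCZ_fg h.fg q⁻¹
      mem := fun f hf => locV_mem h.mem f (h2 hf)
      ne := h.ne
      pos := h.pos
      gen := fun f hf hf1 => by
        rw [h3] at hf ⊢
        exact h.gen f hf hf1
      sm := LOCZ_smOver B ⟨q, hq⟩ h0 x hx (hsm.comp hl) }

theorem chartAt_adjoin_inv (h : ChartAt G A V B x) {q : K} (hq : q ∈ B)
    (hv : V.valuation q = 1) : ChartAt G A V (Algebra.adjoin k ((B : Set K) ∪ {q⁻¹})) x := by
  have h1 := LOCZ_adjoin hq hv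
  exact
    { loc_adjoin_inv h.toLoc hq hv with
      le := h.le.trans h1.1
      ind := h.ind
      stab := by
        rw [h1.2.2]
        exact h.stab
      par := by
        rw [h1.2.2]
        exact h.par }

end Pool.Agent.MP_b525bf_ag_ES
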