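import Pool.Agent.Lib.MP_b525bf_ag_ES.DefsB

/-!
# Theorem ES, row SATR
A commutative algebra lemma: monomial ideals in `x` for which all the ideals `(x_J)` are prime.
Recipe. For a finite set `S` of exponents let `(x^S)` be the ideal generated by the `∏ x_i ^ α_i`,
`α ∈ S`. Induction over the number of elements of a finite set `T` of indices such that all exponents
in `S` are supported in `T`, for all rings `C` and all `h ∉ (x_T)` simultaneously (for `T = ∅` the ideal is
zero or everything, and `C` is a domain). Let `l ∈ T`; induction over the largest exponent `d` of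
`x_l`, the case `d = 0` is the case `T \ {l}`. Let `I_i` be the monomial ideal generated by the
`x^β`, `β` supported in `T \ {l}`, such that `β + j e_l ∈ S` for some `j ≤ i`. Then
`I := (x^S) = ∑ x_l^i I_i`, `I = I_0 + x_l I'`, `I' := ∑ x_l^i I_(i+1)` (a monomial ideal with largest
exponent `d - 1`: it is generated by the `x^γ` with `γ = β` if `β_l = 0` or `γ = β - e_l`, `β ∈ S`).
(1) `x_l y ∈ I` implies `y ∈ I'`: `x_l (y - b) ∈ I_0` for some `b ∈ I'`; by the induction hypothesis for
`T \ {l}`, with `h := x_l`, `y - b ∈ I_0 ⊆ I'`. (2) Let `h f ∈ I`. In `C / (x_l)` (the hypotheses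
hold for this ring and `T \ {l}`: the ideals `(x_J)` there correspond to `(x_(J ∪ {l}))`) the image of
`h f` is in the image of `I_0`, so `f ∈ I_0 + (x_l)`, `f = a + x_l f_1`, `a ∈ I_0 ⊆ I`,
`h x_l f_1 ∈ I`, so `h f_1 ∈ I'` by (1), so `f_1 ∈ I'` by induction over `d`, so `f ∈ I`. You are free
to organise the induction in another way (for example over all `T` at once with lists), the statement
should remain.
-/

set_option autoImplicit false
set_option linter.unusedVariables false

namespace Pool.Agent.MP_b525bf_ag_ES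

open Pool.Agent.LU2 Pool.Agent.MP_b525bf_ag Pool.Agent.MP_b525bf_ag_W Pool.Agent.MP_b525bf_ag_E

variable {k K : Type} [Field k] [Field K] [Algebra k K] {G : Subgroup (K ≃ₐ[k] K)}
  {A : Subalgebra k K} {M : IntermediateField k K} {L : Set K}

variable {V W : ValuationSubring K} {B : Subalgebra k K} {n : ℕ} {x : Fin n → K}

private lemma satr_update {C : Type} [CommRing C] {n : ℕ} (y : Fin n → C) (β : Fin n → ℕ)
    (l : Fin n) (hβ : β l ≠ 0) :
    ∏ i, y i ^ β i = y l * ∏ i, y i ^ (Function.update β l (β l - 1)) i := by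
  rw [← Finset.mul_prod_erase Finset.univ (fun i => y i ^ β i) (Finset.mem_univ l),
    ← Finset.mul_prod_erase Finset.univ (fun i => y i ^ (Function.update β l (β l - 1)) i)
      (Finset.mem_univ l)]
  have h1 : ∏ i ∈ Finset.univ.erase l, y i ^ (Function.update β l (β l - 1)) i =
      ∏ i ∈ Finset.univ.erase l, y i ^ β i := by
    refine Finset.prod_congr rfl fun i hi => ?_
    rw [Function.update_of_ne (Finset.ne_of_mem_erase hi)]
  have h2 : y l ^ β l = y l * y l ^ (β l - 1) := by
    rw [← pow_succ']
    congr 1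
    omega
  simp only [h1, Function.update_self]
  rw [h2]
  ring

private lemma satr_main {C : Type} [CommRing C] {n : ℕ} (y : Fin n → C)
    (hp : ∀ J : Finset (Fin n), (Ideal.span (y '' (J : Set (Fin n)))).IsPrime)
    (hy : ∀ (J : Finset (Fin n)) (l : Fin n), l ∉ J → y l ∉ Ideal.span (y '' (J : Set (Fin n))))
    (T : Finset (Fin n)) : ∀ (J : Finset (Fin n)), Disjoint T J → ∀ h : C,
      h ∉ Ideal.span (y '' ((T ∪ J : Finset (Fin n)) : Set (Fin n))) →
      ∀ S : Finset (Fin n → ℕ), (∀ β ∈ S, ∀ i, i ∉ T → β i = 0) → ∀ f : C,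
      h * f ∈ Ideal.span ((fun α : Fin n → ℕ => ∏ i, y i ^ α i) '' (S : Set (Fin n → ℕ))) ⊔
        Ideal.span (y '' (J : Set (Fin n))) →
      f ∈ Ideal.span ((fun α : Fin n → ℕ => ∏ i, y i ^ α i) '' (S : Set (Fin n → ℕ))) ⊔
        Ideal.span (y '' (J : Set (Fin n))) := by
  induction T using Finset.induction_on with
  | empty =>
    intro J _ h hh S hS f hf
    rcases S.eq_empty_or_nonempty with rfl | ⟨β, hβ⟩
    · simp only [Finset.coe_empty, Set.image_empty, Ideal.span_empty, bot_sup_eq] at hf ⊢
      rw [Finset.empty_union] at hh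
      exact ((hp J).mem_or_mem hf).resolve_left hh
    · have h0 : (1 : C) ∈ Ideal.span
          ((fun α : Fin n → ℕ => ∏ i, y i ^ α i) '' (S : Set (Fin n → ℕ))) := by
        refine Ideal.subset_span ⟨β, hβ, ?_⟩
        have : ∀ i, β i = 0 := fun i => hS β hβ i (Finset.notMem_empty i)
        simp [this]
      have h1 := (Ideal.eq_top_iff_one _).2 h0
      rw [h1, top_sup_eq]
      exact Submodule.mem_top
  | insert l T hl ih =>
    intro J hJ h hh S hS f hf
    have hlJ : l ∉ J := Finset.disjoint_left.1 hJ (Finset.mem_insert_self l T)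
    have hTJ : Disjoint T J := Finset.disjoint_of_subset_left (Finset.subset_insert l T) hJ
    obtain ⟨d, hd⟩ : ∃ d, ∀ β ∈ S, β l ≤ d := ⟨S.sup fun β => β l, fun β hβ =>
      Finset.le_sup (f := fun β : Fin n → ℕ => β l) hβ⟩
    induction d generalizing S h f with
    | zero =>
      refine ih J hTJ h (fun hc => hh (Ideal.span_mono (Set.image_mono ?_) hc)) S ?_ f hf
      · exact Finset.coe_subset.2 (Finset.union_subset_union_left (Finset.subset_insert l T))
      · intro β hβ i hi
        by_cases hil : i = l
        · rw [hil]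
          exact Nat.le_zero.1 (hd β hβ)
        · exact hS β hβ i (fun hc => (Finset.mem_insert.1 hc).elim hil hi)
    | succ d ihd =>
      set S₀ : Finset (Fin n → ℕ) := S.filter fun β => β l = 0 with hS₀
      set S' : Finset (Fin n → ℕ) := S.image fun β => Function.update β l (β l - 1) with hS'
      set mo : (Fin n → ℕ) → C := fun α => ∏ i, y i ^ α i with hmo
      -- the basic inclusions
      have i1 : Ideal.span (mo '' (S₀ : Set (Fin n → ℕ))) ≤
          Ideal.span (mo '' (S : Set (Fin n → ℕ))) :=
        Ideal.span_mono (Set.image_mono (Finset.coe_subset.2 (Finset.filter_subset _ _)))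
      have i2 : Ideal.span (mo '' (S₀ : Set (Fin n → ℕ))) ≤
          Ideal.span (mo '' (S' : Set (Fin n → ℕ))) := by
        refine Ideal.span_mono (Set.image_mono fun β hβ => ?_)
        have hβ' := Finset.mem_filter.1 (Finset.mem_coe.1 hβ)
        refine Finset.mem_coe.2 (Finset.mem_image.2 ⟨β, hβ'.1, ?_⟩)
        rw [hβ'.2, Nat.zero_sub, ← hβ'.2, Function.update_eq_self]
      have i3 : ∀ z ∈ Ideal.span (mo '' (S' : Set (Fin n → ℕ))),
          y l * z ∈ Ideal.span (mo '' (S : Set (Fin n → ℕ))) := by
        intro z hz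
        refine Submodule.span_induction (p := fun z _ => y l * z ∈
          Ideal.span (mo '' (S : Set (Fin n → ℕ)))) ?_ ?_ ?_ ?_ hz
        · rintro _ ⟨γ, hγ, rfl⟩
          obtain ⟨β, hβ, rfl⟩ := Finset.mem_image.1 (Finset.mem_coe.1 hγ)
          by_cases h0 : β l = 0
          · have : Function.update β l (β l - 1) = β := by
              rw [h0, Nat.zero_sub, ← h0, Function.update_eq_self]
            rw [this]
            exact Ideal.mul_mem_left _ _ (Ideal.subset_span ⟨β, hβ, rfl⟩)
          · have := satr_update y β l h0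
            simp only [hmo]
            rw [← this]
            exact Ideal.subset_span ⟨β, hβ, rfl⟩
        · rw [mul_zero]
          exact Submodule.zero_mem _
        · intro a b _ _ ha hb
          rw [mul_add]
          exact Submodule.add_mem _ ha hb
        · intro a b _ hb
          have : y l * (a • b) = a * (y l * b) := by rw [smul_eq_mul]; ring
          rw [this]
          exact Ideal.mul_mem_left _ _ hb
      have i4 : ∀ z ∈ Ideal.span (mo '' (S : Set (Fin n → ℕ))),
          ∃ a ∈ Ideal.span (mo '' (S₀ : Set (Fin n → ℕ))),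
            ∃ b ∈ Ideal.span (mo '' (S' : Set (Fin n → ℕ))), z = a + y l * b := by
        intro z hz
        refine Submodule.span_induction (p := fun z _ =>
          ∃ a ∈ Ideal.span (mo '' (S₀ : Set (Fin n → ℕ))),
            ∃ b ∈ Ideal.span (mo '' (S' : Set (Fin n → ℕ))), z = a + y l * b) ?_ ?_ ?_ ?_ hz
        · rintro _ ⟨β, hβ, rfl⟩
          by_cases h0 : β l = 0
          · exact ⟨mo β, Ideal.subset_span ⟨β, Finset.mem_coe.2 (Finset.mem_filter.2
              ⟨Finset.mem_coe.1 hβ, h0⟩), rfl⟩, 0, Submodule.zero_mem _, by ring⟩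
          · refine ⟨0, Submodule.zero_mem _, mo (Function.update β l (β l - 1)),
              Ideal.subset_span ⟨_, Finset.mem_coe.2 (Finset.mem_image.2
                ⟨β, Finset.mem_coe.1 hβ, rfl⟩), rfl⟩, ?_⟩
            rw [zero_add]
            exact satr_update y β l h0
        · exact ⟨0, Submodule.zero_mem _, 0, Submodule.zero_mem _, by ring⟩
        · rintro u v _ _ ⟨a, ha, b, hb, rfl⟩ ⟨a', ha', b', hb', rfl⟩
          exact ⟨a + a', Submodule.add_mem _ ha ha', b + b', Submodule.add_mem _ hb hb', by ring⟩
        · rintro c u _ ⟨a, ha, b, hb, rfl⟩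
          exact ⟨c * a, Ideal.mul_mem_left _ _ ha, c * b, Ideal.mul_mem_left _ _ hb, by
            rw [smul_eq_mul]; ring⟩
      have i5 : y l ∉ Ideal.span (y '' ((T ∪ J : Finset (Fin n)) : Set (Fin n))) :=
        hy _ l (fun hc => (Finset.mem_union.1 hc).elim hl hlJ)
      have sS₀ : ∀ β ∈ S₀, ∀ i, i ∉ T → β i = 0 := by
        intro β hβ i hi
        have hβ' := Finset.mem_filter.1 hβ
        by_cases hil : i = l
        · rw [hil]
          exact hβ'.2
        · exact hS β hβ'.1 i (fun hc => (Finset.mem_insert.1 hc).elim hil hi)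
      -- step (1)
      have s1 : ∀ z, y l * z ∈ Ideal.span (mo '' (S : Set (Fin n → ℕ))) ⊔
            Ideal.span (y '' (J : Set (Fin n))) →
          z ∈ Ideal.span (mo '' (S' : Set (Fin n → ℕ))) ⊔
            Ideal.span (y '' (J : Set (Fin n))) := by
        intro z hz
        obtain ⟨u, hu, q, hq, huq⟩ := Submodule.mem_sup.1 hz
        obtain ⟨a, ha, b, hb, rfl⟩ := i4 u hu
        have h1 : y l * (z - b) ∈ Ideal.span (mo '' (S₀ : Set (Fin n → ℕ))) ⊔
            Ideal.span (y '' (J : Set (Fin n))) := by
          have : y l * (z - b) = a + q := by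
            rw [mul_sub, ← huq]
            ring
          rw [this]
          exact Submodule.add_mem_sup ha hq
        have h2 := ih J hTJ (y l) i5 S₀ sS₀ (z - b) h1
        have h3 : z = (z - b) + b := by ring
        rw [h3]
        exact Submodule.add_mem _ (sup_le_sup_right i2 _ h2) (Submodule.mem_sup_left hb)
      -- step (2)
      have hJl : Disjoint T (insert l J) := by
        rw [Finset.disjoint_insert_right]
        exact ⟨hl, hTJ⟩
      have hun : T ∪ insert l J = insert l T ∪ J := by
        rw [Finset.union_insert, Finset.insert_union]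
      have s2 : h * f ∈ Ideal.span (mo '' (S₀ : Set (Fin n → ℕ))) ⊔
          Ideal.span (y '' ((insert l J : Finset (Fin n)) : Set (Fin n))) := by
        obtain ⟨u, hu, q, hq, huq⟩ := Submodule.mem_sup.1 hf
        obtain ⟨a, ha, b, hb, rfl⟩ := i4 u hu
        rw [← huq, add_assoc]
        refine Submodule.add_mem_sup ha (Submodule.add_mem _ ?_ ?_)
        · exact Ideal.mul_mem_right _ _ (Ideal.subset_span ⟨l, Finset.mem_coe.2
            (Finset.mem_insert_self l J), rfl⟩)
        · exact Ideal.span_mono (Set.image_mono (Finset.coe_subset.2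
            (Finset.subset_insert l J))) hq
      have s3 := ih (insert l J) hJl h (by rw [hun]; exact hh) S₀ sS₀ f s2
      obtain ⟨a, ha, w, hw, haw⟩ := Submodule.mem_sup.1 s3
      rw [Finset.coe_insert, Set.image_insert_eq] at hw
      obtain ⟨f₁, q, hq, hwq⟩ := Ideal.mem_span_insert.1 hw
      have hf' : f = a + y l * f₁ + q := by
        rw [← haw, hwq]
        ring
      have s4 : y l * (h * f₁) ∈ Ideal.span (mo '' (S : Set (Fin n → ℕ))) ⊔
            Ideal.span (y '' (J : Set (Fin n))) := by
        have : y l * (h * f₁) = h * f - h * a - h * q := by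
          rw [hf']
          ring
        rw [this]
        refine Submodule.sub_mem _ (Submodule.sub_mem _ hf ?_) ?_
        · exact Submodule.mem_sup_left (Ideal.mul_mem_left _ _ (i1 ha))
        · exact Submodule.mem_sup_right (Ideal.mul_mem_left _ _ hq)
      have s5 := s1 _ s4
      have s6 : f₁ ∈ Ideal.span (mo '' (S' : Set (Fin n → ℕ))) ⊔
            Ideal.span (y '' (J : Set (Fin n))) := by
        refine ihd h hh S' ?_ f₁ s5 ?_
        · intro γ hγ i hi
          obtain ⟨β, hβ, rfl⟩ := Finset.mem_image.1 hγ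
          have hil : i ≠ l := fun hc => hi (hc ▸ Finset.mem_insert_self l T)
          rw [Function.update_of_ne hil]
          exact hS β hβ i hi
        · intro γ hγ
          obtain ⟨β, hβ, rfl⟩ := Finset.mem_image.1 hγ
          rw [Function.update_self]
          have := hd β hβ
          omega
      obtain ⟨v, hv, q', hq', hvq⟩ := Submodule.mem_sup.1 s6
      have hf'' : f = (a + y l * v) + (y l * q' + q) := by
        rw [hf', ← hvq]
        ring
      rw [hf'']
      exact Submodule.add_mem_sup (Submodule.add_mem _ (i1 ha) (i3 v hv))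
        (Submodule.add_mem _ (Ideal.mul_mem_left _ _ hq') hq)

theorem mem_monomial_of_mul_mem {C : Type} [CommRing C] {n : ℕ} (y : Fin n → C)
    (hp : ∀ J : Finset (Fin n), (Ideal.span (y '' (J : Set (Fin n)))).IsPrime)
    (hy : ∀ (J : Finset (Fin n)) (l : Fin n), l ∉ J → y l ∉ Ideal.span (y '' (J : Set (Fin n))))
    {h : C} (hh : h ∉ Ideal.span (Set.range y)) (S : Finset (Fin n → ℕ)) (f : C)
    (hf : h * f ∈ Ideal.span ((fun α : Fin n → ℕ => ∏ i, y i ^ α i) '' (S : Set (Fin n → ℕ)))) :
    f ∈ Ideal.span ((fun α : Fin n → ℕ => ∏ i, y i ^ α i) '' (S : Set (Fin n → ℕ))) := by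
  have h1 := satr_main y hp hy Finset.univ ∅ (Finset.disjoint_empty_right _) h
    (by rw [Finset.union_empty, Finset.coe_univ, Set.image_univ]; exact hh) S
    (fun β _ i hi => (hi (Finset.mem_univ i)).elim) f
  rw [Finset.coe_empty, Set.image_empty, Ideal.span_empty, sup_bot_eq] at h1
  exact h1 hf

end Pool.Agent.MP_b525bf_ag_ES
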