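import Pool.Agent.Lib.MP_b525bf_ag_ES.SATP
import Pool.Agent.Lib.MP_b525bf_ag_ES.SATR
import Pool.Agent.Lib.MP_b525bf_ag_ES.LOCZ

/-!
# Theorem ES, row SAT
Saturated charts. Recipe. `R := locV V B`. For `J` a set of indices let `P_J` be the prime ideal
`{b ∈ B : InMon R x (unit vectors of J) b}` of `B` (row SATP). `B` is Noetherian, so `P_J` has finitely
many generators `p`; for each of them there is `q_p ∈ B`, `V(q_p) = 1` with `q_p p ∈ (x_J) B` (common
denominator). `q` := the product of all `q_p`, for all `J`. Let `B' := adjoin (B ∪ {q⁻¹})`. Every element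
of `B'` is `b / q^m`. The ideal `(x_J) B'` is equal to `{b ∈ B' : InMon R x (unit vectors of J) b}`, so
it is prime, and does not contain `x_l`, `l ∉ J`, nor any `b ∈ B'` with `V(b) = 1`. Let
`f ∈ B'`, `InMon R x S f`: a common denominator `d ∈ B` with `V(d) = 1` has `d f ∈ (x^S) B'`, so
`f ∈ (x^S) B'` by row SATR. (`locV V B' = locV V B` by row LOCZ.)
-/

set_option autoImplicit false
set_option linter.unusedVariables false

namespace Pool.Agent.MP_b525bf_ag_ES

open Pool.Agent.LU2 Pool.Agent.MP_b525bf_ag Pool.Agent.MP_b525bf_ag_W Pool.Agent.MP_b525bf_ag_E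

variable {k K : Type} [Field k] [Field K] [Algebra k K] {G : Subgroup (K ≃ₐ[k] K)}
  {A : Subalgebra k K} {M : IntermediateField k K} {L : Set K}

variable {V W : ValuationSubring K} {B : Subalgebra k K} {n : ℕ} {x : Fin n → K}

private def SAT_e {n : ℕ} (J : Finset (Fin n)) : Finset (Fin n → ℕ) :=
  J.image fun j => Pi.single j 1

private theorem SAT_iff {C : Subalgebra k K} (hx : ∀ i, x i ∈ C) (S : Finset (Fin n → ℕ))
    (f : C) : f ∈ Ideal.span ((fun α : Fin n → ℕ => ∏ i, (⟨x i, hx i⟩ : C) ^ α i) ''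
      (S : Set (Fin n → ℕ))) ↔ InMon C x S (f : K) := by
  have hco : ∀ α : Fin n → ℕ, ((∏ i, (⟨x i, hx i⟩ : C) ^ α i : C) : K) = mon x (zx α) := by
    intro α
    rw [SubmonoidClass.coe_finsetProd]
    unfold mon zx
    refine Finset.prod_congr rfl fun i _ => ?_
    rw [zpow_natCast]
    rfl
  unfold Ideal.span
  rw [Submodule.mem_span_image_finset_iff_exists_fun']
  constructor
  · rintro ⟨c, hc⟩
    refine ⟨fun α => (c α : K), fun α _ => (c α).2, ?_⟩
    rw [← hc, AddSubmonoidClass.coe_finsetSum]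
    refine Finset.sum_congr rfl fun α _ => ?_
    rw [smul_eq_mul, MulMemClass.coe_mul, hco]
  · rintro ⟨c, hc, hf⟩
    classical
    refine ⟨fun α => if h : α ∈ S then ⟨c α, hc α h⟩ else 0, ?_⟩
    apply Subtype.ext
    rw [AddSubmonoidClass.coe_finsetSum, hf]
    refine Finset.sum_congr rfl fun α hα => ?_
    simp only [dif_pos hα]
    rw [smul_eq_mul, MulMemClass.coe_mul, hco]

private theorem SAT_prod {C : Type} [CommRing C] (y : Fin n → C) (j : Fin n) :
    (∏ i, y i ^ (Pi.single j 1 : Fin n → ℕ) i) = y j := by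
  rw [Finset.prod_eq_single j]
  · rw [Pi.single_eq_same, pow_one]
  · intro i _ hij
    rw [Pi.single_eq_of_ne hij, pow_zero]
  · intro h
    exact absurd (Finset.mem_univ j) h

private theorem SAT_span {C : Type} [CommRing C] (y : Fin n → C) (J : Finset (Fin n)) :
    Ideal.span (y '' (J : Set (Fin n))) =
      Ideal.span ((fun α : Fin n → ℕ => ∏ i, y i ^ α i) '' (SAT_e J : Set (Fin n → ℕ))) := by
  congr 1
  unfold SAT_e
  rw [Finset.coe_image, Set.image_image]
  refine Set.image_congr fun j _ => ?_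
  exact (SAT_prod y j).symm

private theorem SAT_den (S : Finset (Fin n → ℕ)) {f : K} (hf : InMon (locV V B) x S f) :
    ∃ d ∈ B, V.valuation d = 1 ∧ InMon B x S (d * f) := by
  classical
  obtain ⟨c, hc, rfl⟩ := hf
  have hc' : ∀ α ∈ S, ∃ a ∈ B, ∃ b ∈ B, V.valuation b = 1 ∧ c α = a / b := hc
  choose! a ha b hb hvb hab using hc'
  refine ⟨∏ α ∈ S, b α, B.prod_mem hb, ?_, fun α => a α * ∏ β ∈ S.erase α, b β, ?_, ?_⟩
  · rw [map_prod]
    exact Finset.prod_eq_one hvb
  · intro α hα
    exact B.mul_mem (ha α hα) (B.prod_mem fun β hβ => hb β (Finset.mem_of_mem_erase hβ))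
  · rw [Finset.mul_sum]
    refine Finset.sum_congr rfl fun α hα => ?_
    have hb0 : b α ≠ 0 := by
      intro h0
      have := hvb α hα
      rw [h0, map_zero] at this
      exact zero_ne_one this
    rw [hab α hα, ← Finset.mul_prod_erase S b hα]
    field_simp

private theorem SAT_mono {C C' : Subalgebra k K} (h : C ≤ C') {S : Finset (Fin n → ℕ)} {f : K}
    (hf : InMon C x S f) : InMon C' x S f := by
  obtain ⟨c, hc, hf⟩ := hf
  exact ⟨c, fun α hα => h (hc α hα), hf⟩

private theorem SAT_mul {C : Subalgebra k K} {S : Finset (Fin n → ℕ)} {f g : K} (hg : g ∈ C)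
    (hf : InMon C x S f) : InMon C x S (g * f) := by
  obtain ⟨c, hc, rfl⟩ := hf
  refine ⟨fun α => g * c α, fun α hα => C.mul_mem hg (hc α hα), ?_⟩
  rw [Finset.mul_sum]
  exact Finset.sum_congr rfl fun α _ => by ring

/-- one common denominator for the ideal `P_J` -/
private theorem SAT_one (hfg : B.FG) (hxB : ∀ i, x i ∈ B) (S : Finset (Fin n → ℕ)) :
    ∃ q ∈ B, V.valuation q = 1 ∧ ∀ p ∈ B, InMon (locV V B) x S p → InMon B x S (q * p) := by
  classical
  have : IsNoetherianRing B := isNoetherianRing_of_fg hfg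
  have hxR : ∀ i, x i ∈ locV V B := fun i => le_locV B (hxB i)
  let P : Ideal B := Ideal.comap (Subalgebra.inclusion (le_locV (V := V) B)).toRingHom
    (Ideal.span ((fun α : Fin n → ℕ => ∏ i, (⟨x i, hxR i⟩ : locV V B) ^ α i) ''
      (S : Set (Fin n → ℕ))))
  have hP : ∀ p : B, p ∈ P ↔ InMon (locV V B) x S (p : K) := by
    intro p
    exact SAT_iff (C := locV V B) hxR S (Subalgebra.inclusion (le_locV (V := V) B) p)
  obtain ⟨T, hT⟩ := (isNoetherian_def.1 this) P
  have hden : ∀ p : B, p ∈ T → ∃ d ∈ B, V.valuation d = 1 ∧ InMon B x S (d * p) := by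
    intro p hp
    exact SAT_den S ((hP p).1 (hT ▸ Submodule.subset_span hp))
  choose! d hd hvd hdp using hden
  refine ⟨∏ p ∈ T, d p, B.prod_mem hd, ?_, ?_⟩
  · rw [map_prod]
    exact Finset.prod_eq_one hvd
  · intro p hp hpS
    have h1 : (⟨p, hp⟩ : B) ∈ Submodule.span B (T : Set B) := by
      rw [hT, hP]
      exact hpS
    have key : ∀ z : B, z ∈ Submodule.span B (T : Set B) →
        (⟨∏ p ∈ T, d p, B.prod_mem hd⟩ : B) * z ∈
          Ideal.span ((fun α : Fin n → ℕ => ∏ i, (⟨x i, hxB i⟩ : B) ^ α i) ''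
            (S : Set (Fin n → ℕ))) := by
      intro z hz
      induction hz using Submodule.span_induction with
      | mem z hz =>
        rw [SAT_iff]
        change InMon B x S ((∏ p ∈ T, d p) * (z : K))
        rw [← Finset.mul_prod_erase T d hz]
        have h2 := SAT_mul (g := ∏ p ∈ T.erase z, d p)
          (B.prod_mem fun β hβ => hd β (Finset.mem_of_mem_erase hβ)) (hdp z hz)
        convert h2 using 1
        ring
      | zero =>
        rw [mul_zero]
        exact Submodule.zero_mem _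
      | add z w _ _ hz hw =>
        rw [mul_add]
        exact Submodule.add_mem _ hz hw
      | smul r z _ hz =>
        rw [smul_eq_mul, mul_left_comm]
        exact Ideal.mul_mem_left _ _ hz
    have h3 := key _ h1
    rw [SAT_iff] at h3
    exact h3

private theorem SAT_pow {q : K} (hq0 : q ≠ 0) (hq : q ∈ B) {f : K}
    (hf : f ∈ Algebra.adjoin k ((B : Set K) ∪ {q⁻¹})) : ∃ m : ℕ, q ^ m * f ∈ B := by
  induction hf using Algebra.adjoin_induction with
  | mem z hz =>
    rcases hz with hz | hz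
    · exact ⟨0, by rw [pow_zero, one_mul]; exact hz⟩
    · refine ⟨1, ?_⟩
      rw [Set.mem_singleton_iff.1 hz, pow_one, mul_inv_cancel₀ hq0]
      exact B.one_mem
  | algebraMap r => exact ⟨0, by rw [pow_zero, one_mul]; exact B.algebraMap_mem r⟩
  | add z w _ _ hz hw =>
    obtain ⟨a, ha⟩ := hz
    obtain ⟨b, hb⟩ := hw
    refine ⟨a + b, ?_⟩
    have h1 := B.mul_mem (B.pow_mem hq b) ha
    have h2 := B.mul_mem (B.pow_mem hq a) hb
    have h3 := B.add_mem h1 h2
    convert h3 using 1
    ring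
  | mul z w _ _ hz hw =>
    obtain ⟨a, ha⟩ := hz
    obtain ⟨b, hb⟩ := hw
    refine ⟨a + b, ?_⟩
    have h1 := B.mul_mem ha hb
    convert h1 using 1
    ring

theorem exists_sat (h : Hyp G A) (hV : Inv G A V) (hc : ChartAt G A V B x) : ∃ q ∈ B,
    V.valuation q = 1 ∧ SatAt V (Algebra.adjoin k ((B : Set K) ∪ {q⁻¹})) x := by
  classical
  obtain ⟨hloc, hAB, hind, hstab, hpar⟩ := id hc
  have hfg := hloc.fg
  -- the parameters are in `B`
  have hxB : ∀ i, x i ∈ B := hloc.sm.choose
  have hone := fun J : Finset (Fin n) => SAT_one (V := V) (x := x) hfg hxB (SAT_e J)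
  choose qJ hqJB hqJv hqJ using hone
  set q : K := ∏ J : Finset (Fin n), qJ J with hq
  have hqB : q ∈ B := B.prod_mem fun J _ => hqJB J
  have hqv : V.valuation q = 1 := by
    rw [hq, map_prod]
    exact Finset.prod_eq_one fun J _ => hqJv J
  have hq0 : q ≠ 0 := by
    intro h0
    rw [h0, map_zero] at hqv
    exact zero_ne_one hqv
  refine ⟨q, hqB, hqv, ?_⟩
  set B' : Subalgebra k K := Algebra.adjoin k ((B : Set K) ∪ {q⁻¹}) with hB'
  have hlocB' : locV V B' = locV V B := locV_adjoin_inv hqB hqv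
  have hBB' : B ≤ B' := fun b hb => Algebra.subset_adjoin (Or.inl hb)
  have hqi : q⁻¹ ∈ B' := Algebra.subset_adjoin (Or.inr rfl)
  have hB'R : ∀ f ∈ B', f ∈ locV V B := by
    intro f hf
    rw [← hlocB']
    exact le_locV B' hf
  have hB'V : ∀ f ∈ B', f ∈ V := fun f hf => locV_mem hloc.mem f (hB'R f hf)
  have hxB' : ∀ i, x i ∈ B' := fun i => hBB' (hxB i)
  -- the ideals generated by some of the parameters
  have hJ : ∀ (J : Finset (Fin n)), ∀ f ∈ B', InMon (locV V B) x (SAT_e J) f →
      InMon B' x (SAT_e J) f := by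
    intro J f hf hfJ
    obtain ⟨m, hm⟩ := SAT_pow hq0 hqB hf
    have h1 : InMon (locV V B) x (SAT_e J) (q ^ m * f) :=
      SAT_mul (le_locV B (B.pow_mem hqB m)) hfJ
    have h2 := hqJ J _ hm h1
    have h3 := SAT_mul (g := ∏ J' ∈ Finset.univ.erase J, qJ J')
      (B.prod_mem fun J' _ => hqJB J') h2
    have h4 := SAT_mul (g := q⁻¹ ^ (m + 1)) (B'.pow_mem hqi (m + 1)) (SAT_mono hBB' h3)
    have h5 : q⁻¹ ^ (m + 1) * ((∏ J' ∈ Finset.univ.erase J, qJ J') *
        (qJ J * (q ^ m * f))) = f := by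
      have h6 : q = qJ J * ∏ J' ∈ Finset.univ.erase J, qJ J' :=
        (Finset.mul_prod_erase Finset.univ qJ (Finset.mem_univ J)).symm
      calc _ = q⁻¹ ^ (m + 1) * ((qJ J * ∏ J' ∈ Finset.univ.erase J, qJ J') * q ^ m * f) := by ring
        _ = q⁻¹ ^ (m + 1) * (q * q ^ m * f) := by rw [← h6]
        _ = (q⁻¹ * q) ^ (m + 1) * f := by rw [mul_pow]; ring
        _ = f := by rw [inv_mul_cancel₀ hq0, one_pow, one_mul]
    rw [h5] at h4
    exact h4
  have hJ' : ∀ (J : Finset (Fin n)), ∀ f ∈ B', InMon B' x (SAT_e J) f →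
      InMon (locV V B) x (SAT_e J) f := fun J f hf hfJ => SAT_mono hB'R hfJ
  have hmemJ : ∀ (J : Finset (Fin n)) (f : B'),
      f ∈ Ideal.span ((fun i => (⟨x i, hxB' i⟩ : B')) '' (J : Set (Fin n))) ↔
        InMon (locV V B) x (SAT_e J) (f : K) := by
    intro J f
    rw [SAT_span, SAT_iff]
    exact ⟨fun hh => hJ' J _ f.2 hh, fun hh => hJ J _ f.2 hh⟩
  intro S f hf hfS
  rw [hlocB'] at hfS
  obtain ⟨d, hdB, hdv, hdf⟩ := SAT_den S hfS
  have hdf' := SAT_mono hBB' hdf
  have hmain := mem_monomial_of_mul_mem (C := B') (fun i => (⟨x i, hxB' i⟩ : B'))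
    (fun J => by
      obtain ⟨hp1, hp2, hp3⟩ := prime_J h hV hc J
      constructor
      · intro htop
        have h1 : (1 : B') ∈ Ideal.span ((fun i => (⟨x i, hxB' i⟩ : B')) ''
            (J : Set (Fin n))) := by
          rw [htop]
          exact Submodule.mem_top
        rw [hmemJ] at h1
        exact hp3 h1
      · intro a b hab
        rw [hmemJ] at hab ⊢
        rw [hmemJ]
        exact hp1 a (hB'R _ a.2) b (hB'R _ b.2) hab)
    (fun J l hl hmem => by
      obtain ⟨hp1, hp2, hp3⟩ := prime_J h hV hc J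
      rw [hmemJ] at hmem
      exact hp2 l hl hmem)
    (h := ⟨d, hBB' hdB⟩)
    (by
      intro hmem
      have h1 : (⟨d, hBB' hdB⟩ : B') ∈ Ideal.span ((fun i => (⟨x i, hxB' i⟩ : B')) ''
          ((Finset.univ : Finset (Fin n)) : Set (Fin n))) := by
        rw [Finset.coe_univ, Set.image_univ]
        exact hmem
      rw [hmemJ] at h1
      have h2 := hJ _ _ (hBB' hdB) h1
      obtain ⟨c, hc1, hc2⟩ := h2
      have h3 : V.valuation d < 1 := by
        change d = _ at hc2
        rw [hc2]
        refine V.valuation.map_sum_lt one_ne_zero ?_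
        intro α hα
        unfold SAT_e at hα
        rw [Finset.mem_image] at hα
        obtain ⟨j, -, rfl⟩ := hα
        have h4 : mon x (zx (Pi.single j 1 : Fin n → ℕ)) = x j := by
          unfold mon zx
          have := SAT_prod x j
          rw [← this]
          refine Finset.prod_congr rfl fun i _ => ?_
          rw [zpow_natCast]
        rw [h4, map_mul]
        have h5 : V.valuation (c (Pi.single j 1)) ≤ 1 := by
          rw [V.valuation_le_one_iff]
          apply hB'V
          apply hc1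
          unfold SAT_e
          rw [Finset.mem_image]
          exact ⟨j, Finset.mem_univ j, rfl⟩
        exact mul_lt_one_of_nonneg_of_lt_one_right h5 zero_le (hloc.pos j)
      rw [hdv] at h3
      exact lt_irrefl _ h3)
    S ⟨f, hf⟩
    (by
      rw [SAT_iff]
      exact hdf')
  rw [SAT_iff] at hmain
  exact hmain

end Pool.Agent.MP_b525bf_ag_ES
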