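import Pool.Agent.Lib.MP_b525bf_ag_ES.PAG
import Pool.Agent.Lib.MP_b525bf_ag_ES.LAM
import Pool.Agent.Lib.MP_b525bf_ag_ES.SAT
import Pool.Agent.Lib.MP_b525bf_ag_ES.CHSR

/-!
# Theorem ES, row PT
The chart at a point. Recipe. If `M ⊆ V` let `E₁` be as in `exists_page_zero`, otherwise as in `exists_page`
(row PAG): in both cases `E₁ ⊆ V` finite, and every `m ∈ M ∩ V` is `a / b`, `a, b ∈ adjoin k E₁`,
`V(b) = 1` (page zero: all nonzero elements of `M` have value one). `A' := adjoin (A ∪ E ∪ E₁)`; as in the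
proof of `exists_atlas` in E/MAIN.lean: `lu_of_defLE`, `exists_isPar` (for `A'`, `IsFrac A'`),
`exists_loc`, `exists_chartAt'` (row GE): a chart `ChartAt G A V B z`, `A' ≤ B`. `exists_lam` (row LAM) gives
`B' ≥ B`, `x`; `exists_sat` (row SAT) gives `q`, `B'' := adjoin (B' ∪ {q⁻¹})`, `chartAt_adjoin_inv`, `LamAt` for
`B''` (`locV_adjoin_inv`), `exists_pt_of` (row CHSR (c)).
-/

set_option autoImplicit false
set_option linter.unusedVariables false

namespace Pool.Agent.MP_b525bf_ag_ES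

open Pool.Agent.LU2 Pool.Agent.MP_b525bf_ag Pool.Agent.MP_b525bf_ag_W Pool.Agent.MP_b525bf_ag_E

variable {k K : Type} [Field k] [Field K] [Algebra k K] {G : Subgroup (K ≃ₐ[k] K)}
  {A : Subalgebra k K} {M : IntermediateField k K} {L : Set K}

variable {V W : ValuationSubring K} {B : Subalgebra k K} {n : ℕ} {x : Fin n → K}

theorem exists_pt [PerfectField k] [Infinite k] (hreal : RealCase k) (h : Hyp G A)
    (hfin : Algebra.trdeg k K < Cardinal.aleph0) (hC : Cx G A M L) (hM : M.FG)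
    (hV : Inv G A V) (hdef : DefLE k V 0) (E : Finset K) (hE : ∀ e ∈ E, e ∈ V) :
    ∃ (n : ℕ) (B : Subalgebra k K) (x : Fin n → K) (C : Finset K) (b : K),
      Pt G A M L V B x C b ∧ ∀ e ∈ E, e ∈ B := by
  classical
  have hk : ∀ c : k, algebraMap k K c ∈ V := fun c => hV.le _ (A.algebraMap_mem c)
  obtain ⟨E₁, hE₁V, hE₁⟩ : ∃ E₁ : Finset K, (∀ e ∈ E₁, e ∈ V) ∧ ∀ m ∈ M, m ∈ V →
      ∃ a ∈ Algebra.adjoin k (E₁ : Set K), ∃ b ∈ Algebra.adjoin k (E₁ : Set K),
        V.valuation b = 1 ∧ m = a / b := by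
    by_cases hMV : ∀ m ∈ M, m ∈ V
    · obtain ⟨E₁, hE1, hE2⟩ := exists_page_zero hM
      refine ⟨E₁, fun e he => hMV e (hE1 e he).1, fun m hm _ => ?_⟩
      obtain ⟨a, ha, b, hb, hb0, hmab⟩ := hE2 m hm
      refine ⟨a, ha, b, hb, ?_, hmab⟩
      have hle : Algebra.adjoin k (E₁ : Set K) ≤ M.toSubalgebra :=
        Algebra.adjoin_le fun e he => (hE1 e he).1
      have hbM : b ∈ M := hle hb
      have h1 : V.valuation b ≤ 1 := (V.valuation_le_one_iff b).2 (hMV b hbM)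
      have h2 : V.valuation b⁻¹ ≤ 1 := (V.valuation_le_one_iff _).2 (hMV _ (M.inv_mem hbM))
      have h3 : V.valuation b ≠ 0 := (V.valuation.ne_zero_iff).2 hb0
      rw [map_inv₀] at h2
      refine le_antisymm h1 ?_
      calc (1 : V.ValueGroup) = V.valuation b * (V.valuation b)⁻¹ := (mul_inv_cancel₀ h3).symm
        _ ≤ V.valuation b * 1 := mul_le_mul_right h2 _
        _ = V.valuation b := mul_one _
    · push Not at hMV
      obtain ⟨E₁, E', hp⟩ := exists_page hreal hfin hM hC.tr hk hMV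
      exact ⟨E₁, fun e he => (hp.mem e he).2, hp.ess⟩
  -- the algebra generated by everything
  obtain ⟨F, hF⟩ := h.fg
  obtain ⟨A', hA'⟩ : ∃ A' : Subalgebra k K,
      A' = Algebra.adjoin k ((F ∪ (E ∪ E₁) : Finset K) : Set K) := ⟨_, rfl⟩
  have hFG : A'.FG := ⟨_, hA'.symm⟩
  have hAA' : A ≤ A' := by
    rw [← hF, hA']
    refine Algebra.adjoin_mono ?_
    rw [Finset.coe_union]
    exact Set.subset_union_left
  have hEA' : ∀ e ∈ E, e ∈ A' := fun e he => hA' ▸ Algebra.subset_adjoin (by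
    simp only [Finset.coe_union]
    exact Or.inr (Or.inl he))
  have hE₁A' : ∀ e ∈ E₁, e ∈ A' := fun e he => hA' ▸ Algebra.subset_adjoin (by
    simp only [Finset.coe_union]
    exact Or.inr (Or.inr he))
  have hA'V : ∀ a ∈ A', a ∈ V := by
    intro a ha
    rw [hA'] at ha
    induction ha using Algebra.adjoin_induction with
    | mem a ha =>
      simp only [Finset.coe_union] at ha
      rcases ha with ha | ha | ha
      · exact hV.le a (hF ▸ Algebra.subset_adjoin ha)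
      · exact hE a ha
      · exact hE₁V a ha
    | algebraMap r => exact hk r
    | add a b _ _ ha hb => exact V.add_mem _ _ ha hb
    | mul a b _ _ ha hb => exact V.mul_mem _ _ ha hb
  have hfr : IsFrac A' := by
    intro f
    obtain ⟨a, ha, b, hb, hb0, hf⟩ := h.frac f
    exact ⟨a, hAA' ha, b, hAA' hb, hb0, hf⟩
  obtain ⟨B, hBfg, hAB, hBV, n, z, hz, hind⟩ :=
    exists_isPar (lu_of_defLE hreal hfin hk hdef) hdef hFG hA'V hfr
  obtain ⟨B', hBB, -, hloc⟩ := exists_loc hBfg hBV hz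
  obtain ⟨B'', x, bb, aa, -, hB'B'', hc⟩ :=
    exists_chartAt' h hV hloc ((hAA'.trans hAB).trans hBB) hind
  have hA'B'' : A' ≤ B'' := (hAB.trans hBB).trans hB'B''
  have hadj : Algebra.adjoin k (E₁ : Set K) ≤ B'' :=
    Algebra.adjoin_le fun e he => hA'B'' (hE₁A' e he)
  have hpage : ∀ m ∈ M, m ∈ V → m ∈ locV V B'' := by
    intro m hm hmV
    obtain ⟨a, ha, b, hb, hb1, hmab⟩ := hE₁ m hm hmV
    exact ⟨a, hadj ha, b, hadj hb, hb1, hmab⟩
  obtain ⟨B₃, x', -, hc3, hl3, hE3⟩ := exists_lam h hC hV hc hpage E hE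
  obtain ⟨q, hq, hvq, hsat⟩ := exists_sat h hV hc3
  have hc4 := chartAt_adjoin_inv hc3 hq hvq
  have hle : B₃ ≤ Algebra.adjoin k ((B₃ : Set K) ∪ {q⁻¹}) := fun b hb =>
    Algebra.subset_adjoin (Or.inl hb)
  have hl4 : LamAt M L V (Algebra.adjoin k ((B₃ : Set K) ∪ {q⁻¹})) x' := by
    refine ⟨fun m hm hmV => ?_, fun l hl => ?_⟩
    · rw [locV_adjoin_inv hq hvq]
      exact hl3.page m hm hmV
    · obtain ⟨m, hm, hm1, u, hu, hu0, hui, e, he⟩ := hl3.lam l hl
      exact ⟨m, hm, hm1, u, hle hu, hu0, hle hui, e, he⟩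
  obtain ⟨C, b, hpt⟩ := exists_pt_of h hV hc4 hl4 hsat
  exact ⟨n, _, x', C, b, hpt, fun e he => hle (hE3 e he)⟩

end Pool.Agent.MP_b525bf_ag_ES
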