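import Pool.Agent.Lib.MP_b525bf_ag_ES.ORD
import Pool.Agent.Lib.MP_b525bf_ag_ES.CMPL

/-!
# Theorem ES, row NBP
Neighbourhoods on a page. Recipe. `pos` from `exists_posOrd` (row ORD), so `pos e → W(x^e) ≤ 1`.
`W₁` from `exists_ord`: `R := locV V B ⊆ W₁`, `W₁(x^e) < 1` for `pos e`. Claim: `l ∈ L`, `l ∈ W₁` imply
`l ∈ W`: `l = m * u * x^e` (`hl.lam`), `V(m) = 1`, so `m, m⁻¹ ∈ V ∩ M`, so `m, m⁻¹ ∈ W` (`hP`) and
`m, m⁻¹ ∈ R ⊆ W₁` (`hl.page`), `u, u⁻¹ ∈ B`; so `W₁(x^e) ≤ 1`, so not `pos (-e)`, so `e = 0` or `pos e`, so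
`W(x^e) ≤ 1`. By `le_of_L` (row CMPL) `W₁ ≤ W`, so `R ⊆ W`. `MonoW`: for a Rep `f, S, c`
`lead_mon` gives `α ∈ S` with `W₁(f) = W₁(x^α)` and `pos (β - α)` for the other `β ∈ S`. As `W₁ ≤ W` also
`W(f) = W(x^α)` (`val_eq_one_of_le` in LU2_h15/Basic for `f / x^α`) and `W(x^(β - α)) ≤ 1`.
-/

set_option autoImplicit false
set_option linter.unusedVariables false

namespace Pool.Agent.MP_b525bf_ag_ES

open Pool.Agent.LU2 Pool.Agent.MP_b525bf_ag Pool.Agent.MP_b525bf_ag_W Pool.Agent.MP_b525bf_ag_E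

variable {k K : Type} [Field k] [Field K] [Algebra k K] {G : Subgroup (K ≃ₐ[k] K)}
  {A : Subalgebra k K} {M : IntermediateField k K} {L : Set K}

variable {V W : ValuationSubring K} {B : Subalgebra k K} {n : ℕ} {x : Fin n → K}

private theorem mon_add_NBP (hx : ∀ i, x i ≠ 0) (a b : Fin n → ℤ) :
    mon x (a + b) = mon x a * mon x b := by
  rw [mon, mon, mon, ← Finset.prod_mul_distrib]
  refine Finset.prod_congr rfl fun i _ => ?_
  rw [Pi.add_apply, zpow_add₀ (hx i)]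

private theorem mon_ne_NBP (hx : ∀ i, x i ≠ 0) (a : Fin n → ℤ) : mon x a ≠ 0 :=
  Finset.prod_ne_zero_iff.2 fun i _ => zpow_ne_zero _ (hx i)

private theorem mon_zero_NBP (x : Fin n → K) : mon x 0 = 1 := by
  rw [mon]
  exact Finset.prod_eq_one fun i _ => by rw [Pi.zero_apply, zpow_zero]

/-- an element whose inverse is also in the ring has valuation one -/
private theorem val_one_NBP {W : ValuationSubring K} {f : K} (h0 : f ≠ 0) (h1 : f ∈ W)
    (h2 : f⁻¹ ∈ W) : W.valuation f = 1 := by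
  refine le_antisymm ((W.valuation_le_one_iff f).2 h1) ?_
  have h3 := (W.valuation_le_one_iff f⁻¹).2 h2
  rw [map_inv₀] at h3
  have h4 : W.valuation f ≠ 0 := (Valuation.ne_zero_iff _).2 h0
  by_contra h6
  push Not at h6
  have h7 := mul_lt_of_lt_of_le_one h6 h3
  rw [mul_inv_cancel₀ h4] at h7
  exact lt_irrefl _ h7

theorem nbhd_page (h : Hyp G A) (hC : Cx G A M L) (hV : Inv G A V) (hc : ChartAt G A V B x)
    (hl : LamAt M L V B x) (hW : Inv G A W) (hB : ∀ b ∈ B, b ∈ W)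
    (hP : ∀ m ∈ M, m ∈ V → m ∈ W) : (∀ f ∈ locV V B, f ∈ W) ∧ MonoW (locV V B) x W := by
  have hx := hc.ne
  obtain ⟨hxB, -⟩ := hc.sm
  obtain ⟨pos, hp, hpW⟩ := exists_posOrd (W := W) hx fun i => hB _ (hxB i)
  obtain ⟨W₁, hW1, hR1, hpos1⟩ := exists_ord h hV hc hp
  have hclaim : ∀ l ∈ L, l ∈ W₁ → l ∈ W := by
    intro l hlL hl1
    obtain ⟨m, hm, hVm, u, hu, hu0, hui, e, rfl⟩ := hl.lam l hlL
    have hm0 : m ≠ 0 := by
      rintro rfl
      rw [map_zero] at hVm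
      exact zero_ne_one hVm
    have hmV : m ∈ V := (V.valuation_le_one_iff m).1 hVm.le
    have hmi : m⁻¹ ∈ M := M.inv_mem hm
    have hmiV : m⁻¹ ∈ V := by
      rw [← V.valuation_le_one_iff, map_inv₀, hVm, inv_one]
    have hWm : W.valuation m = 1 := val_one_NBP hm0 (hP _ hm hmV) (hP _ hmi hmiV)
    have hW1m : W₁.valuation m = 1 :=
      val_one_NBP hm0 (hR1 _ (hl.page _ hm hmV)) (hR1 _ (hl.page _ hmi hmiV))
    have hWu : W.valuation u = 1 := val_one_NBP hu0 (hB _ hu) (hB _ hui)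
    have hW1u : W₁.valuation u = 1 :=
      val_one_NBP hu0 (hR1 _ (le_locV B hu)) (hR1 _ (le_locV B hui))
    rw [← W₁.valuation_le_one_iff, map_mul, map_mul, hW1m, hW1u, one_mul, one_mul] at hl1
    rw [← W.valuation_le_one_iff, map_mul, map_mul, hWm, hWu, one_mul, one_mul]
    rcases hp.tri e with he | he | he
    · rw [he, mon_zero_NBP, map_one]
    · exact hpW e he
    · exfalso
      have h1 := hpos1 _ he
      have h2 : mon x e * mon x (-e) = 1 := by
        rw [← mon_add_NBP hx, add_neg_cancel, mon_zero_NBP]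
      have h3 : W₁.valuation (mon x e) * W₁.valuation (mon x (-e)) = 1 := by
        rw [← map_mul, h2, map_one]
      have h4 := mul_lt_of_le_one_of_lt hl1 h1
      rw [h3] at h4
      exact lt_irrefl _ h4
  have hle : W₁ ≤ W := le_of_L hC h.frac hW1 hW hclaim
  refine ⟨fun f hf => hle (hR1 f hf), ?_⟩
  intro f S c hr
  obtain ⟨α, hα, hoth, hval⟩ := lead_mon hx hR1 hp hpos1 hr
  have hne := mon_ne_NBP hx (zx α)
  have hne1 : W₁.valuation (mon x (zx α)) ≠ 0 := (Valuation.ne_zero_iff _).2 hne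
  have hneW : W.valuation (mon x (zx α)) ≠ 0 := (Valuation.ne_zero_iff _).2 hne
  have h1 : W₁.valuation (f / mon x (zx α)) = 1 := by
    rw [map_div₀, hval, div_self hne1]
  have h2 := val_eq_one_of_le hle h1
  have h3 : W.valuation (mon x (zx α)) = W.valuation f := by
    rw [map_div₀, div_eq_one_iff_eq hneW] at h2
    exact h2.symm
  refine ⟨⟨α, hα, h3⟩, fun β hβ => ?_⟩
  by_cases hβα : β = α
  · rw [hβα, h3]
  · have h4 := hpW _ (hoth β hβ hβα)
    have h5 : mon x (zx β) = mon x (zx β - zx α) * mon x (zx α) := by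
      rw [← mon_add_NBP hx, sub_add_cancel]
    rw [h5, map_mul, h3]
    exact mul_le_of_le_one_left zero_le h4

end Pool.Agent.MP_b525bf_ag_ES
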