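import Pool.Agent.Lib.MP_b525bf_ag_ES.PCV
import Pool.Agent.Lib.MP_b525bf_ag_ES.NBP
import Pool.Agent.Lib.LU2_h15.Basic

/-!
# Theorem ES, row UNI
The uniform exponent. Recipe. Pointwise: let `W ∈ Inv`, `E ⊆ W`, `E' ⊆ m_W`, `W(ε) < 1`. So `V₁ ∩ M ⊆ W`
(`hp.nbhd`). Choose `c ∈ C` with `W(c)` largest (`W(c) ≥ 1` as `1 ∈ C`), `d := ε / c`, `W(d) < 1`. Let
`W' := {z : ∃ m, z * d ^ m ∈ W}`, a valuation ring, `W ≤ W'`, `Inv G A W'` (`g z = z * (g z / z)`,
`g z / z ∈ W`; see also ALL of E/CMP.lean or `Inv` of coarsenings in E). `C ⊆ W'` because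
`c' * d = ε * (c' / c)`, so `B ⊆ W'`; `ε⁻¹ ∈ W'` because `ε⁻¹ * d = c⁻¹`. By `hp.max` (`m := ε⁻¹ ∉ V₁`) `M ⊆ W'`.
`nbhd_page` (row NBP) for `V`, `W'`: `MonoW`, so `W'(x^α) ≤ W'(f)` for `α ∈ S`: `x^α / f ∈ W'`, so there is
`m` with `W(x^α) W(d)^m ≤ W(f)`, one `m` for all `α ∈ S`. Uniformly: `exists_cover_rel` (row PCV) with
`T = E`, `T' = E' ∪ {ε}`, `E(W) := {x^α d^m / f : α ∈ S}`, `E'(W) := ∅`. `N₀` := the largest `m` of the cover.
If `W` is in the neighbourhood of `V i`, with `c_i`, `m_i ≤ N`, let `c'` be the element of `C` with `W(c')`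
largest: `W(x^α) W(ε)^N ≤ W(f) W(c_i)^(m_i) W(ε)^(N - m_i) ≤ W(f) W(c')^N`.
-/

set_option autoImplicit false
set_option linter.unusedVariables false

namespace Pool.Agent.MP_b525bf_ag_ES

open Pool.Agent.LU2 Pool.Agent.MP_b525bf_ag Pool.Agent.MP_b525bf_ag_W Pool.Agent.MP_b525bf_ag_E

variable {k K : Type} [Field k] [Field K] [Algebra k K] {G : Subgroup (K ≃ₐ[k] K)}
  {A : Subalgebra k K} {M : IntermediateField k K} {L : Set K}

variable {V W : ValuationSubring K} {B : Subalgebra k K} {n : ℕ} {x : Fin n → K}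

private theorem uni_inv_mem (W : ValuationSubring K) {z : K} (h : 1 ≤ W.valuation z) : z⁻¹ ∈ W := by
  rw [← W.valuation_le_one_iff, map_inv₀]
  exact inv_le_one_of_one_le₀ h

/-- the coarsening of `W` in which `d` is invertible -/
private def uniW (W : ValuationSubring K) (d : K) (hd : d ∈ W) : ValuationSubring K where
  carrier := {z | ∃ m : ℕ, z * d ^ m ∈ W}
  mul_mem' := by
    rintro a b ⟨m, hm⟩ ⟨m', hm'⟩
    refine ⟨m + m', ?_⟩
    have : a * b * d ^ (m + m') = (a * d ^ m) * (b * d ^ m') := by ring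
    rw [this]
    exact W.mul_mem _ _ hm hm'
  one_mem' := ⟨0, by rw [pow_zero, mul_one]; exact W.one_mem⟩
  add_mem' := by
    rintro a b ⟨m, hm⟩ ⟨m', hm'⟩
    refine ⟨m + m', ?_⟩
    have : (a + b) * d ^ (m + m') = (a * d ^ m) * d ^ m' + (b * d ^ m') * d ^ m := by ring
    rw [this]
    exact W.add_mem _ _ (W.mul_mem _ _ hm (pow_mem hd _)) (W.mul_mem _ _ hm' (pow_mem hd _))
  zero_mem' := ⟨0, by rw [zero_mul]; exact W.zero_mem⟩
  neg_mem' := by
    rintro a ⟨m, hm⟩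
    refine ⟨m, ?_⟩
    rw [neg_mul]
    exact W.neg_mem _ hm
  mem_or_inv_mem' := by
    intro z
    rcases W.mem_or_inv_mem z with h | h
    · exact Or.inl ⟨0, by rw [pow_zero, mul_one]; exact h⟩
    · exact Or.inr ⟨0, by rw [pow_zero, mul_one]; exact h⟩

private theorem uni_mem (W : ValuationSubring K) (d : K) (hd : d ∈ W) (z : K) :
    z ∈ uniW W d hd ↔ ∃ m : ℕ, z * d ^ m ∈ W := Iff.rfl

private theorem uni_le (W : ValuationSubring K) (d : K) (hd : d ∈ W) : W ≤ uniW W d hd :=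
  fun z hz => ⟨0, by rw [pow_zero, mul_one]; exact hz⟩

private theorem uni_Inv {W : ValuationSubring K} (hW : Inv G A W) (d : K) (hd : d ∈ W) :
    Inv G A (uniW W d hd) := by
  refine ⟨fun a ha => uni_le W d hd (hW.le a ha), fun g hg z => ?_⟩
  rcases eq_or_ne z 0 with rfl | hz
  · rw [map_zero]
  · have h1 : W.valuation (g z / z) = 1 := by
      rw [map_div₀, hW.inv g hg z]
      exact div_self ((Valuation.ne_zero_iff _).2 hz)
    have h2 := val_eq_one_of_le (uni_le W d hd) h1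
    rw [map_div₀] at h2
    exact (div_eq_one_iff_eq ((Valuation.ne_zero_iff _).2 hz)).1 h2

private theorem uni_max (W : ValuationSubring K) {C : Finset K} (h1 : (1 : K) ∈ C) :
    ∃ c' ∈ C, 1 ≤ W.valuation c' ∧ ∀ c'' ∈ C, W.valuation c'' ≤ W.valuation c' := by
  obtain ⟨c', hc', hmax⟩ := Finset.exists_max_image C (fun z => W.valuation z) ⟨1, h1⟩
  refine ⟨c', hc', ?_, hmax⟩
  have := hmax 1 h1
  rwa [map_one] at this

private theorem uni_point (h : Hyp G A) (hC : Cx G A M L) {C : Finset K} {b : K}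
    (hpt : Pt G A M L V B x C b) (hMV : ∀ m ∈ M, m ∈ V) {V₁ : ValuationSubring K}
    {E E' : Finset K} (hp : PageAt M V₁ E E') {ε : K} (hε : ε ∈ M) (hε0 : ε ≠ 0)
    (hε1 : V₁.valuation ε < 1) {f : K} (hf0 : f ≠ 0) {S : Finset (Fin n → ℕ)}
    {c : (Fin n → ℕ) → K} (hr : Rep (locV V B) x f S c) (W : ValuationSubring K)
    (hW : Inv G A W) (hE : ∀ e ∈ E, e ∈ W) (hE' : ∀ e ∈ E', W.valuation e < 1)
    (hWε : W.valuation ε < 1) :
    ∃ c' ∈ C, ∃ m : ℕ, ∀ α ∈ S, mon x (zx α) / f * (ε / c') ^ m ∈ W := by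
  obtain ⟨c', hc', hc1, hmax⟩ := uni_max W hpt.one
  have hc0 : c' ≠ 0 := hpt.c0 c' hc'
  have hvc : 0 < W.valuation c' := zero_lt_one.trans_le hc1
  have hd1 : W.valuation (ε / c') ≤ 1 := by
    rw [map_div₀]
    exact (div_le_one₀ hvc).2 (hWε.le.trans hc1)
  have hd : ε / c' ∈ W := (W.valuation_le_one_iff _).1 hd1
  have hW' := uni_Inv hW (ε / c') hd
  have hle := uni_le W (ε / c') hd
  -- `B` is contained in the coarsening
  have hk : ∀ a : k, algebraMap k K a ∈ W := fun a => hW.le _ (A.algebraMap_mem a)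
  have hCW : ∀ c'' ∈ C, c'' ∈ uniW W (ε / c') hd := by
    intro c'' hc''
    refine ⟨1, ?_⟩
    rw [pow_one, ← W.valuation_le_one_iff]
    have h1 : c'' * (ε / c') = ε * (c'' / c') := by ring
    rw [h1, map_mul, map_div₀]
    exact mul_le_one' hWε.le ((div_le_one₀ hvc).2 (hmax c'' hc''))
  have hB : ∀ z ∈ B, z ∈ uniW W (ε / c') hd := by
    intro z hz
    rw [← hpt.gen] at hz
    induction hz using Algebra.adjoin_induction with
    | mem z hz => exact hCW z hz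
    | algebraMap r => exact hle (hk r)
    | add a b _ _ ha hb => exact (uniW W (ε / c') hd).add_mem _ _ ha hb
    | mul a b _ _ ha hb => exact (uniW W (ε / c') hd).mul_mem _ _ ha hb
  -- the elements of `M`
  have hM1 : ∀ m ∈ M, m ∈ V₁ → m ∈ uniW W (ε / c') hd := fun m hm hm1 =>
    hle (hp.nbhd W hk hE hE' m hm hm1)
  have hεW : ε⁻¹ ∈ uniW W (ε / c') hd := by
    refine ⟨1, ?_⟩
    have h1 : ε⁻¹ * (ε / c') ^ 1 = c'⁻¹ := by
      field_simp
    rw [h1]
    exact uni_inv_mem W hc1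
  have hεV : ε⁻¹ ∉ V₁ := by
    intro h1
    rw [← V₁.valuation_le_one_iff, map_inv₀] at h1
    have h2 : 0 < V₁.valuation ε := zero_lt_iff.2 ((Valuation.ne_zero_iff _).2 hε0)
    exact absurd ((inv_le_one₀ h2).1 h1) (not_le.2 hε1)
  have hM : ∀ m ∈ M, m ∈ uniW W (ε / c') hd :=
    hp.max _ hM1 ⟨ε⁻¹, inv_mem hε, hεW, hεV⟩
  obtain ⟨-, hmono⟩ := nbhd_page h hC hpt.inv hpt.ch hpt.lam hW' hB fun m hm _ => hM m hm
  have h3 := (hmono f S c hr).2
  have h4 : ∀ α ∈ S, ∃ m : ℕ, mon x (zx α) / f * (ε / c') ^ m ∈ W := by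
    intro α hα
    have h5 : mon x (zx α) / f ∈ uniW W (ε / c') hd := by
      rw [← ValuationSubring.valuation_le_one_iff, map_div₀]
      exact (div_le_one₀ (zero_lt_iff.2 ((Valuation.ne_zero_iff _).2 hf0))).2 (h3 α hα)
    exact h5
  choose! mm hmm using h4
  refine ⟨c', hc', S.sup mm, fun α hα => ?_⟩
  have h6 : mm α ≤ S.sup mm := Finset.le_sup hα
  obtain ⟨j, hj⟩ := Nat.exists_eq_add_of_le h6
  rw [hj, pow_add, ← mul_assoc]
  exact W.mul_mem _ _ (hmm α hα) (pow_mem hd _)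

theorem exists_uni (h : Hyp G A) (hC : Cx G A M L) {C : Finset K} {b : K}
    (hpt : Pt G A M L V B x C b) (hMV : ∀ m ∈ M, m ∈ V) {V₁ : ValuationSubring K}
    {E E' : Finset K} (hp : PageAt M V₁ E E') {ε : K} (hε : ε ∈ M) (hε0 : ε ≠ 0)
    (hε1 : V₁.valuation ε < 1) {f : K} (hf0 : f ≠ 0) {S : Finset (Fin n → ℕ)}
    {c : (Fin n → ℕ) → K} (hr : Rep (locV V B) x f S c) :
    ∃ N₀ : ℕ, ∀ N, N₀ ≤ N → ∀ W : ValuationSubring K, Inv G A W → (∀ e ∈ E, e ∈ W) →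
      (∀ e ∈ E', W.valuation e < 1) → W.valuation ε < 1 → ∃ c' ∈ C, ∀ α ∈ S,
        W.valuation (mon x (zx α)) * W.valuation ε ^ N ≤ W.valuation f * W.valuation c' ^ N := by
  classical
  have hex : ∀ W : ValuationSubring K, ∃ (c' : K) (m : ℕ), Inv G A W → (∀ e ∈ (E : Set K), e ∈ W) →
      (∀ e ∈ (insert ε E' : Set K), W.valuation e < 1) →
      c' ∈ C ∧ ∀ α ∈ S, mon x (zx α) / f * (ε / c') ^ m ∈ W := by
    intro W
    by_cases hW : Inv G A W ∧ (∀ e ∈ (E : Set K), e ∈ W) ∧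
        (∀ e ∈ (insert ε E' : Set K), W.valuation e < 1)
    · obtain ⟨h1, h2, h3⟩ := hW
      obtain ⟨c', hc', m, hm⟩ := uni_point h hC hpt hMV hp hε hε0 hε1 hf0 hr W h1
        (fun e he => h2 e he) (fun e he => h3 e (Or.inr he)) (h3 ε (Or.inl rfl))
      exact ⟨c', m, fun _ _ _ => ⟨hc', hm⟩⟩
    · exact ⟨1, 0, fun h1 h2 h3 => absurd ⟨h1, h2, h3⟩ hW⟩
  choose cc mm hcm using hex
  obtain ⟨r, W₀, hW₀, hcov⟩ := exists_cover_rel (G := G) (A := A) (E : Set K) (insert ε E' : Set K)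
    (fun W => S.image fun α => mon x (zx α) / f * (ε / cc W) ^ mm W) (fun _ => ∅) (by
      intro W hW h1 h2
      refine ⟨fun e he => ?_, fun e he => absurd he (Finset.notMem_empty e)⟩
      obtain ⟨α, hα, rfl⟩ := Finset.mem_image.1 he
      exact (hcm W hW h1 h2).2 α hα)
  refine ⟨Finset.univ.sup fun i => mm (W₀ i), fun N hN W hW hE hE' hWε => ?_⟩
  obtain ⟨i, hi, -⟩ := hcov W hW (fun e he => hE e he) (by
    rintro e (rfl | he)
    · exact hWε
    · exact hE' e he)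
  obtain ⟨c', hc', hc1, hmax⟩ := uni_max W hpt.one
  refine ⟨c', hc', fun α hα => ?_⟩
  have hci : cc (W₀ i) ∈ C := (hcm (W₀ i) (hW₀ i).1 (hW₀ i).2.1 (hW₀ i).2.2).1
  have hc0 : cc (W₀ i) ≠ 0 := hpt.c0 _ hci
  have hmi : mm (W₀ i) ≤ N :=
    (Finset.le_sup (f := fun i => mm (W₀ i)) (Finset.mem_univ i)).trans hN
  have h1 := hi _ (Finset.mem_image_of_mem _ hα)
  rw [← W.valuation_le_one_iff] at h1
  obtain ⟨j, hj⟩ := Nat.exists_eq_add_of_le hmi
  have hvf : 0 < W.valuation f := zero_lt_iff.2 ((Valuation.ne_zero_iff _).2 hf0)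
  have hvc : 0 < W.valuation (cc (W₀ i)) := zero_lt_iff.2 ((Valuation.ne_zero_iff _).2 hc0)
  have h2 : W.valuation (mon x (zx α)) * W.valuation ε ^ mm (W₀ i) ≤
      W.valuation f * W.valuation (cc (W₀ i)) ^ mm (W₀ i) := by
    have h3 : mon x (zx α) * ε ^ mm (W₀ i) =
        (mon x (zx α) / f * (ε / cc (W₀ i)) ^ mm (W₀ i)) * (f * cc (W₀ i) ^ mm (W₀ i)) := by
      rw [div_pow]
      field_simp
    rw [← map_pow, ← map_mul, ← map_pow, ← map_mul, h3, map_mul]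
    exact mul_le_of_le_one_left' h1
  calc W.valuation (mon x (zx α)) * W.valuation ε ^ N
      = (W.valuation (mon x (zx α)) * W.valuation ε ^ mm (W₀ i)) * W.valuation ε ^ j := by
        rw [hj, pow_add, mul_assoc]
    _ ≤ (W.valuation f * W.valuation c' ^ mm (W₀ i)) * W.valuation c' ^ j := by
        refine mul_le_mul' (h2.trans (mul_le_mul' le_rfl ?_)) ?_
        · exact pow_le_pow_left' (hmax _ hci) _
        · exact pow_le_pow_left' (hWε.le.trans hc1) _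
    _ = W.valuation f * W.valuation c' ^ N := by
        rw [hj, pow_add, mul_assoc]

end Pool.Agent.MP_b525bf_ag_ES
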