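import Pool.Agent.Lib.MP_b525bf_ag_ES.MFG
import Pool.Agent.Lib.MP_b525bf_ag_ES.PT
import Pool.Agent.Lib.MP_b525bf_ag_ES.GEN
import Pool.Agent.Lib.MP_b525bf_ag_ES.EPS
import Pool.Agent.Lib.MP_b525bf_ag_ES.UNI
import Pool.Agent.Lib.MP_b525bf_ag_ES.CHSR
import Pool.Agent.Lib.MP_b525bf_ag_ES.CTL

/-!
# Theorem ES: the atlas
-/

set_option autoImplicit false

namespace Pool.Agent.MP_b525bf_ag_ES

open Pool.Agent.LU2 Pool.Agent.MP_b525bf_ag Pool.Agent.MP_b525bf_ag_W Pool.Agent.MP_b525bf_ag_E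

variable {k K : Type} [Field k] [Field K] [Algebra k K] {G : Subgroup (K ≃ₐ[k] K)}
  {A : Subalgebra k K} {M : IntermediateField k K} {L : Set K}

/-- A common denominator. -/
theorem exists_common (hfr : IsFrac A) (C : Finset K) : ∃ b ∈ A, b ≠ 0 ∧ ∀ c ∈ C, b * c ∈ A := by
  classical
  induction C using Finset.induction_on with
  | empty => exact ⟨1, A.one_mem, one_ne_zero, by simp⟩
  | insert c C _ ih =>
    obtain ⟨b, hb, hb0, h⟩ := ih
    obtain ⟨p, hp, q, hq, hq0, hc⟩ := hfr c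
    refine ⟨b * q, A.mul_mem hb hq, mul_ne_zero hb0 hq0, ?_⟩
    intro c' hc'
    rcases Finset.mem_insert.1 hc' with rfl | hc'
    · rw [hc, mul_assoc, mul_div_cancel₀ _ hq0]
      exact A.mul_mem hb hp
    · rw [mul_right_comm]
      exact A.mul_mem (h c' hc') hq

/-- Elements of the algebra generated by `E` times a power of the common denominator. -/
theorem exists_pow_mul_mem {E : Finset K} {q : K} (hq : q ∈ A) (hE : ∀ e ∈ E, q * e ∈ A) {f : K}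
    (hf : f ∈ Algebra.adjoin k (E : Set K)) : ∃ D : ℕ, f * q ^ D ∈ A := by
  induction hf using Algebra.adjoin_induction with
  | mem e he => exact ⟨1, by rw [pow_one, mul_comm]; exact hE e he⟩
  | algebraMap c => exact ⟨0, by rw [pow_zero, mul_one]; exact A.algebraMap_mem c⟩
  | add f g _ _ h1 h2 =>
    obtain ⟨D, hD⟩ := h1
    obtain ⟨D', hD'⟩ := h2
    refine ⟨D + D', ?_⟩
    have : (f + g) * q ^ (D + D') = (f * q ^ D) * q ^ D' + (g * q ^ D') * q ^ D := by ring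
    rw [this]
    exact A.add_mem (A.mul_mem hD (A.pow_mem hq _)) (A.mul_mem hD' (A.pow_mem hq _))
  | mul f g _ _ h1 h2 =>
    obtain ⟨D, hD⟩ := h1
    obtain ⟨D', hD'⟩ := h2
    refine ⟨D + D', ?_⟩
    have : (f * g) * q ^ (D + D') = (f * q ^ D) * (g * q ^ D') := by ring
    rw [this]
    exact A.mul_mem hD hD'

/-- Existence of the atlas; the ideals generated by the orbits of the elements of `F'` are controlled
on the generic charts. -/
theorem exists_atl [PerfectField k] [Infinite k] (hreal : RealCase k) (h : Hyp G A)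
    (hA : ∀ V : ValuationSubring K, Inv G A V → DefLE k V 0)
    (hfin : Algebra.trdeg k K < Cardinal.aleph0) (hC : Cx G A M L)
    (hK : (⊤ : IntermediateField k K).FG) (F' : Finset K) (hF' : ∀ f ∈ F', f ∈ A ∧ f ≠ 0) :
    ∃ (m₀ m₁ : ℕ) (n₀ : Fin m₀ → ℕ) (n₁ : Fin m₁ → ℕ) (R₀ : Fin m₀ → Subalgebra k K)
      (x₀ : ∀ i, Fin (n₀ i) → K) (C₀ : Fin m₀ → Finset K) (b₀ : Fin m₀ → K)
      (P₀ : Fin m₀ → ValuationSubring K → Prop) (R₁ : Fin m₁ → Subalgebra k K)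
      (x₁ : ∀ a, Fin (n₁ a) → K) (C₁ : Fin m₁ → Finset K) (b₁ : Fin m₁ → K)
      (P₁ : Fin m₁ → ValuationSubring K → Prop) (p q : Fin m₁ → K)
      (S : ∀ i, K → Finset (Fin (n₀ i) → ℕ)) (N : ℕ),
      Atl G A R₀ x₀ C₀ b₀ P₀ R₁ x₁ C₁ b₁ P₁ p q S N ∧
        ∀ i, ∀ f ∈ F', ∃ S', Ctl (R₀ i) (x₀ i) (P₀ i) (orb G A f) S' := by
  classical
  have hM : M.FG := fg_intermediate hK M
  have hkW : ∀ W : ValuationSubring K, Inv G A W → ∀ c : k, algebraMap k K c ∈ W :=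
    fun W hW c => hW.le _ (A.algebraMap_mem c)
  -- the charts on page zero
  have key0 : ∀ V : ValuationSubring K, (Inv G A V ∧ ∀ m ∈ M, m ∈ V) → ∃ (n : ℕ)
      (B : Subalgebra k K) (x : Fin n → K) (C : Finset K) (b : K), Pt G A M L V B x C b := by
    rintro V ⟨hV, hMV⟩
    obtain ⟨n, B, x, C, b, hp, -⟩ := exists_pt hreal h hfin hC hM hV (hA V hV) ∅ (by simp)
    exact ⟨n, B, x, C, b, hp⟩
  choose! nn BB xx CC bb hpt using key0
  obtain ⟨m₀, V₀, hV₀, hcov₀⟩ := exists_cover_rel (G := G) (A := A) (M : Set K) ∅ CC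
    (fun _ => ∅) (by
      intro V hV hMV _
      have hp := hpt V ⟨hV, hMV⟩
      refine ⟨fun e he => hp.ch.mem e ?_, by simp⟩
      rw [← hp.gen]
      exact Algebra.subset_adjoin he)
  have hpt₀ : ∀ i, Pt G A M L (V₀ i) (BB (V₀ i)) (xx (V₀ i)) (CC (V₀ i)) (bb (V₀ i)) :=
    fun i => hpt _ ⟨(hV₀ i).1, (hV₀ i).2.1⟩
  have hMV₀ : ∀ i, ∀ m ∈ M, m ∈ V₀ i := fun i => (hV₀ i).2.1
  -- generators of `M` and their denominators
  obtain ⟨E₀, hE₀, hE₀fr⟩ := exists_page_zero hM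
  obtain ⟨qs, hqs, hqs0, hqsE⟩ := exists_common h.frac E₀
  -- the representations
  have hrep : ∀ (i : Fin m₀) (f : K), f ∈ A ∧ f ≠ 0 → ∃ (S : Finset (Fin (nn (V₀ i)) → ℕ))
      (c : (Fin (nn (V₀ i)) → ℕ) → K), Rep (locV (V₀ i) (BB (V₀ i))) (xx (V₀ i)) f S c := by
    intro i f hf
    exact (hpt₀ i).ch.toLoc.exists_rep (le_locV _ ((hpt₀ i).ch.le hf.1)) hf.2
  choose! S cc hrep using hrep
  let F₀ : Finset K := (Finset.univ.biUnion fun i : Fin m₀ =>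
    (CC (V₀ i)).image fun c => bb (V₀ i) * c) ∪ (insert qs (E₀.image fun e => qs * e) ∪ F')
  have hF₀ : ∀ f ∈ F₀, f ∈ A ∧ f ≠ 0 := by
    intro f hf
    rcases Finset.mem_union.1 hf with hf | hf
    · obtain ⟨i, -, hf⟩ := Finset.mem_biUnion.1 hf
      obtain ⟨c, hc, rfl⟩ := Finset.mem_image.1 hf
      exact ⟨(hpt₀ i).bC c hc, mul_ne_zero (hpt₀ i).b0 ((hpt₀ i).c0 c hc)⟩
    · rcases Finset.mem_union.1 hf with hf | hf
      · rcases Finset.mem_insert.1 hf with rfl | hf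
        · exact ⟨hqs, hqs0⟩
        · obtain ⟨e, he, rfl⟩ := Finset.mem_image.1 hf
          exact ⟨hqsE e he, mul_ne_zero hqs0 (hE₀ e he).2⟩
      · exact hF' f hf
  have hbF : ∀ i, ∀ c ∈ CC (V₀ i), bb (V₀ i) * c ∈ F₀ := by
    intro i c hc
    exact Finset.mem_union_left _ (Finset.mem_biUnion.2 ⟨i, Finset.mem_univ _,
      Finset.mem_image.2 ⟨c, hc, rfl⟩⟩)
  have hqF : qs ∈ F₀ := Finset.mem_union_right _ (Finset.mem_union_left _
    (Finset.mem_insert_self _ _))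
  have heF : ∀ e ∈ E₀, qs * e ∈ F₀ := by
    intro e he
    exact Finset.mem_union_right _ (Finset.mem_union_left _
      (Finset.mem_insert_of_mem (Finset.mem_image.2 ⟨e, he, rfl⟩)))
  have hgen : ∀ i, ∃ N : Finset K, (∀ m ∈ N, m ∈ M ∧ m ≠ 0) ∧ ∀ W : ValuationSubring K,
      Inv G A W → (∀ b ∈ BB (V₀ i), b ∈ W) → (∀ m ∈ N, W.valuation m = 1) → ∀ f ∈ F₀,
        ∀ α ∈ S i f, W.valuation (mon (xx (V₀ i)) (zx α)) ≤ W.valuation f := fun i =>
    exists_gen h hC (hV₀ i).1 (hMV₀ i) (hpt₀ i).ch (hpt₀ i).lam F₀ hF₀ (S i) (cc i)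
      fun f hf => hrep i f (hF₀ f hf)
  choose Ng hNg hgen using hgen
  let NN : Finset K := Finset.univ.biUnion Ng
  have hNN : ∀ m ∈ NN, m ∈ M ∧ m ≠ 0 := by
    intro m hm
    obtain ⟨i, -, hm⟩ := Finset.mem_biUnion.1 hm
    exact hNg i m hm
  -- the generic set
  obtain ⟨EE, hEE, hEE1, hEE2⟩ := exists_eps (G := G) (A := A) hE₀ hE₀fr (C := fun i => CC (V₀ i))
    (fun W hW hMW => by
      obtain ⟨i, hi, -⟩ := hcov₀ W hW hMW (by simp)
      exact ⟨i, hi⟩) NN hNN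
  have hEM : ∀ ε ∈ EE, ε ∈ M := by
    have hadj : ∀ f ∈ Algebra.adjoin k (E₀ : Set K), f ∈ M := by
      intro f hf
      have hle : Algebra.adjoin k (E₀ : Set K) ≤ M.toSubalgebra :=
        Algebra.adjoin_le fun e he => (hE₀ e he).1
      exact hle hf
    intro ε hε
    rcases (hEE ε hε).2 with h1 | ⟨e, he, rfl⟩
    · exact hadj ε h1
    · exact M.inv_mem (hE₀ e he).1
  let P₀ : Fin m₀ → ValuationSubring K → Prop := fun i W => Inv G A W ∧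
    (∀ ε ∈ EE, W.valuation ε = 1) ∧ (∀ m ∈ NN, W.valuation m = 1) ∧ ∀ f ∈ BB (V₀ i), f ∈ W
  have hP₀ : ∀ i W, P₀ i W → Inv G A W := fun i W hW => hW.1
  have hx₀ : ∀ i l, xx (V₀ i) l ≠ 0 := fun i => (hpt₀ i).ch.ne
  have hA₀ : ∀ i, A ≤ BB (V₀ i) := fun i => (hpt₀ i).ch.le
  have hctlF : ∀ i, ∀ f ∈ F₀, ∃ S', Ctl (BB (V₀ i)) (xx (V₀ i)) (P₀ i) (orb G A f) S' := by
    intro i f hf
    refine ⟨S i f, ctl_orb_rep h (hpt₀ i).ch (hpt₀ i).sat (hF₀ f hf).1 (hrep i f (hF₀ f hf)) ?_⟩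
    intro W hW α hα
    refine hgen i W hW.1 hW.2.2.2 (fun m hm => hW.2.2.1 m ?_) f hf α hα
    exact Finset.mem_biUnion.2 ⟨i, Finset.mem_univ _, hm⟩
  -- numerators and denominators of the elements of `EE`
  have hpq : ∀ ε ∈ EE, ∃ p q : K, (p ∈ A ∧ p ≠ 0) ∧ (q ∈ A ∧ q ≠ 0) ∧ p = ε * q ∧
      (∀ i, ∃ S', Ctl (BB (V₀ i)) (xx (V₀ i)) (P₀ i) (orb G A p) S') ∧
      ∀ i, ∃ S', Ctl (BB (V₀ i)) (xx (V₀ i)) (P₀ i) (orb G A q) S' := by
    intro ε hε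
    have hε0 := (hEE ε hε).1
    rcases (hEE ε hε).2 with h1 | ⟨e, he, rfl⟩
    · obtain ⟨D, hD⟩ := exists_pow_mul_mem hqs hqsE h1
      have hq : ∀ i, ∃ S', Ctl (BB (V₀ i)) (xx (V₀ i)) (P₀ i) (orb G A (qs ^ D)) S' :=
        fun i => ctl_orb_pow (hP₀ i) (hA₀ i) (hx₀ i) (hctlF i qs hqF) D
      refine ⟨ε * qs ^ D, qs ^ D, ⟨hD, mul_ne_zero hε0 (pow_ne_zero _ hqs0)⟩,
        ⟨A.pow_mem hqs _, pow_ne_zero _ hqs0⟩, rfl, fun i => ?_, hq⟩
      refine ctl_orb_unit h (hpt₀ i).ch (hpt₀ i).sat (hP₀ i) (hq i)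
        ((hpt₀ i).lam.page ε (hEM ε hε) (hMV₀ i ε (hEM ε hε))) hD fun W hW => hW.2.1 ε hε
    · refine ⟨qs, qs * e, ⟨hqs, hqs0⟩, hF₀ _ (heF e he), ?_, fun i => hctlF i _ hqF,
        fun i => hctlF i _ (heF e he)⟩
      have := (hE₀ e he).2
      field_simp
  choose! pp qq hp hq hpq hctlp hctlq using hpq
  -- the charts outside of the generic set
  have key1 : ∀ V : ValuationSubring K, (Inv G A V ∧ ∃ ε ∈ EE, V.valuation ε < 1) →
      ∃ (ε : K) (E E' : Finset K) (n : ℕ) (B : Subalgebra k K) (x : Fin n → K) (C : Finset K)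
        (b : K), ε ∈ EE ∧ V.valuation ε < 1 ∧ PageAt M V E E' ∧ Pt G A M L V B x C b ∧
          ∀ e ∈ E, e ∈ B := by
    rintro V ⟨hV, ε, hε, hε1⟩
    have hV' : ∃ m ∈ M, m ∉ V := by
      refine ⟨ε⁻¹, M.inv_mem (hEM ε hε), fun hmem => ?_⟩
      rw [← V.valuation_le_one_iff, map_inv₀] at hmem
      have h0 : 0 < V.valuation ε := by
        rw [Valuation.pos_iff]
        exact (hEE ε hε).1
      have := (inv_le_one₀ h0).1 hmem
      exact absurd hε1 (not_lt.2 this)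
    obtain ⟨E, E', hpg⟩ := exists_page hreal hfin hM hC.tr (hkW V hV) hV'
    obtain ⟨n, B, x, C, b, hpt, hEB⟩ := exists_pt hreal h hfin hC hM hV (hA V hV) E
      fun e he => (hpg.mem e he).2
    exact ⟨ε, E, E', n, B, x, C, b, hε, hε1, hpg, hpt, hEB⟩
  choose! εε Ep Ep' nn₁ BB₁ xx₁ CC₁ bb₁ hε hε1 hpg hpt₁ hEB using key1
  obtain ⟨m, VV, hVV, hcov⟩ := exists_cover_rel (G := G) (A := A) ∅ ∅
    (fun V => if ∃ ε ∈ EE, V.valuation ε < 1 then CC₁ V else EE ∪ EE.image fun ε => ε⁻¹)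
    (fun V => if ∃ ε ∈ EE, V.valuation ε < 1 then insert (εε V) (Ep' V) else ∅) (by
      intro V hV _ _
      by_cases hn : ∃ ε ∈ EE, V.valuation ε < 1
      · simp only [if_pos hn]
        refine ⟨fun e he => (hpt₁ V ⟨hV, hn⟩).ch.mem e ?_, fun e he => ?_⟩
        · rw [← (hpt₁ V ⟨hV, hn⟩).gen]
          exact Algebra.subset_adjoin he
        · rcases Finset.mem_insert.1 he with rfl | he
          · exact hε1 V ⟨hV, hn⟩
          · exact ((hpg V ⟨hV, hn⟩).pos e he).2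
      · simp only [if_neg hn]
        refine ⟨fun e he => ?_, by simp⟩
        have h1 := (hEE2 V hV).resolve_right hn
        rcases Finset.mem_union.1 he with he | he
        · rw [← V.valuation_le_one_iff, h1 e he]
        · obtain ⟨ε, hε, rfl⟩ := Finset.mem_image.1 he
          rw [← V.valuation_le_one_iff, map_inv₀, h1 ε hε, inv_one])
  let T : Type := {j : Fin m // ∃ ε ∈ EE, (VV j).valuation ε < 1}
  let φ : T ≃ Fin (Fintype.card T) := Fintype.equivFin T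
  let V₁ : Fin (Fintype.card T) → ValuationSubring K := fun a => VV (φ.symm a).1
  have hV₁ : ∀ a, Inv G A (V₁ a) ∧ ∃ ε ∈ EE, (V₁ a).valuation ε < 1 := fun a =>
    ⟨(hVV _).1, (φ.symm a).2⟩
  have hcov₁ : ∀ W : ValuationSubring K, Inv G A W → (∃ ε ∈ EE, W.valuation ε < 1) → ∃ a,
      (∀ e ∈ CC₁ (V₁ a), e ∈ W) ∧ ∀ e ∈ insert (εε (V₁ a)) (Ep' (V₁ a)), W.valuation e < 1 := by
    intro W hW hWn
    obtain ⟨j, hj1, hj2⟩ := hcov W hW (by simp) (by simp)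
    by_cases hn : ∃ ε ∈ EE, (VV j).valuation ε < 1
    · simp only [if_pos hn] at hj1 hj2
      refine ⟨φ ⟨j, hn⟩, ?_⟩
      have e1 : V₁ (φ ⟨j, hn⟩) = VV j := by
        change VV (φ.symm (φ ⟨j, hn⟩)).1 = VV j
        rw [Equiv.symm_apply_apply]
      rw [e1]
      exact ⟨hj1, hj2⟩
    · simp only [if_neg hn] at hj1
      exfalso
      obtain ⟨ε, hε, hlt⟩ := hWn
      have h2 := hj1 ε⁻¹ (Finset.mem_union_right _ (Finset.mem_image.2 ⟨ε, hε, rfl⟩))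
      rw [← W.valuation_le_one_iff, map_inv₀] at h2
      have h0 : 0 < W.valuation ε := by
        rw [Valuation.pos_iff]
        exact (hEE ε hε).1
      exact absurd hlt (not_lt.2 ((inv_le_one₀ h0).1 h2))
  -- the uniform exponent
  have huni : ∀ (a : Fin (Fintype.card T)) (i : Fin m₀) (f : K), f ∈ A ∧ f ≠ 0 → ∃ N₀ : ℕ,
      ∀ N, N₀ ≤ N → ∀ W : ValuationSubring K, Inv G A W → (∀ e ∈ Ep (V₁ a), e ∈ W) →
      (∀ e ∈ Ep' (V₁ a), W.valuation e < 1) → W.valuation (εε (V₁ a)) < 1 →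
      ∃ c' ∈ CC (V₀ i), ∀ α ∈ S i f, W.valuation (mon (xx (V₀ i)) (zx α)) *
        W.valuation (εε (V₁ a)) ^ N ≤ W.valuation f * W.valuation c' ^ N := by
    intro a i f hf
    exact exists_uni h hC (hpt₀ i) (hMV₀ i) (hpg _ (hV₁ a)) (hEM _ (hε _ (hV₁ a)))
      (hEE _ (hε _ (hV₁ a))).1 (hε1 _ (hV₁ a)) hf.2 (hrep i f hf)
  choose! N₀ hN₀ using huni
  let P₁ : Fin (Fintype.card T) → ValuationSubring K → Prop := fun a W => Inv G A W ∧
    (∀ e ∈ CC₁ (V₁ a), e ∈ W) ∧ ∀ e ∈ insert (εε (V₁ a)) (Ep' (V₁ a)), W.valuation e < 1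
  have hP₁ : ∀ a W, P₁ a W → (∀ e ∈ BB₁ (V₁ a), e ∈ W) ∧ (∀ e ∈ Ep (V₁ a), e ∈ W) ∧
      (∀ e ∈ Ep' (V₁ a), W.valuation e < 1) ∧ W.valuation (εε (V₁ a)) < 1 := by
    rintro a W ⟨hW, h1, h2⟩
    have hB : ∀ e ∈ BB₁ (V₁ a), e ∈ W := by
      intro e he
      rw [← (hpt₁ _ (hV₁ a)).gen] at he
      induction he using Algebra.adjoin_induction with
      | mem s hs => exact h1 s hs
      | algebraMap c => exact hkW W hW c
      | add f g _ _ hf hg => exact W.add_mem _ _ hf hg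
      | mul f g _ _ hf hg => exact W.mul_mem _ _ hf hg
    exact ⟨hB, fun e he => hB e (hEB _ (hV₁ a) e he),
      fun e he => h2 e (Finset.mem_insert_of_mem he), h2 _ (Finset.mem_insert_self _ _)⟩
  have hnb : ∀ a W, P₁ a W → (∀ f ∈ locV (V₁ a) (BB₁ (V₁ a)), f ∈ W) ∧
      MonoW (locV (V₁ a) (BB₁ (V₁ a))) (xx₁ (V₁ a)) W := by
    intro a W hW
    obtain ⟨h1, h2, h3, h4⟩ := hP₁ a W hW
    exact nbhd_page h hC (hV₁ a).1 (hpt₁ _ (hV₁ a)).ch (hpt₁ _ (hV₁ a)).lam hW.1 h1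
      ((hpg _ (hV₁ a)).nbhd W (hkW W hW.1) h2 h3)
  let Nf : ℕ := ∑ a : Fin (Fintype.card T), ∑ i : Fin m₀, ∑ c ∈ CC₁ (V₁ a),
    (N₀ a i (bb₁ (V₁ a) * c) + ∑ α ∈ S i (bb₁ (V₁ a) * c), ∑ l, α l)
  have hNf : ∀ a i, ∀ c ∈ CC₁ (V₁ a), N₀ a i (bb₁ (V₁ a) * c) +
      ∑ α ∈ S i (bb₁ (V₁ a) * c), ∑ l, α l ≤ Nf := by
    intro a i c hc
    refine le_trans ?_ (Finset.single_le_sum (f := fun a => ∑ i : Fin m₀, ∑ c ∈ CC₁ (V₁ a),
      (N₀ a i (bb₁ (V₁ a) * c) + ∑ α ∈ S i (bb₁ (V₁ a) * c), ∑ l, α l))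
      (fun _ _ => Nat.zero_le _) (Finset.mem_univ a))
    refine le_trans ?_ (Finset.single_le_sum (f := fun i => ∑ c ∈ CC₁ (V₁ a),
      (N₀ a i (bb₁ (V₁ a) * c) + ∑ α ∈ S i (bb₁ (V₁ a) * c), ∑ l, α l))
      (fun _ _ => Nat.zero_le _) (Finset.mem_univ i))
    exact Finset.single_le_sum (f := fun c => N₀ a i (bb₁ (V₁ a) * c) +
      ∑ α ∈ S i (bb₁ (V₁ a) * c), ∑ l, α l) (fun _ _ => Nat.zero_le _) hc
  have hbA₁ : ∀ a, ∀ c ∈ CC₁ (V₁ a), bb₁ (V₁ a) * c ∈ A ∧ bb₁ (V₁ a) * c ≠ 0 := fun a c hc =>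
    ⟨(hpt₁ _ (hV₁ a)).bC c hc, mul_ne_zero (hpt₁ _ (hV₁ a)).b0 ((hpt₁ _ (hV₁ a)).c0 c hc)⟩
  refine ⟨m₀, Fintype.card T, fun i => nn (V₀ i), fun a => nn₁ (V₁ a), fun i => BB (V₀ i),
    fun i => xx (V₀ i), fun i => CC (V₀ i), fun i => bb (V₀ i), P₀,
    fun a => locV (V₁ a) (BB₁ (V₁ a)), fun a => xx₁ (V₁ a), fun a => CC₁ (V₁ a),
    fun a => bb₁ (V₁ a), P₁, fun a => pp (εε (V₁ a)), fun a => qq (εε (V₁ a)), S, Nf, ?_,
    fun i f hf => hctlF i f (Finset.mem_union_right _ (Finset.mem_union_right _ hf))⟩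
  refine
    { ch0 := fun i => (hpt₀ i).chs
      ch1 := fun a => (hpt₁ _ (hV₁ a)).chs_loc
      pA := fun a => hp _ (hε _ (hV₁ a))
      qA := fun a => hq _ (hε _ (hV₁ a))
      inv0 := fun i W hW => ⟨hW.1, hW.2.2.2⟩
      inv1 := fun a W hW => ⟨hW.1, (hnb a W hW).1⟩
      cov := ?_
      gen := ?_
      sup := ?_
      ctlb := fun i i' c hc => hctlF i _ (hbF i' c hc)
      ctlp := fun i a => hctlp _ (hε _ (hV₁ a)) i
      ctlq := fun i a => hctlq _ (hε _ (hV₁ a)) i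
      mono := fun a I hI => ctl_mono h (hpt₁ _ (hV₁ a)).ch (fun W hW => (hnb a W hW).2) hI
      uni := ?_
      big := ?_ }
  · intro W hW
    by_cases hn : ∃ ε ∈ EE, W.valuation ε < 1
    · obtain ⟨a, h1, h2⟩ := hcov₁ W hW hn
      exact Or.inr ⟨a, hW, h1, h2⟩
    · have h1 := (hEE2 W hW).resolve_right hn
      obtain ⟨⟨i, hi⟩, hN⟩ := hEE1 W hW h1
      refine Or.inl ⟨i, hW, h1, hN, ?_⟩
      intro f hf
      rw [← (hpt₀ i).gen] at hf
      induction hf using Algebra.adjoin_induction with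
      | mem s hs => exact hi s hs
      | algebraMap c => exact hkW W hW c
      | add f g _ _ hf hg => exact W.add_mem _ _ hf hg
      | mul f g _ _ hf hg => exact W.mul_mem _ _ hf hg
  · intro i W hW a
    have hεa := hε _ (hV₁ a)
    rw [hpq _ hεa, map_mul, hW.2.1 _ hεa, one_mul]
  · intro i f hf hf0
    exact ⟨(hrep i f ⟨hf, hf0⟩).ne,
      inMon_orb h (hpt₀ i).ch (hpt₀ i).sat hf (hrep i f ⟨hf, hf0⟩)⟩
  · intro a W hW i c hc
    obtain ⟨-, h2, h3, h4⟩ := hP₁ a W hW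
    obtain ⟨c', hc', hle⟩ := hN₀ a i (bb₁ (V₁ a) * c) (hbA₁ a c hc) Nf
      (le_trans (Nat.le_add_right _ _) (hNf a i c hc)) W hW.1 h2 h3 h4
    refine ⟨c', hc', fun α hα => ?_⟩
    have h5 := hle α hα
    have hεa := hε _ (hV₁ a)
    have e1 : W.valuation (pp (εε (V₁ a))) =
        W.valuation (εε (V₁ a)) * W.valuation (qq (εε (V₁ a))) := by
      rw [← map_mul, ← hpq _ hεa]
    rw [e1, map_mul (W.valuation) (bb (V₀ i)) c']
    calc W.valuation (mon (xx (V₀ i)) (zx α)) * (W.valuation (εε (V₁ a)) *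
          W.valuation (qq (εε (V₁ a))) * W.valuation (bb (V₀ i))) ^ Nf
        = (W.valuation (mon (xx (V₀ i)) (zx α)) * W.valuation (εε (V₁ a)) ^ Nf) *
          (W.valuation (qq (εε (V₁ a))) * W.valuation (bb (V₀ i))) ^ Nf := by
          rw [mul_assoc (W.valuation (εε (V₁ a))), mul_pow (W.valuation (εε (V₁ a))), mul_assoc]
      _ ≤ (W.valuation (bb₁ (V₁ a) * c) * W.valuation c' ^ Nf) *
          (W.valuation (qq (εε (V₁ a))) * W.valuation (bb (V₀ i))) ^ Nf :=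
          mul_le_mul_left h5 _
      _ = W.valuation (bb₁ (V₁ a) * c) * (W.valuation (qq (εε (V₁ a))) *
          (W.valuation (bb (V₀ i)) * W.valuation c')) ^ Nf := by
          rw [← mul_assoc (W.valuation (qq (εε (V₁ a)))), mul_pow (_ * _) (W.valuation c'),
            mul_assoc, mul_comm (W.valuation c' ^ Nf)]
  · intro a i c hc α hα
    refine le_trans ?_ (hNf a i c hc)
    refine le_trans ?_ (Nat.le_add_left _ _)
    exact Finset.single_le_sum (f := fun α : Fin (nn (V₀ i)) → ℕ => ∑ l, α l)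
      (fun _ _ => Nat.zero_le _) hα

end Pool.Agent.MP_b525bf_ag_ES
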