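import Pool.Agent.Lib.MP_b525bf_ag_E.AllRows

/-!
# Theorem ES: resolution of singularities for group actions of complexity at most one: definitions
(see the blueprint: the section numbers in the rows refer to it)
-/

set_option autoImplicit false

namespace Pool.Agent.MP_b525bf_ag_ES

open Pool.Agent.LU2 Pool.Agent.MP_b525bf_ag Pool.Agent.MP_b525bf_ag_W Pool.Agent.MP_b525bf_ag_E

variable {k K : Type} [Field k] [Field K] [Algebra k K]

/-- The data for complexity at most one: a field `M` of transcendence degree at most one, a group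
`L` of nonzero elements that contains the nonzero elements of `M` and is finitely generated modulo
them, such that some power of the ideal generated by the orbit of an element `a` contains an element
of `L` of the right value. (`L` are the eigenvectors of a subgroup `B` of `G`, `M` the fixed field.) -/
structure Cx (G : Subgroup (K ≃ₐ[k] K)) (A : Subalgebra k K) (M : IntermediateField k K)
    (L : Set K) : Prop where
  tr : Algebra.trdeg k M ≤ 1
  ne : ∀ l ∈ L, l ≠ 0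
  mul : ∀ l ∈ L, ∀ l' ∈ L, l * l' ∈ L
  inv : ∀ l ∈ L, l⁻¹ ∈ L
  fld : ∀ m ∈ M, m ≠ 0 → m ∈ L
  fg : ∃ (r : ℕ) (t : Fin r → K), (∀ i, t i ∈ L) ∧
    ∀ l ∈ L, ∃ m ∈ M, m ≠ 0 ∧ ∃ e : Fin r → ℤ, l = m * mon t e
  app : ∀ a ∈ A, a ≠ 0 → ∀ V : ValuationSubring K, Inv G A V →
    ∃ q : ℕ, 0 < q ∧ ∃ l ∈ L, l ∈ orb G A a ^ q ∧ V.valuation l = V.valuation a ^ q

/-- `f` is in the ideal of `R` generated by the monomials with exponents in `S`. -/
def InMon (R : Subalgebra k K) {n : ℕ} (x : Fin n → K) (S : Finset (Fin n → ℕ)) (f : K) : Prop :=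
  ∃ c : (Fin n → ℕ) → K, (∀ α ∈ S, c α ∈ R) ∧ f = ∑ α ∈ S, c α * mon x (zx α)

/-- The intersection of `V` and `M` is contained in the local ring, and all elements of `L` are
products of an element of `M`, a unit and a monomial. -/
structure LamAt (M : IntermediateField k K) (L : Set K) (V : ValuationSubring K)
    (B : Subalgebra k K) {n : ℕ} (x : Fin n → K) : Prop where
  page : ∀ m ∈ M, m ∈ V → m ∈ locV V B
  lam : ∀ l ∈ L, ∃ m ∈ M, V.valuation m = 1 ∧ ∃ u ∈ B, u ≠ 0 ∧ u⁻¹ ∈ B ∧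
    ∃ e : Fin n → ℤ, l = m * u * mon x e

/-- The facts on the place `V ∩ M` of `M`, which is different from `M`. -/
structure PageAt (M : IntermediateField k K) (V : ValuationSubring K) (E E' : Finset K) :
    Prop where
  mem : ∀ e ∈ E, e ∈ M ∧ e ∈ V
  pos : ∀ e ∈ E', e ∈ M ∧ V.valuation e < 1
  ess : ∀ m ∈ M, m ∈ V → ∃ a ∈ Algebra.adjoin k (E : Set K),
    ∃ b ∈ Algebra.adjoin k (E : Set K), V.valuation b = 1 ∧ m = a / b
  nbhd : ∀ W : ValuationSubring K, (∀ c : k, algebraMap k K c ∈ W) → (∀ e ∈ E, e ∈ W) →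
    (∀ e ∈ E', W.valuation e < 1) → ∀ m ∈ M, m ∈ V → m ∈ W
  max : ∀ W : ValuationSubring K, (∀ m ∈ M, m ∈ V → m ∈ W) → (∃ m ∈ M, m ∈ W ∧ m ∉ V) →
    ∀ m ∈ M, m ∈ W

/-- A total order on `ℤ^n`, compatible with addition, for which the unit vectors are positive;
`pos` are the positive elements. -/
structure PosOrd {n : ℕ} (pos : (Fin n → ℤ) → Prop) : Prop where
  add : ∀ a b, pos a → pos b → pos (a + b)
  tri : ∀ a, a = 0 ∨ pos a ∨ pos (-a)
  irr : ¬ pos 0
  std : ∀ i, pos (Pi.single i 1)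

/-- `W` is monomial in the `x i`, on `R`. -/
def MonoW (R : Subalgebra k K) {n : ℕ} (x : Fin n → K) (W : ValuationSubring K) : Prop :=
  ∀ (f : K) (S : Finset (Fin n → ℕ)) (c : (Fin n → ℕ) → K), Rep R x f S c →
    (∃ α ∈ S, W.valuation (mon x (zx α)) = W.valuation f) ∧
      ∀ α ∈ S, W.valuation (mon x (zx α)) ≤ W.valuation f

/-- The ideal `I` is controlled by the monomials with exponents in `S`, for the valuation rings with
the property `P`. -/
structure Ctl {A : Subalgebra k K} (B : Subalgebra k K) {n : ℕ} (x : Fin n → K)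
    (P : ValuationSubring K → Prop) (I : Submodule A K) (S : Finset (Fin n → ℕ)) : Prop where
  ne : S.Nonempty
  mem : ∀ z ∈ I, InMon B x S z
  val : ∀ W, P W → ∀ α ∈ S, ∃ z ∈ I, W.valuation (mon x (zx α)) ≤ W.valuation z

/-- Nonzero `G`-stable ideals of `A`. -/
structure StId (G : Subgroup (K ≃ₐ[k] K)) (A : Subalgebra k K) (I : Submodule A K) : Prop where
  le : ∀ z ∈ I, z ∈ A
  ne : ∃ z ∈ I, z ≠ 0
  stab : ∀ g ∈ G, ∀ z ∈ I, g z ∈ I

section Fam

variable {N m : ℕ}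

/-- The generators of the multigraded algebra of the ideals `I j`. -/
def igens (A : Subalgebra k K) (I : Fin N → Submodule A K) (u : Fin m → Fin N → ℕ) :
    Set (AddMonoidAlgebra K (Ix N m)) :=
  {F | ∃ a ∈ A, F = AddMonoidAlgebra.single 0 a} ∪
  {F | ∃ j, ∃ y ∈ I j, F = AddMonoidAlgebra.single (dF m j) y} ∪
  {F | ∃ j, F = AddMonoidAlgebra.single (dS u j) 1} ∪
  {F | ∃ i, F = AddMonoidAlgebra.single (dR N i) 1}

/-- The multigraded family of the ideals `I j`. -/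
noncomputable def IF (A : Subalgebra k K) (I : Fin N → Submodule A K) (u : Fin m → Fin N → ℕ) :
    Fam k K (Ix N m) :=
  Fam.ofSub (Algebra.adjoin k (igens A I u))

/-- The facts on a semistable prime `Q`. -/
structure SemiI (A : Subalgebra k K) (I : Fin N → Submodule A K) (u : Fin m → Fin N → ℕ)
    (D : Set (Fin N → ℤ)) (Q : Ideal (IF A I u).alg) [Q.IsPrime] : Prop where
  unF : ∀ j, ∃ y ∈ I j, IsU (atP (IF A I u) Q) (dF m j) y
  unS : ∀ j, IsU (atP (IF A I u) Q) (dS u j) 1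
  ind : LinearIndependent ℚ fun i : {i // ¬ IsU (atP (IF A I u) Q) (dR N i) 1} =>
    fun j => (u i.1 j : ℚ)
  sign : ∀ d ∈ D, (∀ i, ¬ IsU (atP (IF A I u) Q) (dR N i) 1 → 0 ≤ pr (u i) d) ∨
    ∀ i, ¬ IsU (atP (IF A I u) Q) (dR N i) 1 → pr (u i) d ≤ 0

/-- The chart `R, x`, contained in `W`, is adapted to the ideals `I j` and to the set `D` of exponent
vectors, by means of elements `y j` of the `I j` of least value (largest valuation). -/
structure AdaptI (A : Subalgebra k K) (R : Subalgebra k K) {n : ℕ} (x : Fin n → K)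
    (I : Fin N → Submodule A K) (D : Set (Fin N → ℤ)) (W : ValuationSubring K)
    (y : Fin N → K) : Prop where
  le : A ≤ R
  leW : ∀ c ∈ R, c ∈ W
  ne : ∀ i, x i ≠ 0
  mem : ∀ i, x i ∈ R
  sm : ∀ E : Finset K, (E : Set K) ⊆ R →
    ∃ B : Subalgebra k K, B.FG ∧ (E : Set K) ⊆ B ∧ B ≤ R ∧ SmOver B x
  yI : ∀ j, y j ∈ I j
  y0 : ∀ j, y j ≠ 0
  ymax : ∀ j, ∀ z ∈ I j, W.valuation z ≤ W.valuation (y j)
  par : ∃ P Q : Fin n → Fin N, (∀ l, x l = y (P l) / y (Q l)) ∧ (∀ l, dv (P l) (Q l) ∈ D) ∧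
    ∀ j, ∃ S : Finset (Fin n → ℕ), S.Nonempty ∧ (∀ z ∈ I j, InMon R x S z) ∧
      ∀ α ∈ S, W.valuation (mon x (zx α)) ≤ W.valuation (y j) ∧ ev P Q (zx α) - Pi.single j 1 ∈ D
  frac : ∃ F : Finset K, (F : Set K) ⊆ R ∧
    (∀ c ∈ F, ∃ p q : Fin N, c = y p / y q ∧ dv p q ∈ D) ∧
    ∀ c ∈ R, ∃ a ∈ Algebra.adjoin k (F : Set K), ∃ b ∈ Algebra.adjoin k (F : Set K),
      b ≠ 0 ∧ b⁻¹ ∈ R ∧ c = a / b

end Fam

end Pool.Agent.MP_b525bf_ag_ES
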