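import Pool.Agent.Lib.MP_b525bf_ag_ES.Defs

/-!
# Theorem ES: more definitions (charts of the atlas, the ideals)
-/

set_option autoImplicit false

namespace Pool.Agent.MP_b525bf_ag_ES

open Pool.Agent.LU2 Pool.Agent.MP_b525bf_ag Pool.Agent.MP_b525bf_ag_W Pool.Agent.MP_b525bf_ag_E

variable {k K : Type} [Field k] [Field K] [Algebra k K]

/-- An element of `B` is in the ideal of `B` generated by some monomials if it is in the ideal of the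
local ring generated by them. -/
def SatAt (V : ValuationSubring K) (B : Subalgebra k K) {n : ℕ} (x : Fin n → K) : Prop :=
  ∀ (S : Finset (Fin n → ℕ)) (f : K), f ∈ B → InMon (locV V B) x S f → InMon B x S f

/-- A chart `B, x` at the point `V`, with generators `C` of `B` and a common denominator `b`. -/
structure Pt (G : Subgroup (K ≃ₐ[k] K)) (A : Subalgebra k K) (M : IntermediateField k K)
    (L : Set K) (V : ValuationSubring K) (B : Subalgebra k K) {n : ℕ} (x : Fin n → K)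
    (C : Finset K) (b : K) : Prop where
  inv : Inv G A V
  ch : ChartAt G A V B x
  lam : LamAt M L V B x
  sat : SatAt V B x
  gen : Algebra.adjoin k (C : Set K) = B
  one : (1 : K) ∈ C
  par : ∀ l, x l ∈ C
  c0 : ∀ c ∈ C, c ≠ 0
  b0 : b ≠ 0
  bC : ∀ c ∈ C, b * c ∈ A

/-- A smooth chart `R, x`, with a finite set `C` that generates `R` up to localisation, and a common
denominator `b` of the elements of `C`. -/
structure Chs (A R : Subalgebra k K) {n : ℕ} (x : Fin n → K) (C : Finset K) (b : K) : Prop where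
  le : A ≤ R
  ne : ∀ i, x i ≠ 0
  one : (1 : K) ∈ C
  par : ∀ l, x l ∈ C
  sub : ∀ c ∈ C, c ∈ R
  c0 : ∀ c ∈ C, c ≠ 0
  frac : ∀ f ∈ R, ∃ a ∈ Algebra.adjoin k (C : Set K), ∃ d ∈ Algebra.adjoin k (C : Set K),
    d ≠ 0 ∧ d⁻¹ ∈ R ∧ f = a / d
  sm : ∀ E : Finset K, (E : Set K) ⊆ R →
    ∃ B : Subalgebra k K, B.FG ∧ (E : Set K) ⊆ B ∧ B ≤ R ∧ SmOver B x
  b0 : b ≠ 0
  bC : ∀ c ∈ C, b * c ∈ A

/-- The chart `R, x` is admissible for the ideals `I j`, at the valuation rings with property `P`: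
all the ideals are controlled by monomials, and for some `y₀` the elements `b c y₀`, `c ∈ C`, are
elements of largest valuation of ideals of the family. -/
structure Adm (A : Subalgebra k K) {J : Type} (I : J → Submodule A K) (R : Subalgebra k K) {n : ℕ}
    (x : Fin n → K) (C : Finset K) (b : K) (P : ValuationSubring K → Prop) : Prop where
  chs : Chs A R x C b
  sub : ∀ W, P W → ∀ f ∈ R, f ∈ W
  ctl : ∀ j, ∃ S, Ctl R x P (I j) S
  idx : ∃ κ : K → J, Set.InjOn κ (C : Set K) ∧ ∀ W, P W → ∃ y₀ : K, y₀ ≠ 0 ∧ ∀ c ∈ C,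
    b * c * y₀ ∈ I (κ c) ∧ ∀ z ∈ I (κ c), W.valuation z ≤ W.valuation (b * c * y₀)

section Ideals

variable (G : Subgroup (K ≃ₐ[k] K)) (A : Subalgebra k K)

/-- The ideal generated by the orbits of the `b c`, `c ∈ C`. -/
def bbI (C : Finset K) (b : K) : Submodule A K := C.sup fun c => orb G A (b * c)

/-- The ideal `J`, the cut-off factor. -/
def jI {m₀ : ℕ} (C₀ : Fin m₀ → Finset K) (b₀ : Fin m₀ → K) (q : K) (N : ℕ) : Submodule A K :=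
  orb G A q ^ N * ∏ i, bbI G A (C₀ i) (b₀ i) ^ N

/-- The additional terms. -/
def extI {m₀ : ℕ} {n₀ : Fin m₀ → ℕ} (x₀ : ∀ i, Fin (n₀ i) → K) (C₀ : Fin m₀ → Finset K)
    (b₀ : Fin m₀ → K) (p : K) (N : ℕ) (i : Fin m₀) (α : Fin (n₀ i) → ℕ) : Submodule A K :=
  orb G A (mon (x₀ i) (zx α) * b₀ i ^ N) * orb G A p ^ N *
    ∏ i' ∈ Finset.univ.erase i, bbI G A (C₀ i') (b₀ i') ^ N

/-- The ideal that belongs to the element `f` of a chart outside of the generic set. -/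
def bigI {m₀ : ℕ} {n₀ : Fin m₀ → ℕ} (x₀ : ∀ i, Fin (n₀ i) → K) (C₀ : Fin m₀ → Finset K)
    (b₀ : Fin m₀ → K) (S : ∀ i, K → Finset (Fin (n₀ i) → ℕ)) (p q : K) (N : ℕ) (f : K) :
    Submodule A K :=
  orb G A f * jI G A C₀ b₀ q N ⊔
    Finset.univ.sup fun i => (S i f).sup fun α => extI G A x₀ C₀ b₀ p N i α

end Ideals

/-- The atlas. Index `0`: the generic charts, index `1`: the other charts. -/
structure Atl (G : Subgroup (K ≃ₐ[k] K)) (A : Subalgebra k K) {m₀ m₁ : ℕ} {n₀ : Fin m₀ → ℕ}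
    {n₁ : Fin m₁ → ℕ} (R₀ : Fin m₀ → Subalgebra k K) (x₀ : ∀ i, Fin (n₀ i) → K)
    (C₀ : Fin m₀ → Finset K) (b₀ : Fin m₀ → K) (P₀ : Fin m₀ → ValuationSubring K → Prop)
    (R₁ : Fin m₁ → Subalgebra k K) (x₁ : ∀ a, Fin (n₁ a) → K) (C₁ : Fin m₁ → Finset K)
    (b₁ : Fin m₁ → K) (P₁ : Fin m₁ → ValuationSubring K → Prop) (p q : Fin m₁ → K)
    (S : ∀ i, K → Finset (Fin (n₀ i) → ℕ)) (N : ℕ) : Prop where
  ch0 : ∀ i, Chs A (R₀ i) (x₀ i) (C₀ i) (b₀ i)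
  ch1 : ∀ a, Chs A (R₁ a) (x₁ a) (C₁ a) (b₁ a)
  pA : ∀ a, p a ∈ A ∧ p a ≠ 0
  qA : ∀ a, q a ∈ A ∧ q a ≠ 0
  inv0 : ∀ i W, P₀ i W → Inv G A W ∧ ∀ f ∈ R₀ i, f ∈ W
  inv1 : ∀ a W, P₁ a W → Inv G A W ∧ ∀ f ∈ R₁ a, f ∈ W
  cov : ∀ W, Inv G A W → (∃ i, P₀ i W) ∨ ∃ a, P₁ a W
  gen : ∀ i W, P₀ i W → ∀ a, W.valuation (p a) = W.valuation (q a)
  sup : ∀ i, ∀ f ∈ A, f ≠ 0 → (S i f).Nonempty ∧ ∀ z ∈ orb G A f, InMon (R₀ i) (x₀ i) (S i f) z
  ctlb : ∀ i i', ∀ c ∈ C₀ i', ∃ S', Ctl (R₀ i) (x₀ i) (P₀ i) (orb G A (b₀ i' * c)) S'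
  ctlp : ∀ i a, ∃ S', Ctl (R₀ i) (x₀ i) (P₀ i) (orb G A (p a)) S'
  ctlq : ∀ i a, ∃ S', Ctl (R₀ i) (x₀ i) (P₀ i) (orb G A (q a)) S'
  mono : ∀ a, ∀ I : Submodule A K, StId G A I → ∃ S', Ctl (R₁ a) (x₁ a) (P₁ a) I S'
  uni : ∀ a W, P₁ a W → ∀ i, ∀ c ∈ C₁ a, ∃ c' ∈ C₀ i, ∀ α ∈ S i (b₁ a * c),
    W.valuation (mon (x₀ i) (zx α)) * (W.valuation (p a) * W.valuation (b₀ i)) ^ N ≤
      W.valuation (b₁ a * c) * (W.valuation (q a) * W.valuation (b₀ i * c')) ^ N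
  big : ∀ a i, ∀ c ∈ C₁ a, ∀ α ∈ S i (b₁ a * c), ∑ l, α l ≤ N

end Pool.Agent.MP_b525bf_ag_ES
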