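import Pool.Agent.Lib.MP_b525bf_ag_ES.StmtDefs
import Pool.Agent.Lib.MP_b525bf_ag_ES.Defs
import Pool.Agent.Lib.MP_b525bf_ag_E.FH1

/-!
# Theorem ES: the hypotheses of the final theorem, on the level of fields
-/

set_option autoImplicit false

namespace Pool.Agent.MP_b525bf_ag_ES

open Pool.Agent.LU2 Pool.Agent.MP_b525bf_ag Pool.Agent.MP_b525bf_ag_W Pool.Agent.MP_b525bf_ag_E

variable {k A : Type} [Field k] [CommRing A] [IsDomain A] [Algebra k A]

/-- The eigenvectors. -/
def eigenSet (B : Subgroup (A ≃ₐ[k] A)) : Set (FractionRing A) := {f | IsEigen B f}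

omit [IsDomain A] [Algebra k A] in
private theorem mem_pow {K : Type} [Field K] [Algebra k K] (R : Subalgebra k K) (φ : A →+* K)
    (hφ : ∀ a, φ a ∈ R) (I : Ideal A) (J : Submodule R K) (hIJ : ∀ a ∈ I, φ a ∈ J) :
    ∀ (q : ℕ), ∀ a ∈ I ^ q, φ a ∈ J ^ q := by
  intro q
  induction q with
  | zero =>
    intro a _
    rw [pow_zero]
    refine Submodule.mem_one.2 ⟨⟨φ a, hφ a⟩, rfl⟩
  | succ q ih =>
    intro a ha
    rw [pow_succ] at ha ⊢
    refine Submodule.mul_induction_on ha ?_ ?_
    · intro m hm n hn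
      rw [map_mul]
      exact Submodule.mul_mem_mul (ih m hm) (hIJ n hn)
    · intro x y hx hy
      rw [map_add]
      exact Submodule.add_mem _ hx hy

theorem cx_of (G B : Subgroup (A ≃ₐ[k] A)) (h : ComplexityLeOne G B) :
    Cx (liftG G) (rangeA k A) (invField B) (eigenSet B) := by
  have hinj := IsFractionRing.injective A (FractionRing A)
  refine
    { tr := h.trdeg
      ne := fun l hl => hl.1
      mul := ?_
      inv := ?_
      fld := ?_
      fg := ?_
      app := ?_ }
  · intro l hl l' hl'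
    refine ⟨mul_ne_zero hl.1 hl'.1, fun g hg => ?_⟩
    obtain ⟨c, hc⟩ := hl.2 g hg
    obtain ⟨c', hc'⟩ := hl'.2 g hg
    refine ⟨c * c', ?_⟩
    rw [map_mul, hc, hc', smul_mul_smul_comm]
  · intro l hl
    refine ⟨inv_ne_zero hl.1, fun g hg => ?_⟩
    obtain ⟨c, hc⟩ := hl.2 g hg
    refine ⟨c⁻¹, ?_⟩
    rw [map_inv₀, hc]
    by_cases h0 : c = 0
    · rw [h0]
      simp
    · rw [Algebra.smul_def, Algebra.smul_def, mul_inv, map_inv₀]
  · intro m hm hm0
    refine ⟨hm0, fun g hg => ⟨1, ?_⟩⟩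
    rw [one_smul]
    have h1 := (IntermediateField.mem_fixedField_iff _ _).1 hm
      (IsFractionRing.fieldEquivOfAlgEquivHom k (FractionRing A) g) ⟨g, hg, rfl⟩
    rw [IsFractionRing.fieldEquivOfAlgEquivHom_apply] at h1
    exact h1
  · obtain ⟨r, t, ht, hf⟩ := h.fg
    refine ⟨r, t, ht, fun l hl => ?_⟩
    obtain ⟨m, hm, e, he⟩ := hf l hl
    refine ⟨m, hm, ?_, e, he⟩
    rintro rfl
    rw [zero_mul] at he
    exact hl.1 he
  · intro a ha ha0 V hV
    obtain ⟨a, rfl⟩ : ∃ a' : A, algebraMap A (FractionRing A) a' = a := ha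
    have ha0' : a ≠ 0 := by
      rintro rfl
      exact ha0 (map_zero _)
    obtain ⟨q, hq, l, hl, hl1, hl2⟩ := h.app a ha0' V ((inv_iff G V).1 hV)
    refine ⟨q, hq, algebraMap A (FractionRing A) l, hl1, ?_, ?_⟩
    · refine mem_pow (rangeA k A) (algebraMap A (FractionRing A)) (fun b => ⟨b, rfl⟩) _ _ ?_ q l hl
      intro b hb
      refine Submodule.span_induction (p := fun b _ => algebraMap A (FractionRing A) b ∈
        orb (liftG G) (rangeA k A) (algebraMap A (FractionRing A) a)) ?_ ?_ ?_ ?_ hb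
      · rintro b ⟨g, hg, rfl⟩
        refine Submodule.subset_span ⟨IsFractionRing.fieldEquivOfAlgEquivHom k (FractionRing A) g,
          ⟨g, hg, rfl⟩, ?_⟩
        rw [IsFractionRing.fieldEquivOfAlgEquivHom_apply]
        exact (IsFractionRing.fieldEquivOfAlgEquiv_algebraMap k (FractionRing A)
          (FractionRing A) g a).symm
      · rw [map_zero]
        exact Submodule.zero_mem _
      · intro x y _ _ hx hy
        rw [map_add]
        exact Submodule.add_mem _ hx hy
      · intro c x _ hx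
        rw [smul_eq_mul, map_mul]
        exact Submodule.smul_mem _ (⟨algebraMap A (FractionRing A) c, ⟨c, rfl⟩⟩ : rangeA k A) hx
    · rw [hl2, map_pow, map_pow]

end Pool.Agent.MP_b525bf_ag_ES
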