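import Pool.Agent.Lib.MP_b525bf_ag_ES.DefsB
import Pool.Agent.Lib.MP_b525bf_ag_GM.MAINI

/-!
# Theorem ES, row GMC: from the adapted charts of ES to those of the global machine
-/

set_option autoImplicit false
set_option linter.unusedVariables false

namespace Pool.Agent.MP_b525bf_ag_ES

open Pool.Agent.LU2 Pool.Agent.MP_b525bf_ag Pool.Agent.MP_b525bf_ag_W Pool.Agent.MP_b525bf_ag_E

variable {k K : Type} [Field k] [Field K] [Algebra k K] {G : Subgroup (K ≃ₐ[k] K)}
  {A : Subalgebra k K}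

/-- Generators of a stable ideal. -/
theorem StId.exists_gens (h : Hyp G A) {T : Submodule A K} (hT : StId G A T) :
    ∃ Y : Finset K, (∀ y ∈ Y, y ∈ T) ∧ T ≤ Submodule.span A (Y : Set K) := by
  have hN : IsNoetherianRing A := isNoetherianRing_of_fg h.fg
  have h1 : T ≤ LinearMap.range (Algebra.linearMap A K) := by
    intro y hy
    exact ⟨⟨y, hT.le y hy⟩, rfl⟩
  have h2 : IsNoetherian A (LinearMap.range (Algebra.linearMap A K)) := inferInstance
  obtain ⟨S, hS⟩ := isNoetherian_submodule.1 h2 _ h1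
  refine ⟨S, ?_, hS.ge⟩
  intro y hy
  rw [← hS]
  exact Submodule.subset_span hy

private theorem gmc_zero {B : Subalgebra k K} {n : ℕ} {x : Fin n → K}
    {S : Finset (Fin n → ℕ)} : InMon B x S 0 :=
  ⟨fun _ => 0, fun _ _ => B.zero_mem, by simp⟩

private theorem gmc_add {B : Subalgebra k K} {n : ℕ} {x : Fin n → K}
    {S : Finset (Fin n → ℕ)} {f f' : K} (h : InMon B x S f) (h' : InMon B x S f') :
    InMon B x S (f + f') := by
  obtain ⟨c, hc, rfl⟩ := h
  obtain ⟨c', hc', rfl⟩ := h'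
  refine ⟨fun α => c α + c' α, fun α hα => B.add_mem (hc α hα) (hc' α hα), ?_⟩
  rw [← Finset.sum_add_distrib]
  exact Finset.sum_congr rfl fun α _ => by ring

private theorem gmc_smul {B : Subalgebra k K} {n : ℕ} {x : Fin n → K}
    {S : Finset (Fin n → ℕ)} {a f : K} (ha : a ∈ B) (h : InMon B x S f) :
    InMon B x S (a * f) := by
  obtain ⟨c, hc, rfl⟩ := h
  refine ⟨fun α => a * c α, fun α hα => B.mul_mem ha (hc α hα), ?_⟩
  rw [Finset.mul_sum]
  exact Finset.sum_congr rfl fun α _ => by ring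

/-- The adapted charts of the global machine. -/
theorem AdaptI.toGM (h : Hyp G A) {N : ℕ} {I : Fin N → Submodule A K}
    (hst : ∀ j, StId G A (I j)) {D : Set (Fin N → ℤ)} {n : ℕ} {x : Fin n → K}
    {R : Subalgebra k K} {W : ValuationSubring K} {y : Fin N → K} (had : AdaptI A R x I D W y) :
    ∃ B : Subalgebra k K, Pool.Agent.MP_b525bf_ag_GM.AdaptI A W B x I y D := by
  classical
  obtain ⟨P, Q, hx, hPQ, hS⟩ := had.par
  choose S hSne hSm hSv using hS
  choose Y hYT hYg using fun j => (hst j).exists_gens h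
  have hc : ∀ j, ∀ z : K, ∃ c : (Fin n → ℕ) → K, z ∈ Y j →
      (∀ α ∈ S j, c α ∈ R) ∧ z = ∑ α ∈ S j, c α * mon x (zx α) := by
    intro j z
    by_cases hz : z ∈ Y j
    · obtain ⟨c, hc⟩ := hSm j z (hYT j z hz)
      exact ⟨c, fun _ => hc⟩
    · exact ⟨0, fun h => absurd h hz⟩
  choose c hc using hc
  obtain ⟨SA, hSA⟩ := h.fg
  let E : Finset K := SA ∪ Finset.univ.image x ∪
    Finset.univ.biUnion (fun j => (Y j ×ˢ S j).image fun p => c j p.1 p.2)
  have hER : (E : Set K) ⊆ R := by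
    intro e he
    simp only [E, Finset.coe_union, Finset.coe_biUnion, Finset.coe_image, Set.mem_union,
      Set.mem_iUnion, Set.mem_image, Finset.mem_coe, Finset.mem_product, Finset.mem_univ] at he
    rcases he with (he | ⟨i, -, rfl⟩) | ⟨j, -, ⟨t, β⟩, ⟨ht, hβ⟩, rfl⟩
    · have : e ∈ A := by rw [← hSA]; exact Algebra.subset_adjoin he
      exact had.le this
    · exact had.mem i
    · exact (hc j t ht).1 β hβ
  obtain ⟨B, hBfg, hEB, hBR, hBs⟩ := had.sm E hER
  have hAB : A ≤ B := by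
    rw [← hSA]
    refine Algebra.adjoin_le fun a ha => hEB ?_
    simp only [E, Finset.coe_union, Set.mem_union]
    exact Or.inl (Or.inl ha)
  have hcB : ∀ j, ∀ t ∈ Y j, ∀ β ∈ S j, c j t β ∈ B := by
    intro j t ht β hβ
    apply hEB
    simp only [E, Finset.coe_union, Finset.coe_biUnion, Finset.coe_image, Set.mem_union,
      Set.mem_iUnion, Set.mem_image, Finset.mem_coe, Finset.mem_product]
    exact Or.inr ⟨j, Finset.mem_univ j, ⟨t, β⟩, ⟨ht, hβ⟩, rfl⟩
  refine ⟨B, hBfg, fun b hb => had.leW b (hBR hb), hAB, had.ne, hBs, had.yI, had.y0, had.ymax,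
    ⟨P, Q, hx, hPQ, fun j => ⟨S j, ?_, fun α hα => (hSv j α hα).1, fun α hα => (hSv j α hα).2⟩⟩,
    ?_⟩
  · intro z hz
    have hz' := hYg j hz
    have key : InMon B x (S j) z := by
      refine Submodule.span_induction (p := fun z _ => InMon B x (S j) z) ?_ gmc_zero
        (fun a b _ _ => gmc_add) (fun a b _ hb => ?_) hz'
      · intro t ht
        exact ⟨c j t, fun α hα => hcB j t ht α hα, (hc j t ht).2⟩
      · exact gmc_smul (hAB a.2) hb
    exact key
  · obtain ⟨F, hFR, hFf, hfr⟩ := had.frac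
    have hFR' : Algebra.adjoin k (F : Set K) ≤ R := Algebra.adjoin_le hFR
    refine ⟨F, fun c hc => had.leW c (hFR hc), hFf, fun e he => ?_⟩
    obtain ⟨a, ha, b, hb, hb0, hbR, rfl⟩ := hfr e (hBR he)
    refine ⟨a, ha, b, hb, hb0, ?_, rfl⟩
    have h1 : W.valuation b ≤ 1 := (W.valuation_le_one_iff _).2 (had.leW b (hFR' hb))
    have h2 : W.valuation b⁻¹ ≤ 1 := (W.valuation_le_one_iff _).2 (had.leW _ hbR)
    refine le_antisymm h1 ?_
    rw [map_inv₀] at h2
    exact (inv_le_one₀ (zero_lt_iff.2 ((Valuation.ne_zero_iff _).2 hb0))).1 h2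

/-- The output of ES is the input of the global machine. -/
theorem adapted_of_adaptI (h : Hyp G A) {N : ℕ} {I : Fin N → Submodule A K}
    (hst : ∀ j, StId G A (I j)) {D : Set (Fin N → ℤ)} (hD : D.Finite)
    (had : ∀ W : ValuationSubring K, Inv G A W → ∃ (n : ℕ) (x : Fin n → K)
      (R : Subalgebra k K) (y : Fin N → K), AdaptI A R x I D W y)
    (𝒯 : Set (Submodule A K)) (hT : ∀ T ∈ 𝒯, ∃ j, I j = T) :
    Pool.Agent.MP_b525bf_ag_GM.Adapted G A 𝒯 := by
  refine ⟨N, I, D, ⟨fun j => (hst j).le, fun j hj => ?_, fun j => (hst j).stab⟩, hD, hT,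
    fun W hW => ?_⟩
  · obtain ⟨z, hz, hz0⟩ := (hst j).ne
    rw [hj, Submodule.mem_bot] at hz
    exact hz0 hz
  · obtain ⟨n, x, R, y, hy⟩ := had W hW
    obtain ⟨B, hB⟩ := hy.toGM h hst
    exact ⟨n, x, B, y, hB⟩

end Pool.Agent.MP_b525bf_ag_ES
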