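import Pool.Agent.Lib.MP_b525bf_ag_ES.IFB

/-!
# Theorem ES, row IQZ: elements of least value are units at `Q`
-/

set_option autoImplicit false
set_option linter.unusedVariables false

namespace Pool.Agent.MP_b525bf_ag_ES

open Pool.Agent.LU2 Pool.Agent.MP_b525bf_ag Pool.Agent.MP_b525bf_ag_W Pool.Agent.MP_b525bf_ag_E

variable {k K : Type} [Field k] [Field K] [Algebra k K] {G : Subgroup (K ≃ₐ[k] K)}
  {A : Subalgebra k K}

variable {N m : ℕ} {I : Fin N → Submodule A K} {u : Fin m → Fin N → ℕ} {D : Set (Fin N → ℤ)}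
  {Q : Ideal (IF A I u).alg} [Q.IsPrime]

theorem SemiI.isU_y (hQ : SemiI A I u D Q) {W : ValuationSubring K}
    (hW : Dom W (zeroSub (atP (IF A I u) Q))) {j : Fin N} {y : K} (hy : y ∈ I j)
    (hmax : ∀ z ∈ I j, W.valuation z ≤ W.valuation y) :
    IsU (atP (IF A I u) Q) (dF m j) y := by
  obtain ⟨y', hy', hU⟩ := hQ.unF j
  have hy'0 : W.valuation y' ≠ 0 := (Valuation.ne_zero_iff _).2 hU.1
  have hmem : y ∈ (IF A I u).s (dF m j) :=
    Algebra.subset_adjoin (Or.inl (Or.inl (Or.inr ⟨j, y, hy, rfl⟩)))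
  have h0 : y * y'⁻¹ ∈ (atP (IF A I u) Q).s 0 := by
    have h1 := (atP (IF A I u) Q).mul' (le_atP _ Q _ hmem) hU.2.2
    rwa [add_neg_cancel] at h1
  have h1 : W.valuation (y * y'⁻¹) ≤ 1 := (W.valuation_le_one_iff _).2 (hW.le _ h0)
  have h2 : W.valuation (y * y'⁻¹) = 1 := by
    refine le_antisymm h1 ?_
    rw [map_mul, map_inv₀, ← div_eq_mul_inv]
    exact (one_le_div₀ (zero_lt_iff.2 hy'0)).2 (hmax y' hy')
  have h3 := hW.inv _ h0 h2
  have h4 : y * y'⁻¹ ≠ 0 := by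
    intro h
    rw [h, map_zero] at h2
    exact zero_ne_one h2
  have h5 : IsU (atP (IF A I u) Q) 0 (y * y'⁻¹) := ⟨h4, h0, by rw [neg_zero]; exact h3⟩
  have h6 := h5.mul hU
  rw [zero_add, inv_mul_cancel_right₀ hU.1] at h6
  exact h6

end Pool.Agent.MP_b525bf_ag_ES
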