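import Pool.Agent.Lib.MP_b525bf_ag_ES.ISGN
import Pool.Agent.Lib.MP_b525bf_ag_ES.IQZ

/-!
# Theorem ES, row ICH1: the ring of the chart is contained in the degree zero part
-/

set_option autoImplicit false
set_option linter.unusedVariables false

namespace Pool.Agent.MP_b525bf_ag_ES

open Pool.Agent.LU2 Pool.Agent.MP_b525bf_ag Pool.Agent.MP_b525bf_ag_W Pool.Agent.MP_b525bf_ag_E

variable {k K : Type} [Field k] [Field K] [Algebra k K] {G : Subgroup (K ≃ₐ[k] K)}
  {A : Subalgebra k K}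

variable {n : ℕ} {x : Fin n → K} {N m : ℕ} {I : Fin N → Submodule A K} {f : Fin N → K} {u : Fin m → Fin N → ℕ}
  {θ : Fin m → ℕ} {D : Set (Fin N → ℤ)} {Q : Ideal (IF A I u).alg} [Q.IsPrime]
  {R : Subalgebra k K}

private theorem CH1_mon_single (f : Fin N → K) (j : Fin N) :
    mon f (Pi.single j 1) = f j := by
  unfold mon
  rw [Finset.prod_eq_single j]
  · rw [Pi.single_eq_same, zpow_one]
  · intro i _ hi
    rw [Pi.single_eq_of_ne hi, zpow_zero]
  · intro h
    exact absurd (Finset.mem_univ j) h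

private theorem CH1_mon_dv (f : Fin N → K) (hf0 : ∀ j, f j ≠ 0) (p q : Fin N) :
    mon f (dv p q) = f p / f q := by
  have h1 : mon f (dv p q) = mon f (Pi.single p 1) / mon f (Pi.single q 1) := by
    unfold mon dv
    rw [← Finset.prod_div_distrib]
    refine Finset.prod_congr rfl fun i _ => ?_
    rw [Pi.sub_apply, zpow_sub₀ (hf0 i)]
  rw [h1, CH1_mon_single, CH1_mon_single]

theorem SemiI.le_zero (hQ : SemiI A I u D Q) (hf0 : ∀ j, f j ≠ 0)
    (hU : ∀ j, IsU (atP (IF A I u) Q) (dF m j) (f j)) {W : ValuationSubring K}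
    (hW : Dom W (zeroSub (atP (IF A I u) Q))) (had : AdaptI A R x I D W f) : R ≤ zeroSub (atP (IF A I u) Q) := by
  obtain ⟨F, hFR, hFf, hfr⟩ := had.frac
  have hFz : Algebra.adjoin k (F : Set K) ≤ zeroSub (atP (IF A I u) Q) := by
    refine Algebra.adjoin_le ?_
    intro c hc
    obtain ⟨p, q, hcq, hD⟩ := hFf c (Finset.mem_coe.1 hc)
    have h1 : W.valuation (mon f (dv p q)) ≤ 1 := by
      rw [CH1_mon_dv f hf0, ← hcq]
      exact (W.valuation_le_one_iff _).2 (had.leW c (hFR hc))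
    have h2 : mon f (dv p q) ∈ (atP (IF A I u) Q).s 0 :=
      hQ.mem_zero hf0 hU fun i hi => hQ.pr_nonneg hf0 hU hW hD h1 i hi
    rw [CH1_mon_dv f hf0, ← hcq] at h2
    exact h2
  have hFR' : Algebra.adjoin k (F : Set K) ≤ R := Algebra.adjoin_le hFR
  intro c hc
  obtain ⟨a, ha, b, hb, hb0, hbR, rfl⟩ := hfr c hc
  have h1 : W.valuation b ≤ 1 := (W.valuation_le_one_iff _).2 (had.leW b (hFR' hb))
  have h2 : W.valuation b⁻¹ ≤ 1 := (W.valuation_le_one_iff _).2 (had.leW _ hbR)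
  have h3 : W.valuation b = 1 := by
    refine le_antisymm h1 ?_
    by_contra hlt
    rw [not_le] at hlt
    have h4 : W.valuation b * W.valuation b⁻¹ = 1 := by
      rw [← map_mul, mul_inv_cancel₀ hb0, map_one]
    have h5 := mul_lt_one_of_lt_of_le hlt h2
    rw [h4] at h5
    exact lt_irrefl _ h5
  rw [div_eq_mul_inv]
  exact Subalgebra.mul_mem _ (hFz ha) (hW.inv b (hFz hb) h3)

end Pool.Agent.MP_b525bf_ag_ES
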