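import Pool.Agent.Lib.MP_b525bf_ag_ES.CTL

/-!
# Theorem ES, row IDN
The elements of largest valuation outside of the generic set. Recipe. Let `P₁ a W`, `f := b₁ a * c`. For
each `i` let `c_i ∈ C₀ i` be an element with `W(c_i)` largest; `W(z) ≤ W(b_i c_i)` for `z ∈ bbI (C₀ i) (b₀ i)`
(`val_orb`, row CMPL; `W(b c) = W(b) W(c)`). `y₀ := q^N ∏_i (b_i c_i)^N ∈ jI`, and `W(z) ≤ W(y₀)` for all
`z ∈ jI` (`val_orb_pow`; valuations of elements of products and powers of submodules: a lemma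
`(∀ y ∈ I, W y ≤ r) → (∀ y ∈ I', W y ≤ r') → ∀ y ∈ I * I', W y ≤ r * r'`). `f y₀ ∈ orb f * jI`. For
`z ∈ extI i α`, `α ∈ S i f`: `W(z) ≤ W(x^α) W(b_i)^N W(p)^N ∏_{i' ≠ i} W(b_{i'} c_{i'})^N`, which is at most
`W(f) W(q)^N W(b_i c_i)^N ∏_{i' ≠ i} ... = W(f y₀)` by `hat.uni` (the `c'` there has `W(c') ≤ W(c_i)`).
So `W(z) ≤ W(f y₀)` for all `z ∈ bigI` (sup: `Submodule.mem_sup`; the elements of valuation `≤ r` form an
`A`-submodule as `A ⊆ W`).
-/

set_option autoImplicit false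
set_option linter.unusedVariables false

namespace Pool.Agent.MP_b525bf_ag_ES

open Pool.Agent.LU2 Pool.Agent.MP_b525bf_ag Pool.Agent.MP_b525bf_ag_W Pool.Agent.MP_b525bf_ag_E

variable {k K : Type} [Field k] [Field K] [Algebra k K] {G : Subgroup (K ≃ₐ[k] K)}
  {A : Subalgebra k K} {M : IntermediateField k K} {L : Set K}

variable {V W : ValuationSubring K} {B : Subalgebra k K} {n : ℕ} {x : Fin n → K}

variable {m₀ m₁ : ℕ} {n₀ : Fin m₀ → ℕ} {n₁ : Fin m₁ → ℕ} {R₀ : Fin m₀ → Subalgebra k K}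
  {x₀ : ∀ i, Fin (n₀ i) → K} {C₀ : Fin m₀ → Finset K} {b₀ : Fin m₀ → K}
  {P₀ : Fin m₀ → ValuationSubring K → Prop} {R₁ : Fin m₁ → Subalgebra k K}
  {x₁ : ∀ a, Fin (n₁ a) → K} {C₁ : Fin m₁ → Finset K} {b₁ : Fin m₁ → K}
  {P₁ : Fin m₁ → ValuationSubring K → Prop} {p q : Fin m₁ → K}
  {S : ∀ i, K → Finset (Fin (n₀ i) → ℕ)} {N : ℕ}

/-- all elements of `I` have valuation at most `r` -/
private def IdnBd (W : ValuationSubring K) (I : Submodule A K) (r : W.ValueGroup) : Prop :=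
  ∀ y ∈ I, W.valuation y ≤ r

private theorem idn_mul {W : ValuationSubring K} {I I' : Submodule A K} {r r' : W.ValueGroup}
    (h : IdnBd W I r) (h' : IdnBd W I' r') : IdnBd W (I * I') (r * r') := by
  intro y hy
  induction hy using Submodule.mul_induction_on' with
  | mem_mul_mem a ha b hb =>
    rw [map_mul]
    exact mul_le_mul' (h a ha) (h' b hb)
  | add a _ b _ ha hb => exact W.valuation.map_add_le ha hb

private theorem idn_one {W : ValuationSubring K} (hA : ∀ a ∈ A, a ∈ W) :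
    IdnBd W (1 : Submodule A K) 1 := by
  intro y hy
  obtain ⟨a, rfl⟩ := Submodule.mem_one.1 hy
  exact (W.valuation_le_one_iff _).2 (hA _ a.2)

private theorem idn_pow {W : ValuationSubring K} (hA : ∀ a ∈ A, a ∈ W) {I : Submodule A K}
    {r : W.ValueGroup} (h : IdnBd W I r) (q : ℕ) : IdnBd W (I ^ q) (r ^ q) := by
  induction q with
  | zero => rw [pow_zero, pow_zero]; exact idn_one hA
  | succ q ih => rw [pow_succ, pow_succ]; exact idn_mul ih h

private theorem idn_prod {W : ValuationSubring K} (hA : ∀ a ∈ A, a ∈ W) {ι : Type}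
    [DecidableEq ι] (s : Finset ι) (F : ι → Submodule A K) (r : ι → W.ValueGroup)
    (h : ∀ i ∈ s, IdnBd W (F i) (r i)) : IdnBd W (∏ i ∈ s, F i) (∏ i ∈ s, r i) := by
  induction s using Finset.induction_on with
  | empty => rw [Finset.prod_empty, Finset.prod_empty]; exact idn_one hA
  | insert i s hi ih =>
    rw [Finset.prod_insert hi, Finset.prod_insert hi]
    exact idn_mul (h i (Finset.mem_insert_self _ _))
      (ih fun j hj => h j (Finset.mem_insert_of_mem hj))

private theorem idn_sup {W : ValuationSubring K} {I I' : Submodule A K} {r : W.ValueGroup}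
    (h : IdnBd W I r) (h' : IdnBd W I' r) : IdnBd W (I ⊔ I') r := by
  intro y hy
  obtain ⟨a, ha, b, hb, rfl⟩ := Submodule.mem_sup.1 hy
  exact W.valuation.map_add_le (h a ha) (h' b hb)

private theorem idn_fsup {W : ValuationSubring K} {ι : Type} (s : Finset ι)
    (F : ι → Submodule A K) {r : W.ValueGroup} (h : ∀ i ∈ s, IdnBd W (F i) r) :
    IdnBd W (s.sup F) r := by
  refine Finset.sup_induction (p := fun I => IdnBd W I r) ?_ (fun _ ha _ hb => idn_sup ha hb) h
  intro y hy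
  rw [(Submodule.mem_bot _).1 hy, map_zero]
  exact zero_le

private theorem idn_mem_prod {ι : Type} [DecidableEq ι] (s : Finset ι) (F : ι → Submodule A K)
    (y : ι → K) (h : ∀ i ∈ s, y i ∈ F i) : ∏ i ∈ s, y i ∈ ∏ i ∈ s, F i := by
  induction s using Finset.induction_on with
  | empty => rw [Finset.prod_empty, Finset.prod_empty]; exact Submodule.one_le.1 le_rfl
  | insert i s hi ih =>
    rw [Finset.prod_insert hi, Finset.prod_insert hi]
    exact Submodule.mul_mem_mul (h i (Finset.mem_insert_self _ _))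
      (ih fun j hj => h j (Finset.mem_insert_of_mem hj))

theorem max_big (h : Hyp G A) (hat : Atl G A R₀ x₀ C₀ b₀ P₀ R₁ x₁ C₁ b₁ P₁ p q S N)
    (a : Fin m₁) (hW : P₁ a W) : ∃ y₀ : K, y₀ ≠ 0 ∧ ∀ c ∈ C₁ a,
      b₁ a * c * y₀ ∈ bigI G A x₀ C₀ b₀ S (p a) (q a) N (b₁ a * c) ∧
      ∀ z ∈ bigI G A x₀ C₀ b₀ S (p a) (q a) N (b₁ a * c),
        W.valuation z ≤ W.valuation (b₁ a * c * y₀) := by
  classical
  have hI : Inv G A W := (hat.inv1 a W hW).1
  have hA : ∀ z ∈ A, z ∈ W := hI.le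
  have hmx : ∀ i, ∃ c' ∈ C₀ i, ∀ c'' ∈ C₀ i, W.valuation c'' ≤ W.valuation c' := fun i =>
    Finset.exists_max_image (C₀ i) (fun z => W.valuation z) ⟨1, (hat.ch0 i).one⟩
  choose cc hcc hmax using hmx
  have hbb : ∀ i, IdnBd W (bbI G A (C₀ i) (b₀ i)) (W.valuation (b₀ i * cc i)) := by
    intro i
    refine idn_fsup _ _ fun c hc y hy => (val_orb hI hy).trans ?_
    rw [map_mul, map_mul]
    exact mul_le_mul' le_rfl (hmax i c hc)
  have hbm : ∀ i, b₀ i * cc i ∈ bbI G A (C₀ i) (b₀ i) := fun i =>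
    (Finset.le_sup (f := fun c => orb G A (b₀ i * c)) (hcc i)) (mem_orb _)
  have horb : ∀ (z : K), IdnBd W (orb G A z) (W.valuation z) := fun z y hy => val_orb hI hy
  refine ⟨q a ^ N * ∏ i, (b₀ i * cc i) ^ N, ?_, fun c hc => ⟨?_, ?_⟩⟩
  · refine mul_ne_zero (pow_ne_zero _ (hat.qA a).2) (Finset.prod_ne_zero_iff.2 fun i _ => ?_)
    exact pow_ne_zero _ (mul_ne_zero (hat.ch0 i).b0 ((hat.ch0 i).c0 _ (hcc i)))
  · refine (le_sup_left : _ ≤ bigI G A x₀ C₀ b₀ S (p a) (q a) N (b₁ a * c)) ?_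
    refine Submodule.mul_mem_mul (mem_orb _) (Submodule.mul_mem_mul ?_ ?_)
    · exact Submodule.pow_mem_pow _ (mem_orb _) N
    · exact idn_mem_prod _ _ _ fun i _ => Submodule.pow_mem_pow _ (hbm i) N
  · have hval : W.valuation (b₁ a * c * (q a ^ N * ∏ i, (b₀ i * cc i) ^ N)) =
        W.valuation (b₁ a * c) * (W.valuation (q a) ^ N * ∏ i, W.valuation (b₀ i * cc i) ^ N) := by
      rw [map_mul, map_mul (W.valuation) (q a ^ N), map_pow, map_prod]
      simp only [map_pow]
    rw [hval]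
    refine idn_sup ?_ (idn_fsup _ _ fun i _ => idn_fsup _ _ fun α hα => ?_)
    · refine idn_mul (horb _) (idn_mul (idn_pow hA (horb _) N) ?_)
      exact idn_prod hA _ _ _ fun i _ => idn_pow hA (hbb i) N
    · have h1 : IdnBd W (extI G A x₀ C₀ b₀ (p a) N i α)
          (W.valuation (mon (x₀ i) (zx α) * b₀ i ^ N) * W.valuation (p a) ^ N *
            ∏ i' ∈ Finset.univ.erase i, W.valuation (b₀ i' * cc i') ^ N) :=
        idn_mul (idn_mul (horb _) (idn_pow hA (horb _) N))
          (idn_prod hA _ _ _ fun i _ => idn_pow hA (hbb i) N)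
      intro y hy
      refine (h1 y hy).trans ?_
      obtain ⟨c', hc', h2⟩ := hat.uni a W hW i c hc
      have h3 := h2 α hα
      rw [← Finset.mul_prod_erase Finset.univ (fun i => W.valuation (b₀ i * cc i) ^ N)
        (Finset.mem_univ i), ← mul_assoc (W.valuation (q a) ^ N), ← mul_assoc]
      refine mul_le_mul' ?_ le_rfl
      calc W.valuation (mon (x₀ i) (zx α) * b₀ i ^ N) * W.valuation (p a) ^ N
          = W.valuation (mon (x₀ i) (zx α)) * (W.valuation (p a) * W.valuation (b₀ i)) ^ N := by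
            rw [map_mul, map_pow, mul_pow, mul_assoc, mul_comm (W.valuation (b₀ i) ^ N)]
        _ ≤ W.valuation (b₁ a * c) * (W.valuation (q a) * W.valuation (b₀ i * c')) ^ N := h3
        _ ≤ W.valuation (b₁ a * c) * (W.valuation (q a) * W.valuation (b₀ i * cc i)) ^ N := by
            refine mul_le_mul' le_rfl (pow_le_pow_left' (mul_le_mul' le_rfl ?_) _)
            rw [map_mul, map_mul]
            exact mul_le_mul' le_rfl (hmax i c' hc')
        _ = W.valuation (b₁ a * c) * (W.valuation (q a) ^ N * W.valuation (b₀ i * cc i) ^ N) := by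
            rw [mul_pow]

end Pool.Agent.MP_b525bf_ag_ES
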