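import Pool.Agent.Lib.MP_b525bf_ag_ES.IDG
import Pool.Agent.Lib.MP_b525bf_ag_ES.IDN
import Pool.Agent.Lib.MP_b525bf_ag_ES.ASM

/-!
# Theorem ES, row IDA
From an atlas to adapted charts. Recipe. `J := (Σ i : Fin m₀, C₀ i) ⊕ (Σ a : Fin m₁, C₁ a)` (finite),
`I (inl ⟨i, c⟩) := orb G A (b₀ i * c)`, `I (inr ⟨a, c⟩) := bigI G A x₀ C₀ b₀ S (p a) (q a) N (b₁ a * c)`. The
charts are indexed by `Fin (m₀ + m₁)` (`finSumFinEquiv`, or `Fin.addCases`, with `n`, `R`, `x`, ... defined by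
cases; it may be simpler to prove first a version of `exists_adaptI` for charts indexed by a finite
type `T : Type`). Generic charts: `Adm` with `ctl` from `hat.ctlb` and `ctl_big` (row IDG), `idx` with
`κ c = inl ⟨i, c⟩`, `y₀ = 1` and `val_orb` (row CMPL). Other charts: `ctl` from `hat.mono` and `stId_orb`,
`stId_bigI`; `idx` from `max_big` (row IDN).
-/

set_option autoImplicit false
set_option linter.unusedVariables false

namespace Pool.Agent.MP_b525bf_ag_ES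

open Pool.Agent.LU2 Pool.Agent.MP_b525bf_ag Pool.Agent.MP_b525bf_ag_W Pool.Agent.MP_b525bf_ag_E

variable {k K : Type} [Field k] [Field K] [Algebra k K] {G : Subgroup (K ≃ₐ[k] K)}
  {A : Subalgebra k K} {M : IntermediateField k K} {L : Set K}

variable {V W : ValuationSubring K} {B : Subalgebra k K} {n : ℕ} {x : Fin n → K}

variable {m₀ m₁ : ℕ} {n₀ : Fin m₀ → ℕ} {n₁ : Fin m₁ → ℕ} {R₀ : Fin m₀ → Subalgebra k K}
  {x₀ : ∀ i, Fin (n₀ i) → K} {C₀ : Fin m₀ → Finset K} {b₀ : Fin m₀ → K}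
  {P₀ : Fin m₀ → ValuationSubring K → Prop} {R₁ : Fin m₁ → Subalgebra k K}
  {x₁ : ∀ a, Fin (n₁ a) → K} {C₁ : Fin m₁ → Finset K} {b₁ : Fin m₁ → K}
  {P₁ : Fin m₁ → ValuationSubring K → Prop} {p q : Fin m₁ → K}
  {S : ∀ i, K → Finset (Fin (n₀ i) → ℕ)} {N : ℕ}

/-- The same with charts indexed by a finite type. -/
private theorem ida_exists (h : Hyp G A) {J : Type} [Finite J] {I : J → Submodule A K}
    (hst : ∀ j, StId G A (I j)) {T : Type} [Finite T] {n : T → ℕ} {R : T → Subalgebra k K}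
    {x : ∀ i, Fin (n i) → K} {C : T → Finset K} {b : T → K}
    {P : T → ValuationSubring K → Prop}
    (had : ∀ i, Adm A I (R i) (x i) (C i) (b i) (P i))
    (hcov : ∀ W : ValuationSubring K, Inv G A W → ∃ i, P i W) :
    ∃ (N : ℕ) (I' : Fin N → Submodule A K) (D : Set (Fin N → ℤ)),
      (∀ j : J, ∃ j' : Fin N, I' j' = I j) ∧ (∀ j, StId G A (I' j)) ∧
      D.Finite ∧ ∀ W : ValuationSubring K, Inv G A W → ∃ (n : ℕ) (x : Fin n → K)
        (R : Subalgebra k K) (y : Fin N → K), AdaptI A R x I' D W y := by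
  obtain ⟨m, ⟨e⟩⟩ := Finite.exists_equiv_fin T
  refine exists_adaptI' h hst (m := m) (n := fun i => n (e.symm i)) (R := fun i => R (e.symm i))
    (x := fun i => x (e.symm i)) (C := fun i => C (e.symm i)) (b := fun i => b (e.symm i))
    (P := fun i => P (e.symm i)) (fun i => had (e.symm i)) fun W hW => ?_
  obtain ⟨t, ht⟩ := hcov W hW
  refine ⟨e t, ?_⟩
  rw [e.symm_apply_apply]
  exact ht

/-- The same for the ideals of the atlas together with finitely many other controlled ideals. -/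
theorem Atl.exists_adaptI' (h : Hyp G A)
    (hat : Atl G A R₀ x₀ C₀ b₀ P₀ R₁ x₁ C₁ b₁ P₁ p q S N) {τ : Type} [Finite τ]
    (T : τ → Submodule A K) (hT : ∀ t, StId G A (T t))
    (hTc : ∀ t i, ∃ S', Ctl (R₀ i) (x₀ i) (P₀ i) (T t) S') :
    ∃ (N : ℕ) (I' : Fin N → Submodule A K) (D : Set (Fin N → ℤ)), (∀ t, ∃ j, I' j = T t) ∧
      (∀ j, StId G A (I' j)) ∧ D.Finite ∧ ∀ W : ValuationSubring K, Inv G A W →
        ∃ (n : ℕ) (x : Fin n → K) (R : Subalgebra k K) (y : Fin N → K),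
          AdaptI A R x I' D W y := by
  classical
  -- the ideals
  let I : (Σ i : Fin m₀, {c // c ∈ C₀ i}) ⊕ ((Σ a : Fin m₁, {c // c ∈ C₁ a}) ⊕ τ) →
      Submodule A K := Sum.elim (fun u => orb G A (b₀ u.1 * u.2.1))
      (Sum.elim (fun u => bigI G A x₀ C₀ b₀ S (p u.1) (q u.1) N (b₁ u.1 * u.2.1)) T)
  have hst : ∀ j, StId G A (I j) := by
    rintro (⟨i, c, hc⟩ | ⟨a, c, hc⟩ | t)
    · exact stId_orb h ((hat.ch0 i).bC c hc) (mul_ne_zero (hat.ch0 i).b0 ((hat.ch0 i).c0 c hc))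
    · exact stId_bigI h hat a hc
    · exact hT t
  -- the charts
  let n' : Fin m₀ ⊕ Fin m₁ → ℕ := Sum.elim n₀ n₁
  let R' : Fin m₀ ⊕ Fin m₁ → Subalgebra k K := Sum.elim R₀ R₁
  let x' : ∀ t : Fin m₀ ⊕ Fin m₁, Fin (n' t) → K := fun t =>
    match t with
    | Sum.inl i => x₀ i
    | Sum.inr a => x₁ a
  let C' : Fin m₀ ⊕ Fin m₁ → Finset K := Sum.elim C₀ C₁
  let b' : Fin m₀ ⊕ Fin m₁ → K := Sum.elim b₀ b₁
  let P' : Fin m₀ ⊕ Fin m₁ → ValuationSubring K → Prop := Sum.elim P₀ P₁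
  have had0 : ∀ i, Adm A I (R₀ i) (x₀ i) (C₀ i) (b₀ i) (P₀ i) := by
    intro i
    refine ⟨hat.ch0 i, fun W hW f hf => (hat.inv0 i W hW).2 f hf, ?_, ?_⟩
    · rintro (⟨i', c, hc⟩ | ⟨a, c, hc⟩ | t)
      · exact hat.ctlb i i' c hc
      · exact ctl_big h hat i a hc
      · exact hTc t i
    · refine ⟨fun c => if hc : c ∈ C₀ i then Sum.inl ⟨i, ⟨c, hc⟩⟩ else
        Sum.inl ⟨i, ⟨1, (hat.ch0 i).one⟩⟩, ?_, ?_⟩
      · intro c hc c' hc' hcc
        have hc1 : c ∈ C₀ i := hc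
        have hc2 : c' ∈ C₀ i := hc'
        simp only [hc1, hc2, dif_pos, Sum.inl.injEq, Sigma.mk.injEq, heq_eq_eq, true_and,
          Subtype.mk.injEq] at hcc
        exact hcc
      · intro W hW
        refine ⟨1, one_ne_zero, fun c hc => ?_⟩
        simp only [hc, dif_pos, mul_one]
        exact ⟨mem_orb _, fun z hz => val_orb (hat.inv0 i W hW).1 hz⟩
  have had1 : ∀ a, Adm A I (R₁ a) (x₁ a) (C₁ a) (b₁ a) (P₁ a) := by
    intro a
    refine ⟨hat.ch1 a, fun W hW f hf => (hat.inv1 a W hW).2 f hf,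
      fun j => hat.mono a (I j) (hst j), ?_⟩
    · refine ⟨fun c => if hc : c ∈ C₁ a then Sum.inr (Sum.inl ⟨a, ⟨c, hc⟩⟩) else
        Sum.inr (Sum.inl ⟨a, ⟨1, (hat.ch1 a).one⟩⟩), ?_, ?_⟩
      · intro c hc c' hc' hcc
        have hc1 : c ∈ C₁ a := hc
        have hc2 : c' ∈ C₁ a := hc'
        simp only [hc1, hc2, dif_pos, Sum.inr.injEq, Sum.inl.injEq, Sigma.mk.injEq, heq_eq_eq,
          true_and, Subtype.mk.injEq] at hcc
        exact hcc
      · intro W hW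
        obtain ⟨y₀, hy0, hy⟩ := max_big h hat a hW
        refine ⟨y₀, hy0, fun c hc => ?_⟩
        simp only [hc, dif_pos]
        exact hy c hc
  obtain ⟨N, I', D, h1, h2, h3, h4⟩ := ida_exists h hst (T := Fin m₀ ⊕ Fin m₁) (n := n')
    (R := R') (x := x') (C := C') (b := b') (P := P')
    (by
      rintro (i | a)
      · exact had0 i
      · exact had1 a)
    (by
      intro W hW
      rcases hat.cov W hW with ⟨i, hi⟩ | ⟨a, ha⟩
      · exact ⟨Sum.inl i, hi⟩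
      · exact ⟨Sum.inr a, ha⟩)
  exact ⟨N, I', D, fun t => h1 (Sum.inr (Sum.inr t)), h2, h3, h4⟩

theorem Atl.exists_adaptI (h : Hyp G A)
    (hat : Atl G A R₀ x₀ C₀ b₀ P₀ R₁ x₁ C₁ b₁ P₁ p q S N) :
    ∃ (N : ℕ) (I' : Fin N → Submodule A K) (D : Set (Fin N → ℤ)), (∀ j, StId G A (I' j)) ∧
      D.Finite ∧ ∀ W : ValuationSubring K, Inv G A W → ∃ (n : ℕ) (x : Fin n → K)
        (R : Subalgebra k K) (y : Fin N → K), AdaptI A R x I' D W y := by
  obtain ⟨N, I', D, -, h2⟩ := hat.exists_adaptI' h (τ := PEmpty) (fun t => t.elim)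
    (fun t => t.elim) (fun t => t.elim)
  exact ⟨N, I', D, h2⟩

end Pool.Agent.MP_b525bf_ag_ES
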