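import Pool.Agent.Lib.MP_b525bf_ag_ES.CTL

/-!
# Theorem ES, row IDG
The ideals are controlled on the generic charts, and the basic facts on the ideals.
Recipe. `stId_*`: products and sups of stable nonzero ideals of `A`; `mon (x₀ i) (zx α) * b₀ i ^ N ∈ A` if
`∑ α ≤ N`: it is `∏ (b x_l)^(α_l) * b^(N - ∑ α)`. `val_bbI`: `val_orb`. `ctl_big`: let `P₀ i W`, `R := R₀ i`.
`bbI (C₀ i') (b₀ i')` is controlled for all `i'` (`ctlb`, `ctl_finset_sup`), so `jI` is controlled, by `S_J`
say. `extI i' α`: `orb (x^α b^N) ≤ ∏ orb (b x_l)^(α_l) * orb (b)^(N - ∑ α)`, controlled by `ctl_orb_mul`,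
`ctl_orb_pow`, `ctlb` (all factors are `b₀ i' * c`, `c ∈ C₀ i'`); `orb p` by `ctlp`. `orb f * jI` is contained in
the monomial ideal of the exponents `α + β`, `α ∈ S i f`, `β ∈ S_J` (`sup`), and for `W` with `P₀ i W`:
`W(x^(α + β)) ≤ W(x^α) W(z)` for some `z ∈ jI` (`Ctl.val`), `W(z) ≤ W(q)^N ∏_{i'} W(bb_{i'})^N`, where
`W(bb_i) = W(b_i)` as `C₀ i ⊆ R₀ i ⊆ W`, and `W(q) = W(p)` (`gen`), so this is the valuation of an element of
`extI i α`. So the union of `{α + β}` and of the exponent sets of all `extI i' α'` controls `bigI`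
(it is a sup: use `Submodule.mem_sup`, `inMon_add`).
-/

set_option autoImplicit false
set_option linter.unusedVariables false

namespace Pool.Agent.MP_b525bf_ag_ES

open Pool.Agent.LU2 Pool.Agent.MP_b525bf_ag Pool.Agent.MP_b525bf_ag_W Pool.Agent.MP_b525bf_ag_E

variable {k K : Type} [Field k] [Field K] [Algebra k K] {G : Subgroup (K ≃ₐ[k] K)}
  {A : Subalgebra k K} {M : IntermediateField k K} {L : Set K}

variable {V W : ValuationSubring K} {B : Subalgebra k K} {n : ℕ} {x : Fin n → K}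

variable {m₀ m₁ : ℕ} {n₀ : Fin m₀ → ℕ} {n₁ : Fin m₁ → ℕ} {R₀ : Fin m₀ → Subalgebra k K}
  {x₀ : ∀ i, Fin (n₀ i) → K} {C₀ : Fin m₀ → Finset K} {b₀ : Fin m₀ → K}
  {P₀ : Fin m₀ → ValuationSubring K → Prop} {R₁ : Fin m₁ → Subalgebra k K}
  {x₁ : ∀ a, Fin (n₁ a) → K} {C₁ : Fin m₁ → Finset K} {b₁ : Fin m₁ → K}
  {P₁ : Fin m₁ → ValuationSubring K → Prop} {p q : Fin m₁ → K}
  {S : ∀ i, K → Finset (Fin (n₀ i) → ℕ)} {N : ℕ}

/-! #### auxiliary submodules -/

/-- stable and contained in `A` -/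
private def IdgPre (G : Subgroup (K ≃ₐ[k] K)) (A : Subalgebra k K) (I : Submodule A K) : Prop :=
  (∀ z ∈ I, z ∈ A) ∧ ∀ g ∈ G, ∀ z ∈ I, g z ∈ I

private theorem idg_smul (a : A) (z : K) : a • z = (a : K) * z := rfl

private theorem idg_pre_orb (h : Hyp G A) {f : K} (hf : f ∈ A) : IdgPre G A (orb G A f) := by
  constructor
  · intro z hz
    unfold orb at hz
    induction hz using Submodule.span_induction with
    | mem z hz =>
      obtain ⟨g, hg, rfl⟩ := hz
      exact h.stab g hg f hf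
    | zero => exact A.zero_mem
    | add y z _ _ hy hz => exact A.add_mem hy hz
    | smul a z _ hz =>
      rw [idg_smul]
      exact A.mul_mem a.2 hz
  · intro g hg z hz
    unfold orb at hz ⊢
    induction hz using Submodule.span_induction with
    | mem z hz =>
      obtain ⟨g', hg', rfl⟩ := hz
      exact Submodule.subset_span ⟨g * g', G.mul_mem hg hg', rfl⟩
    | zero =>
      rw [map_zero]
      exact Submodule.zero_mem _
    | add y z _ _ hy hz =>
      rw [map_add]
      exact Submodule.add_mem _ hy hz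
    | smul a z _ hz =>
      have e : g (a • z) = (⟨g a, h.stab g hg a a.2⟩ : A) • g z := by
        rw [idg_smul, idg_smul, map_mul]
      rw [e]
      exact Submodule.smul_mem _ _ hz

private theorem idg_pre_mul {I I' : Submodule A K} (h : IdgPre G A I) (h' : IdgPre G A I') :
    IdgPre G A (I * I') := by
  constructor
  · intro z hz
    induction hz using Submodule.mul_induction_on' with
    | mem_mul_mem y hy z hz => exact A.mul_mem (h.1 y hy) (h'.1 z hz)
    | add y _ z _ hy hz => exact A.add_mem hy hz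
  · intro g hg z hz
    induction hz using Submodule.mul_induction_on' with
    | mem_mul_mem y hy z hz =>
      rw [map_mul]
      exact Submodule.mul_mem_mul (h.2 g hg y hy) (h'.2 g hg z hz)
    | add y _ z _ hy hz =>
      rw [map_add]
      exact Submodule.add_mem _ hy hz

private theorem idg_pre_one (h : Hyp G A) : IdgPre G A (1 : Submodule A K) := by
  have h1 : ∀ z : K, z ∈ (1 : Submodule A K) ↔ z ∈ A := by
    intro z
    rw [Submodule.mem_one]
    constructor
    · rintro ⟨a, rfl⟩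
      exact a.2
    · intro hz
      exact ⟨⟨z, hz⟩, rfl⟩
  constructor
  · intro z hz
    exact (h1 z).1 hz
  · intro g hg z hz
    exact (h1 _).2 (h.stab g hg z ((h1 z).1 hz))

private theorem idg_pre_pow (h : Hyp G A) {I : Submodule A K} (hI : IdgPre G A I) (q : ℕ) :
    IdgPre G A (I ^ q) := by
  induction q with
  | zero =>
    rw [pow_zero]
    exact idg_pre_one h
  | succ q ih =>
    rw [pow_succ]
    exact idg_pre_mul ih hI

private theorem idg_pre_prod (h : Hyp G A) {ι : Type} (s : Finset ι) (F : ι → Submodule A K)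
    (hF : ∀ i ∈ s, IdgPre G A (F i)) : IdgPre G A (∏ i ∈ s, F i) := by
  classical
  induction s using Finset.induction_on with
  | empty =>
    rw [Finset.prod_empty]
    exact idg_pre_one h
  | insert i s his ih =>
    rw [Finset.prod_insert his]
    exact idg_pre_mul (hF i (Finset.mem_insert_self _ _))
      (ih fun j hj => hF j (Finset.mem_insert_of_mem hj))

private theorem idg_pre_sup {I I' : Submodule A K} (h : IdgPre G A I) (h' : IdgPre G A I') :
    IdgPre G A (I ⊔ I') := by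
  constructor
  · intro z hz
    obtain ⟨y, hy, y', hy', rfl⟩ := Submodule.mem_sup.1 hz
    exact A.add_mem (h.1 y hy) (h'.1 y' hy')
  · intro g hg z hz
    obtain ⟨y, hy, y', hy', rfl⟩ := Submodule.mem_sup.1 hz
    rw [map_add]
    exact Submodule.add_mem_sup (h.2 g hg y hy) (h'.2 g hg y' hy')

private theorem idg_pre_fsup {ι : Type} (s : Finset ι) (F : ι → Submodule A K)
    (hF : ∀ i ∈ s, IdgPre G A (F i)) : IdgPre G A (s.sup F) := by
  classical
  induction s using Finset.induction_on with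
  | empty =>
    rw [Finset.sup_empty]
    constructor
    · intro z hz
      rw [Submodule.mem_bot] at hz
      rw [hz]
      exact A.zero_mem
    · intro g _ z hz
      rw [Submodule.mem_bot] at hz ⊢
      rw [hz, map_zero]
  | insert i s his ih =>
    rw [Finset.sup_insert]
    exact idg_pre_sup (hF i (Finset.mem_insert_self _ _))
      (ih fun j hj => hF j (Finset.mem_insert_of_mem hj))

private theorem idg_prod_mem {ι : Type} (s : Finset ι) (F : ι → Submodule A K) (y : ι → K)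
    (hy : ∀ i ∈ s, y i ∈ F i) : ∏ i ∈ s, y i ∈ ∏ i ∈ s, F i := by
  classical
  induction s using Finset.induction_on with
  | empty =>
    rw [Finset.prod_empty, Finset.prod_empty]
    exact Submodule.mem_one.2 ⟨1, map_one _⟩
  | insert i s his ih =>
    rw [Finset.prod_insert his, Finset.prod_insert his]
    exact Submodule.mul_mem_mul (hy i (Finset.mem_insert_self _ _))
      (ih fun j hj => hy j (Finset.mem_insert_of_mem hj))

private theorem idg_mem_bbI {C : Finset K} {b c : K} (hc : c ∈ C) : b * c ∈ bbI G A C b := by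
  have h1 : orb G A (b * c) ≤ bbI G A C b := Finset.le_sup (f := fun c => orb G A (b * c)) hc
  exact h1 (mem_orb _)

private theorem idg_pre_bbI (h : Hyp G A) {C : Finset K} {b : K} (hC : ∀ c ∈ C, b * c ∈ A) :
    IdgPre G A (bbI G A C b) :=
  idg_pre_fsup C _ fun c hc => idg_pre_orb h (hC c hc)

/-- the monomials times a power of the denominator -/
private theorem idg_mon_eq {n : ℕ} (x : Fin n → K) (b : K) (α : Fin n → ℕ) {N : ℕ}
    (hN : ∑ l, α l ≤ N) :
    mon x (zx α) * b ^ N = (∏ l, (b * x l) ^ α l) * b ^ (N - ∑ l, α l) := by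
  have h1 : mon x (zx α) = ∏ l, x l ^ α l := by
    unfold mon zx
    exact Finset.prod_congr rfl fun l _ => zpow_natCast _ _
  have h2 : ∏ l, (b * x l) ^ α l = b ^ (∑ l, α l) * ∏ l, x l ^ α l := by
    simp_rw [mul_pow]
    rw [Finset.prod_mul_distrib, Finset.prod_pow_eq_pow_sum]
  rw [h1, h2]
  have h3 : b ^ N = b ^ (∑ l, α l) * b ^ (N - ∑ l, α l) := by
    rw [← pow_add, Nat.add_sub_of_le hN]
  rw [h3]
  ring

private theorem idg_mon_add {n : ℕ} (x : Fin n → K) (α β : Fin n → ℕ) :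
    mon x (zx (α + β)) = mon x (zx α) * mon x (zx β) := by
  unfold mon zx
  rw [← Finset.prod_mul_distrib]
  refine Finset.prod_congr rfl fun l _ => ?_
  rw [zpow_natCast, zpow_natCast, zpow_natCast, Pi.add_apply, pow_add]

/-- elements with monomials in a finite set -/
private def idgMon {R : Subalgebra k K} (hA : A ≤ R) {n : ℕ} (x : Fin n → K)
    (T : Finset (Fin n → ℕ)) : Submodule A K where
  carrier := {z | InMon R x T z}
  zero_mem' := ⟨fun _ => 0, fun _ _ => R.zero_mem, by simp⟩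
  add_mem' := fun h h' => inMon_add h h'
  smul_mem' := fun a z h => inMon_smul h (hA a.2)

/-- elements of bounded valuation -/
private def idgVal (W : ValuationSubring K) (hW : ∀ a ∈ A, a ∈ W) (v : W.ValueGroup) :
    Submodule A K where
  carrier := {z | W.valuation z ≤ v}
  zero_mem' := by
    change W.valuation 0 ≤ v
    rw [map_zero]
    exact zero_le
  add_mem' := fun {y z} h h' => (W.valuation.map_add y z).trans (max_le h h')
  smul_mem' := fun a z h => by
    change W.valuation ((a : K) * z) ≤ v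
    rw [map_mul]
    have h1 : W.valuation (a : K) ≤ 1 := (W.valuation_le_one_iff _).2 (hW a a.2)
    calc W.valuation (a : K) * W.valuation z ≤ 1 * v := mul_le_mul' h1 h
      _ = v := one_mul v

private theorem idg_val_mul (W : ValuationSubring K) (hW : ∀ a ∈ A, a ∈ W) {u v : W.ValueGroup}
    {I I' : Submodule A K} (h : I ≤ idgVal W hW u) (h' : I' ≤ idgVal W hW v) :
    I * I' ≤ idgVal W hW (u * v) := by
  rw [Submodule.mul_le]
  intro y hy z hz
  change W.valuation (y * z) ≤ u * v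
  rw [map_mul]
  exact mul_le_mul' (h hy) (h' hz)

private theorem idg_val_one (W : ValuationSubring K) (hW : ∀ a ∈ A, a ∈ W) :
    (1 : Submodule A K) ≤ idgVal W hW 1 := by
  intro z hz
  obtain ⟨a, rfl⟩ := Submodule.mem_one.1 hz
  exact (W.valuation_le_one_iff _).2 (hW a a.2)

private theorem idg_val_pow (W : ValuationSubring K) (hW : ∀ a ∈ A, a ∈ W) {u : W.ValueGroup}
    {I : Submodule A K} (h : I ≤ idgVal W hW u) (q : ℕ) : I ^ q ≤ idgVal W hW (u ^ q) := by
  induction q with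
  | zero =>
    rw [pow_zero, pow_zero]
    exact idg_val_one W hW
  | succ q ih =>
    rw [pow_succ, pow_succ]
    exact idg_val_mul W hW ih h

private theorem idg_val_prod (W : ValuationSubring K) (hW : ∀ a ∈ A, a ∈ W) {ι : Type}
    (s : Finset ι) (F : ι → Submodule A K) (u : ι → W.ValueGroup)
    (h : ∀ i ∈ s, F i ≤ idgVal W hW (u i)) : ∏ i ∈ s, F i ≤ idgVal W hW (∏ i ∈ s, u i) := by
  classical
  induction s using Finset.induction_on with
  | empty =>
    rw [Finset.prod_empty, Finset.prod_empty]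
    exact idg_val_one W hW
  | insert i s his ih =>
    rw [Finset.prod_insert his, Finset.prod_insert his]
    exact idg_val_mul W hW (h i (Finset.mem_insert_self _ _))
      (ih fun j hj => h j (Finset.mem_insert_of_mem hj))

/-- products of powers of controlled orbits -/
private theorem idg_ctl_prod {R : Subalgebra k K} {P : ValuationSubring K → Prop}
    (hP : ∀ W, P W → Inv G A W) (hA : A ≤ R) (hx : ∀ i, x i ≠ 0) {ι : Type} (s : Finset ι)
    (y : ι → K) (e : ι → ℕ) (h : ∀ i ∈ s, ∃ T, Ctl R x P (orb G A (y i)) T) (z : K)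
    (hz : ∃ T, Ctl R x P (orb G A z) T) :
    ∃ T, Ctl R x P (orb G A ((∏ i ∈ s, y i ^ e i) * z)) T := by
  classical
  induction s using Finset.induction_on with
  | empty =>
    rw [Finset.prod_empty, one_mul]
    exact hz
  | insert i s his ih =>
    rw [Finset.prod_insert his, mul_assoc]
    exact ctl_orb_mul hP hx (ctl_orb_pow hP hA hx (h i (Finset.mem_insert_self _ _)) (e i))
      (ih fun j hj => h j (Finset.mem_insert_of_mem hj))

private theorem idg_pre_ext (h : Hyp G A) (hat : Atl G A R₀ x₀ C₀ b₀ P₀ R₁ x₁ C₁ b₁ P₁ p q S N)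
    (a : Fin m₁) {c : K} (hc : c ∈ C₁ a) (i : Fin m₀) {α : Fin (n₀ i) → ℕ}
    (hα : α ∈ S i (b₁ a * c)) : IdgPre G A (extI G A x₀ C₀ b₀ (p a) N i α) := by
  have hb : b₀ i ∈ A := by
    have := (hat.ch0 i).bC 1 (hat.ch0 i).one
    rwa [mul_one] at this
  refine idg_pre_mul (idg_pre_mul (idg_pre_orb h ?_) (idg_pre_pow h (idg_pre_orb h (hat.pA a).1) N))
    (idg_pre_prod h _ _ fun i' _ => idg_pre_pow h (idg_pre_bbI h (hat.ch0 i').bC) N)
  rw [idg_mon_eq _ _ _ (hat.big a i c hc α hα)]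
  exact A.mul_mem (Subalgebra.prod_mem A fun l _ =>
    A.pow_mem ((hat.ch0 i).bC _ ((hat.ch0 i).par l)) _) (A.pow_mem hb _)

theorem stId_orb (h : Hyp G A) {f : K} (hf : f ∈ A) (hf0 : f ≠ 0) : StId G A (orb G A f) := by
  have h1 := idg_pre_orb h hf
  exact ⟨h1.1, ⟨f, mem_orb f, hf0⟩, h1.2⟩

theorem stId_bbI (h : Hyp G A) {C : Finset K} {b : K} (h1 : (1 : K) ∈ C) (hb : b ≠ 0)
    (hC : ∀ c ∈ C, b * c ∈ A) : StId G A (bbI G A C b) := by
  have h2 := idg_pre_bbI (G := G) h hC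
  refine ⟨h2.1, ⟨b, ?_, hb⟩, h2.2⟩
  have := idg_mem_bbI (G := G) (A := A) (b := b) h1
  rwa [mul_one] at this

theorem stId_jI (h : Hyp G A) (hat : Atl G A R₀ x₀ C₀ b₀ P₀ R₁ x₁ C₁ b₁ P₁ p q S N)
    (a : Fin m₁) : StId G A (jI G A C₀ b₀ (q a) N) := by
  have h1 : IdgPre G A (jI G A C₀ b₀ (q a) N) :=
    idg_pre_mul (idg_pre_pow h (idg_pre_orb h (hat.qA a).1) N)
      (idg_pre_prod h _ _ fun i _ => idg_pre_pow h (idg_pre_bbI h (hat.ch0 i).bC) N)
  refine ⟨h1.1, ⟨q a ^ N * ∏ i, b₀ i ^ N, ?_, ?_⟩, h1.2⟩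
  · refine Submodule.mul_mem_mul (Submodule.pow_mem_pow _ (mem_orb _) _)
      (idg_prod_mem _ _ _ fun i _ => Submodule.pow_mem_pow _ ?_ _)
    have := idg_mem_bbI (G := G) (A := A) (b := b₀ i) (hat.ch0 i).one
    rwa [mul_one] at this
  · exact mul_ne_zero (pow_ne_zero _ (hat.qA a).2)
      (Finset.prod_ne_zero_iff.2 fun i _ => pow_ne_zero _ (hat.ch0 i).b0)

theorem stId_bigI (h : Hyp G A) (hat : Atl G A R₀ x₀ C₀ b₀ P₀ R₁ x₁ C₁ b₁ P₁ p q S N)
    (a : Fin m₁) {c : K} (hc : c ∈ C₁ a) :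
    StId G A (bigI G A x₀ C₀ b₀ S (p a) (q a) N (b₁ a * c)) := by
  have hfA : b₁ a * c ∈ A := (hat.ch1 a).bC c hc
  have hf0 : b₁ a * c ≠ 0 := mul_ne_zero (hat.ch1 a).b0 ((hat.ch1 a).c0 c hc)
  have hJ := stId_jI h hat a
  have h1 : IdgPre G A (bigI G A x₀ C₀ b₀ S (p a) (q a) N (b₁ a * c)) :=
    idg_pre_sup (idg_pre_mul (idg_pre_orb h hfA) ⟨hJ.le, hJ.stab⟩)
      (idg_pre_fsup _ _ fun i _ => idg_pre_fsup _ _ fun α hα => idg_pre_ext h hat a hc i hα)
  obtain ⟨z, hz, hz0⟩ := hJ.ne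
  refine ⟨h1.1, ⟨b₁ a * c * z, ?_, mul_ne_zero hf0 hz0⟩, h1.2⟩
  exact (le_sup_left : _ ≤ bigI G A x₀ C₀ b₀ S (p a) (q a) N (b₁ a * c))
    (Submodule.mul_mem_mul (mem_orb _) hz)

theorem ctl_big (h : Hyp G A) (hat : Atl G A R₀ x₀ C₀ b₀ P₀ R₁ x₁ C₁ b₁ P₁ p q S N)
    (i : Fin m₀) (a : Fin m₁) {c : K} (hc : c ∈ C₁ a) :
    ∃ S', Ctl (R₀ i) (x₀ i) (P₀ i) (bigI G A x₀ C₀ b₀ S (p a) (q a) N (b₁ a * c)) S' := by
  classical
  have hfA : b₁ a * c ∈ A := (hat.ch1 a).bC c hc
  have hf0 : b₁ a * c ≠ 0 := mul_ne_zero (hat.ch1 a).b0 ((hat.ch1 a).c0 c hc)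
  have hA : A ≤ R₀ i := (hat.ch0 i).le
  have hx : ∀ l, x₀ i l ≠ 0 := (hat.ch0 i).ne
  have hP : ∀ W, P₀ i W → Inv G A W := fun W hW => (hat.inv0 i W hW).1
  -- the ideals `bb`
  have hbb : ∀ i', ∃ T, Ctl (R₀ i) (x₀ i) (P₀ i) (bbI G A (C₀ i') (b₀ i')) T := fun i' =>
    ctl_finset_sup _ ⟨1, (hat.ch0 i').one⟩ _ fun c' hc' => hat.ctlb i i' c' hc'
  -- the ideal `J`
  have hJ : ∃ T, Ctl (R₀ i) (x₀ i) (P₀ i) (jI G A C₀ b₀ (q a) N) T := by
    obtain ⟨T1, hT1⟩ := ctl_pow hA hx (hat.ctlq i a) N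
    obtain ⟨T2, hT2⟩ := ctl_prod hA hx Finset.univ
      (fun i' => bbI G A (C₀ i') (b₀ i') ^ N) fun i' _ => ctl_pow hA hx (hbb i') N
    exact ⟨_, ctl_mul hx hT1 hT2⟩
  -- the additional terms
  have hext : ∀ i', ∀ α ∈ S i' (b₁ a * c),
      ∃ T, Ctl (R₀ i) (x₀ i) (P₀ i) (extI G A x₀ C₀ b₀ (p a) N i' α) T := by
    intro i' α hα
    have hb : ∃ T, Ctl (R₀ i) (x₀ i) (P₀ i) (orb G A (b₀ i')) T := by
      have := hat.ctlb i i' 1 (hat.ch0 i').one
      rwa [mul_one] at this
    have h1 : ∃ T, Ctl (R₀ i) (x₀ i) (P₀ i) (orb G A (mon (x₀ i') (zx α) * b₀ i' ^ N)) T := by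
      rw [idg_mon_eq _ _ _ (hat.big a i' c hc α hα)]
      exact idg_ctl_prod hP hA hx Finset.univ _ _
        (fun l _ => hat.ctlb i i' _ ((hat.ch0 i').par l)) _ (ctl_orb_pow hP hA hx hb _)
    obtain ⟨T1, hT1⟩ := h1
    obtain ⟨T2, hT2⟩ := ctl_pow hA hx (hat.ctlp i a) N
    obtain ⟨T3, hT3⟩ := ctl_prod hA hx (Finset.univ.erase i')
      (fun i'' => bbI G A (C₀ i'') (b₀ i'') ^ N) fun i'' _ => ctl_pow hA hx (hbb i'') N
    exact ⟨_, ctl_mul hx (ctl_mul hx hT1 hT2) hT3⟩
  have hE : ∃ T, Ctl (R₀ i) (x₀ i) (P₀ i) (Finset.univ.sup fun i' =>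
      (S i' (b₁ a * c)).sup fun α => extI G A x₀ C₀ b₀ (p a) N i' α) T :=
    ctl_finset_sup _ ⟨i, Finset.mem_univ i⟩ _ fun i' _ =>
      ctl_finset_sup _ (hat.sup i' _ hfA hf0).1 _ fun α hα => hext i' α hα
  obtain ⟨TE, hTE⟩ := hE
  obtain ⟨TJ, hTJ⟩ := hJ
  obtain ⟨hSne, hSmem⟩ := hat.sup i _ hfA hf0
  refine ⟨Finset.image₂ (fun α β => α + β) (S i (b₁ a * c)) TJ ∪ TE, ?_, ?_, ?_⟩
  · exact (hSne.image₂ hTJ.ne).mono Finset.subset_union_left
  · intro z hz
    obtain ⟨y, hy, y', hy', rfl⟩ := Submodule.mem_sup.1 hz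
    have h1 : orb G A (b₁ a * c) * jI G A C₀ b₀ (q a) N ≤
        idgMon hA (x₀ i) (Finset.image₂ (fun α β => α + β) (S i (b₁ a * c)) TJ) := by
      rw [Submodule.mul_le]
      intro u hu v hv
      exact inMon_mul hx (hSmem u hu) (hTJ.mem v hv)
    exact inMon_add (inMon_mono (h1 hy) Finset.subset_union_left)
      (inMon_mono (hTE.mem y' hy') Finset.subset_union_right)
  · intro W hW γ hγ
    rcases Finset.mem_union.1 hγ with hγ | hγ
    · obtain ⟨α, hα, β, hβ, rfl⟩ := Finset.mem_image₂.1 hγ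
      obtain ⟨zJ, hzJ, hzJv⟩ := hTJ.val W hW β hβ
      have hinv := hP W hW
      have hWA : ∀ a ∈ A, a ∈ W := hinv.le
      -- elements of largest valuation
      have hmax : ∀ i', ∃ c' ∈ C₀ i', ∀ d ∈ C₀ i',
          W.valuation (b₀ i' * d) ≤ W.valuation (b₀ i' * c') := fun i' =>
        Finset.exists_max_image (C₀ i') (fun d => W.valuation (b₀ i' * d))
          ⟨1, (hat.ch0 i').one⟩
      choose c' hc' hcmax using hmax
      have hbbv : ∀ i', bbI G A (C₀ i') (b₀ i') ≤
          idgVal W hWA (W.valuation (b₀ i' * c' i')) := by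
        intro i'
        refine Finset.sup_le fun d hd z hz => ?_
        exact (val_orb hinv hz).trans (hcmax i' d hd)
      have hqv : orb G A (q a) ≤ idgVal W hWA (W.valuation (q a)) := fun z hz => val_orb hinv hz
      have hJv : jI G A C₀ b₀ (q a) N ≤ idgVal W hWA (W.valuation (q a) ^ N *
          ∏ i', W.valuation (b₀ i' * c' i') ^ N) :=
        idg_val_mul W hWA (idg_val_pow W hWA hqv N)
          (idg_val_prod W hWA _ _ _ fun i' _ => idg_val_pow W hWA (hbbv i') N)
      have h1 : W.valuation zJ ≤ W.valuation (q a) ^ N *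
          ∏ i', W.valuation (b₀ i' * c' i') ^ N := hJv hzJ
      have h2 : ∏ i', W.valuation (b₀ i' * c' i') ^ N = W.valuation (b₀ i * c' i) ^ N *
          ∏ i' ∈ Finset.univ.erase i, W.valuation (b₀ i' * c' i') ^ N :=
        (Finset.mul_prod_erase _ _ (Finset.mem_univ i)).symm
      have h3 : W.valuation (b₀ i * c' i) ≤ W.valuation (b₀ i) := by
        rw [map_mul]
        have h4 : W.valuation (c' i) ≤ 1 := (W.valuation_le_one_iff _).2
          ((hat.inv0 i W hW).2 _ ((hat.ch0 i).sub _ (hc' i)))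
        calc W.valuation (b₀ i) * W.valuation (c' i) ≤ W.valuation (b₀ i) * 1 :=
              mul_le_mul' le_rfl h4
          _ = W.valuation (b₀ i) := mul_one _
      refine ⟨(mon (x₀ i) (zx α) * b₀ i ^ N) * p a ^ N *
        ∏ i' ∈ Finset.univ.erase i, (b₀ i' * c' i') ^ N, ?_, ?_⟩
      · have h5 : extI G A x₀ C₀ b₀ (p a) N i α ≤
            bigI G A x₀ C₀ b₀ S (p a) (q a) N (b₁ a * c) := by
          refine le_trans ?_ le_sup_right
          refine le_trans ?_ (Finset.le_sup (f := fun i' =>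
            (S i' (b₁ a * c)).sup fun α => extI G A x₀ C₀ b₀ (p a) N i' α) (Finset.mem_univ i))
          exact Finset.le_sup (f := fun α => extI G A x₀ C₀ b₀ (p a) N i α) hα
        apply h5
        exact Submodule.mul_mem_mul (Submodule.mul_mem_mul (mem_orb _)
          (Submodule.pow_mem_pow _ (mem_orb _) _))
          (idg_prod_mem _ _ _ fun i' _ => Submodule.pow_mem_pow _ (idg_mem_bbI (hc' i')) _)
      · rw [idg_mon_add]
        simp only [map_mul, map_pow, map_prod]
        have h6 : W.valuation (mon (x₀ i) (zx β)) ≤ W.valuation (p a) ^ N *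
            (W.valuation (b₀ i) ^ N *
              ∏ i' ∈ Finset.univ.erase i, (W.valuation (b₀ i') * W.valuation (c' i')) ^ N) := by
          refine (hzJv.trans h1).trans ?_
          rw [h2, hat.gen i W hW a]
          simp only [map_mul] at h3 ⊢
          exact mul_le_mul' le_rfl (mul_le_mul' (pow_le_pow_left' h3 N) le_rfl)
        calc W.valuation (mon (x₀ i) (zx α)) * W.valuation (mon (x₀ i) (zx β))
            ≤ W.valuation (mon (x₀ i) (zx α)) * (W.valuation (p a) ^ N *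
              (W.valuation (b₀ i) ^ N *
                ∏ i' ∈ Finset.univ.erase i, (W.valuation (b₀ i') * W.valuation (c' i')) ^ N)) :=
              mul_le_mul' le_rfl h6
          _ = _ := by
            rw [← mul_assoc, ← mul_assoc, mul_right_comm (W.valuation (mon (x₀ i) (zx α)))]
    · obtain ⟨z, hz, hzv⟩ := hTE.val W hW γ hγ
      exact ⟨z, (le_sup_right : _ ≤ bigI G A x₀ C₀ b₀ S (p a) (q a) N (b₁ a * c)) hz, hzv⟩

end Pool.Agent.MP_b525bf_ag_ES
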