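import Pool.Agent.Lib.MP_b525bf_ag_ES.Defs

/-!
# Theorem ES, row IFB: the multigraded family of the ideals `I j`
-/

set_option autoImplicit false
set_option linter.unusedVariables false

namespace Pool.Agent.MP_b525bf_ag_ES

open Pool.Agent.LU2 Pool.Agent.MP_b525bf_ag Pool.Agent.MP_b525bf_ag_W Pool.Agent.MP_b525bf_ag_E

variable {k K : Type} [Field k] [Field K] [Algebra k K] {G : Subgroup (K ≃ₐ[k] K)}
  {A : Subalgebra k K}

variable {N m : ℕ} {I : Fin N → Submodule A K} {u : Fin m → Fin N → ℕ} {θ : Fin m → ℕ}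
  {D : Set (Fin N → ℤ)}

open AddMonoidAlgebra in
private theorem efb_alg {ι : Type} [AddCommGroup ι] (S : Set (AddMonoidAlgebra K ι))
    (hS : ∀ F ∈ S, ∃ a x, F = single a x) :
    (Fam.ofSub (Algebra.adjoin k S)).alg = Algebra.adjoin k S := by
  apply le_antisymm
  · intro F hF
    rw [Fam.eq_sum F]
    exact Subalgebra.sum_mem _ fun a _ => hF a
  · refine Algebra.adjoin_le fun F hF => ?_
    obtain ⟨a, x, rfl⟩ := hS F hF
    exact Fam.single_mem_alg.2 (Algebra.subset_adjoin hF)

private theorem efb_mem {d : Ix N m} {x : K}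
    (hx : (AddMonoidAlgebra.single d x : AddMonoidAlgebra K (Ix N m)) ∈ igens A I u) :
    x ∈ (IF A I u).s d := Algebra.subset_adjoin hx

private theorem efb_memF (j : Fin N) {y : K} (hy : y ∈ I j) :
    y ∈ (IF A I u).s (dF m j) := efb_mem (Or.inl (Or.inl (Or.inr ⟨j, y, hy, rfl⟩)))

private theorem efb_memS (j : Fin N) : (1 : K) ∈ (IF A I u).s (dS u j) :=
  efb_mem (Or.inl (Or.inr ⟨j, rfl⟩))

private theorem efb_memR (i : Fin m) : (1 : K) ∈ (IF A I u).s (dR N i) :=
  efb_mem (Or.inr ⟨i, rfl⟩)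

private theorem efb_prod {ι σ : Type} [AddCommGroup ι] (M : Fam k K ι) (s : Finset σ) (d : σ → ι)
    (x : σ → K) (c : σ → ℕ) (h : ∀ i, x i ∈ M.s (d i)) :
    ∏ i ∈ s, x i ^ c i ∈ M.s (∑ i ∈ s, c i • d i) := by
  classical
  induction s using Finset.induction_on with
  | empty => simpa using M.one'
  | insert a s ha ih =>
    rw [Finset.prod_insert ha, Finset.sum_insert ha]
    exact M.mul' (M.pow' (h a) _) ih

theorem IF_le (hI : ∀ j, StId G A (I j)) (d : Ix N m) :
    (IF A I u).s d ≤ Subalgebra.toSubmodule A := by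
  let cA : Fam k K (Ix N m) :=
    { s := fun _ => Subalgebra.toSubmodule A
      one' := A.one_mem
      mul' := fun hx hy => A.mul_mem hx hy }
  have h1 : Algebra.adjoin k (igens A I u) ≤ cA.alg := by
    refine Fam.le_alg_of_adjoin ?_
    rintro F (((⟨a, ha, rfl⟩ | ⟨j, y, hy, rfl⟩) | ⟨j, rfl⟩) | ⟨i, rfl⟩)
    · exact Fam.single_mem_alg.2 ha
    · exact Fam.single_mem_alg.2 ((hI j).le _ hy)
    · exact Fam.single_mem_alg.2 A.one_mem
    · exact Fam.single_mem_alg.2 A.one_mem
  intro x hx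
  exact (Fam.single_mem_alg (M := cA)).1 (h1 hx)

theorem IF_zero (hI : ∀ j, StId G A (I j)) :
    (IF A I u).s 0 = Subalgebra.toSubmodule A :=
  le_antisymm (IF_le hI 0) fun a ha => efb_mem (Or.inl (Or.inl (Or.inl ⟨a, ha, rfl⟩)))

theorem IF_fg (h : Hyp G A) (hI : ∀ j, StId G A (I j)) : (IF A I u).alg.FG := by
  classical
  have hhom : ∀ F ∈ igens A I u, ∃ a x, F = AddMonoidAlgebra.single a x := by
    rintro F (((⟨a, ha, rfl⟩ | ⟨j, y, hy, rfl⟩) | ⟨j, rfl⟩) | ⟨i, rfl⟩) <;> exact ⟨_, _, rfl⟩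
  have e1 : (IF A I u).alg = Algebra.adjoin k (igens A I u) := efb_alg _ hhom
  obtain ⟨SA, hSA⟩ := h.fg
  have hN : IsNoetherianRing A := isNoetherianRing_of_fg h.fg
  have hT : ∀ j, ∃ T : Finset K, Submodule.span A (T : Set K) = I j := by
    intro j
    have h1 : I j ≤ LinearMap.range (Algebra.linearMap A K) := by
      intro y hy
      exact ⟨⟨y, (hI j).le _ hy⟩, rfl⟩
    have h2 : IsNoetherian A (LinearMap.range (Algebra.linearMap A K)) := inferInstance
    exact isNoetherian_submodule.1 h2 _ h1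
  choose T hT using hT
  set G0 : Set (AddMonoidAlgebra K (Ix N m)) :=
    ((fun a => AddMonoidAlgebra.single 0 a) '' (SA : Set K)) ∪
      (⋃ j, (fun y => AddMonoidAlgebra.single (dF m j) y) '' (T j : Set K)) ∪
      Set.range (fun j => AddMonoidAlgebra.single (dS u j) 1) ∪
      Set.range (fun i => AddMonoidAlgebra.single (dR N i) 1) with hG0
  have hfin : G0.Finite :=
    ((((SA.finite_toSet.image _).union (Set.finite_iUnion fun j =>
      (T j).finite_toSet.image _)).union (Set.finite_range _)).union (Set.finite_range _))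
  have hA : ∀ a ∈ A, (AddMonoidAlgebra.single 0 a : AddMonoidAlgebra K (Ix N m)) ∈
      Algebra.adjoin k G0 := by
    intro a ha
    rw [← hSA] at ha
    induction ha using Algebra.adjoin_induction with
    | mem x hx => exact Algebra.subset_adjoin (Or.inl (Or.inl (Or.inl ⟨x, hx, rfl⟩)))
    | algebraMap r =>
      have : (AddMonoidAlgebra.single 0 (algebraMap k K r) : AddMonoidAlgebra K (Ix N m)) =
          algebraMap k _ r := by
        rw [AddMonoidAlgebra.coe_algebraMap]; rfl
      rw [this]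
      exact Subalgebra.algebraMap_mem _ r
    | add x y _ _ hx hy =>
      rw [AddMonoidAlgebra.single_add]
      exact Subalgebra.add_mem _ hx hy
    | mul x y _ _ hx hy =>
      have := Subalgebra.mul_mem _ hx hy
      rwa [AddMonoidAlgebra.single_mul_single, add_zero] at this
  have e2 : Algebra.adjoin k (igens A I u) = Algebra.adjoin k G0 := by
    apply le_antisymm
    · refine Algebra.adjoin_le ?_
      rintro F (((⟨a, ha, rfl⟩ | ⟨j, y, hy, rfl⟩) | ⟨j, rfl⟩) | ⟨i, rfl⟩)
      · exact hA a ha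
      · rw [← hT j] at hy
        induction hy using Submodule.span_induction with
        | mem x hx =>
          exact Algebra.subset_adjoin (Or.inl (Or.inl (Or.inr (Set.mem_iUnion.2 ⟨j, x, hx, rfl⟩))))
        | zero =>
          rw [AddMonoidAlgebra.single_zero]
          exact Subalgebra.zero_mem _
        | add x y _ _ hx hy =>
          rw [AddMonoidAlgebra.single_add]
          exact Subalgebra.add_mem _ hx hy
        | smul a x _ hx =>
          have := Subalgebra.mul_mem _ (hA a a.2) hx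
          rwa [AddMonoidAlgebra.single_mul_single, zero_add] at this
      · exact Algebra.subset_adjoin (Or.inl (Or.inr ⟨j, rfl⟩))
      · exact Algebra.subset_adjoin (Or.inr ⟨i, rfl⟩)
    · refine Algebra.adjoin_mono ?_
      rintro F (((⟨a, ha, rfl⟩ | hF) | ⟨j, rfl⟩) | ⟨i, rfl⟩)
      · refine Or.inl (Or.inl (Or.inl ⟨a, ?_, rfl⟩))
        rw [← hSA]
        exact Algebra.subset_adjoin ha
      · obtain ⟨j, y, hy, rfl⟩ := Set.mem_iUnion.1 hF
        refine Or.inl (Or.inl (Or.inr ⟨j, y, ?_, rfl⟩))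
        rw [← hT j]
        exact Submodule.subset_span hy
      · exact Or.inl (Or.inr ⟨j, rfl⟩)
      · exact Or.inr ⟨i, rfl⟩
  rw [e1, e2]
  exact ⟨hfin.toFinset, by rw [Set.Finite.coe_toFinset]⟩

theorem IF_stab (h : Hyp G A) (hI : ∀ j, StId G A (I j)) : FStab G (IF A I u) := by
  intro g hg d x hx
  let M' : Fam k K (Ix N m) :=
    { s := fun d => ((IF A I u).s d).comap g.toLinearMap
      one' := by
        change g 1 ∈ (IF A I u).s 0
        rw [map_one]
        exact (IF A I u).one'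
      mul' := by
        intro a b x y hx hy
        change g (x * y) ∈ (IF A I u).s (a + b)
        rw [map_mul]
        exact (IF A I u).mul' hx hy }
  have h1 : Algebra.adjoin k (igens A I u) ≤ M'.alg := by
    refine Fam.le_alg_of_adjoin ?_
    rintro F (((⟨a, ha, rfl⟩ | ⟨j, y, hy, rfl⟩) | ⟨j, rfl⟩) | ⟨i, rfl⟩)
    · refine Fam.single_mem_alg.2 ?_
      change g a ∈ (IF A I u).s 0
      exact efb_mem (Or.inl (Or.inl (Or.inl ⟨g a, h.stab g hg a ha, rfl⟩)))
    · refine Fam.single_mem_alg.2 ?_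
      change g y ∈ (IF A I u).s _
      exact efb_memF j ((hI j).stab g hg _ hy)
    · refine Fam.single_mem_alg.2 ?_
      change g 1 ∈ (IF A I u).s _
      rw [map_one]
      exact efb_memS j
    · refine Fam.single_mem_alg.2 ?_
      change g 1 ∈ (IF A I u).s _
      rw [map_one]
      exact efb_memR i
  exact (Fam.single_mem_alg (M := M')).1 (h1 hx)

theorem IF_neg (hθ : Comb D u θ) (n : ℕ) : (1 : K) ∈ (IF A I u).s (-(n • amp N θ)) := by
  have h1 := efb_prod (IF A I u) Finset.univ (fun i : Fin m => dR N i) (fun _ => 1)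
    (fun i => n * θ i) (fun i => efb_memR i)
  simp only [one_pow, Finset.prod_const_one] at h1
  have h2 : ∑ i : Fin m, (n * θ i) • dR N i = -(n • amp N θ) := by
    refine Prod.ext ?_ ?_
    · rw [Prod.fst_sum]
      simp [dR, amp]
    · rw [Prod.snd_sum]
      funext i
      rw [Finset.sum_apply]
      simp [dR, amp, Pi.single_apply]
  rwa [h2] at h1

theorem IF_ne (hI : ∀ j, StId G A (I j)) (hθ : Comb D u θ) (d : Ix N m) :
    ∃ y ∈ (IF A I u).s d, y ≠ 0 := by
  set B : ℕ := ∑ j, (d.1 j).natAbs + ∑ i, (d.2 i).natAbs with hB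
  have hB1 : ∀ j, ((d.1 j).natAbs : ℤ) ≤ B := by
    intro j
    have h1 : (d.1 j).natAbs ≤ ∑ j, (d.1 j).natAbs :=
      Finset.single_le_sum (f := fun j => (d.1 j).natAbs) (fun _ _ => Nat.zero_le _)
        (Finset.mem_univ j)
    exact_mod_cast h1.trans (Nat.le_add_right _ _)
  have hB2 : ∀ i, ((d.2 i).natAbs : ℤ) ≤ B := by
    intro i
    have h1 : (d.2 i).natAbs ≤ ∑ i, (d.2 i).natAbs :=
      Finset.single_le_sum (f := fun i => (d.2 i).natAbs) (fun _ _ => Nat.zero_le _)
        (Finset.mem_univ i)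
    exact_mod_cast h1.trans (Nat.le_add_left _ _)
  have hu : ∀ i, 1 ≤ ∑ j, u i j := by
    intro i
    by_contra hc
    apply hθ.ne i
    funext j
    have h1 : ∑ j, u i j = 0 := by omega
    exact (Finset.sum_eq_zero_iff.1 h1) j (Finset.mem_univ j)
  -- the exponents
  set a : Fin N → ℕ := fun j => (d.1 j + B).toNat with ha
  set c : Fin m → ℕ := fun i => ((∑ j, (B : ℤ) * u i j) - d.2 i).toNat with hc
  have ha' : ∀ j, (a j : ℤ) = d.1 j + B := by
    intro j
    refine Int.toNat_of_nonneg ?_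
    have := hB1 j
    have h2 : -((d.1 j).natAbs : ℤ) ≤ d.1 j := by omega
    omega
  have hc' : ∀ i, (c i : ℤ) = (∑ j, (B : ℤ) * u i j) - d.2 i := by
    intro i
    refine Int.toNat_of_nonneg ?_
    have h1 := hB2 i
    have h2 : d.2 i ≤ ((d.2 i).natAbs : ℤ) := by omega
    have h3 : (B : ℤ) ≤ ∑ j, (B : ℤ) * u i j := by
      rw [← Finset.mul_sum]
      have h4 : (1 : ℤ) ≤ ∑ j, (u i j : ℤ) := by exact_mod_cast hu i
      nlinarith
    omega
  choose f hfI hf0 using fun j => (hI j).ne
  have h1 := efb_prod (IF A I u) Finset.univ (fun j : Fin N => dF m j) f a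
    (fun j => efb_memF j (hfI j))
  have h2 := efb_prod (IF A I u) Finset.univ (fun j : Fin N => dS u j) (fun _ => 1)
    (fun _ => B) (fun j => efb_memS j)
  have h3 := efb_prod (IF A I u) Finset.univ (fun i : Fin m => dR N i) (fun _ => 1)
    c (fun i => efb_memR i)
  have h4 := (IF A I u).mul' ((IF A I u).mul' h1 h2) h3
  have h5 : (∑ j : Fin N, a j • dF m j) + (∑ j : Fin N, B • dS u j) + ∑ i : Fin m, c i • dR N i
      = d := by
    refine Prod.ext ?_ ?_
    · rw [Prod.fst_add, Prod.fst_add, Prod.fst_sum, Prod.fst_sum, Prod.fst_sum]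
      funext j
      simp only [Pi.add_apply, Finset.sum_apply]
      simp [dF, dS, dR, Pi.single_apply, ha' j]
    · rw [Prod.snd_add, Prod.snd_add, Prod.snd_sum, Prod.snd_sum, Prod.snd_sum]
      funext i
      simp only [Pi.add_apply, Finset.sum_apply]
      simp [dF, dS, dR, Pi.single_apply, hc' i]
  rw [h5] at h4
  refine ⟨_, h4, ?_⟩
  simp only [one_pow, Finset.prod_const_one, mul_one]
  exact Finset.prod_ne_zero_iff.2 fun j _ => pow_ne_zero _ (hf0 j)

end Pool.Agent.MP_b525bf_ag_ES
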