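import Pool.Agent.Lib.MP_b525bf_ag_ES.IFB

/-!
# Theorem ES, row IIDX: the index of the group of degrees
-/

set_option autoImplicit false
set_option linter.unusedVariables false

namespace Pool.Agent.MP_b525bf_ag_ES

open Pool.Agent.LU2 Pool.Agent.MP_b525bf_ag Pool.Agent.MP_b525bf_ag_W Pool.Agent.MP_b525bf_ag_E

variable {k K : Type} [Field k] [Field K] [Algebra k K] {G : Subgroup (K ≃ₐ[k] K)}
  {A : Subalgebra k K}

variable {N m : ℕ} {I : Fin N → Submodule A K} {u : Fin m → Fin N → ℕ} {θ : Fin m → ℕ}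
  {D : Set (Fin N → ℤ)}

/-- dual integral vectors, up to a multiple -/
private theorem idx_dual {N m : ℕ} (u : Fin m → Fin N → ℕ) (T : Set (Fin m))
    (hT : LinearIndependent ℚ fun i : T => fun j => (u i.1 j : ℚ)) :
    ∃ w : ℕ, 0 < w ∧ ∀ i : T, ∃ c : Fin N → ℤ, ∀ i' : T, ∑ j, c j * (u i'.1 j : ℤ) =
      if i' = i then (w : ℤ) else 0 := by
  classical
  have hphi : ∀ i : T, ∃ φ : (Fin N → ℚ) →ₗ[ℚ] ℚ, ∀ i' : T,
      φ (fun j => (u i'.1 j : ℚ)) = if i' = i then 1 else 0 := by
    intro i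
    let b := Module.Basis.span hT
    obtain ⟨φ, hφ⟩ := LinearMap.exists_extend (b.coord i)
    refine ⟨φ, fun i' => ?_⟩
    have h1 : (b i' : Fin N → ℚ) = fun j => (u i'.1 j : ℚ) :=
      congrArg Subtype.val (Module.Basis.span_apply hT i')
    have h2 := LinearMap.congr_fun hφ (b i')
    rw [LinearMap.comp_apply, Submodule.subtype_apply, h1] at h2
    rw [h2, Module.Basis.coord_apply, Module.Basis.repr_self, Finsupp.single_apply]
  choose φ hφ using hphi
  let q : T → Fin N → ℚ := fun i j => φ i (Pi.single j 1)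
  have hq : ∀ i i' : T, ∑ j, q i j * (u i'.1 j : ℚ) = if i' = i then 1 else 0 := by
    intro i i'
    rw [← hφ i i']
    have h1 : (fun j => (u i'.1 j : ℚ)) = ∑ j, (u i'.1 j : ℚ) • (Pi.single j 1 : Fin N → ℚ) := by
      funext j
      rw [Finset.sum_apply]
      simp [Pi.single_apply]
    rw [h1, map_sum]
    refine Finset.sum_congr rfl fun j _ => ?_
    rw [map_smul, smul_eq_mul, mul_comm]
  refine ⟨∏ i : T, ∏ j, (q i j).den, Finset.prod_pos fun i _ => Finset.prod_pos fun j _ =>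
    (q i j).den_pos, fun i => ?_⟩
  set w : ℕ := ∏ i : T, ∏ j, (q i j).den with hw
  have hdvd : ∀ j, (q i j).den ∣ w := fun j =>
    (Finset.dvd_prod_of_mem _ (Finset.mem_univ j)).trans
      (Finset.dvd_prod_of_mem (fun i : T => ∏ j, (q i j).den) (Finset.mem_univ i))
  have hc : ∀ j, ∃ c : ℤ, (c : ℚ) = w * q i j := by
    intro j
    obtain ⟨e, he⟩ := hdvd j
    refine ⟨e * (q i j).num, ?_⟩
    rw [he]
    push_cast
    have h1 : ((q i j).den : ℚ) * q i j = (q i j).num := Rat.den_mul_eq_num (q i j)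
    linear_combination -(e : ℚ) * h1
  choose c hc using hc
  refine ⟨c, fun i' => ?_⟩
  have h1 : ((∑ j, c j * (u i'.1 j : ℤ) : ℤ) : ℚ) = ((if i' = i then (w : ℤ) else 0 : ℤ) : ℚ) := by
    push_cast
    have h2 : ∀ j, (c j : ℚ) * (u i'.1 j : ℚ) = w * (q i j * (u i'.1 j : ℚ)) := by
      intro j
      rw [hc j]
      ring
    rw [Finset.sum_congr rfl fun j _ => h2 j, ← Finset.mul_sum, hq i i']
    split_ifs <;> simp
  exact_mod_cast h1

/-- the degrees of units are in the group -/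
private theorem idx_unit {ι : Type} [AddCommGroup ι] (M : Fam k K ι) (Q : Ideal M.alg) [Q.IsPrime]
    {d : ι} {x : K} (hx : IsU (atP M Q) d x) : d ∈ M.grp Q := by
  obtain ⟨c, y, hy, hyQ, hyx⟩ := hx.2.1
  have h1 : IsU (atP M Q) (c + d) (y * x) := ((isU_atP_iff M Q hy).2 hyQ).mul hx
  have h2 := (isU_atP_iff M Q hyx).1 h1
  refine Fam.mem_grp.2 ⟨c, ⟨y, hy, hyQ⟩, ?_⟩
  rw [add_comm]
  exact ⟨y * x, hyx, h2⟩

theorem IF_idx :
    ∃ w : ℕ, 0 < w ∧ ∀ (Q : Ideal (IF A I u).alg) [Q.IsPrime], SemiI A I u D Q →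
      ∀ d : Ix N m, w • d ∈ (IF A I u).grp Q := by
  classical
  have hW : ∀ T : Set (Fin m), ∃ w : ℕ, 0 < w ∧
      ((LinearIndependent ℚ fun i : T => fun j => (u i.1 j : ℚ)) → ∀ i : T, ∃ c : Fin N → ℤ,
        ∀ i' : T, ∑ j, c j * (u i'.1 j : ℤ) = if i' = i then (w : ℤ) else 0) := by
    intro T
    by_cases hT : LinearIndependent ℚ fun i : T => fun j => (u i.1 j : ℚ)
    · obtain ⟨w, hw, h1⟩ := idx_dual u T hT
      exact ⟨w, hw, fun _ => h1⟩
    · exact ⟨1, one_pos, fun h1 => absurd h1 hT⟩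
  choose W hW0 hW using hW
  refine ⟨∏ T : Set (Fin m), W T, Finset.prod_pos fun T _ => hW0 T, ?_⟩
  intro Q hQ hS d
  set H := (IF A I u).grp Q with hH
  -- the generators of the grading group
  have hF : ∀ j, dF m j ∈ H := fun j => by
    obtain ⟨y, -, hy⟩ := hS.unF j
    exact idx_unit (IF A I u) Q hy
  have hSd : ∀ j, dS u j ∈ H := fun j => idx_unit (IF A I u) Q (hS.unS j)
  have hcol : ∀ j, ((0, fun i => (u i j : ℤ)) : Ix N m) ∈ H := by
    intro j
    have h1 := H.add_mem (hF j) (hSd j)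
    have h2 : dF m j + dS u j = (0, fun i => (u i j : ℤ)) := by
      simp [dF, dS]
    rwa [h2] at h1
  have hR : ∀ i, IsU (atP (IF A I u) Q) (dR N i) 1 → ((0, Pi.single i 1) : Ix N m) ∈ H := by
    intro i hi
    have h1 := H.neg_mem (idx_unit (IF A I u) Q hi)
    have h2 : -(dR N i) = (0, Pi.single i 1) := by
      simp [dR]
    rwa [h2] at h1
  set T : Set (Fin m) := {i | ¬ IsU (atP (IF A I u) Q) (dR N i) 1} with hT
  have hind : LinearIndependent ℚ fun i : T => fun j => (u i.1 j : ℚ) := hS.ind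
  have hdvd : W T ∣ ∏ T : Set (Fin m), W T := Finset.dvd_prod_of_mem _ (Finset.mem_univ T)
  obtain ⟨e, he⟩ := hdvd
  suffices hw : ∀ d : Ix N m, W T • d ∈ H by
    rw [he, mul_comm, mul_smul]
    exact H.nsmul_mem (hw d) e
  -- the vectors of the second factor
  have hsnd : ∀ i : Fin m, W T • ((0, Pi.single i 1) : Ix N m) ∈ H := by
    intro i
    by_cases hi : i ∈ T
    · obtain ⟨c, hc⟩ := hW T hind ⟨i, hi⟩
      have h1 : ∑ j, c j • ((0, fun i => (u i j : ℤ)) : Ix N m) ∈ H :=
        H.sum_mem fun j _ => H.zsmul_mem (hcol j) _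
      have h2 : ∀ i' : Fin m, i' ∉ T → (∑ j, c j * (u i' j : ℤ)) •
          ((0, Pi.single i' 1) : Ix N m) ∈ H := by
        intro i' hi'
        exact H.zsmul_mem (hR i' (by simpa [hT] using hi')) _
      have h3 : ∑ i' ∈ Finset.univ.filter (fun i' => i' ∉ T), (∑ j, c j * (u i' j : ℤ)) •
          ((0, Pi.single i' 1) : Ix N m) ∈ H :=
        H.sum_mem fun i' hi' => h2 i' (Finset.mem_filter.1 hi').2
      have h4 := H.sub_mem h1 h3
      convert h4 using 1
      refine Prod.ext ?_ ?_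
      · rw [Prod.fst_sub, Prod.fst_sum, Prod.fst_sum]
        simp
      · rw [Prod.snd_sub, Prod.snd_sum, Prod.snd_sum]
        funext l
        rw [Pi.sub_apply, Finset.sum_apply, Finset.sum_apply]
        simp only [Prod.smul_snd, Pi.smul_apply, smul_eq_mul, nsmul_eq_mul]
        have h5 : ∑ i' ∈ Finset.univ.filter (fun i' => i' ∉ T),
            (∑ j, c j * (u i' j : ℤ)) * (Pi.single i' (1 : ℤ) : Fin m → ℤ) l =
            if l ∈ T then 0 else ∑ j, c j * (u l j : ℤ) := by
          rw [Finset.sum_filter]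
          rw [Finset.sum_eq_single l]
          · by_cases hl : l ∈ T <;> simp [hl]
          · intro b _ hb
            simp [Pi.single_apply, hb.symm]
          · intro hl
            exact absurd (Finset.mem_univ l) hl
        rw [h5]
        by_cases hl : l ∈ T
        · have h6 := hc ⟨l, hl⟩
          simp only [Subtype.mk.injEq] at h6
          rw [h6, if_pos hl]
          by_cases hli : l = i
          · subst hli
            simp
          · simp [hli, Pi.single_apply]
        · rw [if_neg hl, sub_self]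
          have hli : l ≠ i := fun hli => hl (hli ▸ hi)
          simp [Pi.single_apply, hli]
    · exact H.nsmul_mem (hR i (by simpa [hT] using hi)) _
  intro d
  have hd : d = (∑ j, d.1 j • dF m j) + ∑ i, d.2 i • ((0, Pi.single i 1) : Ix N m) := by
    refine Prod.ext ?_ ?_
    · rw [Prod.fst_add, Prod.fst_sum, Prod.fst_sum]
      funext l
      rw [Pi.add_apply, Finset.sum_apply, Finset.sum_apply]
      simp [dF, Pi.single_apply]
    · rw [Prod.snd_add, Prod.snd_sum, Prod.snd_sum]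
      funext l
      rw [Pi.add_apply, Finset.sum_apply, Finset.sum_apply]
      simp [dF, Pi.single_apply]
  rw [hd, smul_add, Finset.smul_sum, Finset.smul_sum]
  refine H.add_mem (H.sum_mem fun j _ => ?_) (H.sum_mem fun i _ => ?_)
  · exact H.nsmul_mem (H.zsmul_mem (hF j) _) _
  · rw [smul_comm]
    exact H.zsmul_mem (hsnd i) _

end Pool.Agent.MP_b525bf_ag_ES
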