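import Pool.Agent.Lib.MP_b525bf_ag_ES.IFB
import Pool.Agent.Lib.MP_b525bf_ag_ES.ISEM
import Pool.Agent.Lib.MP_b525bf_ag_ES.IIDX
import Pool.Agent.Lib.MP_b525bf_ag_ES.ISGN
import Pool.Agent.Lib.MP_b525bf_ag_ES.IQZ
import Pool.Agent.Lib.MP_b525bf_ag_ES.ICH2

/-!
# Theorem ES: the smooth multigraded family
-/

set_option autoImplicit false

namespace Pool.Agent.MP_b525bf_ag_ES

open Pool.Agent.LU2 Pool.Agent.MP_b525bf_ag Pool.Agent.MP_b525bf_ag_W Pool.Agent.MP_b525bf_ag_E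

variable {k K : Type} [Field k] [Field K] [Algebra k K] {G : Subgroup (K ≃ₐ[k] K)}
  {A : Subalgebra k K}

/-- The smooth multigraded family of the ideals of an adapted family. -/
theorem exists_stk (h : Hyp G A) {N : ℕ} {I : Fin N → Submodule A K}
    (hI : ∀ j, StId G A (I j)) {D : Set (Fin N → ℤ)} (hD : D.Finite)
    (hcov : ∀ W : ValuationSubring K, Inv G A W → ∃ (n : ℕ) (x : Fin n → K)
      (R : Subalgebra k K) (y : Fin N → K), AdaptI A R x I D W y) :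
    ∃ (N m : ℕ) (M : Fam k K (Ix N m)) (a : Ix N m), Stk M a ∧
      M.s 0 = Subalgebra.toSubmodule A ∧ (∀ d, M.s d ≤ Subalgebra.toSubmodule A) ∧
      FStab G M := by
  obtain ⟨m', u, θ, hC⟩ := exists_comb D hD
  refine ⟨N, m', IF A I u, amp N θ, ?_, IF_zero hI, IF_le hI, IF_stab h hI⟩
  refine ⟨IF_fg h hI, ?_, ?_, IF_neg hC, ⟨1, one_pos, ?_⟩, fun d => ⟨0, ?_, ?_⟩⟩
  · refine smooth_of_stab h.idx (IF_fg h hI) (IF_stab h hI) ?_
    intro Q _ hQ hst
    have hQ' := semiI (I := I) hC Q hQ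
    obtain ⟨W, hWi, hW⟩ := exists_dom h (zeroSub (atP (IF A I u) Q)) (by
      intro a ha
      exact le_atP _ _ _ (by rw [IF_zero hI]; exact ha))
      (zeroSub_stab (IF_stab h hI) Q hst) (isLocalRing_zeroSub Q)
    obtain ⟨n, x, R, y, had⟩ := hcov W hWi
    obtain ⟨C, h1, h2, h3, h4⟩ := hQ'.exists_chart h hI hW had
    exact exists_smooth_loc Q C h1 h2 h3 h4
  · obtain ⟨w, hw, hidx⟩ := IF_idx (A := A) (I := I) (u := u) (D := D)
    exact ⟨w, hw, fun Q _ hQ => hidx Q (semiI (I := I) hC Q hQ)⟩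
  · exact IF_ne hI hC _
  · exact IF_ne hI hC _
  · exact IF_ne hI hC _

end Pool.Agent.MP_b525bf_ag_ES
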