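import Pool.Agent.Lib.MP_b525bf_ag_ES.GMC
import Pool.Agent.Lib.MP_b525bf_ag_ES.ATL
import Pool.Agent.Lib.MP_b525bf_ag_ES.IDA
import Pool.Agent.Lib.MP_b525bf_ag_ES.FHS

/-!
# Theorem ES: the logarithmic form
-/

set_option autoImplicit false
set_option linter.unusedVariables false

namespace Pool.Agent.MP_b525bf_ag_ES

open Pool.Agent.LU2 Pool.Agent.MP_b525bf_ag Pool.Agent.MP_b525bf_ag_W Pool.Agent.MP_b525bf_ag_E

section Field

variable {k K : Type} [Field k] [Field K] [Algebra k K] {G : Subgroup (K ≃ₐ[k] K)}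
  {A : Subalgebra k K} {M : IntermediateField k K} {L : Set K}

/-- Nonzero generators of a stable ideal; the ideal is the sum of the ideals generated by their
orbits. -/
theorem StId.exists_sup (h : Hyp G A) {T : Submodule A K} (hT : StId G A T) :
    ∃ Y : Finset K, Y.Nonempty ∧ (∀ y ∈ Y, y ∈ A ∧ y ≠ 0) ∧ Y.sup (fun y => orb G A y) = T := by
  classical
  obtain ⟨Y, hYT, hYg⟩ := hT.exists_gens h
  have hself : ∀ y : K, y ∈ orb G A y := fun y => Submodule.subset_span ⟨1, G.one_mem, rfl⟩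
  have hle : (Y.erase 0).sup (fun y => orb G A y) ≤ T := by
    refine Finset.sup_le fun y hy => ?_
    refine Submodule.span_le.2 ?_
    rintro _ ⟨g, hg, rfl⟩
    exact hT.stab g hg _ (hYT y (Finset.mem_of_mem_erase hy))
  have hge : T ≤ (Y.erase 0).sup (fun y => orb G A y) := by
    refine hYg.trans (Submodule.span_le.2 fun y hy => ?_)
    by_cases h0 : y = 0
    · rw [h0]
      exact Submodule.zero_mem _
    · exact (Finset.le_sup (f := fun y => orb G A y) (Finset.mem_erase.2 ⟨h0, hy⟩)) (hself y)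
  refine ⟨Y.erase 0, ?_, fun y hy => ⟨hT.le y (hYT y (Finset.mem_of_mem_erase hy)),
    Finset.ne_of_mem_erase hy⟩, le_antisymm hle hge⟩
  by_contra hne
  rw [Finset.not_nonempty_iff_eq_empty] at hne
  obtain ⟨z, hz, hz0⟩ := hT.ne
  have h1 := hge hz
  rw [hne, Finset.sup_empty, Submodule.mem_bot] at h1
  exact hz0 h1

/-- Complexity at most one: adapted charts. -/
theorem adapted_of_cx [PerfectField k] [Infinite k] (hreal : RealCase k) (h : Hyp G A)
    (hA : ∀ V : ValuationSubring K, Inv G A V → DefLE k V 0)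
    (hfin : Algebra.trdeg k K < Cardinal.aleph0) (hC : Cx G A M L)
    (hK : (⊤ : IntermediateField k K).FG) {r : ℕ} (T : Fin r → Submodule A K)
    (hT : ∀ t, StId G A (T t)) :
    Pool.Agent.MP_b525bf_ag_GM.Adapted G A (Set.range T) := by
  classical
  choose Y hYne hYA hYT using fun t => (hT t).exists_sup h
  obtain ⟨m₀, m₁, n₀, n₁, R₀, x₀, C₀, b₀, P₀, R₁, x₁, C₁, b₁, P₁, p, q, S, N, hat, hF⟩ :=
    exists_atl hreal h hA hfin hC hK (Finset.univ.biUnion Y) (by
      intro f hf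
      obtain ⟨t, -, ht⟩ := Finset.mem_biUnion.1 hf
      exact hYA t f ht)
  have hTc : ∀ t i, ∃ S', Ctl (R₀ i) (x₀ i) (P₀ i) (T t) S' := by
    intro t i
    rw [← hYT t]
    exact ctl_finset_sup (Y t) (hYne t) _ fun y hy =>
      hF i y (Finset.mem_biUnion.2 ⟨t, Finset.mem_univ _, hy⟩)
  obtain ⟨N, I, D, hIT, hI, hD, hcov⟩ := hat.exists_adaptI' h T hT hTc
  refine adapted_of_adaptI h hI hD hcov _ ?_
  rintro _ ⟨t, rfl⟩
  exact hIT t

end Field

/-- A stable ideal of the ring as a stable ideal of the image of the ring. -/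
theorem stId_idT {k A : Type} [Field k] [CommRing A] [IsDomain A] [Algebra k A]
    (G : Subgroup (A ≃ₐ[k] A)) (D : Ideal A) (hD0 : D ≠ ⊥) (hDG : ∀ g ∈ G, ∀ a ∈ D, g a ∈ D) :
    StId (liftG G) (rangeA k A) (MP_b525bf_ag_EL.idT k D) where
  le := by
    rintro _ ⟨a, -, rfl⟩
    exact ⟨a, rfl⟩
  ne := by
    obtain ⟨a, ha, ha0⟩ := Submodule.exists_mem_ne_zero_of_ne_bot hD0
    exact ⟨_, ⟨a, ha, rfl⟩, fun h => ha0 (IsFractionRing.injective A (FractionRing A)
      (by rw [h, map_zero]))⟩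
  stab := by
    rintro _ ⟨g, hg, rfl⟩ _ ⟨a, ha, rfl⟩
    refine ⟨g a, hDG g hg a ha, ?_⟩
    rw [IsFractionRing.fieldEquivOfAlgEquivHom_apply,
      IsFractionRing.fieldEquivOfAlgEquiv_algebraMap]

/-- The equivariant log resolution. -/
theorem exists_log_ideal (p : ℕ) [Fact p.Prime] (k : Type) [Field k] [PerfectField k]
    [Infinite k] [CharP k p] (A : Type) [CommRing A] [IsDomain A] [Algebra k A]
    [Algebra.FiniteType k A] (G : Subgroup (A ≃ₐ[k] A))
    (hG : ∀ H : Subgroup G, H.FiniteIndex → H = ⊤) (hA : AllAbhyankar G)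
    (hF : (∀ I : Ideal A, I ≠ ⊥ → (∀ g ∈ G, ∀ a ∈ I, g a ∈ I) → (invariantCenters G I).Finite) ∨
      ∃ B : Subgroup (A ≃ₐ[k] A), ComplexityLeOne G B)
    (D J : Ideal A) (hD0 : D ≠ ⊥) (hDG : ∀ g ∈ G, ∀ a ∈ D, g a ∈ D) (hJ0 : J ≠ ⊥)
    (hJG : ∀ g ∈ G, ∀ a ∈ J, g a ∈ J) :
    ∃ I : Ideal A, I ≠ ⊥ ∧ (∀ g ∈ G, ∀ a ∈ I, g a ∈ I) ∧
      ∀ V : ValuationSubring (FractionRing A), (∀ a : A, algebraMap A (FractionRing A) a ∈ V) →
        MP_b525bf_ag_EL.IsLogDesing V D (J * I) := by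
  rcases hF with hF | ⟨B, hB⟩
  · exact MP_b525bf_ag_EL.exists_log_ideal p k A G hG hA hF D J hD0 hDG hJ0 hJG
  · have h1 : Algebra.EssFiniteType A (FractionRing A) :=
      Algebra.EssFiniteType.of_isLocalization _ (nonZeroDivisors A)
    have h2 : Algebra.EssFiniteType k (FractionRing A) :=
      Algebra.EssFiniteType.comp k A (FractionRing A)
    refine Pool.Agent.MP_b525bf_ag_GM.log_ideal_of_adapted k G hG D J ?_
    have h3 := adapted_of_cx (realCaseR p Fact.out).realCase (hyp_liftG G hG)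
      (defLE_of_inv G hA) (trdeg_lt_aleph0 k (FractionRing A)) (cx_of G B hB)
      (IntermediateField.fg_top k (FractionRing A))
      (r := 2) ![MP_b525bf_ag_EL.idT k D, MP_b525bf_ag_EL.idT k J] (fun t => by
        fin_cases t
        · exact stId_idT G D hD0 hDG
        · exact stId_idT G J hJ0 hJG)
    have h4 : Set.range ![MP_b525bf_ag_EL.idT k D, MP_b525bf_ag_EL.idT k J] =
        {MP_b525bf_ag_EL.idT k D, MP_b525bf_ag_EL.idT k J} := by
      rw [Matrix.range_cons, Matrix.range_cons, Matrix.range_empty, Set.union_empty]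
      rfl
    rwa [h4] at h3

end Pool.Agent.MP_b525bf_ag_ES
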