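import Pool.Agent.Lib.MP_b525bf_ag_ES.ISTK
import Pool.Agent.Lib.MP_b525bf_ag_ES.ATL
import Pool.Agent.Lib.MP_b525bf_ag_ES.IDA
import Pool.Agent.Lib.MP_b525bf_ag_ES.FHS
import Pool.Agent.Lib.MP_b525bf_ag_E.Final

/-!
# Theorem ES: assembly
-/

set_option autoImplicit false

namespace Pool.Agent.MP_b525bf_ag_ES

open AlgebraicGeometry CategoryTheory
open Pool.Agent.LU2 Pool.Agent.MP_b525bf_ag Pool.Agent.MP_b525bf_ag_W Pool.Agent.MP_b525bf_ag_E
  Pool.Agent.MPb525bf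

/-- The smooth multigraded family, on the level of fields. -/
theorem exists_stk_of_cx {k K : Type} [Field k] [Field K] [Algebra k K]
    {G : Subgroup (K ≃ₐ[k] K)} {A : Subalgebra k K} {M : IntermediateField k K} {L : Set K}
    [PerfectField k] [Infinite k] (hreal : RealCase k) (h : Hyp G A)
    (hA : ∀ V : ValuationSubring K, Inv G A V → DefLE k V 0)
    (hfin : Algebra.trdeg k K < Cardinal.aleph0) (hC : Cx G A M L)
    (hK : (⊤ : IntermediateField k K).FG) :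
    ∃ (N m : ℕ) (M : Fam k K (Ix N m)) (a : Ix N m), Stk M a ∧
      M.s 0 = Subalgebra.toSubmodule A ∧ (∀ d, M.s d ≤ Subalgebra.toSubmodule A) ∧
      FStab G M := by
  obtain ⟨m₀, m₁, n₀, n₁, R₀, x₀, C₀, b₀, P₀, R₁, x₁, C₁, b₁, P₁, p, q, S, N, hat, -⟩ :=
    exists_atl hreal h hA hfin hC hK ∅ (by simp)
  obtain ⟨N, I, D, hI, hD, hcov⟩ := hat.exists_adaptI h
  exact exists_stk h hI hD hcov

/-- The final theorem: the common part of the two cases. -/
theorem final_of_stk (k : Type) [Field k] [Infinite k] (A : Type) [CommRing A] [IsDomain A]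
    [Algebra k A] [Algebra.FiniteType k A] (G : Subgroup (A ≃ₐ[k] A))
    (hS : ∃ (N m : ℕ) (M : Fam k (FractionRing A) (Ix N m)) (a : Ix N m), Stk M a ∧
      M.s 0 = Subalgebra.toSubmodule (rangeA k A) ∧
      (∀ d, M.s d ≤ Subalgebra.toSubmodule (rangeA k A)) ∧ FStab (liftG G) M) :
    HasResolution (Spec.map (CommRingCat.ofHom (algebraMap k A))) ∧
      (∃ I : Ideal A, I ≠ ⊥ ∧ (∀ g ∈ G, ∀ a ∈ I, g a ∈ I) ∧
        ∀ b ∈ I, b ≠ 0 → Algebra.Smooth k (chart I b)) ∧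
      ∀ (𝒜 : ℕ → Submodule k A) [GradedAlgebra 𝒜], Algebra.adjoin k (𝒜 1 : Set A) = ⊤ →
        𝒜 1 ≠ ⊥ → (∀ t : kˣ, ∃ g ∈ G, ∀ (d : ℕ), ∀ a ∈ 𝒜 d, g a = (t : k) ^ d • a) →
        HasResolution (projTo 𝒜) := by
  obtain ⟨N, m', M, a, hM, h0, -, hst⟩ := hS
  obtain ⟨M', hM', h0', hst'⟩ := destack_stab M a hM hst
  have h00 : ∀ z : FractionRing A, z ∈ M'.s 0 ↔ ∃ x : A, algebraMap A (FractionRing A) x = z := by
    intro z
    rw [h0', h0]
    exact Iff.rfl
  have h1 : MP_b525bf_ag.HasResolution k A := hasResolution_of_goodC_one k A (FractionRing A)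
    (IsFractionRing.injective A (FractionRing A)) M' hM' h00
  obtain ⟨I, hI, hsm, d, hd⟩ := exists_ideal_of_goodC M' hM' h00
  have hIst : ∀ g ∈ G, ∀ a ∈ I, g a ∈ I := by
    intro g hg a ha
    rw [hd] at ha ⊢
    have h1 := hst' (IsFractionRing.fieldEquivOfAlgEquivHom k (FractionRing A) g)
      ⟨g, hg, rfl⟩ d _ ha
    rwa [IsFractionRing.fieldEquivOfAlgEquivHom_apply,
      IsFractionRing.fieldEquivOfAlgEquiv_algebraMap] at h1
  refine ⟨h1, ⟨I, hI, hIst, fun b hb hb0 => ?_⟩, ?_⟩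
  · have h4 := hsm b hb hb0
    have h5 := finiteType_chart (k := k) I b
    exact { formallySmooth := h4
            finitePresentation := Algebra.FinitePresentation.of_finiteType.mp h5 }
  · intro 𝒜 _ hgen hne hT
    refine hasResolution_proj 𝒜 hgen hne hI (isHomogeneous_of_torus 𝒜 I fun t => ?_) hsm
    obtain ⟨g, hg, hgd⟩ := hT t
    exact ⟨g, hIst g hg, hgd⟩

/-- The final theorem. -/
theorem group_actions (p : ℕ) [Fact p.Prime] (k : Type) [Field k] [PerfectField k]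
    [Infinite k] [CharP k p] (A : Type) [CommRing A] [IsDomain A] [Algebra k A]
    [Algebra.FiniteType k A] (G : Subgroup (A ≃ₐ[k] A))
    (hG : ∀ H : Subgroup G, H.FiniteIndex → H = ⊤) (hA : AllAbhyankar G)
    (B : Subgroup (A ≃ₐ[k] A)) (hB : ComplexityLeOne G B) :
    HasResolution (Spec.map (CommRingCat.ofHom (algebraMap k A))) ∧
      (∃ I : Ideal A, I ≠ ⊥ ∧ (∀ g ∈ G, ∀ a ∈ I, g a ∈ I) ∧
        ∀ b ∈ I, b ≠ 0 → Algebra.Smooth k (chart I b)) ∧
      ∀ (𝒜 : ℕ → Submodule k A) [GradedAlgebra 𝒜], Algebra.adjoin k (𝒜 1 : Set A) = ⊤ →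
        𝒜 1 ≠ ⊥ → (∀ t : kˣ, ∃ g ∈ G, ∀ (d : ℕ), ∀ a ∈ 𝒜 d, g a = (t : k) ^ d • a) →
        HasResolution (projTo 𝒜) := by
  have h1 : Algebra.EssFiniteType A (FractionRing A) :=
    Algebra.EssFiniteType.of_isLocalization _ (nonZeroDivisors A)
  have h2 : Algebra.EssFiniteType k (FractionRing A) :=
    Algebra.EssFiniteType.comp k A (FractionRing A)
  exact final_of_stk k A G (exists_stk_of_cx (realCaseR p Fact.out).realCase (hyp_liftG G hG)
    (defLE_of_inv G hA) (trdeg_lt_aleph0 k (FractionRing A)) (cx_of G B hB)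
    (IntermediateField.fg_top k (FractionRing A)))

end Pool.Agent.MP_b525bf_ag_ES
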