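import Pool.Agent.Lib.MP_b525bf_ag_ES.DefsB

/-!
# Theorem ES, row MFG
Subextensions of finitely generated field extensions are finitely generated.
Recipe. Let `t` be a transcendence basis of `M / k`; it is algebraically independent over `k` in `K`,
so it is contained in a transcendence basis `t ∪ s` of `K / k`; both are finite (`hfin`).
`K` is finite over `k(t, s)` (`K / k` is finitely generated, and algebraic over `k(t,s)`). `M` is
algebraic over `k(t)`, and `s` is algebraically independent over `k(t)`, hence over `M`. Elements
`m_1, ..., m_r` of `M` which are linearly independent over `k(t)` are linearly independent over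
`k(t)(s) = k(t, s)`: clear denominators to get a relation `∑ c_i m_i = 0` with `c_i ∈ k(t)[s]`; this
is a polynomial relation of `s` over `M`, so all coefficients vanish, so all `c_i` vanish. Hence
`[M : k(t)] ≤ [K : k(t, s)] < ∞` and `M` is generated by `t` and a basis of `M / k(t)`.
(You may use that `trdeg M ≤ 1` if this makes it simpler, but there should be no need. Other
possibility: `LinearDisjoint` of `M` and `k(t,s)` over `k(t)`, Mathlib has
`IntermediateField.LinearDisjoint` and algebraic independence criteria.)
-/

set_option autoImplicit false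
set_option linter.unusedVariables false

namespace Pool.Agent.MP_b525bf_ag_ES

open Pool.Agent.LU2 Pool.Agent.MP_b525bf_ag Pool.Agent.MP_b525bf_ag_W Pool.Agent.MP_b525bf_ag_E

section
variable {E M K : Type*} [Field E] [Field M] [Field K] [Algebra E M] [Algebra M K] [Algebra E K]
  [IsScalarTower E M K]

private theorem tb_lower [Algebra.IsAlgebraic E M] {ι : Type*} {y : ι → K} (hy : IsTranscendenceBasis M y) :
    Algebra.IsAlgebraic (IntermediateField.adjoin E (Set.range y)) K := by
  have h0 : IsTranscendenceBasis E (fun e : Empty => (e.elim : M)) := by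
    rw [isTranscendenceBasis_iff_algebraicIndependent_isAlgebraic]
    refine ⟨?_, ?_⟩
    · rw [algebraicIndependent_empty_type_iff]
      exact (algebraMap E M).injective
    · rw [Set.range_eq_empty, Algebra.adjoin_empty]
      exact Algebra.IsAlgebraic.extendScalars (R := E) (algebraMap E (⊥ : Subalgebra E M)).injective
  have h1 := (h0.sumElim_comp hy).isAlgebraic_field
  have h2 : Set.range (Sum.elim y (algebraMap M K ∘ fun e : Empty => (e.elim : M))) = Set.range y := by
    rw [Set.Sum.elim_range, Set.range_eq_empty (algebraMap M K ∘ fun e : Empty => (e.elim : M)), Set.union_empty]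
  rw [h2] at h1
  exact h1

open scoped IntermediateField.algebraAdjoinAdjoin in
private theorem lin_lift {ι κ : Type*} {y : ι → K} (hy : AlgebraicIndependent M y) {b : κ → M}
    (hb : LinearIndependent E b) :
    LinearIndependent (IntermediateField.adjoin E (Set.range y)) (fun i => algebraMap M K (b i)) := by
  rw [← LinearIndependent.iff_fractionRing (Algebra.adjoin E (Set.range y)) (IntermediateField.adjoin E (Set.range y))]
  rw [linearIndependent_iff']
  intro s g hg
  have h1 : ∀ i, ∃ p : MvPolynomial ι E, MvPolynomial.aeval y p = (g i : K) := by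
    intro i
    have h2 : (g i : K) ∈ (MvPolynomial.aeval (R := E) y).range := by
      rw [← Algebra.adjoin_range_eq_range_aeval]
      exact (g i).2
    exact h2
  choose p hp using h1
  have h3 : MvPolynomial.aeval y (∑ i ∈ s, MvPolynomial.C (b i) * MvPolynomial.map (algebraMap E M) (p i)) = 0 := by
    rw [map_sum, ← hg]
    apply Finset.sum_congr rfl
    intro i _
    rw [map_mul, MvPolynomial.aeval_C, MvPolynomial.aeval_map_algebraMap, hp, Algebra.smul_def, mul_comm]
    rfl
  have h4 : (∑ i ∈ s, MvPolynomial.C (b i) * MvPolynomial.map (algebraMap E M) (p i)) = 0 := by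
    apply hy
    rw [h3, map_zero]
  intro i hi
  have h5 : p i = 0 := by
    ext e
    have h6 := congrArg (MvPolynomial.coeff e) h4
    rw [MvPolynomial.coeff_sum, MvPolynomial.coeff_zero] at h6
    have h7 : ∑ i ∈ s, MvPolynomial.coeff e (p i) • b i = 0 := by
      rw [← h6]
      apply Finset.sum_congr rfl
      intro j _
      rw [MvPolynomial.coeff_C_mul, MvPolynomial.coeff_map, Algebra.smul_def, mul_comm]
    rw [MvPolynomial.coeff_zero]
    exact (linearIndependent_iff'.1 hb) s (fun i => MvPolynomial.coeff e (p i)) h7 i hi
  have h8 := hp i
  rw [h5, map_zero] at h8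
  exact Subtype.ext h8.symm
end

private theorem fg_aux {k K : Type} [Field k] [Field K] [Algebra k K] (hK : (⊤ : IntermediateField k K).FG)
    (M : IntermediateField k K) : M.FG := by
  have hK' : Algebra.EssFiniteType k K := IntermediateField.fg_top_iff.1 hK
  have h1 : FinTrdeg k M := by
    rw [finTrdeg_iff_trdeg]
    exact lt_of_le_of_lt (trdeg_le_of_injective M.val M.val.injective) (trdeg_lt_aleph0 k K)
  obtain ⟨E, hE, halg⟩ := h1.exists_fg_isAlgebraic
  have hE' : Algebra.EssFiniteType k E := IntermediateField.essFiniteType_iff.2 hE
  obtain ⟨s, hs⟩ := exists_isTranscendenceBasis M K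
  have : IsScalarTower k E K := inferInstance
  have hF := tb_lower (E := E) (M := M) (K := K) hs
  have htow : IsScalarTower k (IntermediateField.adjoin E (Set.range ((↑) : s → K))) K :=
    IsScalarTower.of_algebraMap_eq (fun _ => rfl)
  have hEss : Algebra.EssFiniteType (IntermediateField.adjoin E (Set.range ((↑) : s → K))) K :=
    Algebra.EssFiniteType.of_comp k (IntermediateField.adjoin E (Set.range ((↑) : s → K))) K
  have hfin : Module.Finite (IntermediateField.adjoin E (Set.range ((↑) : s → K))) K :=
    Algebra.finite_of_essFiniteType_of_isAlgebraic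
  have hlin := lin_lift (E := E) (M := M) (K := K) hs.1 (Module.Basis.ofVectorSpace E M).linearIndependent
  have hfi := hlin.finite
  have hME : Module.Finite E M := Module.Finite.of_basis (Module.Basis.ofVectorSpace E M)
  have hem : Algebra.EssFiniteType k M := Algebra.EssFiniteType.comp k E M
  exact IntermediateField.essFiniteType_iff.1 hem

variable {k K : Type} [Field k] [Field K] [Algebra k K] {G : Subgroup (K ≃ₐ[k] K)}
  {A : Subalgebra k K} {M : IntermediateField k K} {L : Set K}

variable {V W : ValuationSubring K} {B : Subalgebra k K} {n : ℕ} {x : Fin n → K}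

theorem fg_intermediate (hK : (⊤ : IntermediateField k K).FG) (M : IntermediateField k K) :
    M.FG := fg_aux hK M

end Pool.Agent.MP_b525bf_ag_ES
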