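import Pool.Agent.Lib.MP_b525bf_ag_ES.DefsB

/-!
# Theorem ES, row ORD
The valuation rings belonging to total orders of the exponents.
Recipe for `exists_ord`. `R := locV V B`, `S := adjoin (R ∪ {mon x e : pos e})`, `I` := the ideal of `S`
generated by the `mon x e`, `pos e`. Every element of `S` is `r + i`, `r ∈ R`, and `i` a finite sum of
`c_e * mon x e`, `c_e ∈ R`, `pos e`. `1 ∉ I`: if `1 = ∑_{e ∈ F} c_e * mon x e` with `F` finite, `pos e` for
`e ∈ F`, multiply by `mon x β`, `β` large (all `e + β ≥ 0`): `Loc.monomial_mem` (E.ML) gives `e ∈ F` with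
`e + β ≤ β`, so `-e` is a sum of unit vectors, so `-e = 0` or `pos (-e)`; contradiction to `add`, `irr`.
`J := m_R + I` (`m_R` = elements of `R` of value `< 1`) is a maximal ideal of `S`, consisting of the
`r + i` with `r ∈ m_R` (well defined as `R ∩ I ⊆ m_R`, because `R ∩ I` contains no unit). The elements
of `S` outside of `J` are `u + i`, `u` a unit of `R`. `O := {s / t : s ∈ S, t ∈ S, t ∉ J}` is a local
ring with `A ≤ O`, and stable under `G`: `g R ⊆ R`, `g (mon x e) = mon x e * unit of R` (`ChartAt.par`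
for `g` and `g⁻¹`: units), so `g I ⊆ I`, and `g J ⊆ J`, `g` of `u + i` is not in `J`.
`exists_dom` (E.X1): `W ∈ Inv` dominating `O`; the elements of `J` are nonunits of `O`: so they have
valuation `< 1` (`Dom.inv`: if `W.valuation = 1` then the inverse is in `O`).
`lead_mon`: the smallest element of `S` for the order `pos` (exists by `tri`, `add`, `irr`), the
coefficients are units of `R`, of valuation one in `W`, all other terms are strictly smaller.
-/

set_option autoImplicit false
set_option linter.unusedVariables false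

namespace Pool.Agent.MP_b525bf_ag_ES

open Pool.Agent.LU2 Pool.Agent.MP_b525bf_ag Pool.Agent.MP_b525bf_ag_W Pool.Agent.MP_b525bf_ag_E

variable {k K : Type} [Field k] [Field K] [Algebra k K] {G : Subgroup (K ≃ₐ[k] K)}
  {A : Subalgebra k K} {M : IntermediateField k K} {L : Set K}

variable {V W : ValuationSubring K} {B : Subalgebra k K} {n : ℕ} {x : Fin n → K}

theorem ord_mon_add {x : Fin n → K} (h : ∀ i, x i ≠ 0) (e f : Fin n → ℤ) :
    mon x (e + f) = mon x e * mon x f := by
  rw [mon, mon, mon, ← Finset.prod_mul_distrib]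
  exact Finset.prod_congr rfl fun i _ => zpow_add₀ (h i) _ _

theorem ord_mon_zero {x : Fin n → K} : mon x (0 : Fin n → ℤ) = 1 := by
  simp [mon]

theorem ord_mon_ne {x : Fin n → K} (h : ∀ i, x i ≠ 0) (e : Fin n → ℤ) : mon x e ≠ 0 := by
  rw [mon]
  exact Finset.prod_ne_zero_iff.2 fun i _ => zpow_ne_zero _ (h i)

private theorem ord_q_add {pos : (Fin n → ℤ) → Prop} (hp : PosOrd pos) {a b : Fin n → ℤ}
    (ha : a = 0 ∨ pos a) (hb : b = 0 ∨ pos b) : a + b = 0 ∨ pos (a + b) := by
  rcases ha with rfl | ha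
  · rwa [zero_add]
  rcases hb with rfl | hb
  · rw [add_zero]
    exact Or.inr ha
  · exact Or.inr (hp.add a b ha hb)

private theorem ord_nonneg {pos : (Fin n → ℤ) → Prop} (hp : PosOrd pos) (d : Fin n → ℤ)
    (hd : ∀ i, 0 ≤ d i) : d = 0 ∨ pos d := by
  have h1 : ∀ (m : ℕ) (i : Fin n), m • (Pi.single i 1 : Fin n → ℤ) = 0 ∨
      pos (m • (Pi.single i 1 : Fin n → ℤ)) := by
    intro m i
    induction m with
    | zero => left; rw [zero_smul]
    | succ m ih =>
      rw [succ_nsmul]
      exact ord_q_add hp ih (Or.inr (hp.std i))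
  have h2 : ∀ s : Finset (Fin n), ∑ i ∈ s, (d i).toNat • (Pi.single i 1 : Fin n → ℤ) = 0 ∨
      pos (∑ i ∈ s, (d i).toNat • (Pi.single i 1 : Fin n → ℤ)) := by
    intro s
    classical
    induction s using Finset.induction_on with
    | empty => left; rw [Finset.sum_empty]
    | insert a s ha ih =>
      rw [Finset.sum_insert ha]
      exact ord_q_add hp (h1 _ a) ih
  have h3 : ∑ i, (d i).toNat • (Pi.single i 1 : Fin n → ℤ) = d := by
    funext j
    rw [Finset.sum_apply, Finset.sum_eq_single j]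
    · rw [Pi.smul_apply, Pi.single_eq_same, nsmul_eq_mul, mul_one]
      exact Int.toNat_of_nonneg (hd j)
    · intro i _ hij
      rw [Pi.smul_apply, Pi.single_eq_of_ne (Ne.symm hij), smul_zero]
    · intro h
      exact absurd (Finset.mem_univ j) h
  rw [← h3]
  exact h2 Finset.univ

/-- The module generated by the positive monomials. -/
private def ordI (R : Subalgebra k K) (x : Fin n → K) (pos : (Fin n → ℤ) → Prop) :
    Submodule R K := Submodule.span R {z | ∃ e, pos e ∧ z = mon x e}

private theorem ordI_mul {R : Subalgebra k K} (hx : ∀ i, x i ≠ 0) {pos : (Fin n → ℤ) → Prop}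
    (hp : PosOrd pos) {a b : K} (ha : a ∈ ordI R x pos) (hb : b ∈ ordI R x pos) :
    a * b ∈ ordI R x pos := by
  have h1 := Submodule.mul_mem_mul ha hb
  unfold ordI at h1
  rw [Submodule.span_mul_span] at h1
  refine Submodule.span_mono ?_ h1
  rintro _ ⟨_, ⟨e, he, rfl⟩, _, ⟨f, hf, rfl⟩, rfl⟩
  exact ⟨e + f, hp.add e f he hf, (ord_mon_add hx e f).symm⟩

private theorem ordI_smul {R : Subalgebra k K} {pos : (Fin n → ℤ) → Prop} {a b : K}
    (ha : a ∈ R) (hb : b ∈ ordI R x pos) : a * b ∈ ordI R x pos :=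
  (ordI R x pos).smul_mem (⟨a, ha⟩ : R) hb

private theorem ordI_one (hc : Loc V B x) {pos : (Fin n → ℤ) → Prop} (hp : PosOrd pos) :
    (1 : K) ∉ ordI (locV V B) x pos := by
  classical
  intro h
  unfold ordI at h
  rw [Submodule.mem_span_set'] at h
  obtain ⟨N, c, g, hsum⟩ := h
  have hg : ∀ i : Fin N, ∃ e, pos e ∧ ((g i : K)) = mon x e := fun i => (g i).2
  choose e he hge using hg
  let β : Fin n → ℕ := fun j => ∑ i, (e i j).natAbs
  have hβ : ∀ i j, 0 ≤ e i j + (β j : ℤ) := by
    intro i j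
    have h1 : (e i j).natAbs ≤ β j :=
      Finset.single_le_sum (f := fun i => (e i j).natAbs) (fun _ _ => Nat.zero_le _)
        (Finset.mem_univ i)
    omega
  let α : Fin N → Fin n → ℕ := fun i j => (e i j + (β j : ℤ)).toNat
  have hα : ∀ i, zx (α i) = e i + zx β := by
    intro i
    funext j
    simp only [zx, α, Pi.add_apply]
    exact Int.toNat_of_nonneg (hβ i j)
  let E : Finset (Fin n → ℕ) := Finset.univ.image α
  let b : (Fin n → ℕ) → K := fun a => ∑ i ∈ Finset.univ.filter (fun i => α i = a), (c i : K)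
  obtain ⟨a, ha, hle⟩ := hc.monomial_mem E β b
    (fun a _ => Subalgebra.sum_mem _ fun i _ => (c i).2) (by
      have h1 : mon x (zx β) = ∑ i, (c i : K) * mon x (zx (α i)) := by
        calc mon x (zx β) = (∑ i, c i • ((g i : K))) * mon x (zx β) := by rw [hsum, one_mul]
          _ = ∑ i, (c i : K) * mon x (zx (α i)) := by
            rw [Finset.sum_mul]
            refine Finset.sum_congr rfl fun i _ => ?_
            rw [hα i, ord_mon_add hc.ne, hge i]
            change (c i : K) * mon x (e i) * mon x (zx β) = _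
            rw [mul_assoc]
      rw [h1, ← Finset.sum_fiberwise_of_maps_to (s := Finset.univ) (t := E) (g := α)
        (fun i hi => Finset.mem_image_of_mem _ hi)]
      refine Finset.sum_congr rfl fun a _ => ?_
      simp only [b]
      rw [Finset.sum_mul]
      refine Finset.sum_congr rfl fun i hi => ?_
      rw [(Finset.mem_filter.1 hi).2])
  obtain ⟨i, -, rfl⟩ := Finset.mem_image.1 ha
  have h2 : ∀ j, 0 ≤ (-(e i)) j := by
    intro j
    have h3 : α i j ≤ β j := hle j
    have h4 := congrFun (hα i) j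
    simp only [zx, Pi.add_apply] at h4
    rw [Pi.neg_apply]
    omega
  rcases ord_nonneg hp _ h2 with h3 | h3
  · rw [neg_eq_zero] at h3
    have := he i
    rw [h3] at this
    exact hp.irr this
  · have := hp.add _ _ (he i) h3
    rw [add_neg_cancel] at this
    exact hp.irr this

/-- The local ring of the order. -/
private def ordO (hc : Loc V B x) {pos : (Fin n → ℤ) → Prop} (hp : PosOrd pos) :
    Subalgebra k K where
  carrier := {z | ∃ r i r' i' : K, r ∈ locV V B ∧ i ∈ ordI (locV V B) x pos ∧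
    r' ∈ locV V B ∧ V.valuation r' = 1 ∧ i' ∈ ordI (locV V B) x pos ∧ z * (r' + i') = r + i}
  mul_mem' := by
    rintro a b ⟨r, i, r', i', hr, hi, hr', hv, hi', h1⟩ ⟨s, j, s', j', hs, hj, hs', hw, hj', h2⟩
    refine ⟨r * s, r * j + s * i + i * j, r' * s', r' * j' + s' * i' + i' * j',
      Subalgebra.mul_mem _ hr hs, ?_, Subalgebra.mul_mem _ hr' hs', by rw [map_mul, hv, hw, one_mul],
      ?_, ?_⟩
    · exact Submodule.add_mem _ (Submodule.add_mem _ (ordI_smul hr hj) (ordI_smul hs hi))
        (ordI_mul hc.ne hp hi hj)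
    · exact Submodule.add_mem _ (Submodule.add_mem _ (ordI_smul hr' hj') (ordI_smul hs' hi'))
        (ordI_mul hc.ne hp hi' hj')
    · have h3 : a * b * (r' * s' + (r' * j' + s' * i' + i' * j')) =
          (a * (r' + i')) * (b * (s' + j')) := by ring
      rw [h3, h1, h2]
      ring
  add_mem' := by
    rintro a b ⟨r, i, r', i', hr, hi, hr', hv, hi', h1⟩ ⟨s, j, s', j', hs, hj, hs', hw, hj', h2⟩
    refine ⟨r * s' + s * r', (r * j' + s' * i + i * j') + (s * i' + r' * j + j * i'),
      r' * s', r' * j' + s' * i' + i' * j',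
      Subalgebra.add_mem _ (Subalgebra.mul_mem _ hr hs') (Subalgebra.mul_mem _ hs hr'), ?_,
      Subalgebra.mul_mem _ hr' hs', by rw [map_mul, hv, hw, one_mul], ?_, ?_⟩
    · exact Submodule.add_mem _
        (Submodule.add_mem _ (Submodule.add_mem _ (ordI_smul hr hj') (ordI_smul hs' hi))
          (ordI_mul hc.ne hp hi hj'))
        (Submodule.add_mem _ (Submodule.add_mem _ (ordI_smul hs hi') (ordI_smul hr' hj))
          (ordI_mul hc.ne hp hj hi'))
    · exact Submodule.add_mem _ (Submodule.add_mem _ (ordI_smul hr' hj') (ordI_smul hs' hi'))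
        (ordI_mul hc.ne hp hi' hj')
    · have h3 : (a + b) * (r' * s' + (r' * j' + s' * i' + i' * j')) =
          (a * (r' + i')) * (s' + j') + (b * (s' + j')) * (r' + i') := by ring
      rw [h3, h1, h2]
      ring
  algebraMap_mem' := by
    intro c
    exact ⟨algebraMap k K c, 0, 1, 0, Subalgebra.algebraMap_mem _ c, Submodule.zero_mem _,
      Subalgebra.one_mem _, map_one _, Submodule.zero_mem _, by ring⟩

private theorem ordO_le (hc : Loc V B x) {pos : (Fin n → ℤ) → Prop} (hp : PosOrd pos) {f : K}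
    (hf : f ∈ locV V B) : f ∈ ordO hc hp :=
  ⟨f, 0, 1, 0, hf, Submodule.zero_mem _, Subalgebra.one_mem _, map_one _, Submodule.zero_mem _,
    by ring⟩

private theorem ordO_I (hc : Loc V B x) {pos : (Fin n → ℤ) → Prop} (hp : PosOrd pos) {f : K}
    (hf : f ∈ ordI (locV V B) x pos) : f ∈ ordO hc hp :=
  ⟨0, f, 1, 0, Subalgebra.zero_mem _, hf, Subalgebra.one_mem _, map_one _, Submodule.zero_mem _,
    by ring⟩

private theorem ord_ne (hc : Loc V B x) {pos : (Fin n → ℤ) → Prop} (hp : PosOrd pos) {r i : K}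
    (hr : r ∈ locV V B) (hv : V.valuation r = 1) (hi : i ∈ ordI (locV V B) x pos) :
    r + i ≠ 0 := by
  intro h
  have h0 : r ≠ 0 := by
    rintro rfl
    rw [map_zero] at hv
    exact zero_ne_one hv
  apply ordI_one hc hp
  have h1 : (1 : K) = (-r⁻¹) * i := by
    have h2 : i = -r := (neg_eq_of_add_eq_zero_right h).symm
    rw [h2]
    field_simp
  rw [h1]
  exact ordI_smul (Subalgebra.neg_mem _ (locV_inv hr hv)) hi

private theorem ordO_lo (hc : Loc V B x) {pos : (Fin n → ℤ) → Prop} (hp : PosOrd pos)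
    {a : K} (ha : a ∈ ordO hc hp) : a⁻¹ ∈ ordO hc hp ∨ (1 - a)⁻¹ ∈ ordO hc hp := by
  obtain ⟨r, i, r', i', hr, hi, hr', hv, hi', h1⟩ := ha
  have h2 : V.valuation r ≤ 1 := (V.valuation_le_one_iff _).2 (locV_mem hc.mem r hr)
  have ht := ord_ne hc hp hr' hv hi'
  rcases h2.lt_or_eq with h3 | h3
  · right
    have hv' : V.valuation (r' - r) = 1 := by
      rw [Valuation.map_sub_eq_of_lt_left]
      · exact hv
      · rw [hv]
        exact h3
    have hs := ord_ne hc hp (Subalgebra.sub_mem _ hr' hr) hv' (Submodule.sub_mem _ hi' hi)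
    refine ⟨r', i', r' - r, i' - i, hr', hi', Subalgebra.sub_mem _ hr' hr, hv',
      Submodule.sub_mem _ hi' hi, ?_⟩
    have h4 : (1 - a) * (r' + i') = (r' - r) + (i' - i) := by
      rw [sub_mul, h1]
      ring
    have h5 : (1 - a) ≠ 0 := by
      intro h6
      rw [h6, zero_mul] at h4
      exact hs h4.symm
    rw [← h4, inv_mul_cancel_left₀ h5]
  · left
    have hs := ord_ne hc hp hr h3 hi
    refine ⟨r', i', r, i, hr', hi', hr, h3, hi, ?_⟩
    have h5 : a ≠ 0 := by
      rintro rfl
      rw [zero_mul] at h1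
      exact hs h1.symm
    rw [← h1, inv_mul_cancel_left₀ h5]

private theorem ordI_stab (hc : ChartAt G A V B x) {pos : (Fin n → ℤ) → Prop} {g : K ≃ₐ[k] K}
    (hg : g ∈ G) {i : K} (hi : i ∈ ordI (locV V B) x pos) : g i ∈ ordI (locV V B) x pos := by
  unfold ordI at hi
  refine Submodule.span_induction (p := fun i _ => g i ∈ ordI (locV V B) x pos) ?_ ?_ ?_ ?_ hi
  · rintro _ ⟨e, he, rfl⟩
    have hgx : ∀ i, g (x i) ≠ 0 := fun i => by simpa using hc.ne i
    have hw : ∀ i, (g (x i) / x i)⁻¹ ∈ locV V B := by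
      intro i
      have h1 := hc.stab g hg _ (hc.par g⁻¹ (G.inv_mem hg) i)
      rw [map_div₀] at h1
      have e1 : g (g⁻¹ (x i)) = x i := AlgEquiv.apply_symm_apply g (x i)
      rw [e1] at h1
      rwa [inv_div]
    have h2 : g (mon x e) = (∏ i, (g (x i) / x i) ^ e i) * mon x e := by
      rw [mon, map_prod, ← Finset.prod_mul_distrib]
      refine Finset.prod_congr rfl fun i _ => ?_
      rw [map_zpow₀, div_zpow, div_mul_cancel₀ _ (zpow_ne_zero _ (hc.ne i))]
    rw [h2]
    refine ordI_smul ?_ (Submodule.subset_span ⟨e, he, rfl⟩)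
    refine Subalgebra.prod_mem _ fun i _ => ?_
    rcases Int.eq_nat_or_neg (e i) with ⟨m, hm | hm⟩
    · rw [hm, zpow_natCast]
      exact Subalgebra.pow_mem _ (hc.par g hg i) _
    · rw [hm, zpow_neg, zpow_natCast, ← inv_pow]
      exact Subalgebra.pow_mem _ (hw i) _
  · rw [map_zero]
    exact Submodule.zero_mem _
  · intro a b _ _ ha hb
    rw [map_add]
    exact Submodule.add_mem _ ha hb
  · intro c b _ hb
    change g ((c : K) * b) ∈ _
    rw [map_mul]
    exact ordI_smul (hc.stab g hg _ c.2) hb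

theorem exists_ord (h : Hyp G A) (hV : Inv G A V) (hc : ChartAt G A V B x)
    {pos : (Fin n → ℤ) → Prop} (hp : PosOrd pos) : ∃ W : ValuationSubring K, Inv G A W ∧
      (∀ f ∈ locV V B, f ∈ W) ∧ ∀ e, pos e → W.valuation (mon x e) < 1 := by
  have hlo : X1h.Lo G (ordO hc.toLoc hp) := by
    refine ⟨?_, fun a ha => ordO_lo hc.toLoc hp ha⟩
    rintro g hg z ⟨r, i, r', i', hr, hi, hr', hv, hi', h1⟩
    refine ⟨g r, g i, g r', g i', hc.stab g hg r hr, ordI_stab hc hg hi, hc.stab g hg r' hr',
      by rw [hV.inv g hg, hv], ordI_stab hc hg hi', ?_⟩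
    rw [← map_add, ← map_mul, h1, map_add]
  have hAO : A ≤ ordO hc.toLoc hp := fun a ha => ordO_le hc.toLoc hp (le_locV B (hc.le ha))
  obtain ⟨W, hW, hD⟩ := exists_dom h (ordO hc.toLoc hp) hAO hlo.st hlo.isLocalRing
  refine ⟨W, hW, fun f hf => hD.le f (ordO_le hc.toLoc hp hf), fun e he => ?_⟩
  have hI : mon x e ∈ ordI (locV V B) x pos := Submodule.subset_span ⟨e, he, rfl⟩
  have hO := ordO_I hc.toLoc hp hI
  refine lt_of_le_of_ne ((W.valuation_le_one_iff _).2 (hD.le _ hO)) fun h1 => ?_
  obtain ⟨r, i, r', i', hr, hi, hr', hv, hi', h2⟩ := hD.inv _ hO h1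
  have h0 := ord_mon_ne hc.ne e
  have h3 : r' + i' = mon x e * r + mon x e * i := by
    rw [← mul_add, ← h2, mul_inv_cancel_left₀ h0]
  have h4 : r' + (i' - (r * mon x e + mon x e * i)) = 0 := by
    have : r' + (i' - (r * mon x e + mon x e * i)) = (r' + i') - (mon x e * r + mon x e * i) := by
      ring
    rw [this, h3, sub_self]
  exact ord_ne hc.toLoc hp hr' hv (Submodule.sub_mem _ hi' (Submodule.add_mem _ (ordI_smul hr hI)
    (ordI_mul hc.ne hp hI hi))) h4

private theorem ord_min {pos : (Fin n → ℤ) → Prop} (hp : PosOrd pos) (S : Finset (Fin n → ℕ))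
    (hS : S.Nonempty) : ∃ α ∈ S, ∀ β ∈ S, β ≠ α → pos (zx β - zx α) := by
  classical
  induction hS using Finset.Nonempty.cons_induction with
  | singleton a =>
    refine ⟨a, Finset.mem_singleton_self a, fun β hβ hne => ?_⟩
    exact absurd (Finset.mem_singleton.1 hβ) hne
  | cons a s ha hs ih =>
    obtain ⟨α, hα, hmin⟩ := ih
    rcases hp.tri (zx a - zx α) with h1 | h1 | h1
    · exfalso
      apply ha
      have h2 : a = α := by
        funext j
        have h3 := congrFun h1 j
        simp only [zx, Pi.sub_apply, Pi.zero_apply] at h3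
        omega
      rw [h2]
      exact hα
    · refine ⟨α, Finset.mem_cons_of_mem hα, fun β hβ hne => ?_⟩
      rcases Finset.mem_cons.1 hβ with rfl | hβ
      · exact h1
      · exact hmin β hβ hne
    · rw [neg_sub] at h1
      refine ⟨a, Finset.mem_cons_self a s, fun β hβ hne => ?_⟩
      rcases Finset.mem_cons.1 hβ with rfl | hβ
      · exact absurd rfl hne
      · by_cases h2 : β = α
        · rw [h2]
          exact h1
        · have h3 := hp.add _ _ (hmin β hβ h2) h1
          rwa [sub_add_sub_cancel] at h3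

theorem lead_mon {R : Subalgebra k K} (hx : ∀ i, x i ≠ 0) (hRW : ∀ f ∈ R, f ∈ W)
    {pos : (Fin n → ℤ) → Prop} (hp : PosOrd pos) (hW : ∀ e, pos e → W.valuation (mon x e) < 1)
    {f : K} {S : Finset (Fin n → ℕ)} {c : (Fin n → ℕ) → K} (hr : Rep R x f S c) :
    ∃ α ∈ S, (∀ β ∈ S, β ≠ α → pos (zx β - zx α)) ∧
      W.valuation f = W.valuation (mon x (zx α)) := by
  classical
  obtain ⟨α, hα, hmin⟩ := ord_min hp S hr.ne
  refine ⟨α, hα, hmin, ?_⟩
  have hc1 : ∀ β ∈ S, W.valuation (c β) = 1 := by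
    intro β hβ
    have h1 : W.valuation (c β) ≤ 1 := (W.valuation_le_one_iff _).2 (hRW _ (hr.mem β hβ))
    have h2 : W.valuation (c β)⁻¹ ≤ 1 := (W.valuation_le_one_iff _).2 (hRW _ (hr.inv β hβ))
    refine le_antisymm h1 ?_
    rw [map_inv₀] at h2
    have h3 : W.valuation (c β) ≠ 0 := (W.valuation.ne_zero_iff).2 (hr.ne0 β hβ)
    exact (inv_le_one₀ (zero_lt_iff.2 h3)).1 h2
  have hm0 : ∀ e, W.valuation (mon x e) ≠ 0 := fun e => (W.valuation.ne_zero_iff).2 (ord_mon_ne hx e)
  have h1 : W.valuation (∑ β ∈ S.erase α, c β * mon x (zx β)) < W.valuation (mon x (zx α)) := by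
    refine W.valuation.map_sum_lt (hm0 _) fun β hβ => ?_
    obtain ⟨hne, hβS⟩ := Finset.mem_erase.1 hβ
    rw [map_mul, hc1 β hβS, one_mul]
    have h2 : zx β = (zx β - zx α) + zx α := by rw [sub_add_cancel]
    rw [h2, ord_mon_add hx, map_mul]
    have h3 := hW _ (hmin β hβS hne)
    calc W.valuation (mon x (zx β - zx α)) * W.valuation (mon x (zx α))
        < 1 * W.valuation (mon x (zx α)) :=
          mul_lt_mul_of_pos_right h3 (zero_lt_iff.2 (hm0 _))
      _ = _ := one_mul _
  have h2 : W.valuation (c α * mon x (zx α)) = W.valuation (mon x (zx α)) := by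
    rw [map_mul, hc1 α hα, one_mul]
  rw [hr.sum, ← Finset.add_sum_erase _ _ hα, Valuation.map_add_eq_of_lt_left, h2]
  rw [h2]
  exact h1

private def lexp (e : Fin n → ℤ) : Prop := ∃ i, (∀ j, j < i → e j = 0) ∧ 0 < e i

private theorem lexp_add {a b : Fin n → ℤ} (ha : lexp a) (hb : lexp b) : lexp (a + b) := by
  obtain ⟨i, hi, hi'⟩ := ha
  obtain ⟨l, hl, hl'⟩ := hb
  rcases lt_trichotomy i l with h | h | h
  · refine ⟨i, fun j hj => ?_, ?_⟩
    · rw [Pi.add_apply, hi j hj, hl j (hj.trans h), add_zero]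
    · rw [Pi.add_apply, hl i h, add_zero]
      exact hi'
  · subst h
    refine ⟨i, fun j hj => ?_, ?_⟩
    · rw [Pi.add_apply, hi j hj, hl j hj, add_zero]
    · rw [Pi.add_apply]
      exact add_pos hi' hl'
  · refine ⟨l, fun j hj => ?_, ?_⟩
    · rw [Pi.add_apply, hl j hj, hi j (hj.trans h), add_zero]
    · rw [Pi.add_apply, hi l h, zero_add]
      exact hl'

private theorem lexp_tri (a : Fin n → ℤ) : a = 0 ∨ lexp a ∨ lexp (-a) := by
  classical
  by_cases h0 : a = 0
  · exact Or.inl h0
  right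
  have h1 : (Finset.univ.filter fun i => a i ≠ 0).Nonempty := by
    obtain ⟨i, hi⟩ := Function.ne_iff.1 h0
    exact ⟨i, Finset.mem_filter.2 ⟨Finset.mem_univ i, hi⟩⟩
  obtain ⟨i, hi⟩ : ∃ i, i = (Finset.univ.filter fun i => a i ≠ 0).min' h1 := ⟨_, rfl⟩
  have h2 : a i ≠ 0 := by
    have := Finset.min'_mem _ h1
    rw [← hi] at this
    exact (Finset.mem_filter.1 this).2
  have h3 : ∀ j, j < i → a j = 0 := by
    intro j hj
    by_contra hne
    have := Finset.min'_le (Finset.univ.filter fun i => a i ≠ 0) j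
      (Finset.mem_filter.2 ⟨Finset.mem_univ j, hne⟩)
    rw [← hi] at this
    exact absurd hj (not_lt.2 this)
  rcases lt_or_gt_of_ne h2 with h4 | h4
  · right
    refine ⟨i, fun j hj => ?_, ?_⟩
    · rw [Pi.neg_apply, h3 j hj, neg_zero]
    · rw [Pi.neg_apply]
      exact neg_pos.2 h4
  · left
    exact ⟨i, h3, h4⟩

/-- The order given by `W`, refined lexicographically. -/
theorem exists_posOrd (hx : ∀ i, x i ≠ 0) (hxW : ∀ i, x i ∈ W) :
    ∃ pos : (Fin n → ℤ) → Prop, PosOrd pos ∧
      ∀ e, pos e → W.valuation (mon x e) ≤ 1 := by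
  classical
  refine ⟨fun e => W.valuation (mon x e) < 1 ∨ (W.valuation (mon x e) = 1 ∧ lexp e), ?_, ?_⟩
  · refine ⟨?_, ?_, ?_, ?_⟩
    · rintro a b (ha | ⟨ha, ha'⟩) (hb | ⟨hb, hb'⟩)
      · left
        rw [ord_mon_add hx, map_mul]
        exact mul_lt_one_of_nonneg_of_lt_one_right ha.le zero_le hb
      · left
        rw [ord_mon_add hx, map_mul, hb, mul_one]
        exact ha
      · left
        rw [ord_mon_add hx, map_mul, ha, one_mul]
        exact hb
      · right
        rw [ord_mon_add hx, map_mul, ha, hb, one_mul]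
        exact ⟨rfl, lexp_add ha' hb'⟩
    · intro a
      have h1 : mon x (-a) = (mon x a)⁻¹ := by
        rw [mon, mon, ← Finset.prod_inv_distrib]
        exact Finset.prod_congr rfl fun i _ => zpow_neg _ _
      rcases lt_trichotomy (W.valuation (mon x a)) 1 with h2 | h2 | h2
      · exact Or.inr (Or.inl (Or.inl h2))
      · rcases lexp_tri a with h3 | h3 | h3
        · exact Or.inl h3
        · exact Or.inr (Or.inl (Or.inr ⟨h2, h3⟩))
        · refine Or.inr (Or.inr (Or.inr ⟨?_, h3⟩))
          rw [h1, map_inv₀, h2, inv_one]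
      · refine Or.inr (Or.inr (Or.inl ?_))
        rw [h1, map_inv₀]
        exact inv_lt_one_of_one_lt₀ h2
    · rintro (h | ⟨-, i, -, hi⟩)
      · rw [ord_mon_zero, map_one] at h
        exact lt_irrefl _ h
      · exact lt_irrefl _ hi
    · intro i
      have h1 : mon x (Pi.single i 1) = x i := by
        rw [mon, Finset.prod_eq_single i]
        · rw [Pi.single_eq_same, zpow_one]
        · intro j _ hj
          rw [Pi.single_eq_of_ne hj, zpow_zero]
        · intro h
          exact absurd (Finset.mem_univ i) h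
      rw [h1]
      have h2 : W.valuation (x i) ≤ 1 := (W.valuation_le_one_iff _).2 (hxW i)
      rcases h2.lt_or_eq with h3 | h3
      · exact Or.inl h3
      · refine Or.inr ⟨h3, i, fun j hj => ?_, ?_⟩
        · rw [Pi.single_eq_of_ne hj.ne]
        · rw [Pi.single_eq_same]
          exact one_pos
  · rintro e (h | ⟨h, -⟩)
    · exact h.le
    · exact h.le

end Pool.Agent.MP_b525bf_ag_ES
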