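import Pool.Agent.Lib.MP_b525bf_ag_ES.DefsB

/-!
# Theorem ES, row PAG
The place `V ∩ M` of the field `M` of transcendence degree at most one.
-/

set_option autoImplicit false
set_option linter.unusedVariables false

namespace Pool.Agent.MP_b525bf_ag_ES

open Pool.Agent.LU2 Pool.Agent.MP_b525bf_ag Pool.Agent.MP_b525bf_ag_W Pool.Agent.MP_b525bf_ag_E

section Aux

variable {k K : Type} [Field k] [Field K] [Algebra k K] {M : IntermediateField k K}
  {V : ValuationSubring K}

private theorem pag_le (m : M) :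
    (V.comap (algebraMap M K)).valuation m ≤ 1 ↔ V.valuation (m : K) ≤ 1 := by
  rw [ValuationSubring.valuation_le_one_iff, ValuationSubring.valuation_le_one_iff]
  exact ValuationSubring.mem_comap

private theorem pag_mem (m : M) : m ∈ V.comap (algebraMap M K) ↔ (m : K) ∈ V :=
  ValuationSubring.mem_comap

private theorem pag_lt_iff (W : ValuationSubring K) {f : K} (hf : f ≠ 0) :
    W.valuation f < 1 ↔ ¬ W.valuation f⁻¹ ≤ 1 := by
  rw [map_inv₀, inv_le_one₀ (by rwa [Valuation.pos_iff]), not_le]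

private theorem pag_lt_iff' (O : ValuationSubring M) {f : M} (hf : f ≠ 0) :
    O.valuation f < 1 ↔ ¬ O.valuation f⁻¹ ≤ 1 := by
  rw [map_inv₀, inv_le_one₀ (by rwa [Valuation.pos_iff]), not_le]

private theorem pag_lt (m : M) :
    (V.comap (algebraMap M K)).valuation m < 1 ↔ V.valuation (m : K) < 1 := by
  by_cases hm : m = 0
  · simp [hm]
  · have hm' : (m : K) ≠ 0 := by simpa using hm
    rw [pag_lt_iff' _ hm, pag_lt_iff _ hm', pag_le]
    simp

private theorem pag_eq (m : M) :
    (V.comap (algebraMap M K)).valuation m = 1 ↔ V.valuation (m : K) = 1 := by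
  constructor
  · intro h
    refine le_antisymm ((pag_le m).1 h.le) ?_
    by_contra h2
    push Not at h2
    have := (pag_lt m).2 h2
    exact absurd h this.ne
  · intro h
    refine le_antisymm ((pag_le m).2 h.le) ?_
    by_contra h2
    push Not at h2
    have := (pag_lt m).1 h2
    exact absurd h this.ne

private theorem pag_gen (hM : M.FG) : ∃ S : Finset M, ∀ m : M,
    ∃ a ∈ Algebra.adjoin k (S : Set M), ∃ b ∈ Algebra.adjoin k (S : Set M), m = a / b := by
  classical
  obtain ⟨S0, hS0⟩ := hM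
  have hsub : ∀ s ∈ S0, s ∈ M := by
    intro s hs
    rw [← hS0]
    exact IntermediateField.subset_adjoin k _ hs
  obtain ⟨S, hS⟩ : ∃ S : Finset M, S = S0.attach.image (fun s => ⟨s.1, hsub s.1 s.2⟩) := ⟨_, rfl⟩
  have himg : M.val '' (S : Set M) = (S0 : Set K) := by
    ext y
    constructor
    · rintro ⟨x, hx, rfl⟩
      rw [hS] at hx
      simp only [Finset.coe_image, Set.mem_image, Finset.mem_coe, Finset.mem_attach, true_and,
        Subtype.exists] at hx
      obtain ⟨a, ha, rfl⟩ := hx
      exact ha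
    · intro hy
      refine ⟨⟨y, hsub y hy⟩, ?_, rfl⟩
      rw [hS]
      simp only [Finset.coe_image, Set.mem_image, Finset.mem_coe, Finset.mem_attach, true_and,
        Subtype.exists]
      exact ⟨y, hy, rfl⟩
  have hmap : (Algebra.adjoin k (S : Set M)).map M.val = Algebra.adjoin k (S0 : Set K) := by
    rw [AlgHom.map_adjoin, himg]
  refine ⟨S, fun m => ?_⟩
  have hm : (m : K) ∈ IntermediateField.adjoin k (S0 : Set K) := by rw [hS0]; exact m.2
  rw [IntermediateField.mem_adjoin_iff_div] at hm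
  obtain ⟨r, hr, s, hs, hrs⟩ := hm
  rw [← hmap] at hr hs
  obtain ⟨a, ha, rfl⟩ := hr
  obtain ⟨b, hb, rfl⟩ := hs
  refine ⟨a, ha, b, hb, ?_⟩
  apply Subtype.ext
  simpa using hrs

/-- finitely generated algebra inside a valuation ring with all quotients -/
private theorem pag_frac (O : ValuationSubring M) (hk : ∀ c : k, algebraMap k M c ∈ O) (hM : M.FG) :
    ∃ A : Subalgebra k M, A.FG ∧ (∀ a ∈ A, a ∈ O) ∧ IsFrac A := by
  classical
  obtain ⟨S, hS⟩ := pag_gen hM
  obtain ⟨T, hT⟩ : ∃ T : Finset M, T = S.image (fun s => if s ∈ O then s else s⁻¹) := ⟨_, rfl⟩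
  have hTO : ∀ t ∈ T, t ∈ O := by
    intro t ht
    rw [hT, Finset.mem_image] at ht
    obtain ⟨s, hs, rfl⟩ := ht
    split_ifs with h
    · exact h
    · exact (O.mem_or_inv_mem s).resolve_left h
  have hTtop : ∀ m : M, m ∈ IntermediateField.adjoin k (T : Set M) := by
    have hs : ∀ s ∈ S, s ∈ IntermediateField.adjoin k (T : Set M) := by
      intro s hs
      by_cases h : s ∈ O
      · apply IntermediateField.subset_adjoin
        rw [hT, Finset.coe_image]
        exact ⟨s, hs, by simp [h]⟩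
      · have h1 : s⁻¹ ∈ IntermediateField.adjoin k (T : Set M) := by
          apply IntermediateField.subset_adjoin
          rw [hT, Finset.coe_image]
          exact ⟨s, hs, by simp [h]⟩
        have := IntermediateField.inv_mem _ h1
        rwa [inv_inv] at this
    have hle : Algebra.adjoin k (S : Set M) ≤ (IntermediateField.adjoin k (T : Set M)).toSubalgebra :=
      Algebra.adjoin_le hs
    intro m
    obtain ⟨a, ha, b, hb, rfl⟩ := hS m
    exact IntermediateField.div_mem _ (hle ha) (hle hb)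
  refine ⟨Algebra.adjoin k (T : Set M), ⟨T, rfl⟩, ?_, ?_⟩
  · intro a ha
    induction ha using Algebra.adjoin_induction with
    | mem x hx => exact hTO x hx
    | algebraMap c => exact hk c
    | add x y _ _ hx hy => exact O.add_mem _ _ hx hy
    | mul x y _ _ hx hy => exact O.mul_mem _ _ hx hy
  · intro f
    have := hTtop f
    rw [IntermediateField.mem_adjoin_iff_div] at this
    obtain ⟨r, hr, s, hs, hrs⟩ := this
    by_cases h0 : s = 0
    · refine ⟨0, Subalgebra.zero_mem _, 1, Subalgebra.one_mem _, one_ne_zero, ?_⟩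
      rw [hrs, h0]; simp
    · exact ⟨r, hr, s, hs, h0, hrs⟩

end Aux

private theorem pag_poly {k L : Type} [Field k] [Field L] [Algebra k L] (O : ValuationSubring L)
    {B : Subalgebra k L} {b : L} (hb : b ∈ B) (hb1 : O.valuation b = 1) :
    ∀ (n : ℕ) (P : Polynomial k), P.natDegree ≤ n → P ≠ 0 →
      O.valuation (Polynomial.aeval b P) < 1 →
      ∃ p ∈ B, ∃ c : k, c ≠ 0 ∧ O.valuation (b * p + algebraMap k L c) < 1 := by
  intro n
  have key : ∀ P : Polynomial k, P ≠ 0 → O.valuation (Polynomial.aeval b P) < 1 →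
      P.coeff 0 ≠ 0 → ∃ p ∈ B, ∃ c : k, c ≠ 0 ∧ O.valuation (b * p + algebraMap k L c) < 1 := by
    intro P hP hv h0
    refine ⟨Polynomial.aeval b P.divX, ?_, P.coeff 0, h0, ?_⟩
    · have h1 : Polynomial.aeval b P.divX =
          ((Polynomial.aeval (⟨b, hb⟩ : B) P.divX : B) : L) := by
        have := Polynomial.aeval_algebraMap_apply L (⟨b, hb⟩ : B) P.divX
        exact this
      rw [h1]
      exact (Polynomial.aeval (⟨b, hb⟩ : B) P.divX : B).2
    · have h2 : Polynomial.aeval b P = b * Polynomial.aeval b P.divX +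
          algebraMap k L (P.coeff 0) := by
        conv_lhs => rw [← Polynomial.X_mul_divX_add P]
        rw [map_add, map_mul, Polynomial.aeval_X, Polynomial.aeval_C]
      rwa [h2] at hv
  induction n with
  | zero =>
    intro P hn hP hv
    refine key P hP hv fun h0 => hP ?_
    rw [Polynomial.eq_C_of_natDegree_le_zero hn, h0, map_zero]
  | succ n ih =>
    intro P hn hP hv
    by_cases h0 : P.coeff 0 = 0
    · have h2 : Polynomial.aeval b P = b * Polynomial.aeval b P.divX := by
        conv_lhs => rw [← Polynomial.X_mul_divX_add P]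
        rw [map_add, map_mul, Polynomial.aeval_X, Polynomial.aeval_C, h0, map_zero, add_zero]
      have h3 : P.divX ≠ 0 := by
        intro h3
        apply hP
        rw [← Polynomial.X_mul_divX_add P, h3, h0, mul_zero, map_zero, add_zero]
      refine ih P.divX ?_ h3 ?_
      · rw [Polynomial.natDegree_divX_eq_natDegree_tsub_one]
        omega
      · rw [h2, map_mul, hb1, one_mul] at hv
        exact hv
    · exact key P hP hv h0

private theorem pag_alg {k L : Type} [Field k] [Field L] [Algebra k L] (O : ValuationSubring L)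
    (hk : ∀ c : k, algebraMap k L c ∈ O) {B : Subalgebra k L} (hB : ∀ b ∈ B, b ∈ O) {n : ℕ}
    (hn : 1 ≤ n) {z : Fin n → L} (hz : IsPar O (locV O B) z) (htr : Algebra.trdeg k L ≤ 1)
    {b : L} (hb : b ∈ B) (hb1 : O.valuation b = 1) :
    ∃ p ∈ B, ∃ c : k, c ≠ 0 ∧ O.valuation (b * p + algebraMap k L c) < 1 := by
  by_contra hcon
  have h1 := par_add_le_trdeg hB hz (d := 1) (fun _ => b) (fun _ => le_locV _ hb) (by
    intro P hP
    by_contra hP0
    apply hcon
    let Q : Polynomial k := MvPolynomial.aeval (fun _ : Fin 1 => (Polynomial.X : Polynomial k)) P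
    have hQ : MvPolynomial.aeval (fun _ : Fin 1 => b) P = Polynomial.aeval b Q := by
      have h2 : (MvPolynomial.aeval (fun _ : Fin 1 => b) : MvPolynomial (Fin 1) k →ₐ[k] L) =
          (Polynomial.aeval b).comp
            (MvPolynomial.aeval (fun _ : Fin 1 => (Polynomial.X : Polynomial k))) := by
        refine MvPolynomial.algHom_ext fun i => ?_
        simp
      rw [h2]
      rfl
    have hQ0 : Q ≠ 0 := by
      intro h0
      apply hP0
      have h2 : (Polynomial.aeval (MvPolynomial.X 0 : MvPolynomial (Fin 1) k)).comp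
          (MvPolynomial.aeval (fun _ : Fin 1 => (Polynomial.X : Polynomial k))) =
          AlgHom.id k (MvPolynomial (Fin 1) k) := by
        refine MvPolynomial.algHom_ext fun i => ?_
        rw [AlgHom.comp_apply, MvPolynomial.aeval_X, Polynomial.aeval_X, AlgHom.id_apply,
          Subsingleton.elim i 0]
      have h3 := AlgHom.congr_fun h2 P
      rw [AlgHom.comp_apply, AlgHom.id_apply] at h3
      rw [← h3]
      change Polynomial.aeval _ Q = 0
      rw [h0, map_zero]
    rw [hQ] at hP
    exact pag_poly O hb hb1 Q.natDegree Q le_rfl hQ0 hP)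
  have h2 := h1.trans htr
  have h3 : n + 1 ≤ 1 := by exact_mod_cast h2
  omega


section Curve

variable {k L : Type} [Field k] [Field L] [Algebra k L]

private theorem pag_const {O : ValuationSubring L} (hk : ∀ c : k, algebraMap k L c ∈ O) {c : k}
    (hc : c ≠ 0) : O.valuation (algebraMap k L c) = 1 := by
  refine le_antisymm ((O.valuation_le_one_iff _).2 (hk c)) ?_
  have h1 : O.valuation (algebraMap k L c⁻¹) ≤ 1 := (O.valuation_le_one_iff _).2 (hk _)
  rw [map_inv₀, map_inv₀] at h1
  have h0 : algebraMap k L c ≠ 0 := by simpa using hc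
  rwa [inv_le_one₀ (by rwa [Valuation.pos_iff])] at h1

/-- value less than one for sums -/
private theorem pag_add_lt {W : ValuationSubring L} {a b : L} (ha : W.valuation a < 1)
    (hb : W.valuation b < 1) : W.valuation (a + b) < 1 :=
  lt_of_le_of_lt (W.valuation.map_add a b) (max_lt ha hb)

private theorem pag_mul_lt {W : ValuationSubring L} {a b : L} (ha : W.valuation a ≤ 1)
    (hb : W.valuation b < 1) : W.valuation (a * b) < 1 := by
  rw [map_mul, mul_comm]
  exact mul_lt_of_lt_of_le_one hb ha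

/-- every element of L is a power of the parameter times a unit -/
private theorem pag_unif {O : ValuationSubring L} {B : Subalgebra k L} {z : Fin 1 → L}
    (h : Loc O B z) {f : L} (hf : f ∈ locV O B) (hf0 : f ≠ 0) :
    ∃ (e : ℕ) (u : L), u ∈ locV O B ∧ O.valuation u = 1 ∧ f = z 0 ^ e * u := by
  classical
  obtain ⟨S, c, hR⟩ := h.exists_rep hf hf0
  obtain ⟨α, hα, hmin⟩ := S.exists_min_image (fun α => α 0) hR.ne
  have hmon : ∀ β : Fin 1 → ℕ, mon z (zx β) = z 0 ^ (β 0) := by
    intro β
    simp [mon, zx]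
  have hz0 : z 0 ∈ locV O B := by
    have hsm := h.sm
    obtain ⟨hmem, _⟩ := hsm
    exact le_locV B (hmem 0)
  have hsum : f = z 0 ^ (α 0) * (c α + ∑ β ∈ S.erase α, c β * z 0 ^ (β 0 - α 0)) := by
    rw [hR.sum, ← Finset.add_sum_erase S _ hα, mul_add, Finset.mul_sum]
    congr 1
    · rw [hmon]; ring
    · refine Finset.sum_congr rfl fun β hβ => ?_
      rw [hmon]
      have h1 : α 0 ≤ β 0 := hmin β (Finset.mem_of_mem_erase hβ)
      have h2 : z 0 ^ (β 0) = z 0 ^ (α 0) * z 0 ^ (β 0 - α 0) := by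
        rw [← pow_add]; congr 1; omega
      rw [h2]; ring
  have hlt : O.valuation (∑ β ∈ S.erase α, c β * z 0 ^ (β 0 - α 0)) < 1 := by
    apply O.valuation.map_sum_lt one_ne_zero
    intro β hβ
    have h1 : α 0 ≤ β 0 := hmin β (Finset.mem_of_mem_erase hβ)
    have h2 : α 0 ≠ β 0 := by
      intro h3
      apply Finset.ne_of_mem_erase hβ
      funext i
      have : i = 0 := Subsingleton.elim _ _
      rw [this, h3]
    apply pag_mul_lt
    · rw [O.valuation_le_one_iff]
      exact locV_mem h.mem _ (hR.mem β (Finset.mem_of_mem_erase hβ))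
    · obtain ⟨j, hj⟩ : ∃ j, β 0 - α 0 = j + 1 := ⟨β 0 - α 0 - 1, by omega⟩
      rw [hj, pow_succ]
      apply pag_mul_lt
      · rw [map_pow]
        exact pow_le_one' (h.pos 0).le _
      · exact h.pos 0
  have hc1 : O.valuation (c α) = 1 := by
    refine le_antisymm ((O.valuation_le_one_iff _).2 (locV_mem h.mem _ (hR.mem α hα))) ?_
    have h3 := (O.valuation_le_one_iff _).2 (locV_mem h.mem _ (hR.inv α hα))
    rw [map_inv₀] at h3
    rwa [inv_le_one₀ (by rw [Valuation.pos_iff]; exact hR.ne0 α hα)] at h3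
  refine ⟨α 0, c α + ∑ β ∈ S.erase α, c β * z 0 ^ (β 0 - α 0), ?_, ?_, hsum⟩
  · refine Subalgebra.add_mem _ (hR.mem α hα) (Subalgebra.sum_mem _ fun β hβ => ?_)
    exact Subalgebra.mul_mem _ (hR.mem β (Finset.mem_of_mem_erase hβ)) (Subalgebra.pow_mem _ hz0 _)
  · rw [Valuation.map_add_eq_of_lt_left]
    · exact hc1
    · rw [hc1]; exact hlt

end Curve

variable {k K : Type} [Field k] [Field K] [Algebra k K] {G : Subgroup (K ≃ₐ[k] K)}
  {A : Subalgebra k K} {M : IntermediateField k K} {L : Set K}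

variable {V W : ValuationSubring K} {B : Subalgebra k K} {n : ℕ} {x : Fin n → K}

theorem exists_page_zero (hM : M.FG) : ∃ E : Finset K, (∀ e ∈ E, e ∈ M ∧ e ≠ 0) ∧ ∀ m ∈ M,
    ∃ a ∈ Algebra.adjoin k (E : Set K), ∃ b ∈ Algebra.adjoin k (E : Set K), b ≠ 0 ∧
      m = a / b := by
  classical
  obtain ⟨S0, hS0⟩ := hM
  have hsub : ∀ s ∈ S0, s ∈ M := by
    intro s hs
    rw [← hS0]
    exact IntermediateField.subset_adjoin k _ hs
  refine ⟨S0.filter (· ≠ 0), fun e he => ?_, fun m hm => ?_⟩
  · rw [Finset.mem_filter] at he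
    exact ⟨hsub e he.1, he.2⟩
  · have hle : Algebra.adjoin k (S0 : Set K) ≤ Algebra.adjoin k ((S0.filter (· ≠ 0) : Finset K) : Set K) := by
      apply Algebra.adjoin_le
      intro s hs
      by_cases h0 : s = 0
      · rw [h0]; exact Subalgebra.zero_mem _
      · apply Algebra.subset_adjoin
        simp [h0]
        exact hs
    rw [← hS0, IntermediateField.mem_adjoin_iff_div] at hm
    obtain ⟨r, hr, s, hs, hrs⟩ := hm
    by_cases h0 : s = 0
    · refine ⟨0, Subalgebra.zero_mem _, 1, Subalgebra.one_mem _, one_ne_zero, ?_⟩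
      rw [hrs, h0]; simp
    · exact ⟨r, hle hr, s, hle hs, h0, hrs⟩

theorem exists_page [PerfectField k] (hreal : RealCase k)
    (hfin : Algebra.trdeg k K < Cardinal.aleph0) (hM : M.FG) (htr : Algebra.trdeg k M ≤ 1)
    (hk : ∀ c : k, algebraMap k K c ∈ V) (hV : ∃ m ∈ M, m ∉ V) :
    ∃ E E' : Finset K, PageAt M V E E' := by
  classical
  obtain ⟨m1, hm1, hm1V⟩ := hV
  obtain ⟨O, hO⟩ : ∃ O : ValuationSubring M, O = V.comap (algebraMap M K) := ⟨_, rfl⟩
  have hkO : ∀ c : k, algebraMap k M c ∈ O := by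
    intro c; rw [hO, pag_mem]; exact hk c
  -- an element of positive value
  obtain ⟨m0, hm00, hm0⟩ : ∃ m0 : M, m0 ≠ 0 ∧ O.valuation m0 < 1 := by
    have h1 : m1 ≠ 0 := by rintro rfl; exact hm1V V.zero_mem
    refine ⟨⟨m1, hm1⟩⁻¹, ?_, ?_⟩
    · intro h
      have h' : (⟨m1, hm1⟩ : M) = 0 := by simpa using h
      exact h1 (congrArg Subtype.val h')
    · rw [hO, pag_lt, pag_lt_iff V (by simpa using h1)]
      rw [ValuationSubring.valuation_le_one_iff]
      simpa using hm1V
  have hdef : DefLE k O 0 := by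
    refine ⟨1, 0, by simpa using htr, ⟨fun _ => m0, fun _ => hm00, ?_⟩, Fin.elim0, ?_, ?_⟩
    · intro e he
      have h1 : (e.prod fun i n => m0 ^ n) = m0 ^ (e 0) := by
        rw [Finsupp.prod_fintype _ _ (fun i => zpow_zero _)]
        simp
      rw [h1, map_zpow₀] at he
      have h2 : e 0 = 0 := by
        by_contra hne
        have hv0 : 0 < O.valuation m0 := by rwa [Valuation.pos_iff]
        rcases lt_or_gt_of_ne hne with h | h
        · have := one_lt_zpow_of_neg₀ hv0 hm0 h
          rw [he] at this; exact lt_irrefl _ this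
        · have := zpow_lt_one₀ hv0 hm0 h
          rw [he] at this; exact lt_irrefl _ this
      apply Finsupp.ext
      intro i
      rw [Subsingleton.elim i 0, h2]; rfl
    · intro i; exact i.elim0
    · intro P hP
      rw [MvPolynomial.eq_C_of_isEmpty P] at hP ⊢
      rw [MvPolynomial.aeval_C] at hP
      by_contra h
      have h2 : P.coeff 0 ≠ 0 := by
        intro h3; rw [h3] at h; simp at h
      rw [pag_const hkO h2] at hP
      exact lt_irrefl _ hP
  have hfinM : Algebra.trdeg k M < Cardinal.aleph0 :=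
    lt_of_le_of_lt htr Cardinal.one_lt_aleph0
  have hLU : LU k O := lu_of_defLE hreal hfinM hkO hdef
  obtain ⟨A', hA'fg, hA'O, hA'frac⟩ := pag_frac O hkO hM
  obtain ⟨B, hBfg, hAB, hBO, n, z, hz, hInd⟩ :=
    Pool.Agent.MP_b525bf_ag_E.exists_isPar hLU hdef hA'fg hA'O hA'frac
  obtain ⟨B', hBB', hloc, hL⟩ := exists_loc hBfg hBO hz
  have hfrac' : IsFrac B' := by
    intro f
    obtain ⟨a, ha, b, hb, hb0, hf⟩ := hA'frac f
    exact ⟨a, hBB' (hAB ha), b, hBB' (hAB hb), hb0, hf⟩
  -- n = 1
  have hn1 : n ≤ 1 := by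
    have h1 := par_add_le_trdeg hBO hz (d := 0) Fin.elim0 (fun j => j.elim0) (by
      intro P hP
      rw [MvPolynomial.eq_C_of_isEmpty P] at hP ⊢
      rw [MvPolynomial.aeval_C] at hP
      by_contra h
      have h2 : P.coeff 0 ≠ 0 := by
        intro h3; rw [h3] at h; simp at h
      rw [pag_const hkO h2] at hP
      exact lt_irrefl _ hP)
    have h2 := h1.trans htr
    rw [add_zero] at h2
    exact_mod_cast h2
  have hn0 : n ≠ 0 := by
    rintro rfl
    obtain ⟨a, ha, b, hb, hb0, hf⟩ := hA'frac m0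
    have hva : O.valuation a < 1 := by
      have : a = b * m0 := by rw [hf]; field_simp
      rw [this]
      exact pag_mul_lt ((O.valuation_le_one_iff _).2 (hA'O b hb)) hm0
    obtain ⟨c, _, hc⟩ := hz.gen a (le_locV B (hAB ha)) hva
    rw [Finset.univ_eq_empty, Finset.sum_empty] at hc
    apply hm00
    rw [hf, hc, zero_div]
  obtain rfl : n = 1 := by omega
  have hz0 : z 0 ∈ locV O B' := by
    obtain ⟨hmem, _⟩ := hL.sm
    exact le_locV B' (hmem 0)
  -- normal form
  have hnf : ∀ f : M, f ≠ 0 → ∃ (e : ℤ) (u : M), u ∈ locV O B' ∧ O.valuation u = 1 ∧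
      f = z 0 ^ e * u := by
    intro f hf
    obtain ⟨a, ha, b, hb, hb0, rfl⟩ := hfrac' f
    have ha0 : a ≠ 0 := by rintro rfl; simp at hf
    obtain ⟨e1, u1, hu1, hv1, h1⟩ := pag_unif hL (le_locV B' ha) ha0
    obtain ⟨e2, u2, hu2, hv2, h2⟩ := pag_unif hL (le_locV B' hb) hb0
    refine ⟨(e1 : ℤ) - e2, u1 * u2⁻¹, Subalgebra.mul_mem _ hu1 (locV_inv hu2 hv2), ?_, ?_⟩
    · rw [map_mul, map_inv₀, hv1, hv2, inv_one, one_mul]
    · rw [zpow_sub₀ (hL.ne 0), zpow_natCast, zpow_natCast, h1, h2]
      have hz00 := hL.ne 0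
      have hu20 : u2 ≠ 0 := by rintro rfl; simp at hv2
      field_simp
  have hOR : ∀ f : M, f ∈ O → f ∈ locV O B' := by
    intro f hf
    by_cases hf0 : f = 0
    · rw [hf0]; exact Subalgebra.zero_mem _
    obtain ⟨e, u, hu, hv, h1⟩ := hnf f hf0
    have he : 0 ≤ e := by
      by_contra hneg
      push Not at hneg
      have h2 : O.valuation f ≤ 1 := (O.valuation_le_one_iff _).2 hf
      rw [h1, map_mul, hv, mul_one, map_zpow₀] at h2
      have hv0 : 0 < O.valuation (z 0) := by rw [Valuation.pos_iff]; exact hL.ne 0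
      exact absurd (one_lt_zpow_of_neg₀ hv0 (hL.pos 0) hneg) (not_lt.2 h2)
    obtain ⟨j, rfl⟩ := Int.eq_ofNat_of_zero_le he
    rw [h1]
    simp only [zpow_natCast]
    exact Subalgebra.mul_mem _ (Subalgebra.pow_mem _ hz0 _) hu
  -- generators
  obtain ⟨s, hs⟩ := hL.fg
  have hBnoeth : IsNoetherianRing B' := by
    have h1 : Algebra.FiniteType k B' := (Subalgebra.fg_iff_finiteType B').1 hL.fg
    exact Algebra.FiniteType.isNoetherianRing k B'
  obtain ⟨P, hP⟩ : ∃ P : Ideal B', ∀ b : B', b ∈ P ↔ O.valuation (b : M) < 1 := by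
    refine ⟨{ carrier := {b | O.valuation (b : M) < 1}, add_mem' := ?_, zero_mem' := ?_, smul_mem' := ?_ },
      fun b => Iff.rfl⟩
    · intro a b ha hb
      exact pag_add_lt ha hb
    · simp
    · intro c a ha
      exact pag_mul_lt ((O.valuation_le_one_iff _).2 (hL.mem c c.2)) ha
  obtain ⟨T, hT⟩ : P.FG := (isNoetherianRing_iff_ideal_fg B').1 hBnoeth P
  have hmapadj : Algebra.adjoin k ((s.image (algebraMap M K) : Finset K) : Set K) = B'.map M.val := by
    rw [← hs, AlgHom.map_adjoin, Finset.coe_image]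
    rfl
  have hBadj : ∀ b ∈ B', (b : K) ∈ Algebra.adjoin k ((s.image (algebraMap M K) : Finset K) : Set K) := by
    intro b hb
    rw [hmapadj]
    exact ⟨b, hb, rfl⟩
  have hess : ∀ m ∈ M, m ∈ V → ∃ a ∈ B', ∃ b ∈ B', O.valuation b = 1 ∧ m = ((a / b : M) : K) := by
    intro m hm hmV
    have h1 : (⟨m, hm⟩ : M) ∈ O := by rw [hO, pag_mem]; exact hmV
    obtain ⟨a, ha, b, hb, hvb, h2⟩ := hOR _ h1
    exact ⟨a, ha, b, hb, hvb, congrArg Subtype.val h2⟩
  refine ⟨s.image (algebraMap M K), T.image (fun b : B' => ((b : M) : K)), ⟨?_, ?_, ?_, ?_, ?_⟩⟩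
  · intro e he
    rw [Finset.mem_image] at he
    obtain ⟨a, ha, rfl⟩ := he
    have haB : a ∈ B' := by rw [← hs]; exact Algebra.subset_adjoin ha
    have := hL.mem a haB
    rw [hO, pag_mem] at this
    exact ⟨a.2, this⟩
  · intro e he
    rw [Finset.mem_image] at he
    obtain ⟨a, ha, rfl⟩ := he
    have haP : a ∈ P := by rw [← hT]; exact Ideal.subset_span ha
    rw [hP, hO, pag_lt] at haP
    exact ⟨(a : M).2, haP⟩
  · intro m hm hmV
    obtain ⟨a, ha, b, hb, hvb, h⟩ := hess m hm hmV
    refine ⟨a, hBadj a ha, b, hBadj b hb, ?_, ?_⟩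
    · rw [hO, pag_eq] at hvb; exact hvb
    · rw [h]; simp
  · intro W hkW hEW hE'W m hm hmV
    have hadjW : ∀ y ∈ Algebra.adjoin k ((s.image (algebraMap M K) : Finset K) : Set K),
        y ∈ W := by
      intro y hy
      induction hy using Algebra.adjoin_induction with
      | mem x hx => exact hEW x hx
      | algebraMap c => exact hkW c
      | add x y _ _ hx hy => exact W.add_mem _ _ hx hy
      | mul x y _ _ hx hy => exact W.mul_mem _ _ hx hy
    have hBW : ∀ b ∈ B', (b : K) ∈ W := fun b hb => hadjW _ (hBadj b hb)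
    have hPW : ∀ b : B', b ∈ P → W.valuation ((b : M) : K) < 1 := by
      intro b hb
      rw [← hT] at hb
      refine Submodule.span_induction (p := fun (b : B') _ => W.valuation ((b : M) : K) < 1) ?_ ?_ ?_ ?_ hb
      · intro x hx
        exact hE'W _ (Finset.mem_image.2 ⟨x, hx, rfl⟩)
      · simp
      · intro x y _ _ hx hy
        have := pag_add_lt hx hy
        simpa using this
      · intro c x _ hx
        have := pag_mul_lt ((W.valuation_le_one_iff _).2 (hBW c c.2)) hx
        simpa using this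
    obtain ⟨a, ha, b, hb, hvb, h⟩ := hess m hm hmV
    have hWb : W.valuation (b : K) = 1 := by
      refine le_antisymm ((W.valuation_le_one_iff _).2 (hBW b hb)) ?_
      by_contra hlt
      push Not at hlt
      have hzB' : IsPar O (locV O B') z := by rw [hloc]; exact hz
      obtain ⟨p, hp, c, hc, hval⟩ := pag_alg O hkO hL.mem le_rfl hzB' htr hb hvb
      have hmem : b * p + algebraMap k M c ∈ B' :=
        Subalgebra.add_mem _ (Subalgebra.mul_mem _ hb hp) (Subalgebra.algebraMap_mem _ c)
      have h1 := hPW ⟨_, hmem⟩ ((hP _).2 hval)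
      have h2 : W.valuation ((p : K) * (b : K)) < 1 :=
        pag_mul_lt ((W.valuation_le_one_iff _).2 (hBW p hp)) hlt
      have h3 : W.valuation (algebraMap k K c) < 1 := by
        have e : algebraMap k K c = ((b * p + algebraMap k M c : M) : K) + (-((p : K) * (b : K))) := by
          push_cast
          ring
        rw [e]
        apply pag_add_lt h1
        rwa [Valuation.map_neg]
      rw [pag_const hkW hc] at h3
      exact lt_irrefl _ h3
    rw [h, ← W.valuation_le_one_iff]
    push_cast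
    rw [map_div₀, hWb, div_one, W.valuation_le_one_iff]
    exact hBW a ha
  · intro W hW hex
    obtain ⟨m, hm, hmW, hmV⟩ := hex
    have hOW : ∀ f : M, f ∈ O → (f : K) ∈ W := by
      intro f hf
      exact hW f f.2 (by rw [hO, pag_mem] at hf; exact hf)
    have hzO : z 0 ∈ O := locV_mem hL.mem _ hz0
    have hm0' : (⟨m, hm⟩ : M) ≠ 0 := by
      intro h
      have : m = 0 := congrArg Subtype.val h
      rw [this] at hmV
      exact hmV V.zero_mem
    obtain ⟨e, u, hu, hv, h1⟩ := hnf ⟨m, hm⟩ hm0'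
    have hneg : e < 0 := by
      by_contra hge
      push Not at hge
      obtain ⟨j, rfl⟩ := Int.eq_ofNat_of_zero_le hge
      apply hmV
      have h2 : (⟨m, hm⟩ : M) ∈ O := by
        rw [h1]
        simp only [zpow_natCast]
        exact O.mul_mem _ _ (O.pow_mem hzO j) (locV_mem hL.mem _ hu)
      rw [hO, pag_mem] at h2
      exact h2
    obtain ⟨j, hj⟩ : ∃ j : ℕ, e = -((j : ℤ) + 1) := ⟨(-e - 1).toNat, by omega⟩
    have hzinv : ((z 0)⁻¹ : M) = ⟨m, hm⟩ * z 0 ^ j * u⁻¹ := by
      have hu0 : u ≠ 0 := by rintro rfl; simp at hv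
      have hz00 := hL.ne 0
      rw [h1, hj, zpow_neg, ← Nat.cast_succ, zpow_natCast]
      field_simp
      rw [pow_succ, mul_comm]
    have hzW : (((z 0)⁻¹ : M) : K) ∈ W := by
      rw [hzinv]
      push_cast
      refine W.mul_mem _ _ (W.mul_mem _ _ hmW ?_) ?_
      · exact W.pow_mem (hOW _ hzO) j
      · have := hOW _ (locV_mem hL.mem _ (locV_inv hu hv))
        simpa using this
    intro f hf
    by_cases hf0 : f = 0
    · rw [hf0]; exact W.zero_mem
    have hf0' : (⟨f, hf⟩ : M) ≠ 0 := by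
      intro h; exact hf0 (congrArg Subtype.val h)
    obtain ⟨e', u', hu', hv', h1'⟩ := hnf ⟨f, hf⟩ hf0'
    have hfe : f = ((z 0 ^ e' * u' : M) : K) := congrArg Subtype.val h1'
    rw [hfe]
    push_cast
    refine W.mul_mem _ _ ?_ (hOW _ (locV_mem hL.mem _ hu'))
    rcases le_or_gt 0 e' with h | h
    · obtain ⟨i, rfl⟩ := Int.eq_ofNat_of_zero_le h
      simp only [zpow_natCast]
      exact W.pow_mem (hOW _ hzO) i
    · obtain ⟨i, hi⟩ : ∃ i : ℕ, e' = -(i : ℤ) := ⟨(-e').toNat, by omega⟩
      rw [hi, zpow_neg, zpow_natCast, ← inv_pow]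
      have := hzW
      push_cast at this
      exact W.pow_mem this i

end Pool.Agent.MP_b525bf_ag_ES
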