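import Pool.Agent.Lib.MP_b525bf_ag_ES.DefsB

/-!
# Theorem ES, row PCV
Compactness of the set of invariant valuation rings in the patch topology. Recipe: the proof of
`exists_cover` in E/CPT.lean (copy it), with the condition `W.valuation e < 1`, that is, `e = 0` or
`e⁻¹ ∉ W`: it passes to the limit along an ultrafilter, too.
-/

set_option autoImplicit false
set_option linter.unusedVariables false

namespace Pool.Agent.MP_b525bf_ag_ES

open Pool.Agent.LU2 Pool.Agent.MP_b525bf_ag Pool.Agent.MP_b525bf_ag_W Pool.Agent.MP_b525bf_ag_E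

variable {k K : Type} [Field k] [Field K] [Algebra k K] {G : Subgroup (K ≃ₐ[k] K)}
  {A : Subalgebra k K} {M : IntermediateField k K} {L : Set K}

variable {V W : ValuationSubring K} {B : Subalgebra k K} {n : ℕ} {x : Fin n → K}

/-- The limit of a family of valuation rings along an ultrafilter. -/
private def ulimR {X : Type} (v : X → ValuationSubring K) (U : Ultrafilter X) :
    ValuationSubring K where
  carrier := {z | ∀ᶠ W in (U : Filter X), z ∈ v W}
  mul_mem' := by
    intro a b ha hb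
    exact (Filter.Eventually.and ha hb).mono fun W h => mul_mem h.1 h.2
  one_mem' := Filter.Eventually.of_forall fun W => one_mem _
  add_mem' := by
    intro a b ha hb
    exact (Filter.Eventually.and ha hb).mono fun W h => add_mem h.1 h.2
  zero_mem' := Filter.Eventually.of_forall fun W => zero_mem _
  neg_mem' := by
    intro a ha
    exact Filter.Eventually.mono ha fun W h => neg_mem h
  mem_or_inv_mem' := by
    intro z
    have h : ∀ᶠ W in (U : Filter X), z ∈ v W ∨ z⁻¹ ∈ v W :=
      Filter.Eventually.of_forall fun W => (v W).mem_or_inv_mem z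
    exact Ultrafilter.eventually_or.1 h

private theorem mem_ulimR {X : Type} (v : X → ValuationSubring K) (U : Ultrafilter X) (z : K) :
    z ∈ ulimR v U ↔ ∀ᶠ W in (U : Filter X), z ∈ v W := Iff.rfl

private theorem lt_one_iffR (W : ValuationSubring K) (e : K) :
    W.valuation e < 1 ↔ (e = 0 ∨ e⁻¹ ∉ W) := by
  by_cases he : e = 0
  · subst he
    simp
  · have h0 : 0 < W.valuation e := zero_lt_iff.2 ((Valuation.ne_zero_iff _).2 he)
    rw [← W.valuation_le_one_iff, map_inv₀, inv_le_one₀ h0, not_le]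
    simp [he]

private theorem lt_ulimR {X : Type} (v : X → ValuationSubring K) (U : Ultrafilter X) (e : K) :
    (ulimR v U).valuation e < 1 ↔ ∀ᶠ W in (U : Filter X), (v W).valuation e < 1 := by
  rw [lt_one_iffR, mem_ulimR, ← Ultrafilter.eventually_not]
  by_cases he : e = 0
  · subst he
    simp
  · simp only [lt_one_iffR, he, false_or]

theorem exists_cover_rel (T T' : Set K) (E E' : ValuationSubring K → Finset K)
    (hE : ∀ V : ValuationSubring K, Inv G A V → (∀ t ∈ T, t ∈ V) →
      (∀ t ∈ T', V.valuation t < 1) → (∀ e ∈ E V, e ∈ V) ∧ ∀ e ∈ E' V, V.valuation e < 1) :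
    ∃ (m : ℕ) (V : Fin m → ValuationSubring K),
      (∀ i, Inv G A (V i) ∧ (∀ t ∈ T, t ∈ V i) ∧ ∀ t ∈ T', (V i).valuation t < 1) ∧
      ∀ W : ValuationSubring K, Inv G A W → (∀ t ∈ T, t ∈ W) → (∀ t ∈ T', W.valuation t < 1) →
        ∃ i, (∀ e ∈ E (V i), e ∈ W) ∧ ∀ e ∈ E' (V i), W.valuation e < 1 := by
  classical
  by_contra hcon
  push Not at hcon
  let X := {W : ValuationSubring K // Inv G A W ∧ (∀ t ∈ T, t ∈ W) ∧ ∀ t ∈ T', W.valuation t < 1}
  let S : X → Set X := fun V => {W | (∀ e ∈ E V.1, e ∈ W.1) ∧ ∀ e ∈ E' V.1, W.1.valuation e < 1}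
  have hfin : ∀ F : Finset X, ∃ W : X, ∀ V ∈ F, W ∉ S V := by
    intro F
    obtain ⟨W, hW, hWT, hWT', h⟩ := hcon F.card (fun i => (F.equivFin.symm i).1.1)
      (fun i => (F.equivFin.symm i).1.2)
    refine ⟨⟨W, hW, hWT, hWT'⟩, fun V hV hS => ?_⟩
    have h' := h (F.equivFin ⟨V, hV⟩)
    simp only [Equiv.symm_apply_apply] at h'
    obtain ⟨e, he, heW⟩ := h' hS.1
    exact absurd (hS.2 e he) (not_lt.2 heW)
  have hne : (Filter.generate (Set.range fun V : X => (S V)ᶜ)).NeBot := by
    rw [Filter.generate_neBot_iff]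
    intro t ht htf
    have h1 : ∀ a : Set X, a ∈ t → ∃ V : X, (S V)ᶜ = a := fun a ha => ht ha
    choose g hg using h1
    let g' : htf.toFinset → X := fun a => g a.1 (htf.mem_toFinset.1 a.2)
    obtain ⟨W, hW⟩ := hfin (Finset.univ.image g')
    refine ⟨W, ?_⟩
    intro a ha
    rw [← hg a ha]
    refine hW _ ?_
    rw [Finset.mem_image]
    exact ⟨⟨a, htf.mem_toFinset.2 ha⟩, Finset.mem_univ _, rfl⟩
  let U : Ultrafilter X := @Ultrafilter.of X _ hne
  have hU : ∀ V : X, (S V)ᶜ ∈ (U : Filter X) := by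
    intro V
    exact Ultrafilter.of_le _ (Filter.mem_generate_of_mem ⟨V, rfl⟩)
  have hdiv : ∀ g ∈ G, ∀ z : K, z ≠ 0 → ∀ W : X, g z / z ∈ W.1 := by
    intro g hg z hz W
    rw [← W.1.valuation_le_one_iff, map_div₀, W.2.1.inv g hg z]
    exact (div_self ((W.1.valuation.ne_zero_iff).2 hz)).le
  have hdiv' : ∀ g ∈ G, ∀ z : K, z ≠ 0 →
      (ulimR (fun W : X => W.1) U).valuation (g z) ≤ (ulimR (fun W : X => W.1) U).valuation z := by
    intro g hg z hz
    have h : g z / z ∈ ulimR (fun W : X => W.1) U :=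
      (mem_ulimR _ _ _).2 (Filter.Eventually.of_forall fun W => hdiv g hg z hz W)
    rw [← ValuationSubring.valuation_le_one_iff, map_div₀] at h
    exact (div_le_one₀ (zero_lt_iff.2 ((Valuation.ne_zero_iff _).2 hz))).1 h
  have hinv : Inv G A (ulimR (fun W : X => W.1) U) := by
    refine ⟨fun a ha => (mem_ulimR _ _ _).2 (Filter.Eventually.of_forall fun W => W.2.1.le a ha),
      fun g hg z => ?_⟩
    by_cases hz : z = 0
    · subst hz
      simp
    · refine le_antisymm (hdiv' g hg z hz) ?_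
      have h := hdiv' g⁻¹ (inv_mem hg) (g z) (by simpa using hz)
      have h2 : g⁻¹ (g z) = z := by
        change g.symm (g z) = z
        simp
      rwa [h2] at h
  have hT : ∀ t ∈ T, t ∈ ulimR (fun W : X => W.1) U := fun t ht =>
    (mem_ulimR _ _ _).2 (Filter.Eventually.of_forall fun W => W.2.2.1 t ht)
  have hT' : ∀ t ∈ T', (ulimR (fun W : X => W.1) U).valuation t < 1 := fun t ht =>
    (lt_ulimR _ _ _).2 (Filter.Eventually.of_forall fun W => W.2.2.2 t ht)
  obtain ⟨hE1, hE2⟩ := hE _ hinv hT hT'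
  have h1 : ∀ᶠ W in (U : Filter X), ∀ e ∈ E (ulimR (fun W : X => W.1) U), e ∈ W.1 := by
    rw [Filter.eventually_all_finset]
    intro e he
    exact hE1 e he
  have h1' : ∀ᶠ W in (U : Filter X), ∀ e ∈ E' (ulimR (fun W : X => W.1) U),
      W.1.valuation e < 1 := by
    rw [Filter.eventually_all_finset]
    intro e he
    exact (lt_ulimR _ _ _).1 (hE2 e he)
  have h2 := hU ⟨_, hinv, hT, hT'⟩
  obtain ⟨W, ⟨hW1, hW1'⟩, hW2⟩ := ((h1.and h1').and h2).exists
  exact hW2 ⟨hW1, hW1'⟩

end Pool.Agent.MP_b525bf_ag_ES
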