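import Pool.Agent.Lib.MP_b525bf_ag_ES.ORD

/-!
# Theorem ES, row SATP
The ideals generated by some of the parameters are prime.
-/

set_option autoImplicit false
set_option linter.unusedVariables false

namespace Pool.Agent.MP_b525bf_ag_ES

open Pool.Agent.LU2 Pool.Agent.MP_b525bf_ag Pool.Agent.MP_b525bf_ag_W Pool.Agent.MP_b525bf_ag_E

variable {k K : Type} [Field k] [Field K] [Algebra k K] {G : Subgroup (K ≃ₐ[k] K)}
  {A : Subalgebra k K} {M : IntermediateField k K} {L : Set K}

variable {V W : ValuationSubring K} {B : Subalgebra k K} {n : ℕ} {x : Fin n → K}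

/-! ### the order -/

private def lexp {n : ℕ} (e : Fin n → ℤ) : Prop := ∃ i, (∀ j, j < i → e j = 0) ∧ 0 < e i

private theorem lexp_add {e f : Fin n → ℤ} (he : lexp e) (hf : lexp f) : lexp (e + f) := by
  obtain ⟨i, hi, hi'⟩ := he
  obtain ⟨l, hl, hl'⟩ := hf
  rcases lt_trichotomy i l with h | h | h
  · exact ⟨i, fun j hj => by rw [Pi.add_apply, hi j hj, hl j (hj.trans h), add_zero],
      by rw [Pi.add_apply, hl i h, add_zero]; exact hi'⟩
  · subst h
    exact ⟨i, fun j hj => by rw [Pi.add_apply, hi j hj, hl j hj, add_zero],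
      by rw [Pi.add_apply]; exact add_pos hi' hl'⟩
  · exact ⟨l, fun j hj => by rw [Pi.add_apply, hi j (hj.trans h), hl j hj, add_zero],
      by rw [Pi.add_apply, hi l h, zero_add]; exact hl'⟩

private theorem lexp_tri (e : Fin n → ℤ) : e = 0 ∨ lexp e ∨ lexp (-e) := by
  classical
  by_cases h : e = 0
  · exact Or.inl h
  right
  have hex : ∃ i, e i ≠ 0 := by
    by_contra hc
    push Not at hc
    exact h (funext hc)
  obtain ⟨i, hi, hmin⟩ := WellFounded.has_min (wellFounded_lt (α := Fin n)) {i | e i ≠ 0} hex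
  have h0 : ∀ j, j < i → e j = 0 := by
    intro j hj
    by_contra hc
    exact hmin j hc hj
  rcases lt_or_gt_of_ne (show e i ≠ 0 from hi) with hneg | hpos
  · exact Or.inr ⟨i, fun j hj => by rw [Pi.neg_apply, h0 j hj, neg_zero], by
      rw [Pi.neg_apply]; omega⟩
  · exact Or.inl ⟨i, h0, hpos⟩

private theorem not_lexp_zero : ¬ lexp (0 : Fin n → ℤ) := by
  rintro ⟨i, _, h⟩
  exact lt_irrefl _ h

private def posJ {n : ℕ} (J : Finset (Fin n)) (e : Fin n → ℤ) : Prop :=
  0 < ∑ j ∈ J, e j ∨ (∑ j ∈ J, e j = 0 ∧ 0 < ∑ i, e i) ∨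
    (∑ j ∈ J, e j = 0 ∧ ∑ i, e i = 0 ∧ lexp e)

private theorem posOrd_posJ (J : Finset (Fin n)) : PosOrd (posJ J) where
  add := by
    intro a b ha hb
    have h1 : ∑ j ∈ J, (a + b) j = ∑ j ∈ J, a j + ∑ j ∈ J, b j := by
      simp [Finset.sum_add_distrib]
    have h2 : ∑ j, (a + b) j = ∑ j, a j + ∑ j, b j := by
      simp [Finset.sum_add_distrib]
    unfold posJ at *
    rw [h1, h2]
    rcases ha with ha | ⟨ha, ha'⟩ | ⟨ha, ha', ha''⟩ <;>
      rcases hb with hb | ⟨hb, hb'⟩ | ⟨hb, hb', hb''⟩
    · left; omega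
    · left; omega
    · left; omega
    · left; omega
    · right; left; constructor <;> omega
    · right; left; constructor <;> omega
    · left; omega
    · right; left; constructor <;> omega
    · right; right; exact ⟨by omega, by omega, lexp_add ha'' hb''⟩
  tri := by
    intro a
    have h1 : ∑ j ∈ J, (-a) j = - ∑ j ∈ J, a j := by simp
    have h2 : ∑ j, (-a) j = - ∑ j, a j := by simp
    unfold posJ
    rw [h1, h2]
    rcases lt_trichotomy (∑ j ∈ J, a j) 0 with h | h | h
    · right; right; left; omega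
    · rcases lt_trichotomy (∑ j, a j) 0 with h' | h' | h'
      · right; right; right; left; constructor <;> omega
      · rcases lexp_tri a with h3 | h3 | h3
        · exact Or.inl h3
        · right; left; right; right; exact ⟨h, h', h3⟩
        · right; right; right; right; exact ⟨by omega, by omega, h3⟩
      · right; left; right; left; exact ⟨h, h'⟩
    · right; left; left; exact h
  irr := by
    rintro (h | ⟨_, h⟩ | ⟨_, _, h⟩)
    · simp at h
    · simp at h
    · exact not_lexp_zero h
  std := by
    intro i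
    have h1 : ∑ j, (Pi.single i (1 : ℤ) : Fin n → ℤ) j = 1 := by
      simp
    have h2 : ∑ j ∈ J, (Pi.single i (1 : ℤ) : Fin n → ℤ) j = if i ∈ J then 1 else 0 := by
      rw [Finset.sum_pi_single']
    unfold posJ
    rw [h1, h2]
    by_cases hi : i ∈ J
    · left; simp [hi]
    · right; left; simp [hi]

/-! ### the ideal -/

private theorem mon_add (hx : ∀ i, x i ≠ 0) (e e' : Fin n → ℤ) :
    mon x (e + e') = mon x e * mon x e' := by
  unfold mon
  rw [← Finset.prod_mul_distrib]
  exact Finset.prod_congr rfl fun i _ => zpow_add₀ (hx i) _ _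

private theorem mon_zero : mon x (0 : Fin n → ℤ) = 1 := by simp [mon]

private theorem mon_single (l : Fin n) : mon x (Pi.single l 1) = x l := by
  classical
  unfold mon
  rw [Finset.prod_eq_single l]
  · simp
  · intro b _ hb; simp [Pi.single_eq_of_ne hb]
  · intro h; exact absurd (Finset.mem_univ l) h

private theorem mon_single' (l : Fin n) : mon x (zx (Pi.single l 1)) = x l := by
  classical
  unfold mon zx
  rw [Finset.prod_eq_single l]
  · simp
  · intro b _ hb; simp [Pi.single_eq_of_ne hb]
  · intro h; exact absurd (Finset.mem_univ l) h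

private theorem single_inj {l l' : Fin n} (h : (Pi.single l 1 : Fin n → ℕ) = Pi.single l' 1) :
    l = l' := by
  by_contra hne
  have := congrFun h l
  rw [Pi.single_eq_same, Pi.single_eq_of_ne hne] at this
  exact one_ne_zero this

/-- membership in the ideal generated by the `x j`, `j ∈ J` -/
private theorem inMon_iff {R : Subalgebra k K} (J : Finset (Fin n)) (f : K) :
    InMon R x (J.image fun j => Pi.single j 1) f ↔
      ∃ a : Fin n → K, (∀ j ∈ J, a j ∈ R) ∧ f = ∑ j ∈ J, a j * x j := by
  classical
  constructor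
  · rintro ⟨c, hc, rfl⟩
    refine ⟨fun j => c (Pi.single j 1), fun j hj => hc _ (Finset.mem_image_of_mem _ hj), ?_⟩
    rw [Finset.sum_image (fun a _ b _ hab => single_inj hab)]
    exact Finset.sum_congr rfl fun j _ => by rw [mon_single']
  · rintro ⟨a, ha, rfl⟩
    refine ⟨fun α => if h : ∃ j ∈ J, α = Pi.single j 1 then a h.choose else 0, ?_, ?_⟩
    · intro α hα
      have h : ∃ j ∈ J, α = Pi.single j 1 := by
        obtain ⟨j, hj, e⟩ := Finset.mem_image.1 hα
        exact ⟨j, hj, e.symm⟩
      beta_reduce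
      rw [dif_pos h]
      exact ha _ h.choose_spec.1
    · rw [Finset.sum_image (fun a _ b _ hab => single_inj hab)]
      refine Finset.sum_congr rfl fun j hj => ?_
      have h : ∃ j' ∈ J, (Pi.single j 1 : Fin n → ℕ) = Pi.single j' 1 := ⟨j, hj, rfl⟩
      beta_reduce
      rw [dif_pos h, mon_single', ← single_inj h.choose_spec.2]

private theorem inJ_zero {R : Subalgebra k K} (J : Finset (Fin n)) :
    InMon R x (J.image fun j => Pi.single j 1) 0 :=
  (inMon_iff J 0).2 ⟨fun _ => 0, fun _ _ => R.zero_mem, by simp⟩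

private theorem inJ_add {R : Subalgebra k K} (J : Finset (Fin n)) {f g : K}
    (hf : InMon R x (J.image fun j => Pi.single j 1) f)
    (hg : InMon R x (J.image fun j => Pi.single j 1) g) :
    InMon R x (J.image fun j => Pi.single j 1) (f + g) := by
  obtain ⟨a, ha, rfl⟩ := (inMon_iff J f).1 hf
  obtain ⟨b, hb, rfl⟩ := (inMon_iff J g).1 hg
  refine (inMon_iff J _).2 ⟨fun j => a j + b j, fun j hj => R.add_mem (ha j hj) (hb j hj), ?_⟩
  rw [← Finset.sum_add_distrib]
  exact Finset.sum_congr rfl fun j _ => by ring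

private theorem inJ_mono {R : Subalgebra k K} (hxR : ∀ i, x i ∈ R) (hx : ∀ i, x i ≠ 0)
    (J : Finset (Fin n)) {c : K} (hc : c ∈ R) {α : Fin n → ℕ} {j : Fin n} (hj : j ∈ J)
    (hα : α j ≠ 0) : InMon R x (J.image fun j => Pi.single j 1) (c * mon x (zx α)) := by
  classical
  refine (inMon_iff J _).2 ⟨fun i => if i = j then c * mon x (zx (α - Pi.single j 1)) else 0, ?_, ?_⟩
  · intro i _
    beta_reduce
    by_cases h : i = j
    · rw [if_pos h]
      refine R.mul_mem hc ?_
      unfold mon zx
      refine R.prod_mem fun i _ => ?_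
      rw [zpow_natCast]
      exact R.pow_mem (hxR i) _
    · rw [if_neg h]; exact R.zero_mem
  · rw [Finset.sum_eq_single j]
    · beta_reduce
      rw [if_pos rfl, mul_assoc]
      congr 1
      have e : zx α = zx (α - Pi.single j 1) + Pi.single j 1 := by
        funext i
        unfold zx
        by_cases h : i = j
        · subst h
          simp only [Pi.sub_apply, Pi.add_apply, Pi.single_eq_same]
          omega
        · simp [Pi.single_eq_of_ne h]
      rw [e, mon_add hx, mon_single]
    · intro b _ hb; beta_reduce; rw [if_neg hb, zero_mul]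
    · intro h; exact absurd hj h

theorem prime_J (h : Hyp G A) (hV : Inv G A V) (hc : ChartAt G A V B x) (J : Finset (Fin n)) :
    (∀ a ∈ locV V B, ∀ b ∈ locV V B,
      InMon (locV V B) x (J.image fun j => Pi.single j 1) (a * b) →
      InMon (locV V B) x (J.image fun j => Pi.single j 1) a ∨
        InMon (locV V B) x (J.image fun j => Pi.single j 1) b) ∧
    (∀ l, l ∉ J → ¬ InMon (locV V B) x (J.image fun j => Pi.single j 1) (x l)) ∧
    ¬ InMon (locV V B) x (J.image fun j => Pi.single j 1) 1 := by
  classical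
  obtain ⟨W, hW, hRW, hpos⟩ := exists_ord h hV hc (posOrd_posJ J)
  have hx : ∀ i, x i ≠ 0 := hc.ne
  have hxR : ∀ i, x i ∈ locV V B := by
    obtain ⟨hxB, -⟩ := hc.sm
    exact fun i => le_locV B (hxB i)
  have mon_ne : ∀ e : Fin n → ℤ, mon x e ≠ 0 := fun e =>
    Finset.prod_ne_zero_iff.2 fun i _ => zpow_ne_zero _ (hx i)
  -- comparison of monomials
  have hcmp : ∀ e f : Fin n → ℤ, posJ J (e - f) → W.valuation (mon x e) < W.valuation (mon x f) := by
    intro e f hef
    have h1 := hpos _ hef
    have h2 : mon x e = mon x (e - f) * mon x f := by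
      rw [← mon_add hx, sub_add_cancel]
    rw [h2, map_mul]
    have h3 : 0 < W.valuation (mon x f) := zero_lt_iff.2 ((Valuation.ne_zero_iff _).2 (mon_ne f))
    calc W.valuation (mon x (e - f)) * W.valuation (mon x f) < 1 * W.valuation (mon x f) :=
          mul_lt_mul_of_pos_right h1 h3
      _ = _ := one_mul _
  -- elements of the ideal have small value
  have key : ∀ f : K, InMon (locV V B) x (J.image fun j => Pi.single j 1) f →
      ∀ e : Fin n → ℤ, ∑ j ∈ J, e j = 0 → W.valuation f < W.valuation (mon x e) := by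
    intro f hf e he
    obtain ⟨a, ha, rfl⟩ := (inMon_iff J f).1 hf
    refine Valuation.map_sum_lt _ ((Valuation.ne_zero_iff _).2 (mon_ne e)) fun j hj => ?_
    have h1 : W.valuation (a j) ≤ 1 := (W.valuation_le_one_iff _).2 (hRW _ (ha j hj))
    have h2 : W.valuation (mon x (Pi.single j 1)) < W.valuation (mon x e) := by
      apply hcmp
      left
      simp only [Pi.sub_apply]
      rw [Finset.sum_sub_distrib, he, Finset.sum_pi_single', if_pos hj]
      norm_num
    rw [mon_single] at h2
    rw [map_mul]
    calc W.valuation (a j) * W.valuation (x j) ≤ 1 * W.valuation (x j) :=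
          mul_le_mul_left h1 _
      _ = W.valuation (x j) := one_mul _
      _ < _ := h2
  -- leading terms
  have lead : ∀ a ∈ locV V B, ¬ InMon (locV V B) x (J.image fun j => Pi.single j 1) a →
      ∃ e : Fin n → ℤ, ∑ j ∈ J, e j = 0 ∧ W.valuation a = W.valuation (mon x e) := by
    intro a ha hna
    have ha0 : a ≠ 0 := by
      rintro rfl
      exact hna (inJ_zero J)
    obtain ⟨S, c, hr⟩ := hc.toLoc.exists_rep ha ha0
    obtain ⟨α, hα, hmin, hval⟩ := lead_mon hx hRW (posOrd_posJ J) hpos hr
    refine ⟨zx α, ?_, hval⟩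
    obtain ⟨α', hα', h0⟩ : ∃ α' ∈ S, ∀ j ∈ J, α' j = 0 := by
      by_contra hcon
      push Not at hcon
      apply hna
      rw [hr.sum]
      have : ∀ T ⊆ S, InMon (locV V B) x (J.image fun j => Pi.single j 1)
          (∑ α ∈ T, c α * mon x (zx α)) := by
        intro T
        induction T using Finset.induction_on with
        | empty => intro _; rw [Finset.sum_empty]; exact inJ_zero J
        | insert α T hαT ih =>
          intro hT
          rw [Finset.sum_insert hαT]
          obtain ⟨j, hj, hj0⟩ := hcon α (hT (Finset.mem_insert_self _ _))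
          exact inJ_add J (inJ_mono hxR hx J (hr.mem α (hT (Finset.mem_insert_self _ _))) hj hj0)
            (ih fun β hβ => hT (Finset.mem_insert_of_mem hβ))
      exact this S (Finset.Subset.refl S)
    have hsum0 : ∑ j ∈ J, zx α' j = 0 := Finset.sum_eq_zero fun j hj => by
      unfold zx; rw [h0 j hj]; rfl
    have hnn : 0 ≤ ∑ j ∈ J, zx α j := Finset.sum_nonneg fun j _ => by
      unfold zx; positivity
    by_cases hαα : α' = α
    · rw [← hαα]; exact hsum0
    · have hp := hmin α' hα' hαα
      have e1 : ∑ j ∈ J, (zx α' - zx α) j = - ∑ j ∈ J, zx α j := by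
        simp only [Pi.sub_apply]
        rw [Finset.sum_sub_distrib, hsum0, zero_sub]
      rcases hp with hp | ⟨hp, _⟩ | ⟨hp, _, _⟩ <;> rw [e1] at hp <;> omega
  refine ⟨?_, ?_, ?_⟩
  · intro a ha b hb hab
    by_contra hcon
    push Not at hcon
    obtain ⟨e, he, hva⟩ := lead a ha hcon.1
    obtain ⟨f, hf, hvb⟩ := lead b hb hcon.2
    have h1 := key _ hab (e + f) (by
      simp only [Pi.add_apply]
      rw [Finset.sum_add_distrib, he, hf, add_zero])
    rw [map_mul, hva, hvb, ← map_mul, ← mon_add hx] at h1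
    exact lt_irrefl _ h1
  · intro l hl hin
    have h1 := key _ hin (Pi.single l 1) (by
      rw [Finset.sum_pi_single', if_neg hl])
    rw [mon_single] at h1
    exact lt_irrefl _ h1
  · intro hin
    have h1 := key _ hin 0 (by simp)
    rw [mon_zero] at h1
    exact lt_irrefl _ h1

end Pool.Agent.MP_b525bf_ag_ES
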