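import Pool.Agent.Lib.MP_b525bf_ag_E.StmtDefs

/-!
# Resolution for group actions of complexity at most one: the definitions used in the statement
-/

set_option autoImplicit false

namespace Pool.Agent.MP_b525bf_ag_ES

open Pool.Agent.LU2 Pool.Agent.MP_b525bf_ag_E

section Defs

variable {k A : Type} [Field k] [CommRing A] [IsDomain A] [Algebra k A]

/-- The elements of the field of fractions of `A` that are fixed by the group `B` of automorphisms
of `A`. -/
noncomputable def invField (B : Subgroup (A ≃ₐ[k] A)) : IntermediateField k (FractionRing A) :=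
  IntermediateField.fixedField (B.map (IsFractionRing.fieldEquivOfAlgEquivHom k (FractionRing A)))

/-- `f` is a nonzero element of the field of fractions of `A` that is multiplied by an element of `k`
by every element of `B`. -/
def IsEigen (B : Subgroup (A ≃ₐ[k] A)) (f : FractionRing A) : Prop :=
  f ≠ 0 ∧ ∀ g ∈ B, ∃ c : k,
    IsFractionRing.fieldEquivOfAlgEquiv k (FractionRing A) (FractionRing A) g f = c • f

/-- Complexity at most one: (1) the field of `B`-invariants has transcendence degree at most one
over `k`; (2) the group of the `B`-eigenvectors is finitely generated modulo the nonzero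
`B`-invariants; (3) for every nonzero `a` in `A` and every `G`-invariant valuation there is a
`B`-eigenvector in a power `(G a) ^ q`, `q > 0`, of the ideal generated by the orbit of `a`, with the
valuation of `a ^ q`. -/
structure ComplexityLeOne (G B : Subgroup (A ≃ₐ[k] A)) : Prop where
  trdeg : Algebra.trdeg k (invField B) ≤ 1
  fg : ∃ (r : ℕ) (t : Fin r → FractionRing A), (∀ i, IsEigen B (t i)) ∧
    ∀ f, IsEigen B f → ∃ m ∈ invField B, ∃ e : Fin r → ℤ, f = m * ∏ i, t i ^ e i
  app : ∀ a : A, a ≠ 0 → ∀ V : ValuationSubring (FractionRing A), IsInvariant G V →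
    ∃ q : ℕ, 0 < q ∧ ∃ l ∈ Ideal.span {b : A | ∃ g ∈ G, b = g a} ^ q,
      IsEigen B (algebraMap A (FractionRing A) l) ∧
        V.valuation (algebraMap A (FractionRing A) l) =
          V.valuation (algebraMap A (FractionRing A) (a ^ q))

end Defs

end Pool.Agent.MP_b525bf_ag_ES
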